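import Pool.Agent.SFG.StR

set_option autoImplicit false

namespace Pool.Agent.SFG

open Pool.Agent.CPD Pool.Agent.SPD

theorem AIB : St_AIB := by
  intro A _ L E F g hE hF
  refine ⟨⟨?_, ?_⟩, ⟨?_, ?_⟩, ⟨?_, ?_⟩, ⟨?_, ?_⟩, ⟨?_, ?_⟩⟩
  · intro a ha
    refine (hE.fin a ha).subset ?_
    rintro x ⟨hx, h⟩
    refine ⟨hx, fun h2 => h ?_⟩
    rw [Set.mem_compl_iff, Set.mem_compl_iff, not_iff_not]
    exact h2
  · intro l hl x hx
    rw [Set.mem_compl_iff, Set.mem_compl_iff, not_iff_not]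
    exact hE.inv l hl x hx
  · intro a ha
    refine ((hE.fin a ha).union (hF.fin a ha)).subset ?_
    rintro x ⟨hx, h⟩
    by_contra h2
    rw [Set.mem_union, not_or] at h2
    have h3 : (a * x ∈ E ↔ x ∈ E) := by
      by_contra h4
      exact h2.1 ⟨hx, h4⟩
    have h5 : (a * x ∈ F ↔ x ∈ F) := by
      by_contra h4
      exact h2.2 ⟨hx, h4⟩
    exact h (and_congr h3 h5)
  · intro l hl x hx
    exact and_congr (hE.inv l hl x hx) (hF.inv l hl x hx)
  · intro a ha
    refine ((hE.fin a ha).union (hF.fin a ha)).subset ?_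
    rintro x ⟨hx, h⟩
    by_contra h2
    rw [Set.mem_union, not_or] at h2
    have h3 : (a * x ∈ E ↔ x ∈ E) := by
      by_contra h4
      exact h2.1 ⟨hx, h4⟩
    have h5 : (a * x ∈ F ↔ x ∈ F) := by
      by_contra h4
      exact h2.2 ⟨hx, h4⟩
    exact h (or_congr h3 h5)
  · intro l hl x hx
    exact or_congr (hE.inv l hl x hx) (hF.inv l hl x hx)
  · intro a ha
    refine ((hE.fin a ha).union (hF.fin a ha)).subset ?_
    rintro x ⟨hx, h⟩
    by_contra h2
    rw [Set.mem_union, not_or] at h2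
    have h3 : (a * x ∈ E ↔ x ∈ E) := by
      by_contra h4
      exact h2.1 ⟨hx, h4⟩
    have h5 : (a * x ∈ F ↔ x ∈ F) := by
      by_contra h4
      exact h2.2 ⟨hx, h4⟩
    exact h (and_congr h3 (not_congr h5))
  · intro l hl x hx
    exact and_congr (hE.inv l hl x hx) (not_congr (hF.inv l hl x hx))
  · intro a ha
    have h1 : Function.Injective (fun x : A => x * g⁻¹) := fun x y h => mul_right_cancel h
    refine ((hE.fin a ha).preimage h1.injOn).subset ?_
    rintro x ⟨-, h⟩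
    refine ⟨Subgroup.mem_top _, fun h2 => h ?_⟩
    show a * x * g⁻¹ ∈ E ↔ x * g⁻¹ ∈ E
    rw [mul_assoc]
    exact h2
  · intro l hl x _
    show l * x * g⁻¹ ∈ E ↔ x * g⁻¹ ∈ E
    rw [mul_assoc]
    exact hE.inv l hl _ (Subgroup.mem_top _)

end Pool.Agent.SFG
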