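import Pool.Agent.SFG.StR

/-!
# SFG, module C1a: ping-pong, the two ends of the edge in the same orbit
-/

set_option autoImplicit false

namespace Pool.Agent.SFG

private theorem C1a_mem {A : Type} [Group A] (E : Set A) (g x : A) :
    x ∈ rt E g ↔ x * g⁻¹ ∈ E := Iff.rfl

private theorem C1a_mul {A : Type} [Group A] (E : Set A) (g x : A) :
    x * g ∈ rt E g ↔ x ∈ E := by
  rw [C1a_mem, mul_inv_cancel_right]

private theorem C1a_rt {A : Type} [Group A] (E : Set A) (g h : A) :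
    rt (rt E g) h = rt E (g * h) := by
  ext x
  rw [C1a_mem, C1a_mem, C1a_mem, mul_inv_rev, mul_assoc]

private theorem C1a_one {A : Type} [Group A] (E : Set A) : rt E 1 = E := by
  ext x
  rw [C1a_mem, inv_one, mul_one]

private theorem C1a_compl {A : Type} [Group A] (E : Set A) (g : A) : rt Eᶜ g = (rt E g)ᶜ := rfl

/-- **C1a** -/
theorem C1a (hVT : St_VT) : St_C1a := by
  intro A _ 𝓔 E t hTS hE ht
  obtain ⟨v1, -, v3, v4, -, -, -, v8, v9, -, -, -⟩ := hVT A 𝓔 hTS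
  have hE1 : E ∈ 𝓔 := hE.1.1
  have h1E : (1 : A) ∈ E := hE.1.2
  have e1 : vt (pt 𝓔 1) t = pt 𝓔 t := by rw [v4, one_mul]
  have hEt : MinV (pt 𝓔 t) (rt E t) := by
    rw [← e1]
    exact v3 _ t E hE
  have hEc : MinV (pt 𝓔 t) Eᶜ := by
    rw [ht]
    exact (v9 _ E (v1 1) hE).2.1
  have hsub := v8 (pt 𝓔 t) (rt E t) Eᶜ (v1 t) hEt hEc (hTS.noinv E hE1 t)
  have s1 : ∀ x, x ∈ E → x * t⁻¹ ∈ E := by
    intro x hx
    by_contra hc
    exact hsub hc hx
  have s2 : ∀ x, x ∉ E → x * t ∉ E := by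
    intro x hx hc
    apply hx
    have h := s1 _ hc
    rwa [mul_inv_cancel_right] at h
  have hY : ∀ x, x ∉ Eᶜ ∪ rt E t⁻¹ ↔ x ∈ E ∧ x * t ∉ E := by
    intro x
    rw [Set.mem_union, not_or, Set.mem_compl_iff, not_not, C1a_mem, inv_inv]
  refine ⟨?_, ?_, ?_⟩
  · intro n hn x hx
    rw [hY] at hx
    obtain ⟨hx1, hx2⟩ := hx
    constructor
    · refine Or.inl ?_
      show x * t ^ n ∉ E
      induction n, hn using Nat.le_induction with
      | base => rwa [pow_one]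
      | succ n _ ih =>
        rw [pow_succ, ← mul_assoc]
        exact s2 _ ih
    · refine Or.inr ?_
      rw [C1a_mem, inv_inv]
      induction n, hn using Nat.le_induction with
      | base => rwa [pow_one, inv_mul_cancel_right]
      | succ n _ ih =>
        have h := s1 _ ih
        rw [mul_inv_cancel_right] at h
        rwa [pow_succ, ← mul_assoc, inv_mul_cancel_right]
  · intro a ha ha1 x hx
    have e2 : vt (pt 𝓔 1) a = pt 𝓔 1 := by rw [v4, one_mul, ha]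
    have e3 : vt (pt 𝓔 t) t⁻¹ = pt 𝓔 1 := by rw [v4, mul_inv_cancel]
    have hEa : MinV (pt 𝓔 1) (rt E a) := by
      have h := v3 _ a E hE
      rwa [e2] at h
    have hF : MinV (pt 𝓔 1) (rt Eᶜ t⁻¹) := by
      have h := v3 _ t⁻¹ Eᶜ hEc
      rwa [e3] at h
    have hFa : MinV (pt 𝓔 1) (rt (rt Eᶜ t⁻¹) a) := by
      have h := v3 _ a _ hF
      rwa [e2] at h
    have n1 : rt E a ≠ E := fun h => ha1 (hTS.free E hE1 a h)
    have n2 : rt E a ≠ rt Eᶜ t⁻¹ := by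
      intro h
      have h2 : rt (rt E a) t = rt (rt Eᶜ t⁻¹) t := by rw [h]
      rw [C1a_rt, C1a_rt, inv_mul_cancel, C1a_one] at h2
      exact hTS.noinv E hE1 _ h2
    have n3 : rt (rt Eᶜ t⁻¹) a ≠ E := by
      intro h
      rw [C1a_rt, C1a_compl] at h
      exact hTS.noinv E hE1 _ (compl_eq_comm.1 h).symm
    have n4 : rt (rt Eᶜ t⁻¹) a ≠ rt Eᶜ t⁻¹ := fun h => ha1 (hTS.free _ hF.1.1 a h)
    have i1 := v8 _ _ _ (v1 1) hEa hE n1
    have i2 := v8 _ _ _ (v1 1) hEa hF n2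
    have i3 := v8 _ _ _ (v1 1) hFa hE n3
    have i4 := v8 _ _ _ (v1 1) hFa hF n4
    have hor : x ∉ E ∨ x ∉ rt Eᶜ t⁻¹ := by
      rcases hx with h | h
      · exact Or.inl h
      · exact Or.inr fun h' => h' h
    have hin : x * a ∈ E ∧ x * a ∈ rt Eᶜ t⁻¹ := by
      rcases hor with h | h
      · have h2 : x * a ∈ (rt E a)ᶜ := fun h3 => h ((C1a_mul E a x).1 h3)
        exact ⟨i1 h2, i2 h2⟩
      · have h2 : x * a ∈ (rt (rt Eᶜ t⁻¹) a)ᶜ := fun h3 => h ((C1a_mul _ a x).1 h3)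
        exact ⟨i3 h2, i4 h2⟩
    rintro (h | h)
    · exact h hin.1
    · exact hin.2 h
  · rw [hY]
    refine ⟨h1E, ?_⟩
    rw [one_mul]
    intro htE
    have h : E ∈ pt 𝓔 t := ⟨hE1, htE⟩
    rw [ht] at h
    rcases h with h | h
    · exact h.2 rfl
    · have h2 : (1 : A) ∈ Eᶜ := h ▸ h1E
      exact h2 h1E

end Pool.Agent.SFG
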