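import Pool.Agent.SFG.StR

/-!
# SFG, module C1b: generation, one orbit of vertices (helper77)
-/

set_option autoImplicit false

namespace Pool.Agent.SFG

open Pool.Agent.CPD Pool.Agent.SPD

private theorem C1b_card {A : Type} [Group A] {𝓔 : Set (Set A)} (hT : TS 𝓔) (x y h : A) :
    (pt 𝓔 (x * h) \ pt 𝓔 (y * h)).ncard = (pt 𝓔 x \ pt 𝓔 y).ncard := by
  symm
  refine Set.ncard_congr (fun F _ => rt F h) ?_ ?_ ?_
  · rintro F ⟨⟨hF, hx⟩, hy⟩
    have h1 : rt F h ∈ 𝓔 := hT.tr F hF h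
    refine ⟨⟨h1, ?_⟩, fun hc => hy ⟨hF, ?_⟩⟩
    · show x * h * h⁻¹ ∈ F
      rw [mul_inv_cancel_right]
      exact hx
    · have h2 : y * h * h⁻¹ ∈ F := hc.2
      rwa [mul_inv_cancel_right] at h2
  · intro F F' _ _ hFF
    ext z
    have h1 : z * h ∈ rt F h ↔ z * h ∈ rt F' h := by
      have h2 : rt F h = rt F' h := hFF
      rw [h2]
    have h3 : z * h * h⁻¹ ∈ F ↔ z * h * h⁻¹ ∈ F' := h1
    rwa [mul_inv_cancel_right] at h3
  · rintro F ⟨⟨hF, hx⟩, hy⟩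
    have h1 : rt F h⁻¹ ∈ 𝓔 := hT.tr F hF h⁻¹
    have h4 : ∀ z, z ∈ rt F h⁻¹ ↔ z * h ∈ F := by
      intro z
      show z * h⁻¹⁻¹ ∈ F ↔ z * h ∈ F
      rw [inv_inv]
    refine ⟨rt F h⁻¹, ⟨⟨h1, (h4 x).2 hx⟩, fun hc => hy ⟨hF, (h4 y).1 hc.2⟩⟩, ?_⟩
    ext z
    show z * h⁻¹ ∈ rt F h⁻¹ ↔ z ∈ F
    rw [h4, inv_mul_cancel_right]

theorem C1b (hVT : St_VT) : St_C1b := by
  intro A _ 𝓔 E A1 t hT hE ht hA1
  obtain ⟨v1, -, v3, v4, -, -, v7, -, v9, v10, v11, v12⟩ := hVT A 𝓔 hT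
  rw [eq_top_iff]
  have hmain : ∀ n : ℕ, ∀ g : A, (pt 𝓔 1 \ pt 𝓔 g).ncard = n → g ∈ A1 ⊔ Subgroup.zpowers t := by
    intro n
    induction n using Nat.strong_induction_on with
    | _ n ih =>
      intro g hg
      have htH : t ∈ A1 ⊔ Subgroup.zpowers t :=
        (le_sup_right : Subgroup.zpowers t ≤ _) (Subgroup.mem_zpowers t)
      have hA : ∀ a ∈ A1, a ∈ A1 ⊔ Subgroup.zpowers t := fun a ha =>
        (le_sup_left : A1 ≤ _) ha
      by_cases h1 : pt 𝓔 1 = pt 𝓔 g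
      · exact hA g ((hA1 g).2 h1.symm)
      obtain ⟨F, hF, hgF, hflip⟩ := v11 (pt 𝓔 1) (pt 𝓔 g) (v1 1) (v1 g) h1 (v12 1 g)
      -- it is enough to find the neighbour
      have key : ∀ x ∈ A1 ⊔ Subgroup.zpowers t, pt 𝓔 x = flip (pt 𝓔 1) F →
          g ∈ A1 ⊔ Subgroup.zpowers t := by
        intro x hx hxF
        have h2 : (pt 𝓔 x \ pt 𝓔 g).ncard < n := by
          rw [hxF, hflip, ← hg]
          exact Set.ncard_sdiff_singleton_lt_of_mem ⟨hF.1, hgF⟩ (v12 1 g)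
        have h3 : (pt 𝓔 1 \ pt 𝓔 (g * x⁻¹)).ncard = (pt 𝓔 x \ pt 𝓔 g).ncard := by
          have h4 := C1b_card hT 1 (g * x⁻¹) x
          rw [one_mul, inv_mul_cancel_right] at h4
          exact h4.symm
        have h5 := ih _ h2 (g * x⁻¹) h3
        have h6 := mul_mem h5 hx
        rwa [inv_mul_cancel_right] at h6
      have hEE : E ∈ 𝓔 := hE.1.1
      have hFE : F ∈ 𝓔 := hF.1.1
      obtain ⟨w1, w2, w3⟩ := v9 (pt 𝓔 1) E (v1 1) hE
      have h7 : ∀ c, vt (pt 𝓔 1) c = pt 𝓔 c := by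
        intro c
        rw [v4, one_mul]
      obtain ⟨c, hc | hc⟩ := hT.one E hEE F hFE
      · have h8 : MinV (pt 𝓔 c) F := by
          rw [hc, ← h7 c]
          exact v3 _ c _ hE
        have h9 : pt 𝓔 c = pt 𝓔 1 := v7 _ _ F (v1 c) (v1 1) h8 hF
        have hcA : c ∈ A1 := (hA1 c).2 h9
        refine key (t * c) (mul_mem htH (hA c hcA)) ?_
        rw [← v4, ht, v10, h7, h9, ← hc]
      · have hc' : F = rt Eᶜ c := hc
        have h8 : MinV (pt 𝓔 (t * c)) F := by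
          rw [← v4, ht, hc']
          exact v3 _ c _ w2
        have h9 : pt 𝓔 (t * c) = pt 𝓔 1 := v7 _ _ F (v1 _) (v1 1) h8 hF
        have hcA : t * c ∈ A1 := (hA1 _).2 h9
        have hcH : c ∈ A1 ⊔ Subgroup.zpowers t := by
          have h10 := mul_mem (inv_mem htH) (hA _ hcA)
          rwa [inv_mul_cancel_left] at h10
        refine key c hcH ?_
        rw [← h7 c, ← w3, v10, ← hc']
        congr 1
        rw [← ht, v4, h9, ht, w3]
  intro g _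
  exact hmain _ g rfl

end Pool.Agent.SFG

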