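import Pool.Agent.SFG.StR

/-!
# Ping-pong for the two ends of an edge in different orbits
-/

set_option autoImplicit false

namespace Pool.Agent.SFG

open Pool.Agent.CPD Pool.Agent.SPD

theorem C2a (hVT : St_VT) : St_C2a := by
  intro A _ 𝓔 E hT hE
  obtain ⟨h1, h2, h3, h4, -, -, -, h8, h9, -, -, -⟩ := hVT A 𝓔 hT
  have hE𝓔 : E ∈ 𝓔 := hE.1.1
  constructor
  · intro a ha ha1 x hx
    have e1 : vt (pt 𝓔 1) a = pt 𝓔 1 := by
      rw [h4, one_mul, ha]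
    have m1 : MinV (pt 𝓔 1) (rt E a) := by
      have := h3 (pt 𝓔 1) a E hE
      rwa [e1] at this
    have hne : rt E a ≠ E := fun h => ha1 (hT.free E hE𝓔 a h)
    have hs := h8 (pt 𝓔 1) (rt E a) E (h1 1) m1 hE hne
    apply hs
    intro hc
    have hc' : x * a * a⁻¹ ∈ E := hc
    rw [mul_inv_cancel_right] at hc'
    exact hx hc'
  · intro k hk hk1 x hx
    obtain ⟨u1, u2, -⟩ := h9 (pt 𝓔 1) E (h1 1) hE
    have m1 : MinV (flip (pt 𝓔 1) E) (rt Eᶜ k) := by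
      have := h3 (flip (pt 𝓔 1) E) k Eᶜ u2
      rwa [hk] at this
    have hne : rt Eᶜ k ≠ Eᶜ := fun h => hk1 (hT.free Eᶜ (hT.compl E hE𝓔) k h)
    have hs := h8 (flip (pt 𝓔 1) E) (rt Eᶜ k) Eᶜ u1 m1 u2 hne
    apply hs
    intro hc
    have hc' : x * k * k⁻¹ ∈ Eᶜ := hc
    rw [mul_inv_cancel_right] at hc'
    exact hc' hx

end Pool.Agent.SFG
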