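import Pool.Agent.SFG.StR

/-!
# SFG, module C2b: generation, two orbits of vertices
-/

set_option autoImplicit false

namespace Pool.Agent.SFG

open Pool.Agent.CPD Pool.Agent.SPD

private theorem C2b_rt_rt {A : Type} [Group A] (F : Set A) (g h : A) :
    rt (rt F g) h = rt F (g * h) := by
  ext x
  show x * h⁻¹ * g⁻¹ ∈ F ↔ x * (g * h)⁻¹ ∈ F
  rw [mul_inv_rev, mul_assoc]

private theorem C2b_rt_one {A : Type} [Group A] (F : Set A) : rt F 1 = F := by
  ext x
  show x * (1 : A)⁻¹ ∈ F ↔ x ∈ F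
  rw [inv_one, mul_one]

private theorem C2b_rt_compl {A : Type} [Group A] (F : Set A) (g : A) :
    (rt F g)ᶜ = rt Fᶜ g := rfl

/-- distances of points are invariant under right translation -/
private theorem C2b_dist {A : Type} [Group A] {𝓔 : Set (Set A)}
    (hT : ∀ x g, vt (pt 𝓔 x) g = pt 𝓔 (x * g)) (x y h : A) :
    (pt 𝓔 (x * h) \ pt 𝓔 (y * h)).ncard = (pt 𝓔 x \ pt 𝓔 y).ncard := by
  have e : pt 𝓔 (x * h) \ pt 𝓔 (y * h) = (fun F => rt F h) '' (pt 𝓔 x \ pt 𝓔 y) := by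
    rw [← hT, ← hT]
    ext F
    constructor
    · rintro ⟨h1, h2⟩
      refine ⟨rt F h⁻¹, ⟨h1, h2⟩, ?_⟩
      show rt (rt F h⁻¹) h = F
      rw [C2b_rt_rt, inv_mul_cancel, C2b_rt_one]
    · rintro ⟨F', ⟨h1, h2⟩, rfl⟩
      have e1 : rt (rt F' h) h⁻¹ = F' := by
        rw [C2b_rt_rt, mul_inv_cancel, C2b_rt_one]
      refine ⟨?_, ?_⟩
      · show rt (rt F' h) h⁻¹ ∈ pt 𝓔 x
        rw [e1]
        exact h1
      · intro h3
        have h4 : rt (rt F' h) h⁻¹ ∈ pt 𝓔 y := h3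
        rw [e1] at h4
        exact h2 h4
  rw [e]
  refine Set.ncard_image_of_injective _ ?_
  intro F F' hFF
  have h5 : rt (rt F h) h⁻¹ = rt (rt F' h) h⁻¹ := by
    show rt ((fun F => rt F h) F) h⁻¹ = rt ((fun F => rt F h) F') h⁻¹
    rw [hFF]
  rw [C2b_rt_rt, C2b_rt_rt, mul_inv_cancel, C2b_rt_one, C2b_rt_one] at h5
  exact h5

theorem C2b (hVT : St_VT) : St_C2b := by
  intro A _ 𝓔 E A1 K hTS hE hne hA1 hK
  obtain ⟨v1, v2, v2b, v2c, v2d, v2e, v3, -, v5, v5b, v6, v7⟩ := hVT A 𝓔 hTS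
  have hEE : E ∈ 𝓔 := hE.1.1
  obtain ⟨hu1, hu2, hu3⟩ := v5 (pt 𝓔 1) E (v1 1) hE
  have key : ∀ n : ℕ, ∀ g : A, (pt 𝓔 1 \ pt 𝓔 g).ncard = n → g ∈ A1 ⊔ K := by
    intro n
    induction n using Nat.strong_induction_on with
    | _ n ih =>
      intro g hg
      by_cases h1 : pt 𝓔 1 = pt 𝓔 g
      · exact Subgroup.mem_sup_left ((hA1 g).2 h1.symm)
      · obtain ⟨F, hF1, hF2, -⟩ := v6 (pt 𝓔 1) (pt 𝓔 g) (v1 1) (v1 g) h1 (v7 1 g)
        have hFE : F ∈ 𝓔 := hF1.1.1
        obtain ⟨c, hc | hc⟩ := hTS.one E hEE F hFE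
        · -- `F = rt E c`
          have hc1 : pt 𝓔 c = pt 𝓔 1 := by
            have h2 := v2b (pt 𝓔 1) c E hE
            rw [v2c, one_mul, ← hc] at h2
            exact v3 _ _ F (v1 c) (v1 1) h2 hF1
          have hcA : c ∈ A1 := (hA1 c).2 hc1
          have hg1 : g * c⁻¹ ∉ E := by
            intro h2
            apply hF2
            refine ⟨hFE, ?_⟩
            rw [hc]
            exact h2
          have hd1 : (pt 𝓔 1 \ pt 𝓔 (g * c⁻¹)).ncard = n := by
            have h2 := C2b_dist v2c c g c⁻¹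
            rw [mul_inv_cancel, hc1] at h2
            rw [h2, hg]
          obtain ⟨g', hg'⟩ : ∃ g' : A, g' = g * c⁻¹ := ⟨_, rfl⟩
          rw [← hg'] at hg1 hd1
          have hEc : Eᶜ ∈ pt 𝓔 g' := ⟨hTS.compl E hEE, hg1⟩
          have hsub : flip (pt 𝓔 1) E \ pt 𝓔 g' ⊆ (pt 𝓔 1 \ pt 𝓔 g') \ {E} := by
            rintro F' ⟨h2 | h2, h3⟩
            · exact ⟨⟨h2.1, h3⟩, h2.2⟩
            · rw [h2] at h3
              exact absurd hEc h3
          have hfin : (flip (pt 𝓔 1) E \ pt 𝓔 g').Finite :=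
            ((v7 1 g').subset Set.sdiff_subset).subset hsub
          obtain ⟨F', hF'1, hF'2, hF'3⟩ := v6 (flip (pt 𝓔 1) E) (pt 𝓔 g') hu1 (v1 g')
            (fun h2 => hne g' h2.symm) hfin
          have hF'E : F' ∈ 𝓔 := hu1.sub hF'1.1
          obtain ⟨κ, hκ | hκ⟩ := hTS.one E hEE F' hF'E
          · exfalso
            have h2 := v2b (pt 𝓔 1) κ E hE
            rw [v2c, one_mul, ← hκ] at h2
            exact hne κ (v3 _ _ F' (v1 κ) hu1 h2 hF'1)
          · rw [C2b_rt_compl] at hκ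
            have h2 := v2b (flip (pt 𝓔 1) E) κ Eᶜ hu2
            rw [← hκ] at h2
            have h3 : vt (flip (pt 𝓔 1) E) κ = flip (pt 𝓔 1) E :=
              v3 _ _ F' (v2 _ κ hu1) hu1 h2 hF'1
            have hκK : κ ∈ K := (hK κ).2 h3
            have h4 : pt 𝓔 κ = flip (flip (pt 𝓔 1) E) F' := by
              have h5 : vt (pt 𝓔 1) κ = pt 𝓔 κ := by rw [v2c, one_mul]
              have h6 := v5b (flip (pt 𝓔 1) E) Eᶜ κ
              rw [hu3, h5, h3, ← hκ] at h6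
              exact h6
            have h7 : (pt 𝓔 κ \ pt 𝓔 g').ncard < (pt 𝓔 1 \ pt 𝓔 g').ncard := by
              refine Set.ncard_lt_ncard ?_ (v7 1 g')
              rw [h4, hF'3]
              refine Set.ssubset_iff_subset_ne.2 ⟨?_, ?_⟩
              · exact (Set.sdiff_subset.trans hsub).trans Set.sdiff_subset
              · intro h8
                have h9 : E ∈ pt 𝓔 1 \ pt 𝓔 g' := ⟨hE.1, fun h10 => hg1 h10.2⟩
                rw [← h8] at h9
                exact (hsub h9.1).2 rfl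
            have h8 : (pt 𝓔 1 \ pt 𝓔 (g' * κ⁻¹)).ncard = (pt 𝓔 κ \ pt 𝓔 g').ncard := by
              have h9 := C2b_dist v2c κ g' κ⁻¹
              rw [mul_inv_cancel] at h9
              exact h9
            have h9 : g' * κ⁻¹ ∈ A1 ⊔ K := ih _ (h8.trans_lt (h7.trans_eq hd1)) _ rfl
            have h10 : g' ∈ A1 ⊔ K := by
              have h11 := mul_mem h9 (Subgroup.mem_sup_right hκK : κ ∈ A1 ⊔ K)
              rwa [inv_mul_cancel_right] at h11
            have h11 : g = g' * c := by rw [hg', inv_mul_cancel_right]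
            rw [h11]
            exact mul_mem h10 (Subgroup.mem_sup_left hcA)
        · -- `F = rt Eᶜ c`
          exfalso
          rw [C2b_rt_compl] at hc
          have h2 := v2b (flip (pt 𝓔 1) E) c Eᶜ hu2
          rw [← hc] at h2
          have h3 : vt (flip (pt 𝓔 1) E) c = pt 𝓔 1 := v3 _ _ F (v2 _ c hu1) (v1 1) h2 hF1
          have h4 : vt (vt (flip (pt 𝓔 1) E) c) c⁻¹ = flip (pt 𝓔 1) E := by
            rw [v2d, mul_inv_cancel, v2e]
          rw [h3, v2c, one_mul] at h4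
          exact hne c⁻¹ h4
  rw [eq_top_iff]
  intro g _
  exact key _ g rfl

end Pool.Agent.SFG
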