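import Pool.Agent.SFG.StH
import Pool.Agent.SPD.StF

/-!
# Module CBD : the cochain
-/

set_option autoImplicit false

namespace Pool.Agent.SFG

open Matrix Pool.Agent.CPD Pool.Agent.SPD

section

variable {G π : Type} [Group G] [Group π] {M : Pk G}

private theorem CBD_supp (T : G → G → π) (A : Matrix M.I M.I (ZG G)) (c : Ch M (ZG π))
    (y : G × M.I) (h : opT M T A c y ≠ 0) :
    ∃ x, c x ≠ 0 ∧ (A x.2 y.2).coeff (x.1⁻¹ * y.1) ≠ 0 := by
  by_contra hcon
  apply h
  have h1 : opT M T A c = c.sum fun x l => l • bl (Λ := ZG π) (tw T) x.1 (row A x) :=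
    Finsupp.linearCombination_apply _ _
  rw [h1, Finsupp.sum, Finsupp.finsetSum_apply]
  refine Finset.sum_eq_zero fun x hx => ?_
  have h2 : (A x.2 y.2).coeff (x.1⁻¹ * y.1) = 0 := by
    by_contra h3
    exact hcon ⟨x, Finsupp.mem_support_iff.1 hx, h3⟩
  rw [Finsupp.smul_apply, bl_apply, CPD.row_apply, h2, Int.cast_zero, zero_mul, smul_zero]

private theorem CBD_len (x y : G) : M.L.l x ≤ M.L.l y + M.L.l (x⁻¹ * y) := by
  have h1 : x = y * (x⁻¹ * y)⁻¹ := by group
  have h2 := M.L.mul y (x⁻¹ * y)⁻¹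
  rw [← h1, M.L.inv] at h2
  exact h2

private theorem CBD_len' (x y : G) : M.L.l y ≤ M.L.l x + M.L.l (x⁻¹ * y) := by
  have h1 : y = x * (x⁻¹ * y) := by group
  have h2 := M.L.mul x (x⁻¹ * y)
  rw [← h1] at h2
  exact h2

/-- cells of the image of a chain -/
private theorem CBD_op (T : G → G → π) (A : Matrix M.I M.I (ZG G)) (hA : Five M A)
    (c : Ch M (ZG π)) (y : G × M.I) (hy : opT M T A c y ≠ 0) :
    ∃ x, c x ≠ 0 ∧ A x.2 y.2 ≠ 0 ∧ M.L.l x.1 ≤ M.L.l y.1 + M.c ∧
      M.L.l y.1 ≤ M.L.l x.1 + M.c := by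
  obtain ⟨x, hx, hxy⟩ := CBD_supp T A c y hy
  have h3 := hA _ _ _ hxy
  have h4 := CBD_len (M := M) x.1 y.1
  have h5 := CBD_len' (M := M) x.1 y.1
  refine ⟨x, hx, ?_, by omega, by omega⟩
  intro h6
  apply hxy
  rw [h6]
  rfl

private theorem CBD_good {R : ℕ} {𝓛 : Loc M R} {T : G → G → π} {n : ℕ}
    (h : ∀ v, n < M.L.l v → GoodT M.L T 𝓛.kap v) :
    GoodV M (Λ := ZG π) (tw T) {v | n < M.L.l v} := by
  intro v hv k k' hk hk'
  have hle : 20 * M.u ≤ 𝓛.kap := by
    unfold Loc.kap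
    omega
  have h1 := h v hv k k' (hk.trans hle) (hk'.trans hle)
  show uhom π (T v k) * uhom π (T (v * k) k') = uhom π (T v (k * k'))
  rw [← map_mul, h1]

end

private theorem CBD_single {X Λ : Type} [Ring Λ] (x z : X)
    (h : (Finsupp.single x 1 : X →₀ Λ) z ≠ 0) : z = x := by
  classical
  by_contra hne
  apply h
  rw [Finsupp.single_apply, if_neg (fun h => hne h.symm)]

private theorem CBD_ex {X Λ : Type} [Ring Λ] (A : (X →₀ Λ) →ₗ[Λ] (X →₀ Λ)) (c : X →₀ Λ) (y : X)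
    (h : A c y ≠ 0) : ∃ x, c x ≠ 0 ∧ A (Finsupp.single x 1) y ≠ 0 := by
  by_contra hcon
  apply h
  rw [← Finsupp.sum_single c, Finsupp.sum, map_sum, Finsupp.finsetSum_apply]
  apply Finset.sum_eq_zero
  intro x hx
  have h1 : (Finsupp.single x (c x) : X →₀ Λ) = c x • Finsupp.single x 1 := by
    rw [Finsupp.smul_single, smul_eq_mul, mul_one]
  have h2 : A (Finsupp.single x 1) y = 0 := by
    by_contra h3
    exact hcon ⟨x, Finsupp.mem_support_iff.1 hx, h3⟩
  rw [h1, map_smul, Finsupp.smul_apply, h2, smul_zero]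

/-- The cochain. -/
theorem CBD (F0 : SPD.St_F0) (F6 : SPD.St_F6) (hHH1 : St_HH1) : St_CBD := by
  intro G α π _ _ f Rel M R 𝓛 n T hDc hSS
  classical
  obtain ⟨fD, fE, -, -, -, -, -⟩ := (F0 G M (ZG π) (tw T)).1
  have hV := CBD_good hDc.good
  obtain ⟨c6, -, c60⟩ := F6 G M (ZG π) (tw T) {v | n < M.L.l v} hV
  have hu : M.u = M.c + 1 := rfl
  have hsV : ∀ x : G × M.I, n < M.L.l x.1 →
      ∀ z, (Finsupp.single x 1 : Ch M (ZG π)) z ≠ 0 → z.1 ∈ {v | n < M.L.l v} := by
    intro x hx z hz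
    rw [CBD_single _ _ hz]
    exact hx
  have hED : ∀ x : G × M.I, n < M.L.l x.1 →
      opT M T M.E (opT M T M.D (Finsupp.single x 1)) = opT M T M.D (Finsupp.single x 1) := by
    intro x hx
    rw [c6 M.D M.E _ fD fE (hsV x hx), M.resP.DE]
  have hDE : ∀ x : G × M.I, n < M.L.l x.1 →
      opT M T M.D (opT M T M.E (Finsupp.single x 1)) = opT M T M.D (Finsupp.single x 1) := by
    intro x hx
    rw [c6 M.E M.D _ fE fD (hsV x hx), M.resP.ED]
  have hEE : ∀ x : G × M.I, n < M.L.l x.1 →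
      opT M T M.E (opT M T M.E (Finsupp.single x 1)) = opT M T M.E (Finsupp.single x 1) := by
    intro x hx
    rw [c6 M.E M.E _ fE fE (hsV x hx), M.resP.EE]
  have hDD : ∀ a : Ch M (ZG π), (∀ z, a z ≠ 0 → n < M.L.l z.1) →
      opT M T M.D (opT M T M.D a) = 0 := by
    intro a ha
    rw [c6 M.D M.D a fD fD ha, M.resP.DD]
    exact c60 a
  have hD : ∀ (a : Ch M (ZG π)) (r0 : ℕ), (∀ z, a z ≠ 0 → M.L.l z.1 ≤ r0) →
      ∀ z, opT M T M.D a z ≠ 0 → M.L.l z.1 ≤ r0 + M.c := by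
    intro a r0 ha z hz
    obtain ⟨x, h1, -, -, h2⟩ := CBD_op T M.D fD a z hz
    have h3 := ha x h1
    omega
  refine ⟨n + 20 * M.u, by omega, fun s => ?_⟩
  obtain ⟨r, hr, H, hH1, hH2, hH3⟩ :=
    hHH1 G α π f Rel M R 𝓛 n T hDc hSS (n + 10 * M.u) s (by omega)
  let S : Set (G × M.I) := {z | r + 2 * M.u < M.L.l z.1}
  have hcut : ∀ a : Ch M (ZG π), (∀ z, a z ≠ 0 → M.L.l z.1 ≤ r + 2 * M.u) →
      cut S a = 0 := by
    intro a ha
    ext1 z
    by_cases hz : z ∈ S
    · rw [cut_apply_of_mem S a hz]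
      by_contra h1
      have h2 := ha z h1
      have h3 : r + 2 * M.u < M.L.l z.1 := hz
      omega
    · rw [cut_apply_of_notMem S a hz]
      rfl
  refine ⟨r + 2 * M.u, by omega, cut S ∘ₗ (opT M T M.E - opT M T M.D ∘ₗ H), ⟨?_, ?_⟩, ?_, ?_⟩
  · intro x hx hn
    obtain ⟨e, he, hζ⟩ := hH3 x hx
    apply hcut
    have h1 : (opT M T M.E - opT M T M.D ∘ₗ H) (opT M T M.D (Finsupp.single x 1)) =
        opT M T M.D (opT M T M.E (Finsupp.single x 1) - H (opT M T M.D (Finsupp.single x 1)) -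
          opT M T M.D e) := by
      rw [map_sub, map_sub, hDE x (by omega), hDD e (fun z hz => by
        have h2 := (he z hz).2
        omega), sub_zero, LinearMap.sub_apply, LinearMap.comp_apply, hED x (by omega)]
    rw [h1]
    intro z hz
    have h2 := hD _ r hζ z hz
    omega
  · intro y _ hn
    show cut S (opT M T M.E (opT M T M.E (Finsupp.single y 1)) -
        opT M T M.D (H (opT M T M.E (Finsupp.single y 1)))) =
      cut S (opT M T M.E (Finsupp.single y 1) - opT M T M.D (H (Finsupp.single y 1)))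
    rw [hEE y (by omega), hH2]
  · intro y _ hs
    have h0 : H (Finsupp.single y 1) = 0 := by
      ext1 z
      by_contra hz
      have h1 := (hH1 y z hz).2.1
      omega
    show cut S (opT M T M.E (Finsupp.single y 1) - opT M T M.D (H (Finsupp.single y 1))) = 0
    rw [h0, map_zero, sub_zero]
    apply hcut
    intro z hz
    obtain ⟨x, h1, -, -, h2⟩ := CBD_op T M.E fE _ z hz
    rw [CBD_single _ _ h1] at h2
    omega
  · intro ω hω hE
    refine ⟨(opT M T M.E ω - opT M T M.D (H ω)) -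
      cut S (opT M T M.E ω - opT M T M.D (H ω)), ?_, ?_⟩
    · intro z hz
      by_contra h1
      apply hz
      have h2 : z ∈ S := by
        show r + 2 * M.u < M.L.l z.1
        omega
      rw [Finsupp.sub_apply, cut_apply_of_mem S _ h2, sub_self]
    · show opT M T M.D (cut S (opT M T M.E ω - opT M T M.D (H ω)) +
        ((opT M T M.E ω - opT M T M.D (H ω)) -
          cut S (opT M T M.E ω - opT M T M.D (H ω)))) = opT M T M.D ω
      rw [add_sub_cancel, map_sub, hE, hDD, sub_zero]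
      intro z hz
      obtain ⟨y, h1, h2⟩ := CBD_ex H ω z hz
      have h3 := (hH1 y z h2).2.2.2
      omega

end Pool.Agent.SFG
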