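import Pool.Agent.SFG.StT

/-!
# [CMM] The chain of a product of commutators of loops with trivial holonomy is a boundary
-/

set_option autoImplicit false

namespace Pool.Agent.SFG

open Matrix Pool.Agent.CPD Pool.Agent.SPD

private theorem CMM_gr_one {π W : Type} [Group π] [AddCommGroup W] [Module (ZG π) W] (x : W) :
    gr (1 : π) • x = x := by
  have h : gr (1 : π) = (1 : ZG π) := rfl
  rw [h, one_smul]

private theorem CMM_Bl {G : Type} [Group G] (L : Len G) {n m : ℕ} (h : n ≤ m) : Bl L n ⊆ Bl L m :=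
  fun _ hx => le_trans hx h

private theorem CMM_lab {G α π : Type} [Group G] [Group π] {f : α → G}
    {R : Set (List (α × Bool))} {K K' : Set G} {τ : G → (α × Bool) → π} (hK : K ⊆ K')
    (h : IsLabel f R K τ) : IsLabel f R K' τ where
  edge := fun g a b h1 h2 => h.edge g a b (fun h3 => h1 (hK h3)) (fun h3 => h2 (hK h3))
  cell := fun r hr g h1 => h.cell r hr g (fun n hn h3 => h1 n hn (hK h3))

theorem CMM (hW0 : SPD.St_W0) (hW1 : SPD.St_W1) (hL5 : SPD.St_L5) (hL6 : SPD.St_L6)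
    (hD0 : CPD.St_D0) : St_CMM := by
  intro G α π π' _ _ _ f Rel M R0 𝓛 N n0 n N' n0' m T T' R v hD hL hnm hn0' hreal hker
  obtain ⟨w1, w2, w3, w4, w5, -, w7, w8, -⟩ := hW0 G α f
  -- labels
  have hlabT : IsLabel f Rel (Bl M.L m) (lab f T) :=
    CMM_lab (CMM_Bl M.L (hD.le.trans hnm)) hD.lvl.lab
  have hlabTn : IsLabel f Rel (Bl M.L n) (lab f T) := CMM_lab (CMM_Bl M.L hD.le) hD.lvl.lab
  have hlabT' : IsLabel f Rel (Bl M.L m) (lab f T') := CMM_lab (CMM_Bl M.L hn0') hL.lab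
  obtain ⟨-, -, -, hinv⟩ := hW1 G α f Rel (Bl M.L m) hD.base.rel
  obtain ⟨c1, -, -, -⟩ := hL5 G α f M R0 𝓛 π T n hD.base.len hD.good
  have hv : v ∉ Bl M.L m := by
    obtain ⟨w, -, hw, -⟩ := hreal 1 R.one_mem
    exact (w8 _ _ _ hw).1
  -- concatenation of closed words with trivial holonomy
  have cat : ∀ u w, value f u = 1 → hol f (lab f T) v u = 1 →
      chw f M 𝓛 T v (u ++ w) = chw f M 𝓛 T v u + chw f M 𝓛 T v w := by
    intro u w hu hh
    rw [c1, hu, mul_one, hh, CMM_gr_one]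
  have hcat : ∀ {Γ : Type} [Group Γ] (S : G → G → Γ) u w, value f u = 1 →
      hol f (lab f S) v (u ++ w) = hol f (lab f S) v u * hol f (lab f S) v w := by
    intro Γ _ S u w hu
    rw [w5, hu, mul_one]
  have acat : ∀ u w, value f u = 1 → Avoids f (Bl M.L m) v u → Avoids f (Bl M.L m) v w →
      Avoids f (Bl M.L m) v (u ++ w) := by
    intro u w hu h1 h2
    rw [w3, hu, mul_one]
    exact ⟨h1, h2⟩
  -- formal inverses
  have ival : ∀ w, value f w = 1 → value f (winv w) = 1 := by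
    intro w hw
    rw [(w1 w).1, hw, inv_one]
  have iav : ∀ w, value f w = 1 → Avoids f (Bl M.L m) v w → Avoids f (Bl M.L m) v (winv w) := by
    intro w hw h
    have h1 := (w4 _ _ _).1 h
    rwa [hw, mul_one] at h1
  have ihol : ∀ {Γ : Type} [Group Γ] (S : G → G → Γ), IsLabel f Rel (Bl M.L m) (lab f S) → ∀ w,
      value f w = 1 → Avoids f (Bl M.L m) v w →
      hol f (lab f S) v (winv w) = (hol f (lab f S) v w)⁻¹ := by
    intro Γ _ S hS w hw h
    have h1 := hinv Γ (lab f S) hS v w h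
    rwa [hw, mul_one] at h1
  have ichw : ∀ w, value f w = 1 → Avoids f (Bl M.L m) v w → hol f (lab f T) v w = 1 →
      ∃ e : Ch M (ZG π), (∀ y, e y ≠ 0 → M.deg y.2 = 2 ∧ m < M.L.l y.1 + 𝓛.ρ) ∧
        chw f M 𝓛 T v w + chw f M 𝓛 T v (winv w) = opT M T M.D e := by
    intro w hw h hh
    have h0 : Avoids f (Bl M.L m) v ([] ++ [] : List (α × Bool)) := by
      intro k hk
      have : k = 0 := Nat.le_zero.1 hk
      subst this
      show v * value f [] ∉ Bl M.L m
      have : value f ([] : List (α × Bool)) = 1 := rfl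
      rw [this, mul_one]
      exact hv
    have h1 : Avoids f (Bl M.L m) (v * value f []) w := by
      have : value f ([] : List (α × Bool)) = 1 := rfl
      rw [this, mul_one]
      exact h
    have h2 := (hD0 G α f).2.2.2.2.2 Rel (Bl M.L m) v [] w [] h0 h1
    obtain ⟨e, he, h3⟩ := hL6 G α f Rel M R0 𝓛 π T n m hD.base.len
      (fun r hr => ⟨hD.len r hr, hD.base.rel r hr⟩) hlabTn hD.good hnm v _ _ h2
    refine ⟨e, he, ?_⟩
    rw [← h3, ← cat w (winv w) hw hh]
    have h4 : chw f M 𝓛 T v ([] ++ [] : List (α × Bool)) = 0 := rfl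
    rw [h4, sub_zero, List.nil_append, List.append_nil]
    rfl
  -- the property
  have hadd : ∀ e e' : Ch M (ZG π), (∀ y, e y ≠ 0 → M.deg y.2 = 2 ∧ m < M.L.l y.1 + 𝓛.ρ) →
      (∀ y, e' y ≠ 0 → M.deg y.2 = 2 ∧ m < M.L.l y.1 + 𝓛.ρ) →
      ∀ y, (e + e') y ≠ 0 → M.deg y.2 = 2 ∧ m < M.L.l y.1 + 𝓛.ρ := by
    intro e e' he he' y hy
    by_cases h : e y = 0
    · refine he' y fun h' => hy ?_
      rw [Finsupp.add_apply, h, h', add_zero]
    · exact he y h
  have hcomm : ∀ a ∈ R, ∀ b ∈ R, ∃ w, value f w = 1 ∧ Avoids f (Bl M.L m) v w ∧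
      hol f (lab f T') v w = a * b * a⁻¹ * b⁻¹ ∧
      hol f (lab f T) v w = 1 ∧ ∃ e : Ch M (ZG π),
        (∀ y, e y ≠ 0 → M.deg y.2 = 2 ∧ m < M.L.l y.1 + 𝓛.ρ) ∧
          chw f M 𝓛 T v w = opT M T M.D e := by
    intro a ha b hb
    obtain ⟨c, vc, ac, hc⟩ := hreal a ha
    obtain ⟨d, vd, ad, hd⟩ := hreal b hb
    have tc : hol f (lab f T) v c = 1 := hker c vc ac (hc ▸ ha)
    have td : hol f (lab f T) v d = 1 := hker d vd ad (hd ▸ hb)
    obtain ⟨e, he, hce⟩ := ichw c vc ac tc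
    obtain ⟨e', he', hde⟩ := ichw d vd ad td
    have vc' := ival c vc
    have vd' := ival d vd
    have tc' : hol f (lab f T) v (winv c) = 1 := by rw [ihol T hlabT c vc ac, tc, inv_one]
    have td' : hol f (lab f T) v (winv d) = 1 := by rw [ihol T hlabT d vd ad, td, inv_one]
    refine ⟨c ++ (d ++ (winv c ++ winv d)), ?_, ?_, ?_, ?_, e + e', hadd e e' he he', ?_⟩
    · rw [(w2 _ _).1, (w2 _ _).1, (w2 _ _).1, vc, vd, vc', vd', mul_one, mul_one, mul_one]
    · exact acat _ _ vc ac (acat _ _ vd ad (acat _ _ vc' (iav c vc ac) (iav d vd ad)))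
    · rw [hcat T' _ _ vc, hcat T' _ _ vd, hcat T' _ _ vc', ihol T' hlabT' c vc ac,
        ihol T' hlabT' d vd ad, hc, hd]
      group
    · rw [hcat T _ _ vc, hcat T _ _ vd, hcat T _ _ vc', tc, td, tc', td', mul_one, mul_one,
        mul_one]
    · rw [cat _ _ vc tc, cat _ _ vd td, cat _ _ vc' tc', map_add, ← hce, ← hde]
      abel
  intro x hx
  rw [Subgroup.commutator_def] at hx
  induction hx using Subgroup.closure_induction with
  | mem y hy =>
    obtain ⟨a, ha, b, hb, rfl⟩ := hy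
    rw [commutatorElement_def]
    exact hcomm a ha b hb
  | one =>
    obtain ⟨w, h1, h2, h3, h4⟩ := hcomm 1 R.one_mem 1 R.one_mem
    refine ⟨w, h1, h2, ?_, h4⟩
    rw [h3]
    group
  | mul x y _ _ hx hy =>
    obtain ⟨u, u1, u2, u3, u4, e, he, u5⟩ := hx
    obtain ⟨w, k1, k2, k3, k4, e', he', k5⟩ := hy
    refine ⟨u ++ w, ?_, acat _ _ u1 u2 k2, ?_, ?_, e + e', hadd e e' he he', ?_⟩
    · rw [(w2 _ _).1, u1, k1, mul_one]
    · rw [hcat T' _ _ u1, u3, k3]
    · rw [hcat T _ _ u1, u4, k4, mul_one]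
    · rw [cat _ _ u1 u4, u5, k5, map_add]
  | inv x _ hx =>
    obtain ⟨u, u1, u2, u3, u4, e, he, u5⟩ := hx
    obtain ⟨e', he', h5⟩ := ichw u u1 u2 u4
    refine ⟨winv u, ival u u1, iav u u1 u2, ?_, ?_, e' + -e, hadd e' (-e) he' ?_, ?_⟩
    · rw [ihol T' hlabT' u u1 u2, u3]
    · rw [ihol T hlabT u u1 u2, u4, inv_one]
    · intro y hy
      refine he y fun h => hy ?_
      rw [Finsupp.neg_apply, h, neg_zero]
    · rw [map_add, map_neg, ← h5, ← u5]
      abel

end Pool.Agent.SFG
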