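import Pool.Agent.SFG.StR

/-!
# [CUT] Counting the edges which are cut by a subset of a group
-/

set_option autoImplicit false

namespace Pool.Agent.SFG

open Pool.Agent.CPD Pool.Agent.SPD

section

variable {A : Type} [Group A]

theorem CUT_ind (S : Finset A) (hS : Subgroup.closure (S : Set A) = ⊤) (p : A → Prop)
    (hmem : ∀ s ∈ S, p s) (hone : p 1) (hmul : ∀ a b, p a → p b → p (a * b))
    (hinv : ∀ a, p a → p a⁻¹) (a : A) : p a := by
  have ha : a ∈ Subgroup.closure (S : Set A) := by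
    rw [hS]
    exact Subgroup.mem_top a
  induction ha using Subgroup.closure_induction with
  | mem x hx => exact hmem x (Finset.mem_coe.1 hx)
  | one => exact hone
  | mul x y _ _ hx hy => exact hmul x y hx hy
  | inv x _ hx => exact hinv x hx

theorem CUT_one (S : Finset A) (hS : Subgroup.closure (S : Set A) = ⊤) (L : Subgroup A)
    (E : Set A) : AI ⊤ L E ↔ ((bd S E).Finite ∧ ∀ l ∈ L, ∀ x, (l * x ∈ E ↔ x ∈ E)) := by
  constructor
  · intro h
    refine ⟨?_, fun l hl x => h.inv l hl x (Subgroup.mem_top x)⟩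
    have h1 : bd S E ⊆ ⋃ s ∈ (S : Set A), (fun x => (s, x)) '' {x | x ∈ (⊤ : Subgroup A) ∧
        ¬ (s * x ∈ E ↔ x ∈ E)} := by
      rintro ⟨s, x⟩ ⟨hs, hx⟩
      simp only [Set.mem_iUnion]
      exact ⟨s, Finset.mem_coe.2 hs, x, ⟨Subgroup.mem_top x, hx⟩, rfl⟩
    refine Set.Finite.subset ?_ h1
    refine Set.Finite.biUnion (Finset.finite_toSet S) ?_
    intro s _
    exact (h.fin s (Subgroup.mem_top s)).image _
  · rintro ⟨hfin, hinv⟩
    refine ⟨?_, fun l hl x _ => hinv l hl x⟩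
    have key : ∀ a : A, {x | ¬ (a * x ∈ E ↔ x ∈ E)}.Finite := by
      apply CUT_ind S hS
      · intro s hs
        have h1 : {x | ¬ (s * x ∈ E ↔ x ∈ E)} = (fun x => (s, x)) ⁻¹' (bd S E) := by
          ext x
          exact ⟨fun hx => ⟨hs, hx⟩, fun hx => hx.2⟩
        rw [h1]
        exact hfin.preimage fun x _ y _ hxy => (Prod.ext_iff.1 hxy).2
      · have h1 : {x : A | ¬ (1 * x ∈ E ↔ x ∈ E)} = ∅ := by
          ext x
          simp
        rw [h1]
        exact Set.finite_empty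
      · intro a b ha hb
        have h1 : {x | ¬ (a * b * x ∈ E ↔ x ∈ E)} ⊆
            (fun x => b * x) ⁻¹' {x | ¬ (a * x ∈ E ↔ x ∈ E)} ∪ {x | ¬ (b * x ∈ E ↔ x ∈ E)} := by
          intro x hx
          by_contra hc
          apply hx
          rw [Set.mem_union, not_or] at hc
          obtain ⟨h2, h3⟩ := hc
          have h4 : a * (b * x) ∈ E ↔ b * x ∈ E := not_not.1 h2
          have h5 : b * x ∈ E ↔ x ∈ E := not_not.1 h3
          rw [mul_assoc]
          exact h4.trans h5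
        refine Set.Finite.subset (Set.Finite.union ?_ hb) h1
        exact ha.preimage fun x _ y _ hxy => mul_left_cancel hxy
      · intro a ha
        have h1 : {x | ¬ (a⁻¹ * x ∈ E ↔ x ∈ E)} ⊆
            (fun x => a⁻¹ * x) ⁻¹' {x | ¬ (a * x ∈ E ↔ x ∈ E)} := by
          intro x hx
          show ¬ (a * (a⁻¹ * x) ∈ E ↔ a⁻¹ * x ∈ E)
          rw [mul_inv_cancel_left]
          exact fun h => hx h.symm
        refine Set.Finite.subset ?_ h1
        exact ha.preimage fun x _ y _ hxy => mul_left_cancel hxy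
    intro a _
    refine (key a).subset ?_
    rintro x ⟨_, hx⟩
    exact hx

theorem CUT_compl (S : Finset A) (E : Set A) : bd S Eᶜ = bd S E := by
  ext ⟨s, x⟩
  show (s ∈ S ∧ ¬ (s * x ∈ Eᶜ ↔ x ∈ Eᶜ)) ↔ (s ∈ S ∧ ¬ (s * x ∈ E ↔ x ∈ E))
  rw [Set.mem_compl_iff, Set.mem_compl_iff, not_iff_not]

theorem CUT_rt (S : Finset A) (E : Set A) (g s x : A) :
    (s, x) ∈ bd S E ↔ (s, x * g) ∈ bd S (rt E g) := by
  show (s ∈ S ∧ ¬ (s * x ∈ E ↔ x ∈ E)) ↔
    (s ∈ S ∧ ¬ (s * (x * g) * g⁻¹ ∈ E ↔ x * g * g⁻¹ ∈ E))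
  rw [← mul_assoc, mul_inv_cancel_right, mul_inv_cancel_right]

theorem CUT_img (S : Finset A) (E : Set A) (g : A) :
    bd S (rt E g) = (fun p : A × A => (p.1, p.2 * g)) '' (bd S E) := by
  ext ⟨s, y⟩
  constructor
  · intro h
    refine ⟨(s, y * g⁻¹), ?_, ?_⟩
    · rw [CUT_rt S E g, inv_mul_cancel_right]
      exact h
    · show (s, y * g⁻¹ * g) = (s, y)
      rw [inv_mul_cancel_right]
  · rintro ⟨⟨s', x⟩, h, he⟩
    rw [CUT_rt S E g] at h
    have h2 : (s', x * g) = (s, y) := he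
    rw [h2] at h
    exact h

theorem CUT_inj (g : A) : Function.Injective (fun p : A × A => (p.1, p.2 * g)) := by
  rintro ⟨a, b⟩ ⟨c, d⟩ h
  have h1 := Prod.ext_iff.1 h
  have h2 : b * g = d * g := h1.2
  exact Prod.ext h1.1 (mul_right_cancel h2)

theorem CUT_sub (S : Finset A) (E F : Set A) :
    bd S (E ∩ F) ∪ bd S (E ∪ F) ⊆ bd S E ∪ bd S F ∧
      bd S (E ∩ F) ∩ bd S (E ∪ F) ⊆ bd S E ∩ bd S F := by
  constructor
  · rintro ⟨s, x⟩ h
    have h1 : s ∈ S := by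
      rcases h with h | h
      · exact h.1
      · exact h.1
    by_contra hc
    rw [Set.mem_union, not_or] at hc
    obtain ⟨h2, h3⟩ := hc
    have h4 : s * x ∈ E ↔ x ∈ E := not_not.1 fun h5 => h2 ⟨h1, h5⟩
    have h6 : s * x ∈ F ↔ x ∈ F := not_not.1 fun h5 => h3 ⟨h1, h5⟩
    rcases h with h | h
    · exact h.2 (and_congr h4 h6)
    · exact h.2 (or_congr h4 h6)
  · rintro ⟨s, x⟩ ⟨h1, h2⟩
    have h3 : ¬ ((s * x ∈ E ∧ s * x ∈ F) ↔ (x ∈ E ∧ x ∈ F)) := h1.2
    have h4 : ¬ ((s * x ∈ E ∨ s * x ∈ F) ↔ (x ∈ E ∨ x ∈ F)) := h2.2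
    refine ⟨⟨h1.1, ?_⟩, ⟨h1.1, ?_⟩⟩
    · show ¬ (s * x ∈ E ↔ x ∈ E)
      tauto
    · show ¬ (s * x ∈ F ↔ x ∈ F)
      tauto

theorem CUT_inv (S : Finset A) (hS : Subgroup.closure (S : Set A) = ⊤) (E : Set A)
    (h : bd S E = ∅) (a : A) : ∀ x, (a * x ∈ E ↔ x ∈ E) := by
  apply CUT_ind S hS (fun a => ∀ x, (a * x ∈ E ↔ x ∈ E))
  · intro s hs x
    by_contra hc
    have : (s, x) ∈ bd S E := ⟨hs, hc⟩
    rw [h] at this
    exact this
  · intro x
    rw [one_mul]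
  · intro a b ha hb x
    rw [mul_assoc]
    exact (ha (b * x)).trans (hb x)
  · intro a ha x
    have := ha (a⁻¹ * x)
    rw [mul_inv_cancel_left] at this
    exact this.symm

theorem CUT_path (S : Finset A) (hS : Subgroup.closure (S : Set A) = ⊤) (a : A) :
    ∀ x : A, ∃ Y : Set (A × A), Y.Finite ∧ (∀ p ∈ Y, p.1 ∈ S) ∧
      ∀ F : Set A, ¬ (x ∈ F ↔ a * x ∈ F) → ∃ p ∈ Y, p ∈ bd S F := by
  apply CUT_ind S hS (fun a => ∀ x : A, ∃ Y : Set (A × A), Y.Finite ∧ (∀ p ∈ Y, p.1 ∈ S) ∧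
      ∀ F : Set A, ¬ (x ∈ F ↔ a * x ∈ F) → ∃ p ∈ Y, p ∈ bd S F)
  · intro s hs x
    refine ⟨{(s, x)}, Set.finite_singleton _, ?_, ?_⟩
    · intro p hp
      rw [Set.mem_singleton_iff.1 hp]
      exact hs
    · intro F hF
      exact ⟨(s, x), Set.mem_singleton _, hs, fun h => hF h.symm⟩
  · intro x
    refine ⟨∅, Set.finite_empty, fun p hp => absurd hp (Set.notMem_empty p), ?_⟩
    intro F hF
    rw [one_mul] at hF
    exact absurd Iff.rfl hF
  · intro a b ha hb x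
    obtain ⟨Y, hY, hYS, hYF⟩ := hb x
    obtain ⟨Z, hZ, hZS, hZF⟩ := ha (b * x)
    refine ⟨Y ∪ Z, hY.union hZ, ?_, ?_⟩
    · rintro p (hp | hp)
      · exact hYS p hp
      · exact hZS p hp
    · intro F hF
      by_cases h1 : (x ∈ F ↔ b * x ∈ F)
      · have h2 : ¬ (b * x ∈ F ↔ a * (b * x) ∈ F) := by
          intro h3
          apply hF
          rw [mul_assoc]
          exact h1.trans h3
        obtain ⟨p, hp, hpF⟩ := hZF F h2
        exact ⟨p, Or.inr hp, hpF⟩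
      · obtain ⟨p, hp, hpF⟩ := hYF F h1
        exact ⟨p, Or.inl hp, hpF⟩
  · intro a ha x
    obtain ⟨Y, hY, hYS, hYF⟩ := ha (a⁻¹ * x)
    refine ⟨Y, hY, hYS, ?_⟩
    intro F hF
    apply hYF F
    rw [mul_inv_cancel_left]
    exact fun h => hF h.symm

end

theorem CUT : St_CUT := by
  intro A _ S hS
  refine ⟨fun L E => CUT_one S hS L E, fun E => ⟨CUT_compl S E, ?_⟩,
    fun E g => ⟨?_, ?_, fun s x => CUT_rt S E g s x⟩, ?_, ?_, ?_⟩
  · unfold cn
    rw [CUT_compl]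
  · unfold cn
    rw [CUT_img]
    exact Set.ncard_image_of_injective _ (CUT_inj g)
  · rw [CUT_img]
    exact Set.finite_image_iff (CUT_inj g).injOn
  · intro E F hE hF
    obtain ⟨h1, h2⟩ := CUT_sub S E F
    have h3 : (bd S (E ∩ F)).Finite :=
      (hE.union hF).subset (Set.Subset.trans Set.subset_union_left h1)
    have h4 : (bd S (E ∪ F)).Finite :=
      (hE.union hF).subset (Set.Subset.trans Set.subset_union_right h1)
    refine ⟨h3, h4, ?_⟩
    unfold cn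
    rw [← Set.ncard_union_add_ncard_inter _ _ h3 h4, ← Set.ncard_union_add_ncard_inter _ _ hE hF]
    exact Nat.add_le_add (Set.ncard_le_ncard h1 (hE.union hF))
      (Set.ncard_le_ncard h2 (hE.subset Set.inter_subset_left))
  · intro E hE
    rcases Set.eq_empty_or_nonempty E with h | ⟨x, hx⟩
    · exact Or.inl h
    · right
      ext y
      refine ⟨fun _ => Set.mem_univ y, fun _ => ?_⟩
      have h1 := (CUT_inv S hS E hE (y * x⁻¹) x).2 hx
      rw [inv_mul_cancel_right] at h1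
      exact h1
  · intro x y
    obtain ⟨Y, hY, hYS, hYF⟩ := CUT_path S hS (y * x⁻¹) x
    rw [inv_mul_cancel_right] at hYF
    exact ⟨Y, hY, hYS, hYF⟩

end Pool.Agent.SFG
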