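import Pool.Agent.SFG.StH
import Pool.Agent.SPD.StW

/-!
# [DER] The derivation of a cocycle (helper46)
-/

set_option autoImplicit false

namespace Pool.Agent.SFG

open Matrix Pool.Agent.CPD Pool.Agent.SPD

private theorem DER_Iw {G α π : Type} [Group G] [Group π] (f : α → G) (M : Pk G) {R : ℕ}
    (𝓛 : Loc M R) (T : G → G → π) {W : Type} [AddCommGroup W] [Module (ZG π) W]
    (b : Ch M (ZG π) →ₗ[ZG π] W) (w : List (α × Bool)) : ∀ g : G,
    Iw f T (fun v a => be M T 𝓛 b v (letter f a)) g w = b (chw f M 𝓛 T g w) := by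
  induction w with
  | nil => intro g; exact (map_zero b).symm
  | cons a w ih =>
    intro g
    change be M T 𝓛 b g (letter f a) + gr (T g (letter f a)) •
      Iw f T (fun v a => be M T 𝓛 b v (letter f a)) (g * letter f a) w =
      b (sh M T g (𝓛.es (letter f a)) + gr (T g (letter f a)) • chw f M 𝓛 T (g * letter f a) w)
    rw [map_add, map_smul, ih]
    rfl

theorem DER (hW0 : SPD.St_W0) (hW1 : SPD.St_W1) (hL2 : SPD.St_L2) (hL3 : SPD.St_L3) : St_DER := by
  intro G α π _ _ f Rel M R 𝓛 n0 nc T hD hLt hle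
  set m : ℕ := nc + 𝓛.ρ with hm
  obtain ⟨l0, hl0⟩ := hLt.ind m (by omega)
  obtain ⟨k', hk'⟩ := hLt.surj m
  refine ⟨l0 + k' + 𝓛.ρ + m, fun a ha => ⟨fun p => hk' a (by omega) p, ?_⟩⟩
  intro W _ _ b' hW hb hvan
  obtain ⟨w1, w2, w3, w4, w5, w6, w7, w8, -⟩ := hW0 G α f
  set β : G → (α × Bool) → W := fun v x => be M T 𝓛 b' v (letter f x) with hβ
  have hcoc : WCoc f Rel (Bl M.L m) T β :=
    (hL3 G M R 𝓛 π T nc W b' hD.good hb).2.2.2.2.2 α f Rel hD.base.len
      (fun r hr => ⟨hD.len r hr, hD.base.rel r hr⟩)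
  have hβ0 : ∀ (v : G) (x : α × Bool), m < M.L.l v → M.L.l v ≤ l0 → β v x = 0 := by
    intro v x _ hv
    have e1 := (hL2 G M R 𝓛 π T v).1 (𝓛.es (letter f x))
    change b' (sh M T v (𝓛.es (letter f x))) = 0
    rw [e1, map_finsuppSum]
    refine Finset.sum_eq_zero fun y hy => ?_
    obtain ⟨h2, h3⟩ := 𝓛.es_supp (letter f x) y (Finsupp.mem_support_iff.1 hy)
    have h4 : (Finsupp.single (v * y.1, y.2)
        (((𝓛.es (letter f x) y : ℤ) : ZG π) * gr (T v y.1)) : Ch M (ZG π)) =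
        (((𝓛.es (letter f x) y : ℤ) : ZG π) * gr (T v y.1)) •
          Finsupp.single (v * y.1, y.2) 1 := by
      rw [Finsupp.smul_single, smul_eq_mul, mul_one]
    have h5 := M.L.mul v y.1
    beta_reduce
    rw [h4, map_smul, hvan (v * y.1, y.2) h2 (by
      show M.L.l (v * y.1) ≤ l0 + k' + 𝓛.ρ + m
      omega), smul_zero]
  have hind := hl0 W β hW hcoc hβ0
  have hlab : IsLabel f Rel (Bl M.L m) (SPD.lab f T) := by
    have hsub : Bl M.L nc ⊆ Bl M.L m := by
      intro v hv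
      change M.L.l v ≤ m
      have : M.L.l v ≤ nc := hv
      omega
    refine ⟨fun g x y h1 h2 => hD.lab.edge g x y (fun h => h1 (hsub h)) (fun h => h2 (hsub h)),
      fun r hr g hg => hD.lab.cell r hr g (w7 _ _ g r hsub hg)⟩
  have hinv := (hW1 G α f Rel (Bl M.L m) hD.base.rel).2.2.2 π (SPD.lab f T) hlab
  choose W0 hW1' hW2' hW3' using fun p : π => hk' a (by omega) p
  -- closed words with the same holonomy have the same integral
  have key : ∀ (w : List (α × Bool)) (p : π), value f w = 1 → Avoids f (Bl M.L m) a w →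
      hol f (SPD.lab f T) a w = p →
      Iw f T β a w + gr p • Iw f T β a (winv (W0 p)) = 0 := by
    intro w p hv hA hh
    have g1 : value f (w ++ winv (W0 p)) = 1 := by
      rw [(w2 _ _).1, hv, (w1 _).1, hW1' p, inv_one, mul_one]
    have g2 : Avoids f (Bl M.L m) a (w ++ winv (W0 p)) := by
      rw [w3, hv, mul_one]
      refine ⟨hA, ?_⟩
      have g4 := (w4 (Bl M.L m) a (W0 p)).1 (hW2' p)
      rwa [hW1' p, mul_one] at g4
    have g3 : hol f (SPD.lab f T) a (w ++ winv (W0 p)) = 1 := by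
      rw [w5, hv, mul_one, hh]
      have g4 := hinv a (W0 p) (hW2' p)
      rw [hW1' p, mul_one, hW3' p] at g4
      rw [g4, mul_inv_cancel]
    have g5 := hind a (w ++ winv (W0 p)) (by omega) g1 g2 g3
    rw [w6, hv, mul_one, hh] at g5
    exact g5
  have key2 : ∀ (w : List (α × Bool)) (p : π), value f w = 1 → Avoids f (Bl M.L m) a w →
      hol f (SPD.lab f T) a w = p → Iw f T β a w = Iw f T β a (W0 p) := by
    intro w p hv hA hh
    have g1 := key w p hv hA hh
    have g2 := key (W0 p) p (hW1' p) (hW2' p) (hW3' p)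
    exact add_right_cancel (g1.trans g2.symm)
  refine ⟨fun p => Iw f T β a (W0 p), fun p q => ?_, fun w hv hA => ?_⟩
  · have g1 : value f (W0 p ++ W0 q) = 1 := by
      rw [(w2 _ _).1, hW1' p, hW1' q, mul_one]
    have g2 : Avoids f (Bl M.L m) a (W0 p ++ W0 q) := by
      rw [w3, hW1' p, mul_one]
      exact ⟨hW2' p, hW2' q⟩
    have g3 : hol f (SPD.lab f T) a (W0 p ++ W0 q) = p * q := by
      rw [w5, hW1' p, mul_one, hW3' p, hW3' q]
    have g4 := key2 _ _ g1 g2 g3
    rw [w6, hW1' p, mul_one, hW3' p] at g4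
    exact g4.symm
  · rw [← DER_Iw, ← hβ]
    exact (key2 w _ hv hA rfl).symm

end Pool.Agent.SFG
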