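import Pool.Agent.SFG.StV
import Pool.Agent.CPD.TR1

/-!
# SFG [DIM]: an injective matrix over the integral group ring has at most as many columns as rows
-/

set_option autoImplicit false

namespace Pool.Agent.SFG

open Matrix Pool.Agent.CPD Pool.Agent.SPD

section Alg

variable {P : Type} [Group P]

private theorem DIM_pow {R : Type} [Ring R] {s t : ℕ} {A : Matrix (Fin s) (Fin s) R}
    {B : Matrix (Fin t) (Fin t) R} {Y : Matrix (Fin s) (Fin t) R} (h : A * Y = Y * B) (n : ℕ) :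
    A ^ n * Y = Y * B ^ n := by
  induction n with
  | zero => rw [pow_zero, pow_zero, Matrix.one_mul, Matrix.mul_one]
  | succ n ih =>
    rw [pow_succ, Matrix.mul_assoc, h, ← Matrix.mul_assoc, ih, Matrix.mul_assoc, ← pow_succ]

private theorem DIM_cast {R : Type} [Ring R] {s t : ℕ} (c : ℕ) (Y : Matrix (Fin s) (Fin t) R) :
    (c : Matrix (Fin s) (Fin s) R) * Y = Y * (c : Matrix (Fin t) (Fin t) R) := by
  rw [← nsmul_one c, ← nsmul_one c, Matrix.smul_mul, Matrix.mul_smul, Matrix.one_mul,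
    Matrix.mul_one]

private def DIM_tr {s : ℕ} (N : Matrix (Fin s) (Fin s) (ZG P)) : ℤ := ∑ a, (N a a).coeff 1

private theorem DIM_coeff_sum {ι : Type} (s : Finset ι) (f : ι → ZG P) (g : P) :
    (∑ j ∈ s, f j).coeff g = ∑ j ∈ s, (f j).coeff g := by
  classical
  induction s using Finset.induction_on with
  | empty =>
    rw [Finset.sum_empty, Finset.sum_empty]
    rfl
  | insert a s ha ih =>
    rw [Finset.sum_insert ha, Finset.sum_insert ha, MonoidAlgebra.coeff_add, Finsupp.add_apply, ih]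

private theorem DIM_tr_comm {s t : ℕ} (A : Matrix (Fin s) (Fin t) (ZG P))
    (B : Matrix (Fin t) (Fin s) (ZG P)) : DIM_tr (A * B) = DIM_tr (B * A) := by
  unfold DIM_tr
  have h1 : ∀ a, ((A * B) a a).coeff 1 = ∑ b, (A a b * B b a).coeff 1 := by
    intro a
    rw [Matrix.mul_apply, DIM_coeff_sum]
  have h2 : ∀ b, ((B * A) b b).coeff 1 = ∑ a, (B b a * A a b).coeff 1 := by
    intro b
    rw [Matrix.mul_apply, DIM_coeff_sum]
  rw [Finset.sum_congr rfl (fun a _ => h1 a), Finset.sum_congr rfl (fun b _ => h2 b),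
    Finset.sum_comm]
  refine Finset.sum_congr rfl (fun b _ => Finset.sum_congr rfl (fun a _ => ?_))
  exact TR1 P _ _

private theorem DIM_tr_sub {s : ℕ} (A B : Matrix (Fin s) (Fin s) (ZG P)) :
    DIM_tr (A - B) = DIM_tr A - DIM_tr B := by
  unfold DIM_tr
  rw [← Finset.sum_sub_distrib]
  refine Finset.sum_congr rfl (fun a _ => ?_)
  rw [Matrix.sub_apply, MonoidAlgebra.coeff_sub, Finsupp.sub_apply]

private theorem DIM_tr_cast {s : ℕ} (c : ℕ) :
    DIM_tr ((c : ℕ) : Matrix (Fin s) (Fin s) (ZG P)) = s * c := by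
  unfold DIM_tr
  have h1 : ∀ a : Fin s, (((c : ℕ) : Matrix (Fin s) (Fin s) (ZG P)) a a).coeff 1 = (c : ℤ) := by
    intro a
    rw [← nsmul_one c, Matrix.smul_apply, Matrix.one_apply_eq, MonoidAlgebra.one_def,
      MonoidAlgebra.coeff_smul, MonoidAlgebra.coeff_single, Finsupp.smul_apply,
      Finsupp.single_eq_same, nsmul_one]
  rw [Finset.sum_congr rfl (fun a _ => h1 a), Finset.sum_const, Finset.card_univ,
    Fintype.card_fin, nsmul_eq_mul]

/-- The identity of traces. -/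
private theorem DIM_id {r k : ℕ} (X : Matrix (Fin k) (Fin r) (ZG P)) (c m : ℕ) :
    (r : ℤ) * (c : ℤ) ^ m - DIM_tr (((c : Matrix (Fin r) (Fin r) (ZG P)) - Xᴴ * X) ^ m) =
      (k : ℤ) * (c : ℤ) ^ m - DIM_tr (((c : Matrix (Fin k) (Fin k) (ZG P)) - X * Xᴴ) ^ m) := by
  have hM : ((c : Matrix (Fin r) (Fin r) (ZG P)) - Xᴴ * X) * Xᴴ =
      Xᴴ * ((c : Matrix (Fin k) (Fin k) (ZG P)) - X * Xᴴ) := by
    rw [Matrix.sub_mul, Matrix.mul_sub, DIM_cast, Matrix.mul_assoc]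
  have hg := fun (s : ℕ) (A : Matrix (Fin s) (Fin s) (ZG P)) =>
    (Nat.cast_commute c A).symm.geom_sum₂_mul m
  have h1 := hg r ((c : Matrix (Fin r) (Fin r) (ZG P)) - Xᴴ * X)
  have h2 := hg k ((c : Matrix (Fin k) (Fin k) (ZG P)) - X * Xᴴ)
  rw [sub_sub_cancel_left, Matrix.mul_neg, neg_eq_iff_eq_neg, neg_sub, ← Matrix.mul_assoc] at h1 h2
  have h3 : (∑ i ∈ Finset.range m, ((c : Matrix (Fin r) (Fin r) (ZG P)) - Xᴴ * X) ^ i *
      (c : Matrix (Fin r) (Fin r) (ZG P)) ^ (m - 1 - i)) * Xᴴ =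
      Xᴴ * ∑ i ∈ Finset.range m, ((c : Matrix (Fin k) (Fin k) (ZG P)) - X * Xᴴ) ^ i *
      (c : Matrix (Fin k) (Fin k) (ZG P)) ^ (m - 1 - i) := by
    rw [Matrix.sum_mul, Matrix.mul_sum]
    refine Finset.sum_congr rfl (fun i _ => ?_)
    rw [Matrix.mul_assoc, DIM_pow (DIM_cast c Xᴴ), ← Matrix.mul_assoc, DIM_pow hM,
      Matrix.mul_assoc]
  rw [h3] at h1
  have h4 := congrArg DIM_tr h1
  have h5 := congrArg DIM_tr h2
  rw [Matrix.mul_assoc, DIM_tr_comm, DIM_tr_sub, ← Nat.cast_pow, DIM_tr_cast] at h4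
  rw [DIM_tr_sub, ← Nat.cast_pow, DIM_tr_cast] at h5
  rw [h4] at h5
  push_cast at h5
  exact h5

end Alg

section Ana

variable {P : Type} [Group P] {r k : ℕ}

private theorem DIM_herm (X : Matrix (Fin k) (Fin r) (ZG P)) (c : ℕ) :
    ((c : Matrix (Fin r) (Fin r) (ZG P)) - Xᴴ * X)ᴴ = (c : Matrix (Fin r) (Fin r) (ZG P)) - Xᴴ * X := by
  rw [Matrix.conjTranspose_sub, Matrix.conjTranspose_mul, Matrix.conjTranspose_conjTranspose,
    Matrix.conjTranspose_natCast]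

/-- The estimate for `U`. -/
private theorem DIM_est {H K : Type} [NormedAddCommGroup H] [InnerProductSpace ℝ H]
    [NormedAddCommGroup K] [InnerProductSpace ℝ K] (A : H →L[ℝ] K) (B : K →L[ℝ] H) (c : ℝ)
    (hc : 0 < c) (hAB : ∀ x y, inner ℝ (A x) y = inner ℝ x (B y))
    (hn : ∀ y, ‖A (B y)‖ ≤ c * ‖y‖) (x : H) :
    ‖c⁻¹ • (c • x - B (A x))‖ ^ 2 ≤ ‖x‖ ^ 2 - c⁻¹ * ‖A x‖ ^ 2 := by
  have h1 : ‖B (A x)‖ ^ 2 ≤ c * ‖A x‖ ^ 2 := by
    rw [← real_inner_self_eq_norm_sq, ← hAB]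
    calc inner ℝ (A (B (A x))) (A x) ≤ ‖A (B (A x))‖ * ‖A x‖ := real_inner_le_norm _ _
      _ ≤ (c * ‖A x‖) * ‖A x‖ := mul_le_mul_of_nonneg_right (hn _) (norm_nonneg _)
      _ = c * ‖A x‖ ^ 2 := by ring
  have h2 : inner ℝ x (B (A x)) = ‖A x‖ ^ 2 := by
    rw [← hAB, real_inner_self_eq_norm_sq]
  have h3 : ‖c • x - B (A x)‖ ^ 2 ≤ c ^ 2 * ‖x‖ ^ 2 - c * ‖A x‖ ^ 2 := by
    rw [norm_sub_sq_real, real_inner_smul_left, h2, norm_smul, mul_pow, Real.norm_eq_abs, sq_abs]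
    linarith
  rw [norm_smul, mul_pow, Real.norm_eq_abs, sq_abs]
  calc c⁻¹ ^ 2 * ‖c • x - B (A x)‖ ^ 2 ≤ c⁻¹ ^ 2 * (c ^ 2 * ‖x‖ ^ 2 - c * ‖A x‖ ^ 2) :=
        mul_le_mul_of_nonneg_left h3 (sq_nonneg _)
    _ = ‖x‖ ^ 2 - c⁻¹ * ‖A x‖ ^ 2 := by field_simp

end Ana

theorem DIM (h1 : St_DM1) (h2 : St_DM2) : St_DIM := by
  classical
  intro P _ r k X hX
  obtain ⟨ρ, hco, hadd, hmul, hone, hadj⟩ := h2 P
  -- the ring homomorphisms
  have hz : ∀ s t, ρ s t 0 = 0 := fun s t => by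
    have h := hadd s t 0 0
    rw [add_zero] at h
    exact left_eq_add.mp h
  let Φ : ∀ s : ℕ, Matrix (Fin s) (Fin s) (ZG P) →+* (HH P s →L[ℝ] HH P s) := fun s =>
    { toFun := ρ s s
      map_one' := ContinuousLinearMap.ext (fun x => hone s x)
      map_mul' := fun A B => ContinuousLinearMap.ext (fun x => hmul s s s A B x)
      map_zero' := hz s s
      map_add' := fun A B => hadd s s A B }
  have hΦ : ∀ s N, Φ s N = ρ s s N := fun _ _ => rfl
  obtain ⟨c, hc⟩ := exists_nat_ge (max ‖Φ k (X * Xᴴ)‖ 1)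
  have hc1 : (1 : ℝ) ≤ (c : ℝ) := (le_max_right _ _).trans hc
  have hc0 : (0 : ℝ) < (c : ℝ) := lt_of_lt_of_le one_pos hc1
  have hn : ∀ y, ‖ρ k r X (ρ r k Xᴴ y)‖ ≤ (c : ℝ) * ‖y‖ := by
    intro y
    rw [← hmul]
    exact ((Φ k (X * Xᴴ)).le_opNorm y).trans
      (mul_le_mul_of_nonneg_right ((le_max_left _ _).trans hc) (norm_nonneg y))
  have hest := DIM_est (ρ k r X) (ρ r k Xᴴ) (c : ℝ) hc0 (hadj k r X) hn
  let M : Matrix (Fin r) (Fin r) (ZG P) := (c : Matrix (Fin r) (Fin r) (ZG P)) - Xᴴ * X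
  let U : HH P r →L[ℝ] HH P r := (c : ℝ)⁻¹ • Φ r M
  have hMx : ∀ x, Φ r M x = (c : ℝ) • x - ρ r k Xᴴ (ρ k r X x) := by
    intro x
    change Φ r ((c : Matrix (Fin r) (Fin r) (ZG P)) - Xᴴ * X) x = _
    rw [map_sub, map_natCast, _root_.sub_apply, hΦ, hmul]
    congr 1
    rw [← nsmul_one c, _root_.smul_apply, one_apply_eq_self, Nat.cast_smul_eq_nsmul]
  have hUx : ∀ x, U x = (c : ℝ)⁻¹ • ((c : ℝ) • x - ρ r k Xᴴ (ρ k r X x)) := by
    intro x
    rw [← hMx]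
    rfl
  have hU2 : ∀ x, ‖U x‖ ^ 2 ≤ ‖x‖ ^ 2 - (c : ℝ)⁻¹ * ‖ρ k r X x‖ ^ 2 := by
    intro x
    rw [hUx]
    exact hest x
  have hUle : ∀ x, ‖U x‖ ≤ ‖x‖ := by
    intro x
    refine (pow_le_pow_iff_left₀ (norm_nonneg _) (norm_nonneg _) two_ne_zero).mp ?_
    have := hU2 x
    have h3 : 0 ≤ (c : ℝ)⁻¹ * ‖ρ k r X x‖ ^ 2 := by positivity
    linarith
  have hMs : ∀ x y, inner ℝ (Φ r M x) y = inner ℝ x (Φ r M y) := by
    intro x y
    have h3 := hadj r r M x y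
    have h4 : Mᴴ = M := DIM_herm X c
    rw [h4] at h3
    exact h3
  have hUs : ∀ x y, inner ℝ (U x) y = inner ℝ x (U y) := by
    intro x y
    change inner ℝ ((c : ℝ)⁻¹ • Φ r M x) y = inner ℝ x ((c : ℝ)⁻¹ • Φ r M y)
    rw [real_inner_smul_left, real_inner_smul_right, hMs]
  have hinj : ∀ y, U (U y) = y → y = 0 := by
    intro y hy
    have h3 : ‖y‖ ≤ ‖U y‖ := by
      calc ‖y‖ = ‖U (U y)‖ := by rw [hy]
        _ ≤ ‖U y‖ := hUle _
    have h4 := hU2 y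
    have h5 : ‖y‖ ^ 2 ≤ ‖U y‖ ^ 2 := pow_le_pow_left₀ (norm_nonneg y) h3 2
    have h6 : (c : ℝ)⁻¹ * ‖ρ k r X y‖ ^ 2 ≤ 0 := by linarith
    have h7 : ‖ρ k r X y‖ ^ 2 ≤ 0 := by
      by_contra h8
      push Not at h8
      have : 0 < (c : ℝ)⁻¹ * ‖ρ k r X y‖ ^ 2 := mul_pos (inv_pos.mpr hc0) h8
      linarith
    have h9 : ρ k r X y = 0 := by
      have : ‖ρ k r X y‖ = 0 := by
        have := le_antisymm h7 (sq_nonneg _)
        exact pow_eq_zero_iff two_ne_zero |>.mp this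
      exact norm_eq_zero.mp this
    have h10 := hX (fun a g => (y : P × Fin r → ℝ) (g, a)) (by
      intro a
      have h11 : Summable (fun p => ‖(y : P × Fin r → ℝ) p‖ ^ (2 : ENNReal).toReal) :=
        (lp.memℓp y).summable two_pos
      have h12 := h11.comp_injective
        (i := fun g : P => (g, a)) (fun _ _ h => congrArg Prod.fst h)
      refine h12.congr (fun g => ?_)
      change ‖(y : P × Fin r → ℝ) (g, a)‖ ^ (2 : ℝ) = _
      rw [Real.rpow_two, Real.norm_eq_abs, sq_abs]) (by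
      intro i g
      have h11 := hco k r X y g i
      rw [h9] at h11
      rw [← h11]
      rfl)
    apply lp.ext
    funext p
    exact h10 p.2 p.1
  have hlim := h1 (HH P r) U hUs hUle hinj
  -- the unit vectors
  let e : ∀ s : ℕ, Fin s → HH P s := fun s a => lp.single 2 ((1 : P), a) (1 : ℝ)
  have hein : ∀ s a (y : HH P s), inner ℝ (e s a) y = (y : P × Fin s → ℝ) (1, a) := by
    intro s a y
    have h3 := lp.inner_single_left (𝕜 := ℝ) (G := fun _ : P × Fin s => ℝ) ((1 : P), a) (1 : ℝ) y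
    rw [h3]
    change (y : P × Fin s → ℝ) (1, a) * (1 : ℝ) = _
    rw [mul_one]
  have hcoe : ∀ s (N : Matrix (Fin s) (Fin s) (ZG P)) (a : Fin s),
      ‖Φ s N (e s a)‖ ^ 2 = (((Nᴴ * N) a a).coeff 1 : ℝ) := by
    intro s N a
    rw [← real_inner_self_eq_norm_sq]
    have h3 : inner ℝ (Φ s N (e s a)) (Φ s N (e s a)) =
        inner ℝ (e s a) (ρ s s (Nᴴ * N) (e s a)) := by
      rw [hmul]
      exact hadj s s N _ _
    rw [h3, hein, hco, Finset.sum_eq_single a]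
    · unfold Finsupp.sum
      rw [Finset.sum_eq_single (1 : P)]
      · have h4 : ((e s a : HH P s) : P × Fin s → ℝ) ((1 : P)⁻¹ * 1, a) = 1 := by
          rw [inv_one, mul_one]
          exact lp.single_apply_self (E := fun _ : P × Fin s => ℝ) 2 ((1 : P), a) (1 : ℝ)
        beta_reduce
        rw [h4, mul_one]
      · intro h _ hh
        have h4 : ((e s a : HH P s) : P × Fin s → ℝ) (h⁻¹ * 1, a) = 0 := by
          refine lp.single_apply_ne (E := fun _ : P × Fin s => ℝ) 2 ((1 : P), a) (1 : ℝ) ?_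
          intro h5
          have h6 := congrArg Prod.fst h5
          simp only [mul_one] at h6
          exact hh (inv_eq_one.mp h6)
        beta_reduce
        rw [h4, mul_zero]
      · intro h
        beta_reduce
        rw [Finsupp.notMem_support_iff.mp h, Int.cast_zero, zero_mul]
    · intro b _ hb
      refine Finset.sum_eq_zero (fun h _ => ?_)
      have h4 : ((e s a : HH P s) : P × Fin s → ℝ) (h⁻¹ * 1, b) = 0 := by
        refine lp.single_apply_ne (E := fun _ : P × Fin s => ℝ) 2 ((1 : P), a) (1 : ℝ) ?_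
        intro h5
        exact hb (congrArg Prod.snd h5)
      change _ * ((e s a : HH P s) : P × Fin s → ℝ) (h⁻¹ * 1, b) = 0
      rw [h4, mul_zero]
    · intro h
      exact absurd (Finset.mem_univ _) h
  have hpow : ∀ n x, Φ r (M ^ n) x = (c : ℝ) ^ n • (U ^ n) x := by
    intro n x
    have h3 : Φ r M = (c : ℝ) • U := by
      change Φ r M = (c : ℝ) • ((c : ℝ)⁻¹ • Φ r M)
      rw [smul_smul, mul_inv_cancel₀ hc0.ne', one_smul]
    rw [map_pow, h3, smul_pow]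
    rfl
  -- the inequality for every `n`
  have hineq : ∀ n : ℕ, (r : ℝ) - ∑ a, ‖(U ^ n) (e r a)‖ ^ 2 ≤ (k : ℝ) := by
    intro n
    have h3 := DIM_id X c (n + n)
    have h4 : (DIM_tr (M ^ (n + n)) : ℝ) = (c : ℝ) ^ (n + n) * ∑ a, ‖(U ^ n) (e r a)‖ ^ 2 := by
      unfold DIM_tr
      rw [Int.cast_sum, Finset.mul_sum]
      refine Finset.sum_congr rfl (fun a _ => ?_)
      have h5 := hcoe r (M ^ n) a
      have h6 : (M ^ n)ᴴ * M ^ n = M ^ (n + n) := by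
        have h7 : Mᴴ = M := DIM_herm X c
        rw [Matrix.conjTranspose_pow, h7, ← pow_add]
      rw [h6] at h5
      rw [← h5, hpow, norm_smul, mul_pow, Real.norm_eq_abs, sq_abs]
      ring
    have h5 : (0 : ℝ) ≤ (DIM_tr (((c : Matrix (Fin k) (Fin k) (ZG P)) - X * Xᴴ) ^ (n + n)) : ℝ) := by
      unfold DIM_tr
      rw [Int.cast_sum]
      refine Finset.sum_nonneg (fun a _ => ?_)
      have h6 := hcoe k (((c : Matrix (Fin k) (Fin k) (ZG P)) - X * Xᴴ) ^ n) a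
      have h7 : ((c : Matrix (Fin k) (Fin k) (ZG P)) - X * Xᴴ)ᴴ =
          (c : Matrix (Fin k) (Fin k) (ZG P)) - X * Xᴴ := by
        have := DIM_herm Xᴴ c
        rw [Matrix.conjTranspose_conjTranspose] at this
        exact this
      rw [Matrix.conjTranspose_pow, h7, ← pow_add] at h6
      rw [← h6]
      positivity
    have h6 : ((r : ℝ) * (c : ℝ) ^ (n + n) - (DIM_tr (M ^ (n + n)) : ℝ)) =
        (k : ℝ) * (c : ℝ) ^ (n + n) -
          (DIM_tr (((c : Matrix (Fin k) (Fin k) (ZG P)) - X * Xᴴ) ^ (n + n)) : ℝ) := by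
      exact_mod_cast h3
    rw [h4] at h6
    have h7 : (0 : ℝ) < (c : ℝ) ^ (n + n) := pow_pos hc0 _
    have h8 : ((r : ℝ) - ∑ a, ‖(U ^ n) (e r a)‖ ^ 2) * (c : ℝ) ^ (n + n) ≤
        (k : ℝ) * (c : ℝ) ^ (n + n) := by
      linarith
    exact le_of_mul_le_mul_right h8 h7
  have hlim2 : Filter.Tendsto (fun n : ℕ => (r : ℝ) - ∑ a, ‖(U ^ n) (e r a)‖ ^ 2) Filter.atTop
      (nhds ((r : ℝ) - ∑ _a : Fin r, (0 : ℝ) ^ 2)) := by
    refine Filter.Tendsto.sub tendsto_const_nhds ?_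
    refine tendsto_finsetSum _ (fun a _ => ?_)
    exact (hlim (e r a)).pow 2
  have h3 := le_of_tendsto' hlim2 hineq
  have h4 : (r : ℝ) ≤ (k : ℝ) := by
    have h5 : ∑ _a : Fin r, (0 : ℝ) ^ 2 = 0 := by
      refine Finset.sum_eq_zero (fun _ _ => ?_)
      rw [zero_pow two_ne_zero]
    rw [h5, sub_zero] at h3
    exact h3
  exact_mod_cast h4

end Pool.Agent.SFG
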