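import Pool.Agent.SFG.StV

/-!
# DM1: powers of a self-adjoint contraction without eigenvalue `±1`
-/

set_option autoImplicit false

namespace Pool.Agent.SFG

open Filter Topology

theorem DM1 : St_DM1 := by
  intro H _ _ _ U hsa hc h1 x
  -- the norms are decreasing and converge
  have hanti : Antitone fun n : ℕ => ‖(U ^ n) x‖ := by
    refine antitone_nat_of_succ_le fun n => ?_
    have h2 : (U ^ (n + 1)) x = U ((U ^ n) x) := by
      rw [pow_succ']
      rfl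
    rw [h2]
    exact hc _
  obtain ⟨l, hl⟩ : ∃ l, Tendsto (fun n : ℕ => ‖(U ^ n) x‖) atTop (𝓝 l) :=
    ⟨_, tendsto_atTop_ciInf hanti ⟨0, by rintro _ ⟨n, rfl⟩; exact norm_nonneg _⟩⟩
  -- inner products
  have hin : ∀ a b : ℕ, ∀ z w : H, inner ℝ ((U ^ (a + b)) z) w = inner ℝ ((U ^ a) z) ((U ^ b) w) := by
    intro a b
    induction b with
    | zero => intro z w; simp
    | succ b ih =>
      intro z w
      have h2 : (U ^ (a + (b + 1))) z = U ((U ^ (a + b)) z) := by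
        rw [← add_assoc, pow_succ']
        rfl
      have h3 : (U ^ (b + 1)) w = (U ^ b) (U w) := by
        rw [pow_succ]
        rfl
      rw [h2, hsa, ih, h3]
  have hin2 : ∀ m n : ℕ, inner ℝ ((U ^ (2 * m)) x) ((U ^ (2 * n)) x) =
      ‖(U ^ (m + n)) x‖ ^ 2 := by
    intro m n
    rw [← real_inner_self_eq_norm_sq, ← hin, ← hin]
    congr 3
    ring
  have hdiff : ∀ m n : ℕ, ‖(U ^ (2 * m)) x - (U ^ (2 * n)) x‖ ^ 2 =
      ‖(U ^ (2 * m)) x‖ ^ 2 - 2 * ‖(U ^ (m + n)) x‖ ^ 2 + ‖(U ^ (2 * n)) x‖ ^ 2 := by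
    intro m n
    rw [norm_sub_sq_real, hin2]
  have hl2 : Tendsto (fun n : ℕ => ‖(U ^ n) x‖ ^ 2) atTop (𝓝 (l ^ 2)) := hl.pow 2
  -- the even powers form a Cauchy sequence
  have hcau : CauchySeq fun n : ℕ => (U ^ (2 * n)) x := by
    rw [Metric.cauchySeq_iff]
    intro ε hε
    have hε2 : 0 < ε ^ 2 / 8 := by positivity
    obtain ⟨N, hN⟩ := (Metric.tendsto_atTop.1 hl2) (ε ^ 2 / 8) hε2
    refine ⟨N, fun m hm n hn => ?_⟩
    rw [dist_eq_norm]
    have e1 := hN (2 * m) (by omega)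
    have e2 := hN (2 * n) (by omega)
    have e3 := hN (m + n) (by omega)
    rw [Real.dist_eq, abs_lt] at e1 e2 e3
    have e4 : ‖(U ^ (2 * m)) x - (U ^ (2 * n)) x‖ ^ 2 < ε ^ 2 := by
      rw [hdiff]
      nlinarith
    exact lt_of_pow_lt_pow_left₀ 2 hε.le e4
  obtain ⟨y, hy⟩ := cauchySeq_tendsto_of_complete hcau
  have hy1 : U (U y) = y := by
    have h2 : Tendsto (fun n : ℕ => (U ^ (2 * (n + 1))) x) atTop (𝓝 y) :=
      hy.comp (tendsto_add_atTop_nat 1)
    have h3 : Tendsto (fun n : ℕ => U (U ((U ^ (2 * n)) x))) atTop (𝓝 (U (U y))) :=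
      (U.continuous.tendsto _).comp ((U.continuous.tendsto _).comp hy)
    have h4 : (fun n : ℕ => (U ^ (2 * (n + 1))) x) = fun n : ℕ => U (U ((U ^ (2 * n)) x)) := by
      funext n
      rw [mul_add, mul_one, show 2 * n + 2 = (2 * n + 1) + 1 from rfl, pow_succ', pow_succ']
      rfl
    rw [h4] at h2
    exact tendsto_nhds_unique h3 h2
  have hy0 : y = 0 := h1 y hy1
  have h5 : Tendsto (fun n : ℕ => ‖(U ^ (2 * n)) x‖) atTop (𝓝 0) := by
    have h6 := hy.norm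
    rwa [hy0, norm_zero] at h6
  have h6 : Tendsto (fun n : ℕ => ‖(U ^ (2 * n)) x‖) atTop (𝓝 l) :=
    hl.comp (tendsto_id.const_mul_atTop' (by norm_num : 0 < 2))
  have h7 : l = 0 := tendsto_nhds_unique h6 h5
  rw [h7] at hl
  exact hl

end Pool.Agent.SFG
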