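import Pool.Agent.SFG.StV

/-!
# SFG [DM2]: matrices over the integral group ring act on square summable families
-/

set_option autoImplicit false

namespace Pool.Agent.SFG

open Matrix Pool.Agent.CPD Pool.Agent.SPD

section Act

variable {P : Type} [Group P]

private noncomputable def DM2_act (m : ZG P) (y : P → ℝ) (g : P) : ℝ :=
  m.coeff.sum (fun h n => (n : ℝ) * y (h⁻¹ * g))

private theorem DM2_act_zero (y : P → ℝ) (g : P) : DM2_act 0 y g = 0 := by
  unfold DM2_act
  exact Finsupp.sum_zero_index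

private theorem DM2_act_add (m m' : ZG P) (y : P → ℝ) (g : P) :
    DM2_act (m + m') y g = DM2_act m y g + DM2_act m' y g := by
  classical
  unfold DM2_act
  rw [MonoidAlgebra.coeff_add]
  refine Finsupp.sum_add_index' (fun h => ?_) (fun h a b => ?_)
  · rw [Int.cast_zero, zero_mul]
  · rw [Int.cast_add, add_mul]

private theorem DM2_act_single (h : P) (n : ℤ) (y : P → ℝ) (g : P) :
    DM2_act (MonoidAlgebra.single h n) y g = (n : ℝ) * y (h⁻¹ * g) := by
  unfold DM2_act
  rw [MonoidAlgebra.coeff_single]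
  refine Finsupp.sum_single_index ?_
  rw [Int.cast_zero, zero_mul]

private theorem DM2_act_mul (m m' : ZG P) (y : P → ℝ) (g : P) :
    DM2_act (m * m') y g = DM2_act m (DM2_act m' y) g := by
  induction m using MonoidAlgebra.induction_linear generalizing g with
  | zero => rw [zero_mul, DM2_act_zero, DM2_act_zero]
  | add a b ha hb => rw [add_mul, DM2_act_add, DM2_act_add, ha, hb]
  | single h n =>
    rw [DM2_act_single]
    induction m' using MonoidAlgebra.induction_linear with
    | zero => rw [mul_zero, DM2_act_zero, DM2_act_zero, mul_zero]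
    | add a b ha hb => rw [mul_add, DM2_act_add, DM2_act_add, ha, hb, mul_add]
    | single h' n' =>
      rw [MonoidAlgebra.single_mul_single, DM2_act_single, DM2_act_single, Int.cast_mul,
        _root_.mul_inv_rev, mul_assoc, mul_assoc]

private theorem DM2_act_one (y : P → ℝ) (g : P) : DM2_act 1 y g = y g := by
  rw [MonoidAlgebra.one_def, DM2_act_single, Int.cast_one, one_mul, inv_one, one_mul]

private theorem DM2_act_sum {ι : Type} (s : Finset ι) (m : ι → ZG P) (y : P → ℝ) (g : P) :
    DM2_act (∑ j ∈ s, m j) y g = ∑ j ∈ s, DM2_act (m j) y g := by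
  classical
  induction s using Finset.induction_on with
  | empty => rw [Finset.sum_empty, Finset.sum_empty, DM2_act_zero]
  | insert a s ha ih => rw [Finset.sum_insert ha, Finset.sum_insert ha, DM2_act_add, ih]

private theorem DM2_act_sum_right {ι : Type} (s : Finset ι) (m : ZG P) (y : ι → P → ℝ) (g : P) :
    DM2_act m (fun g' => ∑ j ∈ s, y j g') g = ∑ j ∈ s, DM2_act m (y j) g := by
  unfold DM2_act
  unfold Finsupp.sum
  rw [Finset.sum_comm]
  refine Finset.sum_congr rfl (fun h _ => ?_)
  exact Finset.mul_sum _ _ _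

private theorem DM2_star_sum (m : ZG P) (F : P → ℤ → ℝ) (h0 : ∀ h, F h 0 = 0)
    (h1 : ∀ h a b, F h (a + b) = F h a + F h b) :
    (star m).coeff.sum F = m.coeff.sum (fun h n => F h⁻¹ n) := by
  classical
  induction m using MonoidAlgebra.induction_linear with
  | zero =>
    rw [star_zero]
    exact (Finsupp.sum_zero_index).trans (Finsupp.sum_zero_index).symm
  | add a b ha hb =>
    rw [star_add, MonoidAlgebra.coeff_add, MonoidAlgebra.coeff_add,
      Finsupp.sum_add_index' h0 h1, ha, hb,
      Finsupp.sum_add_index' (fun h => h0 h⁻¹) (fun h a b => h1 h⁻¹ a b)]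
  | single h n =>
    have e : star (MonoidAlgebra.single h n : ZG P) = MonoidAlgebra.single h⁻¹ n := gs_single h n
    rw [e, MonoidAlgebra.coeff_single, MonoidAlgebra.coeff_single,
      Finsupp.sum_single_index (h0 _)]
    exact (Finsupp.sum_single_index (h := fun h n => F h⁻¹ n) (h0 _)).symm

end Act

section Iso

variable {P : Type} [Group P]

private theorem DM2_two : (2 : ENNReal).toReal = 2 := rfl

private theorem DM2_sq {α : Type} (x : lp (fun _ : α => ℝ) 2) :
    Summable (fun p => ‖(x : α → ℝ) p‖ ^ (2 : ENNReal).toReal) :=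
  (lp.memℓp x).summable (by rw [DM2_two]; exact two_pos)

omit [Group P] in
private theorem DM2_inj {k : ℕ} (i : Fin k) : Function.Injective (fun g : P => (g, i)) :=
  fun _ _ h => congrArg Prod.fst h

private theorem DM2_inj2 {r : ℕ} (h : P) (a : Fin r) :
    Function.Injective (fun g : P => (h⁻¹ * g, a)) :=
  fun _ _ e => mul_left_cancel (congrArg Prod.fst e)

private noncomputable def DM2_fn {k r : ℕ} (h : P) (i : Fin k) (a : Fin r)
    (x : P × Fin r → ℝ) : P × Fin k → ℝ :=
  fun p => if p.2 = i then x (h⁻¹ * p.1, a) else 0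

private theorem DM2_fn_comp {k r : ℕ} (h : P) (i : Fin k) (a : Fin r) (x : P × Fin r → ℝ) :
    (fun p => ‖DM2_fn h i a x p‖ ^ (2 : ENNReal).toReal) ∘ (fun g : P => (g, i)) =
      (fun p => ‖x p‖ ^ (2 : ENNReal).toReal) ∘ (fun g : P => (h⁻¹ * g, a)) := by
  funext g
  simp only [Function.comp_def, DM2_fn, if_true]

private theorem DM2_fn_out {k r : ℕ} (h : P) (i : Fin k) (a : Fin r) (x : P × Fin r → ℝ)
    (p : P × Fin k) (hp : p ∉ Set.range (fun g : P => (g, i))) : DM2_fn h i a x p = 0 := by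
  have h1 : ¬ p.2 = i := fun h2 => hp ⟨p.1, Prod.ext rfl h2.symm⟩
  unfold DM2_fn
  rw [if_neg h1]

private theorem DM2_zp : ‖(0 : ℝ)‖ ^ (2 : ENNReal).toReal = 0 := by
  rw [DM2_two, norm_zero, Real.zero_rpow two_ne_zero]

private theorem DM2_mem {k r : ℕ} (h : P) (i : Fin k) (a : Fin r) (x : HH P r) :
    Memℓp (DM2_fn h i a (x : P × Fin r → ℝ)) 2 := by
  apply memℓp_gen
  have h1 := (DM2_inj (P := P) i).summable_iff
    (f := fun p => ‖DM2_fn h i a (x : P × Fin r → ℝ) p‖ ^ (2 : ENNReal).toReal) (by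
      intro p hp
      simp only [DM2_fn_out h i a _ p hp]
      exact DM2_zp)
  rw [DM2_fn_comp] at h1
  exact h1.mp ((DM2_sq x).comp_injective (DM2_inj2 h a))

private noncomputable def DM2_S {k r : ℕ} (h : P) (i : Fin k) (a : Fin r) :
    HH P r →L[ℝ] HH P k :=
  LinearMap.mkContinuous
    { toFun := fun x => ⟨DM2_fn h i a (x : P × Fin r → ℝ), DM2_mem h i a x⟩
      map_add' := by
        intro x y
        apply lp.ext
        funext p
        change DM2_fn h i a _ p = DM2_fn h i a _ p + DM2_fn h i a _ p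
        unfold DM2_fn
        rw [lp.coeFn_add, Pi.add_apply]
        by_cases h1 : p.2 = i
        · rw [if_pos h1, if_pos h1, if_pos h1]
        · rw [if_neg h1, if_neg h1, if_neg h1, add_zero]
      map_smul' := by
        intro c x
        apply lp.ext
        funext p
        change DM2_fn h i a _ p = c • DM2_fn h i a _ p
        unfold DM2_fn
        rw [lp.coeFn_smul, Pi.smul_apply]
        by_cases h1 : p.2 = i
        · rw [if_pos h1, if_pos h1]
        · rw [if_neg h1, if_neg h1, smul_zero] } 1 (by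
    intro x
    rw [one_mul]
    have h2 : (0 : ℝ) < (2 : ENNReal).toReal := by rw [DM2_two]; exact two_pos
    refine lp.norm_le_of_tsum_le h2 (norm_nonneg x) ?_
    rw [lp.norm_rpow_eq_tsum h2 x]
    change ∑' p, ‖DM2_fn h i a (x : P × Fin r → ℝ) p‖ ^ (2 : ENNReal).toReal ≤ _
    rw [← (DM2_inj (P := P) i).tsum_eq
      (f := fun p => ‖DM2_fn h i a (x : P × Fin r → ℝ) p‖ ^ (2 : ENNReal).toReal) (by
        intro p hp
        by_contra h3
        refine hp ?_
        simp only [DM2_fn_out h i a _ p h3]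
        exact DM2_zp)]
    have h4 := DM2_fn_comp h i a (x : P × Fin r → ℝ)
    have h5 := tsum_comp_le_tsum_of_inj (DM2_sq x)
      (fun p => Real.rpow_nonneg (norm_nonneg _) _) (DM2_inj2 h a)
    rw [← h4] at h5
    exact h5)

private theorem DM2_S_apply {k r : ℕ} (h : P) (i : Fin k) (a : Fin r) (x : HH P r)
    (p : P × Fin k) : (DM2_S h i a x : P × Fin k → ℝ) p =
      if p.2 = i then (x : P × Fin r → ℝ) (h⁻¹ * p.1, a) else 0 := rfl

private theorem DM2_S_adj {k r : ℕ} (h : P) (i : Fin k) (a : Fin r) (x : HH P r) (y : HH P k) :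
    inner ℝ (DM2_S h i a x) y = inner ℝ x (DM2_S h⁻¹ a i y) := by
  rw [lp.inner_eq_tsum, lp.inner_eq_tsum]
  rw [← (DM2_inj (P := P) i).tsum_eq (f := fun p => inner ℝ ((DM2_S h i a x : HH P k) p) (y p)) (by
    intro p hp
    by_contra h3
    refine hp ?_
    have h4 : (DM2_S h i a x : P × Fin k → ℝ) p = 0 := DM2_fn_out h i a _ p h3
    simp only [h4]
    exact inner_zero_left _)]
  rw [← (DM2_inj (P := P) a).tsum_eq (f := fun p => inner ℝ (x p) ((DM2_S h⁻¹ a i y : HH P r) p))
    (by
    intro p hp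
    by_contra h3
    refine hp ?_
    have h4 : (DM2_S h⁻¹ a i y : P × Fin r → ℝ) p = 0 := DM2_fn_out h⁻¹ a i _ p h3
    simp only [h4]
    exact inner_zero_right _)]
  rw [← (Equiv.mulLeft h).tsum_eq (fun g => inner ℝ ((DM2_S h i a x : HH P k) (g, i)) (y (g, i)))]
  refine tsum_congr (fun g => ?_)
  rw [DM2_S_apply, DM2_S_apply, if_pos rfl, if_pos rfl]
  simp only [Equiv.coe_mulLeft, inv_mul_cancel_left, inv_inv]

end Iso

section Rho

variable {P : Type} [Group P]

private noncomputable def DM2_rho {k r : ℕ} (X : Matrix (Fin k) (Fin r) (ZG P)) :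
    HH P r →L[ℝ] HH P k :=
  ∑ i, ∑ a, (X i a).coeff.sum (fun h n => (n : ℝ) • DM2_S h i a)

private theorem DM2_lin {k r : ℕ} (L : (HH P r →L[ℝ] HH P k) →ₗ[ℝ] ℝ)
    (X : Matrix (Fin k) (Fin r) (ZG P)) :
    L (DM2_rho X) = ∑ i, ∑ a, (X i a).coeff.sum (fun h n => (n : ℝ) * L (DM2_S h i a)) := by
  unfold DM2_rho
  rw [map_sum]
  refine Finset.sum_congr rfl (fun i _ => ?_)
  rw [map_sum]
  refine Finset.sum_congr rfl (fun a _ => ?_)
  rw [map_finsuppSum]
  refine Finsupp.sum_congr (fun h _ => ?_)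
  rw [map_smul, smul_eq_mul]

private noncomputable def DM2_ev {k r : ℕ} (x : HH P r) (p : P × Fin k) :
    (HH P r →L[ℝ] HH P k) →ₗ[ℝ] ℝ where
  toFun T := (T x : P × Fin k → ℝ) p
  map_add' T T' := by
    rw [_root_.add_apply, lp.coeFn_add, Pi.add_apply]
  map_smul' c T := by
    rw [_root_.smul_apply, lp.coeFn_smul, Pi.smul_apply, RingHom.id_apply]

private theorem DM2_rho_apply {k r : ℕ} (X : Matrix (Fin k) (Fin r) (ZG P)) (x : HH P r) (g : P)
    (i : Fin k) : (DM2_rho X x : P × Fin k → ℝ) (g, i) =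
      ∑ a, (X i a).coeff.sum (fun h n => (n : ℝ) * (x : P × Fin r → ℝ) (h⁻¹ * g, a)) := by
  have h1 := DM2_lin (DM2_ev x (g, i)) X
  have h2 : DM2_ev x (g, i) (DM2_rho X) = (DM2_rho X x : P × Fin k → ℝ) (g, i) := rfl
  rw [← h2, h1, Finset.sum_eq_single i]
  · refine Finset.sum_congr rfl (fun a _ => ?_)
    refine Finsupp.sum_congr (fun h _ => ?_)
    have h3 : DM2_ev x (g, i) (DM2_S h i a) = (x : P × Fin r → ℝ) (h⁻¹ * g, a) := if_pos rfl
    rw [h3]
  · intro j _ hj
    refine Finset.sum_eq_zero (fun a _ => ?_)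
    refine Finset.sum_eq_zero (fun h _ => ?_)
    have h3 : DM2_ev x (g, i) (DM2_S h j a) = 0 := if_neg (fun e => hj e.symm)
    simp only [h3, mul_zero]
  · intro h
    exact absurd (Finset.mem_univ _) h

private theorem DM2_rho_act {k r : ℕ} (X : Matrix (Fin k) (Fin r) (ZG P)) (x : HH P r) (g : P)
    (i : Fin k) : (DM2_rho X x : P × Fin k → ℝ) (g, i) =
      ∑ a, DM2_act (X i a) (fun g' => (x : P × Fin r → ℝ) (g', a)) g :=
  DM2_rho_apply X x g i

end Rho

theorem DM2 : St_DM2 := by
  classical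
  intro P _
  refine ⟨fun k r X => DM2_rho X, ?_, ?_, ?_, ?_, ?_⟩
  · intro k r X x g i
    exact DM2_rho_apply X x g i
  · intro k r X Y
    refine ContinuousLinearMap.ext (fun x => ?_)
    apply lp.ext
    funext p
    obtain ⟨g, i⟩ := p
    rw [_root_.add_apply, lp.coeFn_add, Pi.add_apply, DM2_rho_act, DM2_rho_act,
      DM2_rho_act, ← Finset.sum_add_distrib]
    refine Finset.sum_congr rfl (fun a _ => ?_)
    rw [Matrix.add_apply, DM2_act_add]
  · intro k r m X Y x
    apply lp.ext
    funext p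
    obtain ⟨g, i⟩ := p
    change (DM2_rho (X * Y) x : P × Fin k → ℝ) (g, i) =
      (DM2_rho X (DM2_rho Y x) : P × Fin k → ℝ) (g, i)
    rw [DM2_rho_act, DM2_rho_act]
    have h1 : ∀ b, DM2_act ((X * Y) i b) (fun g' => (x : P × Fin m → ℝ) (g', b)) g =
        ∑ a, DM2_act (X i a) (DM2_act (Y a b) (fun g' => (x : P × Fin m → ℝ) (g', b))) g := by
      intro b
      rw [Matrix.mul_apply, DM2_act_sum]
      refine Finset.sum_congr rfl (fun a _ => ?_)
      rw [DM2_act_mul]
    rw [Finset.sum_congr rfl (fun b _ => h1 b), Finset.sum_comm]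
    refine Finset.sum_congr rfl (fun a _ => ?_)
    rw [← DM2_act_sum_right]
    congr 1
    funext g'
    rw [DM2_rho_act]
  · intro r x
    apply lp.ext
    funext p
    obtain ⟨g, i⟩ := p
    change (DM2_rho 1 x : P × Fin r → ℝ) (g, i) = (x : P × Fin r → ℝ) (g, i)
    rw [DM2_rho_act, Finset.sum_eq_single i]
    · rw [Matrix.one_apply_eq, DM2_act_one]
    · intro j _ hj
      rw [Matrix.one_apply_ne (Ne.symm hj), DM2_act_zero]
    · intro h
      exact absurd (Finset.mem_univ _) h
  · intro k r X x y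
    change inner ℝ (DM2_rho X x) y = inner ℝ x (DM2_rho Xᴴ y)
    have h1 := DM2_lin
      ({ toFun := fun T => inner ℝ (T x) y
         map_add' := fun T T' => by rw [_root_.add_apply, inner_add_left]
         map_smul' := fun c T => by
           rw [_root_.smul_apply, real_inner_smul_left, RingHom.id_apply,
             smul_eq_mul] } : (HH P r →L[ℝ] HH P k) →ₗ[ℝ] ℝ) X
    have h2 := DM2_lin
      ({ toFun := fun T => inner ℝ x (T y)
         map_add' := fun T T' => by rw [_root_.add_apply, inner_add_right]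
         map_smul' := fun c T => by
           rw [_root_.smul_apply, real_inner_smul_right, RingHom.id_apply,
             smul_eq_mul] } : (HH P k →L[ℝ] HH P r) →ₗ[ℝ] ℝ) Xᴴ
    refine h1.trans (Eq.trans ?_ h2.symm)
    rw [Finset.sum_comm]
    refine Finset.sum_congr rfl (fun a _ => ?_)
    refine Finset.sum_congr rfl (fun i _ => ?_)
    rw [Matrix.conjTranspose_apply, DM2_star_sum _ _ (fun h => by rw [Int.cast_zero, zero_mul])
      (fun h a b => by rw [Int.cast_add, add_mul])]
    refine Finsupp.sum_congr (fun h _ => ?_)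
    change _ * inner ℝ (DM2_S h i a x) y = _ * inner ℝ x (DM2_S h⁻¹ a i y)
    rw [DM2_S_adj]

end Pool.Agent.SFG
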