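import Pool.Agent.SFG.StG

/-!
helper58. SFG, module EXT: extensions along an increasing sequence of free splittings.
-/

set_option autoImplicit false

namespace Pool.Agent.SFG

open Pool.Agent.CPD Pool.Agent.SPD

/-- `f` satisfies the relation `R` on `A` -/
private def EXT_G {P X : Type} [Group P] (R : P → X → X → X → Prop) (A : Subgroup P) (f : P → X) :
    Prop := ∀ a ∈ A, ∀ b ∈ A, R a (f a) (f b) (f (a * b))

/-- the limit of a coherent sequence of functions -/
private theorem EXT_lim {P X : Type} [Group P] (R : P → X → X → X → Prop) (C : ℕ → Subgroup P)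
    (hmono : ∀ n, C n ≤ C (n + 1)) (hexh : ∀ p, ∃ n, p ∈ C n)
    (hstep : ∀ n f, EXT_G R (C n) f → ∃ f', EXT_G R (C (n + 1)) f' ∧ ∀ x ∈ C n, f' x = f x)
    (n : ℕ) (f : P → X) (hf : EXT_G R (C n) f) :
    ∃ g, EXT_G R ⊤ g ∧ ∀ x ∈ C n, g x = f x := by
  classical
  choose! s hs1 hs2 using hstep
  let F : ℕ → (P → X) := fun m => Nat.rec f (fun m f' => s (n + m) f') m
  have hF0 : F 0 = f := rfl
  have hFs : ∀ m, F (m + 1) = s (n + m) (F m) := fun m => rfl
  have hFG : ∀ m, EXT_G R (C (n + m)) (F m) := by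
    intro m
    induction m with
    | zero => exact hf
    | succ m ih => exact hs1 (n + m) (F m) ih
  have hmm : ∀ {i j : ℕ}, i ≤ j → C i ≤ C j := fun {i j} h => monotone_nat_of_le_succ hmono h
  have hag : ∀ m k, ∀ x ∈ C (n + m), F (m + k) x = F m x := by
    intro m k x hx
    induction k with
    | zero => rfl
    | succ k ih =>
      have h1 : F (m + (k + 1)) x = F (m + k) x :=
        hs2 (n + (m + k)) (F (m + k)) (hFG (m + k)) x (hmm (by omega) hx)
      rw [h1, ih]
  have hex : ∀ p : P, ∃ m, p ∈ C (n + m) := by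
    intro p
    obtain ⟨k, hk⟩ := hexh p
    exact ⟨k, hmm (by omega) hk⟩
  choose N hN using hex
  have hg : ∀ p m, p ∈ C (n + m) → F (N p) p = F m p := by
    intro p m hp
    rw [← hag (N p) m p (hN p), ← hag m (N p) p hp, add_comm]
  refine ⟨fun p => F (N p) p, ?_, ?_⟩
  · intro a _ b _
    have ha : a ∈ C (n + (N a + N b)) := hmm (by omega) (hN a)
    have hb : b ∈ C (n + (N a + N b)) := hmm (by omega) (hN b)
    have h := hFG (N a + N b) a ha b hb
    rw [← hg a _ ha, ← hg b _ hb, ← hg (a * b) _ (mul_mem ha hb)] at h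
    exact h
  · intro x hx
    exact hg x 0 hx

theorem EXT (hSB : St_SB) : St_EXT := by
  intro P _ C K hS hexh
  obtain ⟨-, -, sb3, -, -, -, -⟩ := hSB P
  have hC : ∀ n, C n ≤ C (n + 1) := fun n => by
    rw [← (hS n).sup]
    exact le_sup_left
  have hK : ∀ n, K n ≤ C (n + 1) := fun n => by
    rw [← (hS n).sup]
    exact le_sup_right
  have h1 : ∀ n (N : Type) [Group N] (φ : P → N), MulOn (C n) φ →
      ∃ χ : P → N, MulOn ⊤ χ ∧ ∀ x ∈ C n, χ x = φ x := by
    intro n N _ φ hφ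
    exact EXT_lim (fun _ x y z => z = x * y) C hC hexh (fun n f hf => by
      obtain ⟨χ, c1, c2, -⟩ := (hS n).ext N f 1 hf (fun a _ b _ => by simp)
      exact ⟨χ, c1, c2⟩) n φ hφ
  refine ⟨h1, fun n => ?_, fun hZ n χ hχ a ha => ?_⟩
  · obtain ⟨d, hd1, hd2, hd3⟩ := sb3 (C n) (K n) (C (n + 1)) 0 (fun x => gr x - 1) (hS n)
      (fun a _ b _ => by simp) (fun a _ b _ => by
        have : (gr (a * b) : ZG P) = gr a * gr b := by
          simp [gr, MonoidAlgebra.single_mul_single]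
        show gr (a * b) - 1 = (gr a - 1) + gr a * (gr b - 1)
        rw [this]
        noncomm_ring)
    obtain ⟨g, hg1, hg2⟩ := EXT_lim (fun a x y z => z = x + gr a * y) C hC hexh (fun n f hf => by
      obtain ⟨χ, c1, c2, -⟩ := sb3 (C n) (K n) (C (n + 1)) f 0 (hS n) hf
        (fun a _ b _ => by simp)
      exact ⟨χ, c1, c2⟩) (n + 1) d hd1
    refine ⟨g, hg1, fun x hx => ?_, fun x hx => ?_⟩
    · rw [hg2 x (hC n hx), hd2 x hx]
      rfl
    · rw [hg2 x (hK n hx), hd3 x hx]
  · obtain ⟨χ', c1, -, c3⟩ := (hS n).ext (Multiplicative ℤ) 1 χ (fun a _ b _ => by simp) hχ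
    obtain ⟨χ'', e1, e2⟩ := h1 (n + 1) (Multiplicative ℤ) χ' c1
    rw [← c3 a ha, ← e2 a (hK n ha)]
    exact hZ χ'' e1 a (Subgroup.mem_top a)

end Pool.Agent.SFG
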