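import Pool.Agent.SFG.StX

/-!
# Module FGI : finite generation at infinity
-/

set_option autoImplicit false

namespace Pool.Agent.SFG

open Matrix Pool.Agent.CPD Pool.Agent.SPD

theorem FGI (hW0 : SPD.St_W0) (hW1 : SPD.St_W1) (hD0 : CPD.St_D0) (hD1 : CPD.St_D1) : St_FGI := by
  classical
  intro G _ α f R L hB hN K hK
  obtain ⟨w1, w2, w3, w4, w5, -, w7, w8, w9⟩ := hW0 G α f
  obtain ⟨-, -, -, -, -, d6⟩ := hD0 G α f
  obtain ⟨-, c2⟩ := hD1 G α f R hB.rel
  obtain ⟨N, hKN⟩ : ∃ N, ∀ v ∈ K, L.l v ≤ N := by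
    obtain ⟨N, hN⟩ := (hK.image L.l).bddAbove
    exact ⟨N, fun v hv => hN ⟨v, hv, rfl⟩⟩
  obtain ⟨π, _, T, n0, hLv, hFG⟩ := hN N
  obtain ⟨e1, -, -, e4⟩ := hW1 G α f R (Bl L n0) hB.rel
  refine ⟨Bl L n0, L.fin n0, fun v hv => le_trans (hKN v hv) hLv.le, ?_⟩
  intro C hC
  obtain ⟨k', hk'⟩ := hLv.surj n0
  have hinf := hB.inf
  obtain ⟨v, hv⟩ := (hC.union (L.fin k')).exists_notMem
  have hvC : v ∉ C := fun h => hv (Or.inl h)
  have hvk : k' < L.l v := by
    by_contra h
    exact hv (Or.inr (not_lt.1 h))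
  choose c hc using hk' v hvk
  obtain ⟨S0, hS0⟩ := Group.fg_def.1 hFG
  refine ⟨v, hvC, S0.image c, ?_, ?_⟩
  · intro s hs
    rw [Finset.mem_image] at hs
    obtain ⟨y, -, rfl⟩ := hs
    exact ⟨(hc y).1, (hc y).2.1⟩
  · intro w hw1 hw2
    have hlet : ∀ y : π, (y ∈ S0 ∨ y⁻¹ ∈ S0) → ∃ s : List (α × Bool),
        (s ∈ S0.image c ∨ winv s ∈ S0.image c) ∧ value f s = 1 ∧ Avoids f (Bl L n0) v s ∧
          hol f (SPD.lab f T) v s = y := by
      rintro y (hy | hy)
      · exact ⟨c y, Or.inl (Finset.mem_image_of_mem c hy), hc y⟩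
      · obtain ⟨h1, h2, h3⟩ := hc y⁻¹
        refine ⟨winv (c y⁻¹), Or.inr ?_, ?_, ?_, ?_⟩
        · rw [(w1 (c y⁻¹)).2.1]
          exact Finset.mem_image_of_mem c hy
        · rw [(w1 (c y⁻¹)).1, h1, inv_one]
        · have := (w4 (Bl L n0) v (c y⁻¹)).1 h2
          rwa [h1, mul_one] at this
        · have := e4 π (SPD.lab f T) hLv.lab v (c y⁻¹) h2
          rw [h1, mul_one, h3, inv_inv] at this
          exact this
    have hv0 : Avoids f (Bl L n0) v [] := by
      have h1 := (w8 (Bl L n0) v w hw2).1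
      intro n hn
      simp only [List.take_nil]
      show v * value f [] ∉ Bl L n0
      unfold value
      simpa using h1
    have hlist : ∀ l : List π, (∀ y ∈ l, y ∈ S0 ∨ y⁻¹ ∈ S0) → ∃ us : List (List (α × Bool)),
        (∀ s ∈ us, s ∈ S0.image c ∨ winv s ∈ S0.image c) ∧ value f us.flatten = 1 ∧
          Avoids f (Bl L n0) v us.flatten ∧ hol f (SPD.lab f T) v us.flatten = l.prod := by
      intro l
      induction l with
      | nil =>
        intro _
        refine ⟨[], by simp, rfl, hv0, rfl⟩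
      | cons y l ih =>
        intro hl
        obtain ⟨us, h1, h2, h3, h4⟩ := ih fun z hz => hl z (List.mem_cons_of_mem _ hz)
        obtain ⟨s, g1, g2, g3, g4⟩ := hlet y (hl y List.mem_cons_self)
        refine ⟨s :: us, ?_, ?_, ?_, ?_⟩
        · intro t ht
          rcases List.mem_cons.1 ht with rfl | ht
          · exact g1
          · exact h1 t ht
        · rw [List.flatten_cons, (w2 _ _).1, g2, h2, one_mul]
        · rw [List.flatten_cons, w3, g2, mul_one]
          exact ⟨g3, h3⟩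
        · rw [List.flatten_cons, w5, g2, mul_one, g4, h4, List.prod_cons]
    obtain ⟨l, hl1, hl2⟩ := Submonoid.exists_list_of_mem_closure
      (show hol f (SPD.lab f T) v w ∈ Submonoid.closure ((S0 : Set π) ∪ (S0 : Set π)⁻¹) by
        rw [← Subgroup.closure_toSubmonoid, hS0]
        trivial)
    obtain ⟨us, h1, h2, h3, h4⟩ := hlist l fun y hy => (hl1 y hy).imp id Set.mem_inv.1
    refine ⟨us, h1, ?_⟩
    rw [hl2] at h4
    have hNN : Bl L N ⊆ Bl L n0 := fun x hx => le_trans hx hLv.le
    have hKB : K ⊆ Bl L N := hKN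
    apply w9 K (Bl L N) R v w us.flatten hKB
    have hz : Avoids f (Bl L n0) v (winv us.flatten) := by
      have := (w4 (Bl L n0) v us.flatten).1 h3
      rwa [h2, mul_one] at this
    have hzv : value f (winv us.flatten) = 1 := by rw [(w1 _).1, h2, inv_one]
    have hwz : Avoids f (Bl L n0) v (w ++ winv us.flatten) := by
      rw [w3, hw1, mul_one]
      exact ⟨hw2, hz⟩
    have hh : hol f (SPD.lab f T) v (w ++ winv us.flatten) = 1 := by
      rw [w5, hw1, mul_one]
      have := e4 π (SPD.lab f T) hLv.lab v us.flatten h3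
      rw [h2, mul_one] at this
      rw [this, h4, mul_inv_cancel]
    have hf := hLv.faith v (w ++ winv us.flatten) (by rw [(w2 _ _).1, hw1, hzv, one_mul]) hwz hh
    have hwzz : Avoids f (Bl L N) v ([] ++ (w ++ winv us.flatten) ++ us.flatten) := by
      apply w7 (Bl L N) (Bl L n0) v _ hNN
      rw [List.nil_append, w3, (w2 _ _).1, hw1, hzv, mul_one, mul_one]
      exact ⟨hwz, h3⟩
    have p1 := c2 (Bl L N) v [] (w ++ winv us.flatten) [] us.flatten hwzz (by
      have : v * value f [] = v := by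
        unfold value
        simp
      rw [this]
      exact hf)
    have p2 := d6 R (Bl L N) v w (winv us.flatten) [] (by
      rw [List.append_nil]
      exact w7 (Bl L N) (Bl L n0) v _ hNN hw2) (by
      rw [hw1, mul_one]
      exact w7 (Bl L N) (Bl L n0) v _ hNN hz)
    have p3 : ((winv us.flatten).map (fun a => (a.1, !a.2))).reverse = us.flatten :=
      (w1 us.flatten).2.1
    rw [p3, List.append_nil, List.append_nil] at p2
    rw [List.nil_append, List.nil_append, List.nil_append] at p1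
    exact (p2.symm _ _).trans _ _ _ p1

end Pool.Agent.SFG
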