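import Pool.Agent.SFG.StX

/-!
# [FPN] The stable images are finitely generated (helper77)
-/

set_option autoImplicit false

namespace Pool.Agent.SFG

open Matrix Pool.Agent.CPD Pool.Agent.SPD

private theorem FPN_far {G : Type} [Group G] (hG : Infinite G) (L : Len G) (k : ℕ) :
    ∃ v, k < L.l v := by
  obtain ⟨v, hv⟩ := Infinite.exists_notMem_finset (L.ball k)
  refine ⟨v, ?_⟩
  rw [Len.mem_ball] at hv
  exact not_le.1 hv

private theorem FPN_count {G α π : Type} [Group G] [Group π] {f : α → G}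
    {R : Set (List (α × Bool))} {L : Len G} {N n0 : ℕ} {T : G → G → π} (hB : Base f R L)
    (hL : Lv f R L N n0 T) : Countable π := by
  have : Infinite G := hB.inf
  have : Finite α := hB.fin
  have : Countable α := Finite.to_countable
  obtain ⟨k', hk⟩ := hL.surj 0
  obtain ⟨v, hv⟩ := FPN_far hB.inf L k'
  choose w _ _ hw using hk v hv
  have hinj : Function.Injective w := by
    intro g h e
    have h1 := hw g
    rw [e, hw h] at h1
    exact h1.symm
  exact hinj.countable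

theorem FPN (hW7 : St_W7v) (hW8 : St_W8v) (hRAD : St_RAD) (hRMX : St_RMX) (hLTX : St_LTX)
    (hPF : St_PF) (hHXX : St_HXX) (hGT : St_GT) : St_FPN := by
  intro G _ α f R M hB hS N
  obtain ⟨π, iπ, T, n0, hL⟩ := hW7 G α f R M.L hB hS N
  obtain ⟨N1, hN1⟩ := hRAD G α π f R M N n0 T hB hS hL
  obtain ⟨π', iπ', T', n0', hL'⟩ := hW7 G α f R M.L hB hS (max N1 n0)
  obtain ⟨φ, m1, hφs, -, hφ⟩ := hW8 G α π π' f R M.L N n0 (max N1 n0) n0' T T' hB hL hL'
    (le_max_right _ _)
  have h1 := hN1 (max N1 n0) n0' π' T' φ m1 (le_max_left _ _) hL' hφ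
  obtain ⟨R0, hNT, hker, hrad⟩ := hRMX π π' φ h1
  obtain ⟨Q, iQ, θ, hθs, hθk, hLt⟩ := hLTX G α π' f R M.L (max N1 n0) n0' T' R0 hB hL' hNT hrad
  have hHX : HX Q := hHXX G α Q f R M n0' (fun v h => θ (T' v h)) hB hS hLt
  have hNoZ' : NoZ (⊤ : Subgroup π') := hPF G α π' f R M (max N1 n0) n0' T' hB hL'
  have hNoZ : NoZ (⊤ : Subgroup Q) := by
    intro χ hχ a _
    obtain ⟨x, rfl⟩ := hθs a
    have hm : MulOn (⊤ : Subgroup π') (fun y => χ (θ y)) := by
      intro a _ b _
      show χ (θ (a * b)) = χ (θ a) * χ (θ b)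
      rw [map_mul]
      exact hχ _ (Subgroup.mem_top _) _ (Subgroup.mem_top _)
    exact hNoZ' (fun y => χ (θ y)) hm x (Subgroup.mem_top _)
  have hcπ : Countable π' := FPN_count hB hL'
  have hcQ : Countable Q := hθs.countable
  have hQ : Group.FG Q := hGT Q hLt.tf hcQ hNoZ hHX
  refine ⟨π, iπ, T, n0, hL, ?_⟩
  have hle : θ.ker ≤ φ.ker := by
    rw [hθk]
    exact hker
  have hψ : Function.Surjective (θ.liftOfSurjective hθs ⟨φ, hle⟩) := by
    intro x
    obtain ⟨y, rfl⟩ := hφs x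
    exact ⟨θ y, MonoidHom.liftOfRightInverse_comp_apply _ _ _ _ _⟩
  exact Group.fg_of_surjective hψ

end Pool.Agent.SFG
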