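import Pool.Agent.SFG.StG

/-!
# SFG, module FRE: an infinite group which acts freely has no invariants in `ℤ[P ⧸ B]`
-/

set_option autoImplicit false

namespace Pool.Agent.SFG

open Pool.Agent.CPD Pool.Agent.SPD

/-- the image of `m` in `ℤ[P ⧸ B]` -/
private noncomputable def FRE_P {P : Type} [Group P] (B : Subgroup P) : ZG P →+ (P ⧸ B →₀ ℤ) :=
  (Finsupp.mapDomain.addMonoidHom (QuotientGroup.mk : P → P ⧸ B)).comp
    (MonoidAlgebra.coeffAddEquiv (R := ℤ) (M := P)).toAddMonoidHom

private theorem FRE_def {P : Type} [Group P] (B : Subgroup P) (m : ZG P) :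
    FRE_P B m = m.coeff.mapDomain (QuotientGroup.mk : P → P ⧸ B) := rfl

private theorem FRE_single {P : Type} [Group P] (B : Subgroup P) (g : P) (n : ℤ) :
    FRE_P B (MonoidAlgebra.single g n) = Finsupp.single (QuotientGroup.mk g : P ⧸ B) n := by
  rw [FRE_def, MonoidAlgebra.coeff_single, Finsupp.mapDomain_single]

private theorem FRE_ind {P : Type} [Group P] {p : ZG P → Prop} (m : ZG P) (h0 : p 0)
    (hadd : ∀ x y, p x → p y → p (x + y))
    (hs : ∀ (g : P) (n : ℤ), p (MonoidAlgebra.single g n)) : p m := by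
  have h : ∀ u : P →₀ ℤ, p (MonoidAlgebra.ofCoeff u) := by
    intro u
    induction u using Finsupp.induction_linear with
    | zero => exact h0
    | add x y hx hy => exact hadd _ _ hx hy
    | single g n => exact hs g n
  exact h m.coeff

private theorem FRE_mul {P : Type} [Group P] (B : Subgroup P) (g : P) (m : ZG P) (ξ : P ⧸ B) :
    FRE_P B (MonoidAlgebra.single g (1 : ℤ) * m) ξ = FRE_P B m (g⁻¹ • ξ) := by
  induction m using FRE_ind with
  | h0 => simp
  | hadd x y hx hy => rw [mul_add, map_add, map_add, Finsupp.add_apply, Finsupp.add_apply, hx, hy]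
  | hs h k =>
    rw [MonoidAlgebra.single_mul_single, FRE_single, FRE_single, one_mul]
    have h1 : (QuotientGroup.mk (g * h) : P ⧸ B) = g • (QuotientGroup.mk h : P ⧸ B) := rfl
    rw [h1]
    by_cases h2 : g • (QuotientGroup.mk h : P ⧸ B) = ξ
    · have h3 : (QuotientGroup.mk h : P ⧸ B) = g⁻¹ • ξ := by rw [← h2, inv_smul_smul]
      rw [h2, h3, Finsupp.single_eq_same, Finsupp.single_eq_same]
    · have h3 : (QuotientGroup.mk h : P ⧸ B) ≠ g⁻¹ • ξ := by
        intro h4
        exact h2 (by rw [h4, smul_inv_smul])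
      rw [Finsupp.single_eq_of_ne' h2, Finsupp.single_eq_of_ne' h3]

theorem FRE : St_FRE := by
  intro P _ B K m hK hf hm ξ
  show ((0 : ℕ) : ℤ) ∣ FRE_P B m ξ
  rw [Nat.cast_zero, zero_dvd_iff]
  by_contra hne
  have hinv : ∀ k ∈ K, FRE_P B m (k • ξ) ≠ 0 := by
    intro k hk h0
    have h1 : ((0 : ℕ) : ℤ) ∣ FRE_P B (MonoidAlgebra.single k (1 : ℤ) * m - m) (k • ξ) :=
      hm k hk (k • ξ)
    rw [Nat.cast_zero, zero_dvd_iff, map_sub, Finsupp.sub_apply, FRE_mul, inv_smul_smul, h0,
      sub_zero] at h1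
    exact hne h1
  have hfin : (K : Set P).Finite := by
    refine Set.Finite.of_finite_image
      (Set.Finite.subset (FRE_P B m).support.finite_toSet ?_) ?_ (f := fun k : P => k • ξ)
    · rintro _ ⟨k, hk, rfl⟩
      exact Finsupp.mem_support_iff.2 (hinv k hk)
    · intro k hk k' hk' hkk
      obtain ⟨g, rfl⟩ := QuotientGroup.mk_surjective ξ
      have h2 : (QuotientGroup.mk (k * g) : P ⧸ B) = QuotientGroup.mk (k' * g) := hkk
      rw [QuotientGroup.eq] at h2
      have h3 : g * ((k * g)⁻¹ * (k' * g)) * g⁻¹ = k⁻¹ * k' := by group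
      have h4 := hf g _ h2 (by
        rw [h3]
        exact K.mul_mem (K.inv_mem hk) hk')
      rw [h3] at h4
      exact (inv_mul_eq_one.1 h4)
  exact hK hfin

end Pool.Agent.SFG
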