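import Pool.Agent.SFG.StV

/-!
# SFG : module GRD, a bound for the number of independent infinite subgroups
-/

set_option autoImplicit false

namespace Pool.Agent.SFG

open Matrix Pool.Agent.CPD Pool.Agent.SPD

section GRD

variable {P : Type} [Group P]

/-- the action of the group ring on functions, evaluated at `g` -/
private noncomputable def GRD_act (y : P → ℝ) (g : P) (m : ZG P) : ℝ :=
  m.coeff.sum (fun h n => (n : ℝ) * y (h⁻¹ * g))

private theorem GRD_act_zero (y : P → ℝ) (g : P) : GRD_act y g 0 = 0 := by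
  unfold GRD_act
  rw [MonoidAlgebra.coeff_zero, Finsupp.sum_zero_index]

private theorem GRD_act_add (y : P → ℝ) (g : P) (m n : ZG P) :
    GRD_act y g (m + n) = GRD_act y g m + GRD_act y g n := by
  unfold GRD_act
  rw [MonoidAlgebra.coeff_add]
  refine Finsupp.sum_add_index' (fun h => ?_) (fun h a b => ?_)
  · rw [Int.cast_zero, zero_mul]
  · rw [Int.cast_add, add_mul]

private theorem GRD_act_single (y : P → ℝ) (g p : P) (n : ℤ) :
    GRD_act y g (MonoidAlgebra.single p n) = (n : ℝ) * y (p⁻¹ * g) := by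
  unfold GRD_act
  rw [MonoidAlgebra.coeff_single]
  refine Finsupp.sum_single_index ?_
  rw [Int.cast_zero, zero_mul]

private theorem GRD_act_neg (y : P → ℝ) (g : P) (m : ZG P) :
    GRD_act y g (-m) = - GRD_act y g m := by
  have h := GRD_act_add y g m (-m)
  rw [add_neg_cancel, GRD_act_zero] at h
  linarith

private theorem GRD_act_gr (y : P → ℝ) (g p : P) :
    GRD_act y g (gr p) = y (p⁻¹ * g) := by
  unfold gr
  rw [GRD_act_single, Int.cast_one, one_mul]

private theorem GRD_act_mul (y : P → ℝ) (g p : P) (m : ZG P) :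
    GRD_act y g (gr p * m) = GRD_act y (p⁻¹ * g) m := by
  induction m using MonoidAlgebra.induction_linear with
  | zero => rw [mul_zero, GRD_act_zero, GRD_act_zero]
  | add a b ha hb => rw [mul_add, GRD_act_add, GRD_act_add, ha, hb]
  | single q n =>
    unfold gr
    rw [MonoidAlgebra.single_mul_single, GRD_act_single, GRD_act_single, one_mul, _root_.mul_inv_rev,
      mul_assoc]

/-- [GRD] A bound for the number of independent infinite subgroups. -/
theorem GRD : St_DIM → St_GRD := by
  intro hDIM P _ A k r s K d hA hK hd hdK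
  classical
  refine hDIM P r k (Matrix.of fun i a => d a (s i)) ?_
  intro x hsum hx
  have hFs : ∀ i g, ∑ a, GRD_act (x a) g (d a (s i)) = 0 := fun i g => hx i g
  have hsA : ∀ i, s i ∈ A := by
    intro i
    rw [hA]
    exact Subgroup.subset_closure ⟨i, rfl⟩
  have hmul : ∀ p ∈ A, ∀ q ∈ A, ∀ g, ∑ a, GRD_act (x a) g (d a (p * q)) =
      ∑ a, GRD_act (x a) g (d a p) + ∑ a, GRD_act (x a) (p⁻¹ * g) (d a q) := by
    intro p hp q hq g
    rw [← Finset.sum_add_distrib]
    refine Finset.sum_congr rfl fun a _ => ?_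
    rw [hd a p hp q hq, GRD_act_add, GRD_act_mul]
  have hone : ∀ g, ∑ a, GRD_act (x a) g (d a 1) = 0 := by
    intro g
    have h := hmul 1 (one_mem A) 1 (one_mem A) g
    rw [inv_one, one_mul, one_mul] at h
    linarith
  have hF : ∀ p ∈ A, ∀ g, ∑ a, GRD_act (x a) g (d a p) = 0 := by
    intro p hp
    rw [hA] at hp
    induction hp using Subgroup.closure_induction with
    | mem p hp =>
      obtain ⟨i, rfl⟩ := hp
      exact hFs i
    | one => exact hone
    | mul p q hp hq ihp ihq =>
      intro g
      rw [← hA] at hp hq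
      rw [hmul p hp q hq g, ihp g, ihq, add_zero]
    | inv p hp ih =>
      intro g
      rw [← hA] at hp
      have h := hmul p⁻¹ (inv_mem hp) p hp g
      rw [inv_mul_cancel, hone, ih, add_zero] at h
      exact h.symm
  intro b g
  by_contra hne
  have hper : ∀ κ ∈ K b, x b (κ⁻¹ * g) = x b g := by
    intro κ hκ
    have h1 := hF κ ((hK b).1 hκ) g
    have h2 : ∑ a, GRD_act (x a) g (d a κ) = GRD_act (x b) g (gr κ - 1) := by
      rw [Finset.sum_eq_single b]
      · rw [hdK b b κ hκ, if_pos rfl]
      · intro a _ hab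
        rw [hdK a b κ hκ, if_neg hab, GRD_act_zero]
      · intro h
        exact absurd (Finset.mem_univ b) h
    have h3 : (1 : ZG P) = gr 1 := rfl
    rw [h2, sub_eq_add_neg, GRD_act_add, GRD_act_neg, GRD_act_gr, h3, GRD_act_gr, inv_one,
      one_mul] at h1
    linarith
  have hpos : 0 < (x b g) ^ 2 := by positivity
  have hlim := (hsum b).tendsto_cofinite_zero
  have hev := hlim.eventually (gt_mem_nhds hpos)
  have hfin : {y | ¬ (x b y) ^ 2 < (x b g) ^ 2}.Finite := Filter.eventually_cofinite.1 hev
  have hsub : (fun κ : P => κ⁻¹ * g) '' (K b : Set P) ⊆ {y | ¬ (x b y) ^ 2 < (x b g) ^ 2} := by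
    rintro y ⟨κ, hκ, rfl⟩
    show ¬ (x b (κ⁻¹ * g)) ^ 2 < (x b g) ^ 2
    rw [hper κ hκ]
    exact lt_irrefl _
  have hinj : Function.Injective (fun κ : P => κ⁻¹ * g) := by
    intro a a' h
    have h1 : a⁻¹ * g = a'⁻¹ * g := h
    exact inv_injective (mul_right_cancel h1)
  exact (hK b).2 ((Set.finite_image_iff hinj.injOn).1 (hfin.subset hsub))

end GRD

end Pool.Agent.SFG
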