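import Pool.Agent.SFG.StH
import Pool.Agent.SPD.StF

/-!
# Module HH1 : the operator `H`
-/

set_option autoImplicit false

namespace Pool.Agent.SFG

open Matrix Pool.Agent.CPD Pool.Agent.SPD

section

variable {G π : Type} [Group G] [Group π] {M : Pk G}

private theorem HH1_supp (T : G → G → π) (A : Matrix M.I M.I (ZG G)) (c : Ch M (ZG π))
    (y : G × M.I) (h : opT M T A c y ≠ 0) :
    ∃ x, c x ≠ 0 ∧ (A x.2 y.2).coeff (x.1⁻¹ * y.1) ≠ 0 := by
  by_contra hcon
  apply h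
  have h1 : opT M T A c = c.sum fun x l => l • bl (Λ := ZG π) (tw T) x.1 (row A x) :=
    Finsupp.linearCombination_apply _ _
  rw [h1, Finsupp.sum, Finsupp.finsetSum_apply]
  refine Finset.sum_eq_zero fun x hx => ?_
  have h2 : (A x.2 y.2).coeff (x.1⁻¹ * y.1) = 0 := by
    by_contra h3
    exact hcon ⟨x, Finsupp.mem_support_iff.1 hx, h3⟩
  rw [Finsupp.smul_apply, bl_apply, CPD.row_apply, h2, Int.cast_zero, zero_mul, smul_zero]

private theorem HH1_len (x y : G) : M.L.l x ≤ M.L.l y + M.L.l (x⁻¹ * y) := by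
  have h1 : x = y * (x⁻¹ * y)⁻¹ := by group
  have h2 := M.L.mul y (x⁻¹ * y)⁻¹
  rw [← h1, M.L.inv] at h2
  exact h2

private theorem HH1_len' (x y : G) : M.L.l y ≤ M.L.l x + M.L.l (x⁻¹ * y) := by
  have h1 : y = x * (x⁻¹ * y) := by group
  have h2 := M.L.mul x (x⁻¹ * y)
  rw [← h1] at h2
  exact h2

/-- cells of the image of a chain -/
private theorem HH1_op (T : G → G → π) (A : Matrix M.I M.I (ZG G)) (hA : Five M A)
    (c : Ch M (ZG π)) (y : G × M.I) (hy : opT M T A c y ≠ 0) :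
    ∃ x, c x ≠ 0 ∧ A x.2 y.2 ≠ 0 ∧ M.L.l x.1 ≤ M.L.l y.1 + M.c ∧
      M.L.l y.1 ≤ M.L.l x.1 + M.c := by
  obtain ⟨x, hx, hxy⟩ := HH1_supp T A c y hy
  have h3 := hA _ _ _ hxy
  have h4 := HH1_len (M := M) x.1 y.1
  have h5 := HH1_len' (M := M) x.1 y.1
  refine ⟨x, hx, ?_, by omega, by omega⟩
  intro h6
  apply hxy
  rw [h6]
  rfl

private theorem HH1_good {R : ℕ} {𝓛 : Loc M R} {T : G → G → π} {n : ℕ}
    (h : ∀ v, n < M.L.l v → GoodT M.L T 𝓛.kap v) :
    GoodV M (Λ := ZG π) (tw T) {v | n < M.L.l v} := by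
  intro v hv k k' hk hk'
  have hle : 20 * M.u ≤ 𝓛.kap := by
    unfold Loc.kap
    omega
  have h1 := h v hv k k' (hk.trans hle) (hk'.trans hle)
  show uhom π (T v k) * uhom π (T (v * k) k') = uhom π (T v (k * k'))
  rw [← map_mul, h1]

end

private theorem HH1_single {X Λ : Type} [Ring Λ] (x z : X)
    (h : (Finsupp.single x 1 : X →₀ Λ) z ≠ 0) : z = x := by
  classical
  by_contra hne
  apply h
  rw [Finsupp.single_apply, if_neg (fun h => hne h.symm)]

private theorem HH1_ex {X Λ : Type} [Ring Λ] (A : (X →₀ Λ) →ₗ[Λ] (X →₀ Λ)) (c : X →₀ Λ) (y : X)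
    (h : A c y ≠ 0) : ∃ x, c x ≠ 0 ∧ A (Finsupp.single x 1) y ≠ 0 := by
  by_contra hcon
  apply h
  rw [← Finsupp.sum_single c, Finsupp.sum, map_sum, Finsupp.finsetSum_apply]
  apply Finset.sum_eq_zero
  intro x hx
  have h1 : (Finsupp.single x (c x) : X →₀ Λ) = c x • Finsupp.single x 1 := by
    rw [Finsupp.smul_single, smul_eq_mul, mul_one]
  have h2 : A (Finsupp.single x 1) y = 0 := by
    by_contra h3
    exact hcon ⟨x, Finsupp.mem_support_iff.1 hx, h3⟩
  rw [h1, map_smul, Finsupp.smul_apply, h2, smul_zero]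

private theorem HH1_zero {X Λ W : Type} [Ring Λ] [AddCommGroup W] [Module Λ W]
    (A : (X →₀ Λ) →ₗ[Λ] W) (c : X →₀ Λ) (h : ∀ x, c x ≠ 0 → A (Finsupp.single x 1) = 0) :
    A c = 0 := by
  rw [← Finsupp.sum_single c, Finsupp.sum, map_sum]
  apply Finset.sum_eq_zero
  intro x hx
  have h1 : (Finsupp.single x (c x) : X →₀ Λ) = c x • Finsupp.single x 1 := by
    rw [Finsupp.smul_single, smul_eq_mul, mul_one]
  rw [h1, map_smul, h x (Finsupp.mem_support_iff.1 hx), smul_zero]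

private theorem HH1_congr {X Λ W : Type} [Ring Λ] [AddCommGroup W] [Module Λ W]
    (A B : (X →₀ Λ) →ₗ[Λ] W) (c : X →₀ Λ)
    (h : ∀ x, c x ≠ 0 → A (Finsupp.single x 1) = B (Finsupp.single x 1)) : A c = B c := by
  have h1 := HH1_zero (A - B) c (fun x hx => by
    rw [LinearMap.sub_apply, h x hx, sub_self])
  rw [LinearMap.sub_apply] at h1
  exact sub_eq_zero.1 h1

/-- The operator `H`. -/
theorem HH1 (F0 : SPD.St_F0) (F6 : SPD.St_F6) (hHW : St_HW) : St_HH1 := by
  intro G α π _ _ f Rel M R 𝓛 n T hDc hSS n1 s hn1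
  classical
  obtain ⟨fD, fE, -, -, -, -, -⟩ := (F0 G M (ZG π) (tw T)).1
  have hV := HH1_good hDc.good
  obtain ⟨c6, -, -⟩ := F6 G M (ZG π) (tw T) {v | n < M.L.l v} hV
  have hu : M.u = M.c + 1 := rfl
  obtain ⟨r0, hr0, hW⟩ := hHW G α π f Rel M R 𝓛 n T hDc hSS (s + n1 + 10 * M.u)
  -- degrees and lengths
  have hD : ∀ (a : Ch M (ZG π)) (y : G × M.I), opT M T M.D a y ≠ 0 →
      ∃ x, a x ≠ 0 ∧ M.deg x.2 = M.deg y.2 + 1 ∧ M.L.l x.1 ≤ M.L.l y.1 + M.c ∧
        M.L.l y.1 ≤ M.L.l x.1 + M.c := by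
    intro a y hy
    obtain ⟨x, h1, h2, h3, h4⟩ := HH1_op T M.D fD a y hy
    exact ⟨x, h1, M.resP.D_deg _ _ h2, h3, h4⟩
  have hE : ∀ (a : Ch M (ZG π)) (y : G × M.I), opT M T M.E a y ≠ 0 →
      ∃ x, a x ≠ 0 ∧ M.deg x.2 = M.deg y.2 ∧ M.L.l x.1 ≤ M.L.l y.1 + M.c ∧
        M.L.l y.1 ≤ M.L.l x.1 + M.c := by
    intro a y hy
    obtain ⟨x, h1, h2, h3, h4⟩ := HH1_op T M.E fE a y hy
    exact ⟨x, h1, M.resP.E_deg _ _ h2, h3, h4⟩
  have hD1 : ∀ (x y : G × M.I), opT M T M.D (Finsupp.single x 1) y ≠ 0 →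
      M.deg x.2 = M.deg y.2 + 1 ∧ M.L.l x.1 ≤ M.L.l y.1 + M.c ∧
        M.L.l y.1 ≤ M.L.l x.1 + M.c := by
    intro x y hy
    obtain ⟨x', h1, h2⟩ := hD _ y hy
    rw [HH1_single _ _ h1] at h2
    exact h2
  have hE1 : ∀ (x y : G × M.I), opT M T M.E (Finsupp.single x 1) y ≠ 0 →
      M.deg x.2 = M.deg y.2 ∧ M.L.l x.1 ≤ M.L.l y.1 + M.c ∧
        M.L.l y.1 ≤ M.L.l x.1 + M.c := by
    intro x y hy
    obtain ⟨x', h1, h2⟩ := hE _ y hy
    rw [HH1_single _ _ h1] at h2
    exact h2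
  have hsV : ∀ x : G × M.I, n < M.L.l x.1 →
      ∀ z, (Finsupp.single x 1 : Ch M (ZG π)) z ≠ 0 → z.1 ∈ {v | n < M.L.l v} := by
    intro x hx z hz
    rw [HH1_single _ _ hz]
    exact hx
  have hED : ∀ x : G × M.I, n < M.L.l x.1 →
      opT M T M.E (opT M T M.D (Finsupp.single x 1)) = opT M T M.D (Finsupp.single x 1) := by
    intro x hx
    rw [c6 M.D M.E _ fD fE (hsV x hx), M.resP.DE]
  have hEE : ∀ x : G × M.I, n < M.L.l x.1 →
      opT M T M.E (opT M T M.E (Finsupp.single x 1)) = opT M T M.E (Finsupp.single x 1) := by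
    intro x hx
    rw [c6 M.E M.E _ fE fE (hsV x hx), M.resP.EE]
  -- the submodule
  obtain ⟨r, hr⟩ : ∃ r, r = r0 + n1 + 10 * M.u := ⟨_, rfl⟩
  let Y3 : Submodule (ZG π) (Ch M (ZG π)) :=
    (Finsupp.supported (ZG π) (ZG π) {z : G × M.I | M.deg z.2 = 3 ∧ n1 < M.L.l z.1}).map
      (opT M T M.D)
  let Y0 : Submodule (ZG π) (Ch M (ZG π)) :=
    Finsupp.supported (ZG π) (ZG π) {z : G × M.I | M.deg z.2 ≠ 2 ∨ M.L.l z.1 ≤ r}
  let Y : Submodule (ZG π) (Ch M (ZG π)) := Y3 ⊔ Y0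
  have hY0 : ∀ a : Ch M (ZG π), (∀ z, a z ≠ 0 → M.deg z.2 ≠ 2 ∨ M.L.l z.1 ≤ r) → a ∈ Y := by
    intro a ha
    apply Submodule.mem_sup_right
    rw [Finsupp.mem_supported]
    intro z hz
    exact ha z (Finsupp.mem_support_iff.1 hz)
  have hY3 : ∀ a : Ch M (ZG π), (∀ z, a z ≠ 0 → M.deg z.2 = 3 ∧ n1 < M.L.l z.1) →
      opT M T M.D a ∈ Y := by
    intro a ha
    apply Submodule.mem_sup_left
    refine ⟨a, ?_, rfl⟩
    rw [SetLike.mem_coe, Finsupp.mem_supported]
    intro z hz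
    exact ha z (Finsupp.mem_support_iff.1 hz)
  have hq0 : ∀ a : Ch M (ZG π), a ∈ Y → Y.mkQ a = 0 := fun a ha =>
    (Submodule.Quotient.mk_eq_zero Y).2 ha
  -- the cocycle
  let c : Ch M (ZG π) →ₗ[ZG π] (Ch M (ZG π) ⧸ Y) :=
    Finsupp.linearCombination (ZG π) (fun x =>
      if M.deg x.2 = 2 then Y.mkQ (opT M T M.E (Finsupp.single x 1)) else 0)
  have hc : ∀ x : G × M.I, c (Finsupp.single x 1) =
      if M.deg x.2 = 2 then Y.mkQ (opT M T M.E (Finsupp.single x 1)) else 0 := by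
    intro x
    show Finsupp.linearCombination (ZG π) _ (Finsupp.single x 1) = _
    rw [Finsupp.linearCombination_single, one_smul]
  have hc2 : ∀ a : Ch M (ZG π), (∀ x, a x ≠ 0 → M.deg x.2 = 2) →
      c a = Y.mkQ (opT M T M.E a) := by
    intro a ha
    refine HH1_congr c (Y.mkQ ∘ₗ opT M T M.E) a (fun x hx => ?_)
    rw [hc, if_pos (ha x hx)]
    rfl
  have hc0 : ∀ a : Ch M (ZG π), (∀ x, a x ≠ 0 → M.deg x.2 ≠ 2) → c a = 0 := by
    intro a ha
    refine HH1_zero c a (fun x hx => ?_)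
    rw [hc, if_neg (ha x hx)]
  have hc1 : ∀ x : G × M.I, c (Finsupp.single x 1) ≠ 0 → M.deg x.2 = 2 ∧ r0 < M.L.l x.1 := by
    intro x hx
    rw [hc] at hx
    by_cases h1 : M.deg x.2 = 2
    · refine ⟨h1, ?_⟩
      rw [if_pos h1] at hx
      by_contra h2
      apply hx
      apply hq0
      apply hY0
      intro z hz
      right
      have h3 := (hE1 x z hz).2.2
      omega
    · rw [if_neg h1] at hx
      exact absurd rfl hx
  have hcD : ∀ x : G × M.I, c (opT M T M.D (Finsupp.single x 1)) = 0 := by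
    intro x
    by_cases h1 : M.deg x.2 = 3
    · rw [hc2 _ (fun z hz => by
        have h2 := (hD1 x z hz).1
        omega)]
      by_cases h2 : n1 < M.L.l x.1
      · rw [hED x (by omega)]
        apply hq0
        apply hY3
        intro z hz
        rw [HH1_single _ _ hz]
        exact ⟨h1, h2⟩
      · apply hq0
        apply hY0
        intro z hz
        right
        obtain ⟨y, hy, -, -, h3⟩ := hE _ z hz
        have h4 := (hD1 x y hy).2.2
        omega
    · exact hc0 _ (fun z hz => by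
        have h2 := (hD1 x z hz).1
        omega)
  have hcE : ∀ x : G × M.I, c (opT M T M.E (Finsupp.single x 1)) = c (Finsupp.single x 1) := by
    intro x
    by_cases h1 : M.deg x.2 = 2
    · rw [hc2 _ (fun z hz => by
        have h2 := (hE1 x z hz).1
        omega), hc, if_pos h1]
      by_cases h2 : n < M.L.l x.1
      · rw [hEE x h2]
      · rw [hq0, hq0]
        · apply hY0
          intro z hz
          right
          have h3 := (hE1 x z hz).2.2
          omega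
        · apply hY0
          intro z hz
          right
          obtain ⟨y, hy, -, -, h3⟩ := hE _ z hz
          have h4 := (hE1 x y hy).2.2
          omega
    · rw [hc, if_neg h1]
      exact hc0 _ (fun z hz => by
        have h2 := (hE1 x z hz).1
        omega)
  obtain ⟨b, hb1, hb2⟩ := hW (Ch M (ZG π) ⧸ Y) c hc1 hcD hcE
  -- lifts
  have hlift : ∀ w : Ch M (ZG π) ⧸ Y, ∃ a : Ch M (ZG π), Y.mkQ a = w ∧ (w = 0 → a = 0) ∧
      ∀ z, a z ≠ 0 → M.deg z.2 = 2 ∧ r < M.L.l z.1 := by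
    intro w
    by_cases hw : w = 0
    · refine ⟨0, ?_, fun _ => rfl, fun z hz => absurd rfl hz⟩
      rw [hw, map_zero]
    · obtain ⟨a, rfl⟩ := Submodule.mkQ_surjective Y w
      refine ⟨a.filter (fun z => M.deg z.2 = 2 ∧ r < M.L.l z.1), ?_, fun h => absurd h hw, ?_⟩
      · have h1 : a - a.filter (fun z => M.deg z.2 = 2 ∧ r < M.L.l z.1) ∈ Y := by
          apply hY0
          intro z hz
          by_contra h2
          push Not at h2
          apply hz
          rw [Finsupp.sub_apply, Finsupp.filter_apply_pos _ _ (by exact ⟨h2.1, h2.2⟩), sub_self]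
        have h2 := hq0 _ h1
        rw [map_sub] at h2
        exact (sub_eq_zero.1 h2).symm
      · intro z hz
        by_contra h2
        exact hz (Finsupp.filter_apply_neg _ _ h2)
  choose lf hlf1 hlf2 hlf3 using hlift
  let H0 : Ch M (ZG π) →ₗ[ZG π] Ch M (ZG π) :=
    Finsupp.linearCombination (ZG π) (fun y => lf (b (Finsupp.single y 1)))
  have hH0 : ∀ y : G × M.I, H0 (Finsupp.single y 1) = lf (b (Finsupp.single y 1)) := by
    intro y
    show Finsupp.linearCombination (ZG π) _ (Finsupp.single y 1) = _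
    rw [Finsupp.linearCombination_single, one_smul]
  have hqH0 : ∀ a : Ch M (ZG π), Y.mkQ (H0 a) = b a := by
    intro a
    refine HH1_congr (Y.mkQ ∘ₗ H0) b a (fun x _ => ?_)
    rw [LinearMap.comp_apply, hH0, hlf1]
  have hH0n : ∀ (a : Ch M (ZG π)) (z : G × M.I), H0 a z ≠ 0 →
      ∃ y, a y ≠ 0 ∧ M.deg y.2 = 1 ∧ s + n1 + 10 * M.u < M.L.l y.1 ∧ M.deg z.2 = 2 ∧
        r < M.L.l z.1 := by
    intro a z hz
    obtain ⟨y, hy1, hy2⟩ := HH1_ex H0 a z hz
    rw [hH0] at hy2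
    have h1 : b (Finsupp.single y 1) ≠ 0 := by
      intro h2
      rw [hlf2 _ h2] at hy2
      exact hy2 rfl
    obtain ⟨h2, h3⟩ := hb1 y h1
    obtain ⟨h4, h5⟩ := hlf3 _ z hy2
    exact ⟨y, hy1, h2, h3, h4, h5⟩
  refine ⟨r, by omega, H0 ∘ₗ opT M T M.E, ?_, ?_, ?_⟩
  · intro y z hz
    obtain ⟨y', h1, h2, h3, h4, h5⟩ := hH0n _ z hz
    obtain ⟨h6, h7, h8⟩ := hE1 y y' h1
    exact ⟨by omega, by omega, h4, by omega⟩
  · intro y
    show H0 (opT M T M.E (opT M T M.E (Finsupp.single y 1))) =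
      H0 (opT M T M.E (Finsupp.single y 1))
    by_cases h2 : n < M.L.l y.1
    · rw [hEE y h2]
    · have h3 : H0 (opT M T M.E (opT M T M.E (Finsupp.single y 1))) = 0 := by
        ext1 z
        by_contra hz
        obtain ⟨y', h4, h5, h6, h7, h8⟩ := hH0n _ z hz
        obtain ⟨y'', h9, -, -, h10⟩ := hE _ _ h4
        have h11 := (hE1 y y'' h9).2.2
        omega
      have h4 : H0 (opT M T M.E (Finsupp.single y 1)) = 0 := by
        ext1 z
        by_contra hz
        obtain ⟨y', h4, h5, h6, h7, h8⟩ := hH0n _ z hz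
        have h11 := (hE1 y y' h4).2.2
        omega
      rw [h3, h4]
  · intro x hx
    by_cases h2 : n < M.L.l x.1
    · have h3 : (H0 ∘ₗ opT M T M.E) (opT M T M.D (Finsupp.single x 1)) =
          H0 (opT M T M.D (Finsupp.single x 1)) := by
        rw [LinearMap.comp_apply, hED x h2]
      have h4 : Y.mkQ (opT M T M.E (Finsupp.single x 1) -
          H0 (opT M T M.D (Finsupp.single x 1))) = 0 := by
        rw [map_sub, hqH0, hb2, hc, if_pos hx, sub_self]
      have h5 : opT M T M.E (Finsupp.single x 1) -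
          H0 (opT M T M.D (Finsupp.single x 1)) ∈ Y :=
        (Submodule.Quotient.mk_eq_zero Y).1 h4
      obtain ⟨y3, ⟨e, he, rfl⟩, ζ, hζ, hsum⟩ := Submodule.mem_sup.1 h5
      have he' : ∀ z, e z ≠ 0 → M.deg z.2 = 3 ∧ n1 < M.L.l z.1 := by
        intro z hz
        rw [SetLike.mem_coe, Finsupp.mem_supported] at he
        exact he (Finsupp.mem_support_iff.2 hz)
      have hζ' : ∀ z, ζ z ≠ 0 → M.deg z.2 ≠ 2 ∨ M.L.l z.1 ≤ r := by
        intro z hz
        rw [Finsupp.mem_supported] at hζ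
        exact hζ (Finsupp.mem_support_iff.2 hz)
      refine ⟨e, he', ?_⟩
      intro z hz
      rw [h3, ← hsum, add_sub_cancel_left] at hz
      rcases hζ' z hz with h6 | h6
      · exfalso
        have h7 : ζ z = (opT M T M.E (Finsupp.single x 1)) z -
            H0 (opT M T M.D (Finsupp.single x 1)) z - opT M T M.D e z := by
          rw [← Finsupp.sub_apply, ← hsum, Finsupp.add_apply, add_sub_cancel_left]
        have h8 : (opT M T M.E (Finsupp.single x 1)) z = 0 := by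
          by_contra h9
          have h10 := (hE1 x z h9).1
          omega
        have h9 : H0 (opT M T M.D (Finsupp.single x 1)) z = 0 := by
          by_contra h10
          obtain ⟨y', h4, h5, h6', h7, h8⟩ := hH0n _ z h10
          exact h6 h7
        have h10 : opT M T M.D e z = 0 := by
          by_contra h11
          obtain ⟨y', h12, h13, -, -⟩ := hD e z h11
          have h14 := (he' y' h12).1
          omega
        rw [h8, h9, h10, sub_zero, sub_zero] at h7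
        exact hz h7
      · exact h6
    · refine ⟨0, fun z hz => absurd rfl hz, ?_⟩
      intro z hz
      have h3 : (H0 ∘ₗ opT M T M.E) (opT M T M.D (Finsupp.single x 1)) = 0 := by
        ext1 z
        by_contra hz
        obtain ⟨y', h4, h5, h6, h7, h8⟩ := hH0n _ z hz
        obtain ⟨y'', h9, -, -, h10⟩ := hE _ _ h4
        have h11 := (hD1 x y'' h9).2.2
        omega
      rw [h3, map_zero, sub_zero, sub_zero] at hz
      have h4 := (hE1 x z hz).2.2
      omega

end Pool.Agent.SFG
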