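import Pool.Agent.SFG.StH
import Pool.Agent.SPD.StF

/-!
# HW : far cocycles of degree two are coboundaries (helper79)
-/

set_option autoImplicit false

namespace Pool.Agent.SFG

open Matrix Pool.Agent.CPD Pool.Agent.SPD

section

variable {G π W : Type} [Group G] [Group π] [AddCommGroup W] [Module (ZG π) W] (M : Pk G)

private theorem HW_zero (φ : Ch M (ZG π) →ₗ[ZG π] W) (a : Ch M (ZG π))
    (h : ∀ y, a y ≠ 0 → φ (Finsupp.single y 1) = 0) : φ a = 0 := by
  have h1 : φ a = a.sum (fun y l => l • φ (Finsupp.single y 1)) := by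
    conv_lhs => rw [← Finsupp.sum_single a]
    rw [Finsupp.sum, Finsupp.sum, map_sum]
    refine Finset.sum_congr rfl fun y _ => ?_
    rw [← map_smul, Finsupp.smul_single, smul_eq_mul, mul_one]
  rw [h1]
  refine Finset.sum_eq_zero fun y hy => ?_
  show a y • φ (Finsupp.single y 1) = 0
  rw [h y (Finsupp.mem_support_iff.1 hy), smul_zero]

private theorem HW_ex (φ : Ch M (ZG π) →ₗ[ZG π] W) (a : Ch M (ZG π)) (h : φ a ≠ 0) :
    ∃ y, a y ≠ 0 ∧ φ (Finsupp.single y 1) ≠ 0 := by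
  by_contra hcon
  apply h
  apply HW_zero M φ a
  intro y hy
  by_contra h2
  exact hcon ⟨y, hy, h2⟩

private theorem HW_all (φ ψ : Ch M (ZG π) →ₗ[ZG π] W)
    (h : ∀ y, φ (Finsupp.single y 1) = ψ (Finsupp.single y 1)) (a : Ch M (ZG π)) :
    φ a = ψ a := by
  have h1 := HW_zero M (φ - ψ) a (fun y _ => by rw [LinearMap.sub_apply, h y, sub_self])
  rwa [LinearMap.sub_apply, sub_eq_zero] at h1

private theorem HW_len {a b : G} (n : ℕ) (h : M.L.l (a⁻¹ * b) ≤ n) :
    M.L.l b ≤ M.L.l a + n ∧ M.L.l a ≤ M.L.l b + n := by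
  have h1 := M.L.mul a (a⁻¹ * b)
  rw [mul_inv_cancel_left] at h1
  have h2 := M.L.mul b (a⁻¹ * b)⁻¹
  have h3 : b * (a⁻¹ * b)⁻¹ = a := by group
  rw [h3, M.L.inv] at h2
  exact ⟨by omega, by omega⟩

end

/-- **HW.** -/
theorem HW (hF0 : SPD.St_F0) (hF6 : SPD.St_F6) (hTEL : St_TEL) : St_HW := by
  intro G α π _ _ f Rel M R 𝓛 n T hDc hSS s
  have hu : M.u = M.c + 1 := rfl
  obtain ⟨s', hs'⟩ : ∃ s', s' = max s (n + 100 * M.u) := ⟨_, rfl⟩
  have hss : s ≤ s' := by rw [hs']; exact le_max_left _ _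
  have hns : n + 100 * M.u ≤ s' := by rw [hs']; exact le_max_right _ _
  obtain ⟨n2, hn2, hT⟩ := hTEL G α π f Rel M R 𝓛 n T hDc hSS (s' + 2 * M.u) (by omega)
  refine ⟨n2 + 10 * M.u, by omega, ?_⟩
  intro W _ _ c hc hcD hcE
  obtain ⟨hfive, hcoeff, -, -⟩ := hF0 G M (ZG π) (tw T)
  obtain ⟨fD, fE, fPs, fPh, fh, fDs, fEs⟩ := hfive
  have hgood : GoodV M (tw T) {v : G | n < M.L.l v} := by
    intro v hv h h' hh hh'
    have hk : 20 * M.u ≤ 𝓛.kap := Nat.le_add_left _ _
    show uhom π (T v h) * uhom π (T (v * h) h') = uhom π (T v (h * h'))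
    rw [← map_mul, hDc.good v hv h h' (hh.trans hk) (hh'.trans hk)]
  obtain ⟨h6, h6a, -⟩ := hF6 G M (ZG π) (tw T) _ hgood
  -- composition on far cells
  have hcomp : ∀ (A B : Matrix M.I M.I (ZG G)) (x : G × M.I), Five M A → Five M B →
      n < M.L.l x.1 → opT M T B (opT M T A (Finsupp.single x 1)) =
        opT M T (A * B) (Finsupp.single x 1) := by
    intro A B x hA hB hx
    apply h6 A B _ hA hB
    intro y hy
    have hyx : y = x := by
      by_contra hne
      exact hy (Finsupp.single_eq_of_ne hne)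
    rw [hyx]
    exact hx
  -- nearness
  have hnear : ∀ (A : Matrix M.I M.I (ZG G)) (x y : G × M.I), Five M A →
      opT M T A (Finsupp.single x 1) y ≠ 0 →
      A x.2 y.2 ≠ 0 ∧ M.L.l y.1 ≤ M.L.l x.1 + M.c ∧ M.L.l x.1 ≤ M.L.l y.1 + M.c := by
    intro A x y hA hxy
    have h1 := hcoeff A x y hxy
    have h2 := hA _ _ _ h1
    refine ⟨?_, HW_len M M.c h2⟩
    intro h0
    apply h1
    rw [h0]
    rfl
  have hcD' : ∀ a : Ch M (ZG π), c (opT M T M.D a) = 0 := by
    intro a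
    have := HW_all M (c ∘ₗ opT M T M.D) 0 (fun y => by
      rw [LinearMap.comp_apply, hcD, LinearMap.zero_apply]) a
    rwa [LinearMap.comp_apply, LinearMap.zero_apply] at this
  obtain ⟨z, hz⟩ : ∃ z : Ch M (ZG π) →ₗ[ZG π] W, z = c ∘ₗ opT M T M.Ph := ⟨_, rfl⟩
  have hza : ∀ a, z a = c (opT M T M.Ph a) := fun a => by rw [hz]; rfl
  have hz0 : ∀ y : G × M.I, z (Finsupp.single y 1) ≠ 0 →
      M.deg y.2 = 1 ∧ n2 + 9 * M.u < M.L.l y.1 := by
    intro y hy
    rw [hza] at hy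
    obtain ⟨x, hx1, hx2⟩ := HW_ex M c _ hy
    obtain ⟨h1, h2, h3⟩ := hnear M.Ph y x fPh hx1
    obtain ⟨h4, h5⟩ := hc x hx2
    have h7 := M.Ph_deg _ _ h1
    exact ⟨by omega, by omega⟩
  obtain ⟨v, hv1, hv2⟩ := hT W z (fun y hy => ⟨(hz0 y hy).1, by have := (hz0 y hy).2; omega⟩)
    (by
      intro x
      by_cases hx : n < M.L.l x.1
      · rw [hza, hcomp _ _ x fDs fPh hx, M.DPh, ← hcomp _ _ x fPh fD hx]
        exact hcD' _
      · apply HW_zero M z
        intro y hy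
        by_contra hzy
        have h1 := (hnear M.Dᴴ x y fDs hy).2.1
        have h2 := (hz0 y hzy).2
        omega)
    (by
      intro y
      by_cases hy : n < M.L.l y.1
      · rw [hza, hza, hcomp _ _ y fEs fPh hy, M.EPh]
      · have h1 : z (Finsupp.single y 1) = 0 := by
          by_contra hzy
          have h2 := (hz0 y hzy).2
          omega
        rw [h1]
        apply HW_zero M z
        intro x hx
        by_contra hzx
        have h3 := (hnear M.Eᴴ y x fEs hx).2.1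
        have h2 := (hz0 x hzx).2
        omega)
  have hv2' : ∀ a : Ch M (ZG π), z a = v (opT M T M.Dᴴ a) := fun a =>
    HW_all M z (v ∘ₗ opT M T M.Dᴴ) hv2 a
  have hb0 : ∀ y : G × M.I, (v ∘ₗ opT M T M.Ps - c ∘ₗ opT M T M.h) (Finsupp.single y 1) ≠ 0 →
      M.deg y.2 = 1 ∧ s' < M.L.l y.1 := by
    intro y hy
    rw [LinearMap.sub_apply, LinearMap.comp_apply, LinearMap.comp_apply] at hy
    by_cases h1 : v (opT M T M.Ps (Finsupp.single y 1)) = 0
    · rw [h1, zero_sub, neg_ne_zero] at hy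
      obtain ⟨x, hx1, hx2⟩ := HW_ex M c _ hy
      obtain ⟨h2, h3, h4⟩ := hnear M.h y x fh hx1
      obtain ⟨h5, h6'⟩ := hc x hx2
      have h7 := M.h_deg _ _ h2
      exact ⟨by omega, by omega⟩
    · obtain ⟨x, hx1, hx2⟩ := HW_ex M v _ h1
      obtain ⟨h2, h3, h4⟩ := hnear M.Ps y x fPs hx1
      obtain ⟨h5, h6'⟩ := hv1 x hx2
      have h7 := M.Ps_deg _ _ h2
      exact ⟨by omega, by omega⟩
  refine ⟨v ∘ₗ opT M T M.Ps - c ∘ₗ opT M T M.h, ?_, ?_⟩
  · intro y hy
    have h := hb0 y hy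
    exact ⟨h.1, lt_of_le_of_lt hss h.2⟩
  · intro x
    by_cases hx : n < M.L.l x.1
    · have hhom : M.Ps * M.Ph = M.E + (M.h * M.D + M.D * M.h) := by
        have := M.homot
        rw [← this]
        abel
      rw [LinearMap.sub_apply, LinearMap.comp_apply, LinearMap.comp_apply,
        hcomp _ _ x fD fPs hx, hcomp _ _ x fD fh hx, M.DPs, ← hcomp _ _ x fPs fDs hx,
        ← hv2', hza, hcomp _ _ x fPs fPh hx, hhom, (h6a _ _ _).1, (h6a _ _ _).1, map_add,
        map_add, ← hcomp _ _ x fh fD hx, hcD', zero_add, add_sub_cancel_right, hcE]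
    · have h1 : c (Finsupp.single x 1) = 0 := by
        by_contra hcx
        have h2 := (hc x hcx).2
        omega
      rw [h1]
      apply HW_zero M
      intro y hy
      by_contra hby
      have h3 := (hnear M.D x y fD hy).2.1
      have h2 := (hb0 y hby).2
      omega

end Pool.Agent.SFG
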