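import Pool.Agent.SFG.StH

/-!
# HXX: the condition `HX` (assembly)
-/

set_option autoImplicit false

namespace Pool.Agent.SFG

open Matrix Pool.Agent.CPD Pool.Agent.SPD

private theorem HXX_good {G π : Type} [Group G] [Group π] (L : Len G) (T : G → G → π)
    (hT : IsALS T) (K : ℕ) : ∃ g : ℕ, ∀ v, g < L.l v → GoodT L T K v := by
  have h1 : ∀ᶠ v in Filter.cofinite, ∀ h ∈ L.ball K, ∀ h' ∈ L.ball K,
      T v h * T (v * h) h' = T v (h * h') := by
    rw [Filter.eventually_all_finset]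
    intro h _
    rw [Filter.eventually_all_finset]
    intro h' _
    exact hT h h'
  rw [Filter.eventually_cofinite] at h1
  obtain ⟨g, hg⟩ := (h1.image L.l).bddAbove
  refine ⟨g, fun v hv h h' hh hh' => ?_⟩
  by_contra hne
  have h2 : L.l v ≤ g := by
    apply hg
    refine ⟨v, ?_, rfl⟩
    intro hall
    exact hne (hall h ((L.mem_ball K h).2 hh) h' ((L.mem_ball K h').2 hh'))
  omega

private theorem HXX_lin {G π W : Type} [Group G] [Group π] {M : Pk G} [AddCommGroup W]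
    [Module (ZG π) W] (Φ : Ch M (ZG π) →ₗ[ZG π] W) (c : Ch M (ZG π)) :
    Φ c = c.sum fun z a => a • Φ (Finsupp.single z 1) := by
  conv_lhs => rw [← Finsupp.sum_single c]
  rw [Finsupp.sum, map_sum, Finsupp.sum]
  refine Finset.sum_congr rfl fun z _ => ?_
  rw [← map_smul, Finsupp.smul_single, smul_eq_mul, mul_one]

private theorem HXX_av {G α : Type} [Group G] {f : α → G} {L : Len G} {n m : ℕ} (h : n ≤ m)
    {g : G} {w : List (α × Bool)} (hw : Avoids f (Bl L m) g w) : Avoids f (Bl L n) g w :=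
  fun i hi hmem => hw i hi (le_trans (show L.l _ ≤ n from hmem) h)

private theorem HXX_dc {G α π : Type} [Group G] [Group π] {f : α → G} {Rel : Set (List (α × Bool))}
    {M : Pk G} {R : ℕ} {𝓛 : Loc M R} {n m : ℕ} {T : G → G → π} (h : n ≤ m)
    (hD : Dc f Rel M 𝓛 n T) : Dc f Rel M 𝓛 m T where
  base := hD.base
  len := hD.len
  lab :=
    { edge := fun g a b h1 h2 => hD.lab.edge g a b
        (fun h3 => h1 (le_trans (show M.L.l _ ≤ n from h3) h))
        (fun h3 => h2 (le_trans (show M.L.l _ ≤ n from h3) h))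
      cell := fun r hr g h1 => hD.lab.cell r hr g (HXX_av h h1) }
  good := fun v hv => hD.good v (h.trans_lt hv)

private theorem HXX_tor {π X : Type} [Group π] (m : ℕ) (x : X →₀ ZG π) (hm : 1 ≤ m)
    (hx : m • x = 0) : x = 0 := by
  ext y g
  have h1 : (m • x) y = 0 := by rw [hx]; rfl
  have h2 : m • x y = 0 := h1
  have h3 : (m • x y).coeff g = 0 := by rw [h2]; rfl
  have h4 : ∀ (k : ℕ) (a : ZG π), (k • a).coeff g = k • a.coeff g := by
    intro k a
    induction k with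
    | zero => rw [zero_smul, zero_smul]; rfl
    | succ k ih =>
      rw [succ_nsmul, succ_nsmul, ← ih]
      rfl
  rw [h4, smul_eq_zero] at h3
  rcases h3 with h3 | h3
  · omega
  · exact h3

theorem HXX (hL1 : St_L1) (hL5 : St_L5) (hT0 : St_T0) (hCBD : St_CBD) (hDER : St_DER)
    (hTB : St_TB) : St_HXX := by
  intro G α π _ _ f Rel M n0 T hB hSS hT B hBfg
  -- the data
  obtain ⟨R0, hR0⟩ := hL1 G M
  obtain ⟨R1, hR1⟩ : ∃ R1, ∀ r ∈ Rel, r.length ≤ R1 := by
    obtain ⟨b, hb⟩ := (hB.Rfin.image List.length).bddAbove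
    exact ⟨b, fun r hr => hb ⟨r, hr, rfl⟩⟩
  obtain ⟨𝓛⟩ := hR0 (max R0 R1) (le_max_left _ _)
  obtain ⟨gk, hgk⟩ := HXX_good M.L T hT.als 𝓛.kap
  have hDc0 : Dc f Rel M 𝓛 (max n0 gk) T :=
    { base := hB
      len := fun r hr => (hR1 r hr).trans (le_max_right _ _)
      lab :=
        { edge := fun g a b h1 h2 => hT.lab.edge g a b
            (fun h3 => h1 (le_trans (show M.L.l _ ≤ n0 from h3) (le_max_left _ _)))
            (fun h3 => h2 (le_trans (show M.L.l _ ≤ n0 from h3) (le_max_left _ _)))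
          cell := fun r hr g h1 => hT.lab.cell r hr g (HXX_av (le_max_left _ _) h1) }
      good := fun v hv => hgk v ((le_max_right _ _).trans_lt hv) }
  obtain ⟨nc, hnc, hC⟩ := hCBD G α π f Rel M _ 𝓛 _ T hDc0 hSS
  have hDc : Dc f Rel M 𝓛 nc T := HXX_dc hnc hDc0
  obtain ⟨l, hl⟩ := hDER G α π f Rel M _ 𝓛 n0 nc T hDc hT ((le_max_left _ _).trans hnc)
  obtain ⟨a, ha⟩ : ∃ a : G, l < M.L.l a := by
    by_contra hcon
    push Not at hcon
    have := hB.inf
    have h1 : (Set.univ : Set G).Finite := (M.L.fin l).subset fun x _ => hcon x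
    exact Set.infinite_univ h1
  obtain ⟨hsurj, hder⟩ := hl a ha
  choose w hw1 hw2 hw3 using hsurj
  obtain ⟨S, hS⟩ := hBfg
  -- the radius
  obtain ⟨s, hsl, hs⟩ : ∃ s : ℕ, l ≤ s ∧ ∀ β ∈ S, ∀ y, chw f M 𝓛 T a (w β) y ≠ 0 →
      M.L.l y.1 ≤ s := by
    classical
    obtain ⟨b, hb⟩ := Finset.exists_le ((S.biUnion fun β => (chw f M 𝓛 T a (w β)).support).image
      fun x => M.L.l x.1)
    refine ⟨max l b, le_max_left _ _, fun β hβ y hy => (hb _ ?_).trans (le_max_right _ _)⟩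
    exact Finset.mem_image_of_mem _ (Finset.mem_biUnion.2
      ⟨β, hβ, Finsupp.mem_support_iff.2 hy⟩)
  obtain ⟨r, hr, b', hcoc, hb0, hbω⟩ := hC s
  obtain ⟨δ, hδ, hδw⟩ := hder (Ch M (ZG π)) b' (fun m x hm hx => HXX_tor m x hm hx) hcoc
    (fun y h1 h2 => hb0 y h1 (h2.trans hsl))
  obtain ⟨-, hL5D, hL5s, hL5E⟩ := hL5 G α f M _ 𝓛 π T nc hB.len hDc.good
  -- the derivation vanishes on `B`
  have hδS : ∀ β ∈ S, δ β = 0 := by
    intro β hβ
    have h1 := hδw (w β) (hw1 β) (hw2 β)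
    rw [hw3] at h1
    rw [h1, HXX_lin b']
    refine Finset.sum_eq_zero fun y hy => ?_
    have hy' := Finsupp.mem_support_iff.1 hy
    show chw f M 𝓛 T a (w β) y • b' (Finsupp.single y 1) = 0
    rw [hb0 y (hL5s _ _ _ _ (hw2 β) hy').1 (hs β hβ y hy'), smul_zero]
  have hδ1 : δ 1 = 0 := by
    have h1 := hδ 1 1
    have h2 : (gr (1 : π) : ZG π) = 1 := rfl
    rw [mul_one, h2, one_smul] at h1
    exact left_eq_add.1 h1
  have hδB : ∀ b ∈ B, δ b = 0 := by
    intro b hb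
    rw [← hS] at hb
    induction hb using Subgroup.closure_induction with
    | mem x hx => exact hδS x hx
    | one => exact hδ1
    | mul x y _ _ hx hy => rw [hδ, hx, hy, smul_zero, add_zero]
    | inv x _ hx =>
      have h1 := hδ x⁻¹ x
      rw [inv_mul_cancel, hδ1, hx, smul_zero, add_zero] at h1
      exact h1.symm
  -- the augmentation
  obtain ⟨B', hBB', hB'fg, hμ⟩ := hTB G π M _ 𝓛 T a r B ⟨S, hS⟩
  obtain ⟨μ, hμd⟩ : ∃ μ : Ch M (ZG π) →ₗ[ZG π] ZG π,
      ∀ x : G × M.I, μ (Finsupp.single x 1) = ((M.e x.2 : ℤ) : ZG π) :=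
    ⟨Finsupp.linearCombination (ZG π) fun x : G × M.I => ((M.e x.2 : ℤ) : ZG π), fun x => by
      rw [Finsupp.linearCombination_single, smul_eq_mul, one_mul]⟩
  obtain ⟨hμ1, hμ2, hμ3⟩ := hμ μ hμd
  refine ⟨B', hBB', hB'fg, G × M.I, δ,
    fun y => - μ (opT M T M.D (Finsupp.single y 1)), hδ, hδB, fun y => ?_, fun p => ?_⟩
  · rw [map_neg, hμ1 y, neg_zero]
  · obtain ⟨Sm, hSm⟩ := (hT0 π B' 0).1
    rw [← hSm]
    -- the sum
    have hsum : (δ p).sum (fun y c => c * - μ (opT M T M.D (Finsupp.single y 1))) =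
        - μ (opT M T M.D (δ p)) := by
      have h1 := HXX_lin (μ ∘ₗ opT M T M.D) (δ p)
      have h2 : μ (opT M T M.D (δ p)) = (μ ∘ₗ opT M T M.D) (δ p) := rfl
      rw [h2, h1, Finsupp.sum, Finsupp.sum, ← Finset.sum_neg_distrib]
      refine Finset.sum_congr rfl fun y _ => ?_
      rw [mul_neg]
      rfl
    rw [hsum]
    obtain ⟨ω, hω⟩ : ∃ ω, ω = chw f M 𝓛 T a (w p) := ⟨_, rfl⟩
    have hav : Avoids f (Bl M.L nc) a (w p) := HXX_av (Nat.le_add_right _ _) (hw2 p)
    obtain ⟨κ, hκ, hκω⟩ := hbω ω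
      (by
        intro y hy
        rw [hω] at hy
        obtain ⟨h1, h2⟩ := hL5s _ _ _ _ (hw2 p) hy
        exact ⟨h1, by omega⟩)
      (by rw [hω]; exact hL5E _ _ hav)
    have hδp : δ p = b' ω := by
      have h1 := hδw (w p) (hw1 p) (hw2 p)
      rw [hw3] at h1
      rw [h1, hω]
    have hDω : opT M T M.D ω = sh M T a 𝓛.o - gr p • sh M T a 𝓛.o := by
      have h1 := hL5D a (w p) hav
      rw [hw1, mul_one] at h1
      have h2 : hol f (lab f T) a (w p) = p := hw3 p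
      rw [h2] at h1
      rw [hω]
      exact h1
    have hDδ : opT M T M.D (δ p) = sh M T a 𝓛.o - gr p • sh M T a 𝓛.o - opT M T M.D κ := by
      rw [← hDω, ← hκω, hδp, map_add, add_sub_cancel_right]
    have hκS : μ (opT M T M.D κ) ∈ Sm := by
      have h1 := HXX_lin (μ ∘ₗ opT M T M.D) κ
      have h2 : μ (opT M T M.D κ) = (μ ∘ₗ opT M T M.D) κ := rfl
      rw [h2, h1]
      refine Submodule.sum_mem _ fun y hy => Submodule.smul_mem _ _ ?_
      rw [hSm]
      exact hμ2 y (hκ y (Finsupp.mem_support_iff.1 hy))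
    have hoS : μ (sh M T a 𝓛.o) - 1 ∈ Sm := (hSm _).2 hμ3
    have hfin : - μ (opT M T M.D (δ p)) - (gr p - 1) =
        (gr p - 1) • (μ (sh M T a 𝓛.o) - 1) + μ (opT M T M.D κ) := by
      rw [hDδ, map_sub, map_sub, map_smul, smul_eq_mul, smul_eq_mul]
      noncomm_ring
    rw [hfin]
    exact Submodule.add_mem _ (Submodule.smul_mem _ _ hoS) hκS

end Pool.Agent.SFG
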