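import Pool.Agent.SFG.StG

/-!
# [INN] The derivation is inner on a one-ended subgroup
-/

set_option autoImplicit false

namespace Pool.Agent.SFG

open Pool.Agent.CPD Pool.Agent.SPD

/-- The coefficients of a translate. -/
private theorem INN_coeff {P : Type} [Group P] (k : P) (m : ZG P) (g : P) :
    (gr k • m).coeff g = m.coeff (k⁻¹ * g) := by
  rw [smul_eq_mul]
  unfold gr
  rw [MonoidAlgebra.coeff_single_mul_apply, one_mul]

/-- A nontrivial torsion free subgroup is infinite. -/
private theorem INN_inf {P : Type} [Group P] (K : Subgroup P) (hT : TF P) (hK : K ≠ ⊥) :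
    (K : Set P).Infinite := by
  intro hfin
  obtain ⟨x, hx1⟩ := (Subgroup.ne_bot_iff_exists_ne_one).1 hK
  have : Finite K := hfin
  obtain ⟨n, hn, h⟩ := isOfFinOrder_iff_pow_eq_one.1 (isOfFinOrder_of_finite x)
  apply hx1
  have h2 := hT (x : P) n hn (by rw [← Subgroup.coe_pow, h, Subgroup.coe_one])
  exact Subtype.ext h2

/-- A function on an infinite set, such that the preimage of every set of integers is finite or
cofinite, is constant up to finitely many points. -/
private theorem INN_const {P : Type} (A : Set P) (f : P → ℤ)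
    (h : ∀ T : Set ℤ, {x | x ∈ A ∧ f x ∈ T}.Finite ∨ {x | x ∈ A ∧ f x ∉ T}.Finite) :
    ∃ c : ℤ, {x | x ∈ A ∧ f x ≠ c}.Finite := by
  by_contra hno
  push Not at hno
  have h1 : ∀ c : ℤ, {x | x ∈ A ∧ f x = c}.Finite := by
    intro c
    rcases h {c} with h2 | h2
    · exact h2.subset fun x hx => ⟨hx.1, hx.2⟩
    · exact absurd (h2.subset fun x hx => ⟨hx.1, hx.2⟩) (hno c)
  have hA : A.Infinite := fun hf => hno 0 (hf.subset fun x hx => hx.1)
  have h3 : (f '' A).Infinite := by
    intro hf
    apply hA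
    have : A ⊆ ⋃ c ∈ f '' A, {x | x ∈ A ∧ f x = c} := by
      intro x hx
      simp only [Set.mem_iUnion]
      exact ⟨f x, ⟨x, hx, rfl⟩, hx, rfl⟩
    exact (Set.Finite.biUnion hf fun c _ => h1 c).subset this
  let e : ℕ ↪ (f '' A) := h3.natEmbedding
  have he : ∀ m n : ℕ, (e m : ℤ) = (e n : ℤ) → m = n := fun m n hmn =>
    e.injective (Subtype.ext hmn)
  have key : ∀ (T : Set ℤ) (u : ℕ → ℕ), Function.Injective u → (∀ n, (e (u n) : ℤ) ∈ T) →
      {x | x ∈ A ∧ f x ∈ T}.Infinite := by
    intro T u hu hT hf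
    have h5 : (Set.range fun n => (e (u n) : ℤ)).Finite := by
      refine (hf.image f).subset ?_
      rintro _ ⟨n, rfl⟩
      obtain ⟨x, hx, hxe⟩ := (e (u n)).2
      refine ⟨x, ⟨hx, ?_⟩, hxe⟩
      rw [hxe]
      exact hT n
    exact Set.infinite_range_of_injective (fun m n hmn => hu (he _ _ hmn)) h5
  let T : Set ℤ := Set.range fun n : ℕ => (e (2 * n) : ℤ)
  rcases h T with h4 | h4
  · exact key T (fun n => 2 * n) (fun m n hmn => by simpa using hmn) (fun n => ⟨n, rfl⟩) h4
  · refine key Tᶜ (fun n => 2 * n + 1) (fun m n hmn => by simpa using hmn) (fun n => ?_) h4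
    rintro ⟨m, hm⟩
    have := he _ _ hm
    omega

theorem INN : St_INN := by
  intro P _ K J δ hT hFG hK hOne hδ
  classical
  obtain ⟨S, hS⟩ := hFG
  have hKinf := INN_inf K hT hK
  -- the coefficients
  set c : P → J → P → ℤ := fun k j g => (δ k j).coeff g with hc
  have hcm : ∀ p q j g, c (p * q) j g = c p j g + c q j (p⁻¹ * g) := by
    intro p q j g
    have h1 : δ (p * q) j = δ p j + gr p • δ q j := by
      rw [hδ p q, Finsupp.add_apply, Finsupp.smul_apply]
    change (δ (p * q) j).coeff g = _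
    rw [h1, MonoidAlgebra.coeff_add, Finsupp.add_apply, INN_coeff]
  have hc1 : ∀ j g, c 1 j g = 0 := by
    intro j g
    have h1 := hcm 1 1 j g
    rw [one_mul, inv_one, one_mul] at h1
    linarith
  have hci : ∀ k j g, c k⁻¹ j g = - c k j (k * g) := by
    intro k j g
    have h1 := hcm k⁻¹ k j g
    rw [inv_mul_cancel, hc1, inv_inv] at h1
    linarith
  have hfin : ∀ k j, {g | c k j g ≠ 0}.Finite := by
    intro k j
    refine ((δ k j).coeff.support.finite_toSet).subset ?_
    intro g hg
    exact Finsupp.mem_support_iff.2 hg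
  have hfin2 : ∀ k, {p : J × P | c k p.1 p.2 ≠ 0}.Finite := by
    intro k
    refine (Set.Finite.biUnion (δ k).support.finite_toSet
      (fun j _ => (hfin k j).image (fun g => (j, g)))).subset ?_
    rintro ⟨j, g⟩ hg
    simp only [Set.mem_iUnion]
    refine ⟨j, ?_, g, hg, rfl⟩
    rw [Finset.mem_coe, Finsupp.mem_support_iff]
    intro h0
    apply hg
    change (δ k j).coeff g = 0
    rw [h0]
    rfl
  -- the functions on `K`
  set f : J → P → P → ℤ := fun j x h => - c h j (h * x) with hf
  have hfk : ∀ j x k h, f j x (k * h) = f j x h - c k j (k * h * x) := by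
    intro j x k h
    have h1 := hcm k h j (k * h * x)
    have h2 : k⁻¹ * (k * h * x) = h * x := by group
    rw [h2] at h1
    change - c (k * h) j (k * h * x) = - c h j (h * x) - c k j (k * h * x)
    rw [h1]
    ring
  have hconst : ∀ j x, ∃ d : ℤ, {h | h ∈ (K : Set P) ∧ f j x h ≠ d}.Finite := by
    intro j x
    apply INN_const
    intro T
    refine hOne {h | f j x h ∈ T} ⟨?_, ?_⟩
    · intro a ha
      have h1 : {h | c a j (a * h * x) ≠ 0}.Finite := by
        refine ((hfin a j).preimage (f := fun h => a * h * x) ?_)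
        intro h _ h' _ hh
        exact mul_left_cancel (mul_right_cancel hh)
      refine h1.subset ?_
      intro h hh h0
      apply hh.2
      change f j x (a * h) ∈ T ↔ f j x h ∈ T
      rw [hfk, h0, sub_zero]
    · intro l hl h _
      rw [Subgroup.mem_bot] at hl
      rw [hl, one_mul]
  choose d hd using hconst
  -- representatives
  set r : P → P := fun g => (Quotient.mk (QuotientGroup.rightRel K) g).out with hr
  have hr1 : ∀ g, g * (r g)⁻¹ ∈ K := by
    intro g
    have h1 : (QuotientGroup.rightRel K) (r g) g := Quotient.mk_out g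
    exact QuotientGroup.rightRel_apply.1 h1
  have hr2 : ∀ k g, k ∈ K → r (k * g) = r g := by
    intro k g hk
    have h1 : (Quotient.mk (QuotientGroup.rightRel K) (k * g)) =
        Quotient.mk (QuotientGroup.rightRel K) g := by
      apply Quotient.sound
      change (QuotientGroup.rightRel K) (k * g) g
      rw [QuotientGroup.rightRel_apply, mul_inv_rev, mul_inv_cancel_left]
      exact K.inv_mem hk
    change (Quotient.mk (QuotientGroup.rightRel K) (k * g)).out = _
    rw [h1]
  have hr3 : ∀ g, r (r g) = r g := by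
    intro g
    have h1 := hr2 (g * (r g)⁻¹) (r g) (hr1 g)
    rw [inv_mul_cancel_right] at h1
    exact h1.symm
  -- the potential
  set Y : J → P → ℤ := fun j g => f j (r g) (g * (r g)⁻¹) - d j (r g) with hY
  have hYk : ∀ k ∈ K, ∀ j g, Y j (k * g) = Y j g - c k j (k * g) := by
    intro k hk j g
    change f j (r (k * g)) (k * g * (r (k * g))⁻¹) - d j (r (k * g)) =
      f j (r g) (g * (r g)⁻¹) - d j (r g) - c k j (k * g)
    rw [hr2 k g hk, mul_assoc k g, hfk]
    have h2 : k * (g * (r g)⁻¹) * r g = k * g := by group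
    rw [h2]
    ring
  -- vanishing
  have hvan : ∀ j x, (∀ k ∈ S, ∀ h ∈ K, c k j (h * x) = 0) → ∀ k ∈ K, ∀ h ∈ K,
      c k j (h * x) = 0 := by
    intro j x hS0 k hk
    rw [← hS] at hk
    induction hk using Subgroup.closure_induction with
    | mem k hk => exact hS0 k hk
    | one => intro h _; exact hc1 _ _
    | mul a b ha hb iha ihb =>
      intro h hh
      rw [hcm, iha h hh, ← mul_assoc]
      rw [hS] at ha
      rw [ihb (a⁻¹ * h) (K.mul_mem (K.inv_mem ha) hh), add_zero]
    | inv a ha iha =>
      intro h hh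
      rw [hci, ← mul_assoc]
      rw [hS] at ha
      rw [iha (a * h) (K.mul_mem ha hh), neg_zero]
  -- the bad pairs
  set B : Set (J × P) := ⋃ k ∈ S, (fun p : J × P => (p.1, r p.2)) '' {p | c k p.1 p.2 ≠ 0}
    with hB
  have hBfin : B.Finite := Set.Finite.biUnion S.finite_toSet
    (fun k _ => (hfin2 k).image _)
  have hgood : ∀ j g, (j, r g) ∉ B → Y j g = 0 := by
    intro j g hjg
    have h1 : ∀ k ∈ S, ∀ h ∈ K, c k j (h * r g) = 0 := by
      intro k hk h hh
      by_contra hne
      apply hjg
      rw [hB]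
      simp only [Set.mem_iUnion]
      refine ⟨k, hk, (j, h * r g), hne, ?_⟩
      change (j, r (h * r g)) = (j, r g)
      rw [hr2 h (r g) hh, hr3]
    have h2 := hvan j (r g) h1
    have h3 : ∀ h ∈ K, f j (r g) h = 0 := by
      intro h hh
      change - c h j (h * r g) = 0
      rw [h2 h hh h hh, neg_zero]
    have h4 : d j (r g) = 0 := by
      by_contra hne
      apply hKinf
      refine (hd j (r g)).subset ?_
      intro h hh
      refine ⟨hh, ?_⟩
      rw [h3 h hh]
      exact Ne.symm hne
    change f j (r g) (g * (r g)⁻¹) - d j (r g) = 0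
    rw [h3 _ (hr1 g), h4, sub_zero]
  have hYfin : {p : J × P | Y p.1 p.2 ≠ 0}.Finite := by
    refine (Set.Finite.biUnion hBfin (fun b _ => (hd b.1 b.2).image
      (fun h => (b.1, h * b.2)))).subset ?_
    rintro ⟨j, g⟩ hg
    simp only [Set.mem_iUnion]
    have h1 : (j, r g) ∈ B := by
      by_contra hno
      exact hg (hgood j g hno)
    refine ⟨(j, r g), h1, g * (r g)⁻¹, ⟨hr1 g, ?_⟩, ?_⟩
    · intro h0
      apply hg
      change f j (r g) (g * (r g)⁻¹) - d j (r g) = 0
      rw [h0, sub_self]
    · change (j, g * (r g)⁻¹ * r g) = (j, g)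
      rw [inv_mul_cancel_right]
  let z : J × P →₀ ℤ := Finsupp.ofSupportFinite (fun p => Y p.1 p.2) hYfin
  let y : J →₀ ZG P := (Finsupp.curry z).mapRange MonoidAlgebra.ofCoeff
    MonoidAlgebra.ofCoeff_zero
  have hy : ∀ j g, (y j).coeff g = Y j g := fun j g => rfl
  refine ⟨y, fun k hk => ?_⟩
  apply Finsupp.ext
  intro j
  rw [Finsupp.sub_apply, Finsupp.smul_apply]
  apply MonoidAlgebra.coeff_injective
  apply Finsupp.ext
  intro g
  rw [MonoidAlgebra.coeff_sub, Finsupp.sub_apply, INN_coeff, hy, hy]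
  change c k j g = _
  have h1 := hYk k hk j (k⁻¹ * g)
  rw [mul_inv_cancel_left] at h1
  rw [h1]
  ring

end Pool.Agent.SFG
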