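import Pool.Agent.SFG.StG

/-!
# SFG, module INT: a derivation separates `K` from the conjugates of `C` (helper34)
-/

set_option autoImplicit false

namespace Pool.Agent.SFG

open Pool.Agent.CPD Pool.Agent.SPD

variable {P : Type} [Group P]

private theorem INT_gr_mul (p q : P) : gr (p * q) = gr p * gr q := by
  show MonoidAlgebra.single (p * q) (1 : ℤ) = MonoidAlgebra.single p 1 * MonoidAlgebra.single q 1
  rw [MonoidAlgebra.single_mul_single, mul_one]

private theorem INT_gr_one : gr (1 : P) = 1 := rfl

private theorem INT_au_gr (g : P) : au (gr g) = 1 := by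
  show au (MonoidAlgebra.single g (1 : ℤ) : ZG P) = 1
  unfold au
  rw [MonoidAlgebra.lift_single]
  simp

private theorem INT_zero {x : P} (hx : ∀ n : ℕ, 1 ≤ n → x ^ n ≠ 1) {m : ZG P}
    (hm : gr x * m = m) : m = 0 := by
  have h1 : ∀ z, m.coeff (x * z) = m.coeff z := by
    intro z
    have h2 : (gr x * m).coeff (x * z) = m.coeff z := by
      show (MonoidAlgebra.single x (1 : ℤ) * m).coeff (x * z) = m.coeff z
      rw [MonoidAlgebra.coeff_single_mul_apply, one_mul, inv_mul_cancel_left]
    rw [hm] at h2
    exact h2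
  have h3 : ∀ (n : ℕ) z, m.coeff (x ^ n * z) = m.coeff z := by
    intro n
    induction n with
    | zero =>
      intro z
      rw [pow_zero, one_mul]
    | succ n ih =>
      intro z
      rw [pow_succ', mul_assoc, h1, ih]
  by_contra hne
  have h4 : ∃ y, m.coeff y ≠ 0 := by
    by_contra hcon
    push Not at hcon
    apply hne
    apply MonoidAlgebra.ext
    ext y
    rw [hcon y]
    rfl
  obtain ⟨y, hy⟩ := h4
  have hinj : Function.Injective fun n : ℕ => x ^ n * y := by
    intro a b hab
    have h5 : x ^ a = x ^ b := mul_right_cancel hab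
    have h6 : Function.Injective fun n : ℕ => x ^ n := by
      rw [injective_pow_iff_not_isOfFinOrder, isOfFinOrder_iff_pow_eq_one]
      rintro ⟨n, hn, hn1⟩
      exact hx n hn hn1
    exact h6 h5
  have hinf : Set.Infinite {z | m.coeff z ≠ 0} :=
    Set.infinite_of_injective_forall_mem hinj fun n => by
      show m.coeff (x ^ n * y) ≠ 0
      rw [h3]
      exact hy
  exact hinf m.coeff.finite_support

theorem INT : St_INT := by
  intro P _ C K d hTF hNZ hd hC hK g l hl hx
  by_contra hne
  have hder : ∀ a b, d (a * b) = d a + gr a * d b := fun a b => hd a trivial b trivial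
  have h1 : d 1 = 0 := by
    have h2 := hder 1 1
    rw [mul_one, INT_gr_one, one_mul] at h2
    exact left_eq_add.1 h2
  have h2 : d g + gr g * d g⁻¹ = 0 := by
    rw [← hder, mul_inv_cancel, h1]
  have h3 : d (g * l * g⁻¹) = d g - gr (g * l * g⁻¹) * d g := by
    rw [hder, hder, hC l hl, mul_zero, add_zero]
    have h4 : d g⁻¹ = -(gr g⁻¹ * d g) := by
      have h5 : gr g⁻¹ * (d g + gr g * d g⁻¹) = 0 := by rw [h2, mul_zero]
      rw [mul_add, ← mul_assoc, ← INT_gr_mul, inv_mul_cancel, INT_gr_one, one_mul] at h5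
      exact (neg_eq_of_add_eq_zero_right h5).symm
    rw [h4, mul_neg, ← mul_assoc, ← INT_gr_mul, sub_eq_add_neg]
  rw [hK _ hx] at h3
  have hm : gr (g * l * g⁻¹) * (1 + d g) = 1 + d g := by
    rw [mul_add, mul_one]
    have h4 : gr (g * l * g⁻¹) = d g - gr (g * l * g⁻¹) * d g + 1 := by
      rw [← h3]
      abel
    have h5 : gr (g * l * g⁻¹) + gr (g * l * g⁻¹) * d g =
        (d g - gr (g * l * g⁻¹) * d g + 1) + gr (g * l * g⁻¹) * d g := by
      rw [← h4]
    rw [h5]
    abel
  have h6 : 1 + d g = 0 := INT_zero (fun n hn h => hne (hTF _ n hn h)) hm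
  have h7 : au (d g) = 0 := by
    have h8 := hNZ (fun p => Multiplicative.ofAdd (au (d p))) (by
      intro a _ b _
      show Multiplicative.ofAdd (au (d (a * b))) = _
      rw [hder, map_add, map_mul, INT_au_gr, one_mul]
      rfl) g trivial
    exact Multiplicative.ofAdd.injective h8
  have h9 := congrArg au h6
  rw [map_add, map_one, h7, map_zero] at h9
  exact absurd h9 (by norm_num)

end Pool.Agent.SFG
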