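import Pool.Agent.SFG.StV

/-!
# [ITR] Iterated free splittings stop
-/

set_option autoImplicit false

namespace Pool.Agent.SFG

open Matrix Pool.Agent.CPD Pool.Agent.SPD

/-- a splitting `Spl A' K A` with `Q A'` and `r` independent infinite subgroups of `K` -/
private def ITR_p {P : Type} [Group P] (Q : Subgroup P → Prop) (A : Subgroup P) (r : ℕ) : Prop :=
  ∃ (A' K : Subgroup P) (Kr : Fin r → Subgroup P) (d : Fin r → P → ZG P), Spl A' K A ∧ Q A' ∧
    (∀ a, Kr a ≤ K ∧ (Kr a : Set P).Infinite) ∧ (∀ a, Der A (d a)) ∧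
    (∀ a, ∀ x ∈ A', d a x = 0) ∧
    ∀ a b, ∀ x ∈ Kr b, d a x = if a = b then gr x - 1 else 0

private theorem ITR_inf {P : Type} [Group P] (hTF : TF P) (K : Subgroup P) (hK : K ≠ ⊥) :
    (K : Set P).Infinite := by
  obtain ⟨⟨x, hx⟩, hx1'⟩ := Subgroup.ne_bot_iff_exists_ne_one.1 hK
  have hx1 : x ≠ 1 := fun h => hx1' (Subtype.ext h)
  have key : ∀ n m : ℕ, n < m → x ^ n ≠ x ^ m := by
    intro n m hnm h
    apply hx1
    apply hTF x (m - n) (by omega)
    have h2 : x ^ m = x ^ n * x ^ (m - n) := by
      rw [← pow_add]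
      congr 1
      omega
    rw [h2] at h
    exact (mul_eq_left.1 h.symm)
  refine Set.infinite_of_injective_forall_mem (f := fun n : ℕ => x ^ n) ?_ fun n =>
    K.pow_mem hx n
  intro n m h
  rcases lt_trichotomy n m with h1 | h1 | h1
  · exact absurd h (key n m h1)
  · exact h1
  · exact absurd h.symm (key m n h1)

private theorem ITR_gr {P : Type} [Group P] (p q : P) : (gr (p * q) : ZG P) = gr p * gr q := by
  unfold gr
  rw [MonoidAlgebra.single_mul_single, mul_one]

theorem ITR (hG : St_GRD) (hS : St_SB) : St_ITR := by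
  intro P _ Q Tm hTF hstep A hA hQA
  obtain ⟨h1, h2, h3, -, -, -, h7⟩ := hS P
  obtain ⟨S, hS'⟩ := hA
  obtain ⟨k, s, hs⟩ : ∃ (k : ℕ) (s : Fin k → P), A = Subgroup.closure (Set.range s) := by
    refine ⟨S.card, fun i => (S.equivFin.symm i : P), ?_⟩
    rw [← hS']
    congr 1
    ext x
    constructor
    · intro hx
      exact ⟨S.equivFin ⟨x, hx⟩, by simp⟩
    · rintro ⟨i, rfl⟩
      exact (S.equivFin.symm i).2
  have hA : A.FG := ⟨S, hS'⟩
  by_contra hno
  have hall : ∀ r, ITR_p Q A r := by
    intro r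
    induction r with
    | zero =>
      exact ⟨A, ⊥, fun a => a.elim0, fun a => a.elim0, h7 A, hQA, fun a => a.elim0,
        fun a => a.elim0, fun a => a.elim0, fun a => a.elim0⟩
    | succ r ih =>
      obtain ⟨A', K, Kr, d, hspl, hQ, hKr, hd, hdA, hdK⟩ := ih
      obtain ⟨hA'FG, hKFG⟩ := h1 A' K A hspl hA
      rcases hstep A' hA'FG hQ with hT | ⟨A'', K', hspl', hK', hQ'⟩
      · exact absurd ⟨A', K, hspl, hA'FG, hKFG, hQ, hT⟩ hno
      have hA''le : A'' ≤ A' := by
        rw [← hspl'.sup]
        exact le_sup_left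
      have hK'le : K' ≤ A' := by
        rw [← hspl'.sup]
        exact le_sup_right
      have e0 : Der A'' (fun _ => (0 : ZG P)) := by
        intro a _ b _
        simp
      have e1 : Der K' (fun x => (gr x - 1 : ZG P)) := by
        intro a _ b _
        show (gr (a * b) - 1 : ZG P) = gr a - 1 + gr a * (gr b - 1)
        rw [ITR_gr, mul_sub, mul_one]
        abel
      have e2 : Der K (fun _ => (0 : ZG P)) := by
        intro a _ b _
        simp
      obtain ⟨e, he, heA, heK⟩ := h3 A'' K' A' _ _ hspl' e0 e1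
      obtain ⟨n, hn, hnA, hnK⟩ := h3 A' K A _ _ hspl he e2
      refine ⟨A'', K' ⊔ K, Fin.cons K' Kr, Fin.cons n d, h2 A'' K' A' K A hspl hspl', hQ',
        ?_, ?_, ?_, ?_⟩
      · intro a
        refine Fin.cases ?_ (fun a => ?_) a
        · exact ⟨le_sup_left, ITR_inf hTF K' hK'⟩
        · exact ⟨(hKr a).1.trans le_sup_right, (hKr a).2⟩
      · intro a
        refine Fin.cases ?_ (fun a => ?_) a
        · exact hn
        · exact hd a
      · intro a
        refine Fin.cases ?_ (fun a => ?_) a
        · intro x hx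
          rw [Fin.cons_zero, hnA x (hA''le hx), heA x hx]
        · intro x hx
          rw [Fin.cons_succ]
          exact hdA a x (hA''le hx)
      · intro a b
        refine Fin.cases ?_ (fun a => ?_) a
        · refine Fin.cases ?_ (fun b => ?_) b
          · intro x hx
            rw [Fin.cons_zero] at hx
            rw [Fin.cons_zero, if_pos rfl, hnA x (hK'le hx), heK x hx]
          · intro x hx
            rw [Fin.cons_succ] at hx
            rw [Fin.cons_zero, if_neg (Fin.succ_ne_zero b).symm, hnK x ((hKr b).1 hx)]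
        · refine Fin.cases ?_ (fun b => ?_) b
          · intro x hx
            rw [Fin.cons_zero] at hx
            rw [Fin.cons_succ, if_neg (Fin.succ_ne_zero a)]
            exact hdA a x (hK'le hx)
          · intro x hx
            rw [Fin.cons_succ] at hx
            rw [Fin.cons_succ, hdK a b x hx]
            simp only [Fin.succ_inj]
  obtain ⟨A', K, Kr, d, hspl, -, hKr, hd, -, hdK⟩ := hall (k + 1)
  have hKA : K ≤ A := by
    rw [← hspl.sup]
    exact le_sup_right
  have := hG P A k (k + 1) s Kr d hs (fun a => ⟨(hKr a).1.trans hKA, (hKr a).2⟩) hd hdK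
  omega

end Pool.Agent.SFG
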