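import Pool.Agent.SFG.StG

/-!
# SFG LB (helper63): consequences of `HX`
-/

set_option autoImplicit false

namespace Pool.Agent.SFG

open Pool.Agent.CPD Pool.Agent.SPD

private theorem LB_f {P J : Type} [Group P] (δ : P → (J →₀ ZG P))
    (hδ : ∀ p q, δ (p * q) = δ p + gr p • δ q) (j : J) (p h : P) :
    (δ (p * h) j).coeff (p * h) = (δ p j).coeff (p * h) + (δ h j).coeff h := by
  rw [hδ p h, Finsupp.add_apply, Finsupp.smul_apply, MonoidAlgebra.coeff_add, Finsupp.add_apply]
  congr 1
  show (gr p * (δ h j)).coeff (p * h) = _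
  rw [SPD.gr, MonoidAlgebra.coeff_single_mul_mul, one_mul]

private theorem LB_two {P J : Type} [Group P] (B : Subgroup P) (δ : P → (J →₀ ZG P))
    (hδ : ∀ p q, δ (p * q) = δ p + gr p • δ q) (hB : ∀ b ∈ B, δ b = 0) (p : P) (hp : p ∈ LL B) :
    δ p = 0 := by
  ext j y
  rw [Finsupp.zero_apply]
  have hAI : ∀ n : ℤ, AI ⊤ B {x : P | (δ x j).coeff x = n} := by
    intro n
    refine ⟨fun a _ => ?_, fun b hb x _ => ?_⟩
    · have hfin : {x : P | (δ a j).coeff (a * x) ≠ 0}.Finite := by
        have h1 : ((δ a j).coeff.support : Set P).Finite := Finset.finite_toSet _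
        have h2 : ((fun x : P => a * x) ⁻¹' ((δ a j).coeff.support : Set P)).Finite :=
          h1.preimage (fun x _ y _ h => mul_left_cancel h)
        refine h2.subset fun x hx => ?_
        show a * x ∈ ((δ a j).coeff.support : Set P)
        rw [Finset.mem_coe, Finsupp.mem_support_iff]
        exact hx
      refine hfin.subset fun x hx => ?_
      intro h0
      apply hx.2
      show (δ (a * x) j).coeff (a * x) = n ↔ (δ x j).coeff x = n
      rw [LB_f δ hδ, h0, zero_add]
    · show (δ (b * x) j).coeff (b * x) = n ↔ (δ x j).coeff x = n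
      rw [LB_f δ hδ, hB b hb]
      simp
  have hz : ∀ x, (δ p j).coeff (p * x) = 0 := by
    intro x
    have h1 := (hp _ (hAI ((δ x j).coeff x)) x).2 rfl
    have h2 : (δ (p * x) j).coeff (p * x) = (δ x j).coeff x := h1
    rw [LB_f δ hδ] at h2
    omega
  have h := hz (p⁻¹ * y)
  rw [mul_inv_cancel_left] at h
  rw [h]
  rfl

theorem thm_LB : St_LB := by
  intro P _ B
  refine ⟨fun p hp E hE x => hE.inv p hp x trivial, fun J δ hδ hB p hp => LB_two B δ hδ hB p hp,
    fun hHX hFG => ?_, fun A _ a _ ha => ?_⟩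
  · obtain ⟨B', _, hB', J, δ, t, hδ, hB, _, hI⟩ := hHX B hFG
    refine ⟨B', hB', fun p hp => ?_⟩
    have h0 := LB_two B δ hδ hB p hp
    have h1 := hI p (QuotientGroup.mk p)
    rw [h0, Finsupp.sum_zero_index, Nat.cast_zero, zero_dvd_iff] at h1
    by_contra hne
    have h2 : (QuotientGroup.mk 1 : P ⧸ B') ≠ QuotientGroup.mk p := by
      intro h
      apply hne
      have := QuotientGroup.eq.1 h
      simpa using this
    have h3 : ((0 : ZG P) - (gr p - 1)).coeff = Finsupp.single 1 1 - Finsupp.single p 1 := by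
      rw [MonoidAlgebra.coeff_sub, MonoidAlgebra.coeff_sub]
      show (0 : P →₀ ℤ) - (Finsupp.single p 1 - Finsupp.single 1 1) = _
      rw [zero_sub, neg_sub]
    rw [h3] at h1
    have h4 : (Finsupp.mapDomain (QuotientGroup.mk : P → P ⧸ B')
        (Finsupp.single 1 1 - Finsupp.single p (1 : ℤ))) =
        Finsupp.single (QuotientGroup.mk 1) 1 - Finsupp.single (QuotientGroup.mk p) 1 := by
      have h5 := (Finsupp.mapDomain.addMonoidHom (M := ℤ) (QuotientGroup.mk : P → P ⧸ B')).map_sub
        (Finsupp.single 1 1) (Finsupp.single p 1)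
      rw [Finsupp.mapDomain.addMonoidHom_apply, Finsupp.mapDomain.addMonoidHom_apply,
        Finsupp.mapDomain.addMonoidHom_apply, Finsupp.mapDomain_single,
        Finsupp.mapDomain_single] at h5
      exact h5
    rw [h4, Finsupp.sub_apply, Finsupp.single_eq_of_ne (Ne.symm h2), Finsupp.single_eq_same] at h1
    omega
  · have h1 : ∃ E, AI ⊤ B E ∧ ∃ x, ¬ (a * x ∈ E ↔ x ∈ E) := by
      by_contra hcon
      apply ha
      intro E hE x
      by_contra hx
      exact hcon ⟨E, hE, x, hx⟩
    obtain ⟨E, hE, x, hx⟩ := h1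
    refine ⟨{y | y * x ∈ E}, ⟨fun a' _ => ?_, fun l hl y _ => ?_⟩, 1, A.one_mem, ?_⟩
    · have h2 := (hE.fin a' trivial).preimage (f := fun y : P => y * x)
        (fun y _ z _ h => mul_right_cancel h)
      refine h2.subset fun y hy => ?_
      refine ⟨trivial, ?_⟩
      intro h3
      apply hy.2
      show a' * y * x ∈ E ↔ y * x ∈ E
      rw [mul_assoc]
      exact h3
    · show l * y * x ∈ E ↔ y * x ∈ E
      rw [mul_assoc]
      exact hl E hE (y * x)
    · show ¬ (a * 1 * x ∈ E ↔ 1 * x ∈ E)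
      rw [mul_one, one_mul]
      exact hx

end Pool.Agent.SFG
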