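import Pool.Agent.SFG.StG

/-! # LF: `LL B` is finitely generated (MP_d2e046_gt; helper42) -/

set_option autoImplicit false

namespace Pool.Agent.SFG

open Pool.Agent.CPD Pool.Agent.SPD

theorem LF (hLB : St_LB) (hRSF : St_RSF) : St_LF := by
  intro P _ B hT hX hF hB
  obtain ⟨h1, -, h3, h4⟩ := hLB P B
  obtain ⟨B', hB', hle⟩ := h3 hX hF
  have hne : LL B ≠ ⊥ := fun h => hB (le_bot_iff.1 (h ▸ h1))
  have key : ∀ A : Subgroup P, A.FG → LL B ≤ A → ∃ K : Subgroup P, Spl (LL B) K A ∧ (LL B).FG ∧ K.FG :=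
    fun A hA hl => hRSF P A (LL B) hT hA hne hl (h4 A hl)
  obtain ⟨_, _, hfg, _⟩ := key B' hB' hle
  refine ⟨hfg, fun A hA hl => ?_⟩
  obtain ⟨K, hK, _, hK2⟩ := key A hA hl
  exact ⟨K, hK, hK2⟩

end Pool.Agent.SFG
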