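import Pool.Agent.SFG.StT

/-!
# Module LTX : the torsion-free level
-/

set_option autoImplicit false

namespace Pool.Agent.SFG

open Matrix Pool.Agent.CPD Pool.Agent.SPD
open scoped commutatorElement

private theorem LTX_hol {G α π Q : Type} [Group G] [Group π] [Group Q] (f : α → G)
    (T : G → G → π) (θ : π →* Q) (w : List (α × Bool)) : ∀ v : G,
    hol f (SPD.lab f (fun v h => θ (T v h))) v w = θ (hol f (SPD.lab f T) v w) := by
  induction w with
  | nil =>
    intro v
    exact (map_one θ).symm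
  | cons a w ih =>
    intro v
    show SPD.lab f (fun v h => θ (T v h)) v a *
        hol f (SPD.lab f (fun v h => θ (T v h))) (v * letter f a) w =
      θ (SPD.lab f T v a * hol f (SPD.lab f T) (v * letter f a) w)
    rw [ih, map_mul]
    rfl

private theorem LTX_Iw {G α π Q W : Type} [Group G] [Group π] [Group Q] (f : α → G)
    (T : G → G → π) (θ : π →* Q) [AddCommGroup W] [Module (ZG π) W] [Module (ZG Q) W]
    (hgr : ∀ (g : π) (x : W), gr g • x = gr (θ g) • x) (β : G → (α × Bool) → W)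
    (w : List (α × Bool)) : ∀ v : G,
    Iw f (fun v h => θ (T v h)) β v w = Iw f T β v w := by
  induction w with
  | nil =>
    intro v
    rfl
  | cons a w ih =>
    intro v
    show β v a + gr (θ (T v (letter f a))) • Iw f (fun v h => θ (T v h)) β (v * letter f a) w =
      β v a + gr (T v (letter f a)) • Iw f T β (v * letter f a) w
    rw [ih, hgr]

private theorem LTX_com {π W : Type} [Group π] [AddCommGroup W] (R : Subgroup π)
    (hR : ∀ y ∈ R, ∃ s : ℕ, 1 ≤ s ∧ y ^ s ∈ ⁅R, R⁆)
    (hW : ∀ (m : ℕ) (x : W), 1 ≤ m → m • x = 0 → x = 0) (c : R → W)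
    (hc : ∀ x y, c (x * y) = c x + c y) (x : R) : c x = 0 := by
  let χ : R →* Multiplicative W := MonoidHom.mk' (fun x => Multiplicative.ofAdd (c x))
    (fun x y => by rw [hc]; rfl)
  have hle : ⁅R, R⁆ ≤ χ.ker.map R.subtype := by
    rw [Subgroup.commutator_le]
    intro a ha b hb
    refine ⟨⁅(⟨a, ha⟩ : R), (⟨b, hb⟩ : R)⁆, ?_, rfl⟩
    show ⁅(⟨a, ha⟩ : R), ⟨b, hb⟩⁆ ∈ χ.ker
    rw [MonoidHom.mem_ker, map_commutatorElement, commutatorElement_eq_one_iff_mul_comm]
    exact mul_comm _ _
  obtain ⟨s, hs, hxs⟩ := hR x x.2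
  obtain ⟨y, hy, hyx⟩ := hle hxs
  have h1 : y = x ^ s := Subtype.ext hyx
  rw [h1] at hy
  have h2 : χ (x ^ s) = 1 := hy
  rw [map_pow] at h2
  have h3 : s • c x = 0 := congrArg Multiplicative.toAdd h2
  exact hW s _ hs h3

/-- The torsion-free level. -/
theorem LTX (hW0 : SPD.St_W0) (hW1 : SPD.St_W1) : St_LTX := by
  intro G α π _ _ f Rel L N n0 T R hB hT hNT htf
  have hnor := hNT.nor
  obtain ⟨θ, hθs, hθk⟩ : ∃ θ : π →* π ⧸ R, Function.Surjective θ ∧ θ.ker = R :=
    ⟨QuotientGroup.mk' R, QuotientGroup.mk'_surjective R, QuotientGroup.ker_mk' R⟩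
  have hθ1 : ∀ x, θ x = 1 ↔ x ∈ R := fun x => by
    rw [← MonoidHom.mem_ker, hθk]
  obtain ⟨hinv, happ, havo, havi, hhol, hIw, hmono, -, -⟩ := hW0 G α f
  refine ⟨π ⧸ R, inferInstance, θ, hθs, hθk, ?_⟩
  constructor
  · -- torsion-free
    intro x n hn hx
    obtain ⟨y, rfl⟩ := hθs x
    rw [← map_pow, hθ1] at hx
    exact (hθ1 y).2 (htf y n hn hx)
  · intro h h'
    filter_upwards [hT.als h h'] with v hv
    show θ (T v h) * θ (T (v * h) h') = θ (T v (h * h'))
    rw [← map_mul, hv]
  · constructor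
    · intro g a b hg hg'
      show θ (T g (letter f (a, b))) * θ (T (g * letter f (a, b)) (letter f (a, !b))) = 1
      have h1 := hT.lab.edge g a b hg hg'
      have h2 : T g (letter f (a, b)) * T (g * letter f (a, b)) (letter f (a, !b)) = 1 := h1
      rw [← map_mul, h2, map_one]
    · intro r hr g hg
      rw [LTX_hol, hT.lab.cell r hr g hg, map_one]
  · intro k
    obtain ⟨k', hk'⟩ := hT.surj k
    refine ⟨k', fun v hv g => ?_⟩
    obtain ⟨g', rfl⟩ := hθs g
    obtain ⟨w, h1, h2, h3⟩ := hk' v hv g'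
    exact ⟨w, h1, h2, by rw [LTX_hol, h3]⟩
  · intro n hn
    obtain ⟨l0, hl0⟩ := hT.ind n hn
    obtain ⟨k', hk'⟩ := hT.surj n
    refine ⟨max l0 k', ?_⟩
    intro W _ _ β htW hco hva v w hv hw1 hw2 hw3
    let _ : Module (ZG π) W := Module.compHom W (MonoidAlgebra.mapDomainRingHom ℤ θ)
    have hgr : ∀ (g : π) (x : W), gr g • x = gr (θ g) • x := by
      intro g x
      show (MonoidAlgebra.mapDomainRingHom ℤ θ (gr g)) • x = gr (θ g) • x
      congr 1
      exact MonoidAlgebra.mapDomain_single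
    have hgr1 : ∀ x : W, gr (1 : π ⧸ R) • x = x := by
      intro x
      exact one_smul _ x
    have hco' : WCoc f Rel (Bl L n) T β := by
      constructor
      · intro v a b h1 h2
        rw [hgr]
        exact hco.edge v a b h1 h2
      · intro r hr v h1
        rw [← LTX_Iw f T θ hgr]
        exact hco.cell r hr v h1
    have hind := hl0 W β hco' (fun v a h1 h2 => hva v a h1 (h2.trans (le_max_left _ _)))
    rw [LTX_Iw f T θ hgr]
    rw [LTX_hol, hθ1] at hw3
    have hsub : Bl L n0 ⊆ Bl L n := fun x hx => le_trans hx hn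
    obtain ⟨-, -, -, hholi⟩ := hW1 G α f Rel (Bl L n0) hB.rel
    have hholw : ∀ u : List (α × Bool), value f u = 1 → Avoids f (Bl L n) v u →
        hol f (SPD.lab f T) v (winv u) = (hol f (SPD.lab f T) v u)⁻¹ := by
      intro u hu1 hu2
      have h1 := hholi π (SPD.lab f T) hT.lab v u (hmono _ _ v u hsub hu2)
      rw [hu1, mul_one] at h1
      exact h1
    -- the integral depends only on the holonomy
    have key : ∀ u u' : List (α × Bool), value f u = 1 → Avoids f (Bl L n) v u →
        value f u' = 1 → Avoids f (Bl L n) v u' →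
        hol f (SPD.lab f T) v u = hol f (SPD.lab f T) v u' → hol f (SPD.lab f T) v u' ∈ R →
        Iw f T β v u = - Iw f T β v (winv u') := by
      intro u u' h1 h2 h3 h4 h5 h6
      have h7 : Iw f T β v (u ++ winv u') = 0 := by
        apply hind
        · rw [(happ u (winv u')).1, h1, (hinv u').1, h3, inv_one, one_mul]
        · rw [havo, h1, mul_one]
          refine ⟨h2, ?_⟩
          have h8 := (havi (Bl L n) v u').1 h4
          rw [h3, mul_one] at h8
          exact h8
        · rw [hhol, h1, mul_one, hholw u' h3 h4, h5, mul_inv_cancel]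
      rw [hIw, h1, mul_one, hgr, h5, (hθ1 _).2 h6, hgr1] at h7
      exact eq_neg_of_add_eq_zero_left h7
    have key2 : ∀ u u' : List (α × Bool), value f u = 1 → Avoids f (Bl L n) v u →
        value f u' = 1 → Avoids f (Bl L n) v u' →
        hol f (SPD.lab f T) v u = hol f (SPD.lab f T) v u' → hol f (SPD.lab f T) v u' ∈ R →
        Iw f T β v u = Iw f T β v u' := by
      intro u u' h1 h2 h3 h4 h5 h6
      rw [key u u' h1 h2 h3 h4 h5 h6, ← key u' u' h3 h4 h3 h4 rfl h6]
    have hvk : k' < L.l v := lt_of_le_of_lt (le_max_right _ _) hv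
    choose wd hwd1 hwd2 hwd3 using hk' v hvk
    have hc : ∀ x y : R, Iw f T β v (wd ((x * y : R) : π)) =
        Iw f T β v (wd (x : π)) + Iw f T β v (wd (y : π)) := by
      intro x y
      have h1 : value f (wd (x : π) ++ wd (y : π)) = 1 := by
        rw [(happ _ _).1, hwd1, hwd1, one_mul]
      have h2 : Avoids f (Bl L n) v (wd (x : π) ++ wd (y : π)) := by
        rw [havo, hwd1, mul_one]
        exact ⟨hwd2 _, hwd2 _⟩
      have h3 : hol f (SPD.lab f T) v (wd (x : π) ++ wd (y : π)) = (x : π) * y := by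
        rw [hhol, hwd1, mul_one, hwd3, hwd3]
      rw [key2 _ _ (hwd1 _) (hwd2 _) h1 h2 (by rw [hwd3, h3]; rfl)
        (by rw [h3]; exact R.mul_mem x.2 y.2)]
      rw [hIw, hwd1, mul_one, hwd3, hgr, (hθ1 _).2 x.2, hgr1]
    have hz := LTX_com R hNT.tor htW (fun x : R => Iw f T β v (wd (x : π))) hc ⟨_, hw3⟩
    rw [key2 w (wd (hol f (SPD.lab f T) v w)) hw1 hw2 (hwd1 _) (hwd2 _) (hwd3 _).symm
      (by rw [hwd3]; exact hw3)]
    exact hz

end Pool.Agent.SFG
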