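import Pool.Agent.SFG.StR

set_option autoImplicit false

namespace Pool.Agent.SFG

open Pool.Agent.CPD Pool.Agent.SPD

private theorem NA1_bd {A : Type} [Group A] (S : Finset A) (E F : Set A) (hFE : F ⊆ E)
    (hF : ∀ s ∈ S, ∀ x, x ∈ E → s * x ∈ E → (s * x ∈ F ↔ x ∈ F)) :
    bd S F ∪ bd S (E \ F) = bd S E ∧ Disjoint (bd S F) (bd S (E \ F)) := by
  constructor
  · ext ⟨s, x⟩
    simp only [bd, Set.mem_union, Set.mem_ofPred_eq, Set.mem_sdiff]
    by_cases hs : s ∈ S
    · have h1 := hF s hs x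
      have h2 : s * x ∈ F → s * x ∈ E := fun h => hFE h
      have h3 : x ∈ F → x ∈ E := fun h => hFE h
      tauto
    · tauto
  · rw [Set.disjoint_left]
    rintro ⟨s, x⟩ h1 h2
    simp only [bd, Set.mem_ofPred_eq, Set.mem_sdiff] at h1 h2
    have h3 := hF s h1.1 x
    have h4 : s * x ∈ F → s * x ∈ E := fun h => hFE h
    have h5 : x ∈ F → x ∈ E := fun h => hFE h
    tauto

/-- Narrow sets are connected. -/
theorem NA1 : St_CUT → St_NA1 := by
  intro hC A _ S L m E hS hM hN F hFE hne hinv hF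
  obtain ⟨c1, -, -, -, c5, -⟩ := hC A S hS
  obtain ⟨hbE, hiE⟩ := (c1 L E).1 hN.ai
  obtain ⟨hU, hD⟩ := NA1_bd S E F hFE hF
  have hb1 : (bd S F).Finite := hbE.subset (hU ▸ Set.subset_union_left)
  have hb2 : (bd S (E \ F)).Finite := hbE.subset (hU ▸ Set.subset_union_right)
  have hcard : cn S F + cn S (E \ F) = m := by
    rw [← hN.eq]
    unfold cn
    rw [← hU, Set.ncard_union_eq hD hb1 hb2]
  obtain ⟨z, hz⟩ := hN.cinf.nonempty
  by_cases hfin : F.Finite
  · have hi : (E \ F).Infinite := hN.inf.sdiff hfin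
    have hci : ((E \ F)ᶜ).Infinite :=
      hN.cinf.mono (Set.compl_subset_compl.2 Set.sdiff_subset)
    have hai : AI ⊤ L (E \ F) := (c1 L (E \ F)).2 ⟨hb2, fun l hl x => by
      rw [Set.mem_sdiff, Set.mem_sdiff, hiE l hl x, hinv l hl x]⟩
    have h1 := hM _ hai hi hci
    have h2 : cn S F = 0 := by omega
    have h3 : bd S F = ∅ := (Set.ncard_eq_zero hb1).1 h2
    rcases c5 F h3 with h | h
    · exact absurd h hne.ne_empty
    · exact absurd (hFE (h ▸ Set.mem_univ z)) hz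
  · have hi : F.Infinite := hfin
    have hci : (Fᶜ).Infinite := hN.cinf.mono (Set.compl_subset_compl.2 hFE)
    have hai : AI ⊤ L F := (c1 L F).2 ⟨hb1, hinv⟩
    have h1 := hM _ hai hi hci
    have h2 : cn S (E \ F) = 0 := by omega
    have h3 : bd S (E \ F) = ∅ := (Set.ncard_eq_zero hb2).1 h2
    rcases c5 _ h3 with h | h
    · exact Set.Subset.antisymm hFE (Set.sdiff_eq_empty.1 h)
    · have : z ∈ E \ F := h ▸ Set.mem_univ z
      exact absurd this.1 hz

end Pool.Agent.SFG
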