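import Pool.Agent.SFG.StR

/-!
# SFG : module NA2, finitely many narrow sets cut a given edge
-/

set_option autoImplicit false

namespace Pool.Agent.SFG

open Pool.Agent.CPD Pool.Agent.SPD

section NA2

variable {A : Type} [Group A]

/-- the class of an element modulo left multiplication by `L` -/
private def NA2_mk (L : Subgroup A) (x : A) : Quotient (QuotientGroup.rightRel L) :=
  Quotient.mk _ x

private theorem NA2_mk_eq (L : Subgroup A) (x y : A) :
    NA2_mk L x = NA2_mk L y ↔ y * x⁻¹ ∈ L := by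
  unfold NA2_mk
  rw [Quotient.eq, QuotientGroup.rightRel_apply]

private theorem NA2_mk_mul (L : Subgroup A) (l : A) (hl : l ∈ L) (x : A) :
    NA2_mk L (l * x) = NA2_mk L x := by
  rw [NA2_mk_eq]
  have h : x * (l * x)⁻¹ = l⁻¹ := by group
  rw [h]
  exact inv_mem hl

private theorem NA2_surj (L : Subgroup A) : Function.Surjective (NA2_mk L) := by
  intro q
  obtain ⟨x, hx⟩ := Quotient.exists_rep q
  exact ⟨x, hx⟩

private theorem NA2_pre (L : Subgroup A) (E : Set A)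
    (hE : ∀ l ∈ L, ∀ x, (l * x ∈ E ↔ x ∈ E)) : NA2_mk L ⁻¹' (NA2_mk L '' E) = E := by
  apply Set.Subset.antisymm
  · rintro x ⟨y, hy, hxy⟩
    have h1 := (NA2_mk_eq L y x).1 hxy
    have h2 := (hE _ h1 y).2 hy
    rwa [inv_mul_cancel_right] at h2
  · exact Set.subset_preimage_image _ _

private theorem NA2_con (hNA1 : St_NA1) (S : Finset A) (L : Subgroup A) (m : ℕ)
    (hS : Subgroup.closure (S : Set A) = ⊤) (hm : MinN S L m)
    (T : Set (Quotient (QuotientGroup.rightRel L))) (hT : Nar S L m (NA2_mk L ⁻¹' T)) :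
    ConE (fun p : A × A => NA2_mk L p.2) (fun p : A × A => NA2_mk L (p.1 * p.2))
      {p | p.1 ∈ S} T := by
  intro F hF hne hcut
  apply Set.preimage_injective.2 (NA2_surj L)
  refine hNA1 A S L m _ hS hm hT (NA2_mk L ⁻¹' F) (Set.preimage_mono hF)
    (hne.preimage (NA2_surj L)) ?_ ?_
  · intro l hl x
    show NA2_mk L (l * x) ∈ F ↔ NA2_mk L x ∈ F
    rw [NA2_mk_mul L l hl x]
  · intro s hs x hx hsx
    exact (hcut (s, x) hs hx hsx).symm

/-- [NA2] Finitely many narrow sets cut a given edge. -/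
theorem NA2 : St_TC → St_CUT → St_AIB → St_NA1 → St_NA2 := by
  intro hTC hCUT hAIB hNA1 A _ S L m s x hS hm hs
  have h1 := hTC (Quotient (QuotientGroup.rightRel L)) (A × A)
    (fun p : A × A => NA2_mk L p.2) (fun p : A × A => NA2_mk L (p.1 * p.2)) m
    {p | p.1 ∈ S} (s, x) hs
  refine (h1.image (fun T => NA2_mk L ⁻¹' T)).subset ?_
  rintro E ⟨hE, hsx⟩
  have hinv : ∀ l ∈ L, ∀ x, (l * x ∈ E ↔ x ∈ E) := fun l hl x =>
    hE.ai.inv l hl x (Subgroup.mem_top x)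
  have hpre := NA2_pre L E hinv
  have hmem : ∀ y, NA2_mk L y ∈ NA2_mk L '' E ↔ y ∈ E := by
    intro y
    have h2 := Set.ext_iff.1 hpre y
    exact h2
  have hbd : {p : A × A | p ∈ {p : A × A | p.1 ∈ S} ∧ Cut (fun p : A × A => NA2_mk L p.2)
      (fun p : A × A => NA2_mk L (p.1 * p.2)) (NA2_mk L '' E) p} = bd S E := by
    ext p
    show (p.1 ∈ S ∧ ¬ (NA2_mk L p.2 ∈ NA2_mk L '' E ↔ NA2_mk L (p.1 * p.2) ∈ NA2_mk L '' E)) ↔
      (p.1 ∈ S ∧ ¬ (p.1 * p.2 ∈ E ↔ p.2 ∈ E))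
    rw [hmem, hmem, iff_comm (a := p.2 ∈ E)]
  obtain ⟨hC1, hC2, -⟩ := hCUT A S hS
  have hEc : Nar S L m Eᶜ := by
    refine ⟨(hAIB A L E E 1 hE.ai hE.ai).1, hE.cinf, ?_, ?_⟩
    · rw [compl_compl]
      exact hE.inf
    · rw [(hC2 E).2]
      exact hE.eq
  refine ⟨NA2_mk L '' E, ⟨?_, ?_, ?_, ?_, ?_⟩, hpre⟩
  · refine NA2_con hNA1 S L m hS hm _ ?_
    rw [hpre]
    exact hE
  · refine NA2_con hNA1 S L m hS hm _ ?_
    rw [Set.preimage_compl, hpre]
    exact hEc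
  · have h3 : (s, x) ∈ {p : A × A | p ∈ {p : A × A | p.1 ∈ S} ∧
        Cut (fun p : A × A => NA2_mk L p.2)
        (fun p : A × A => NA2_mk L (p.1 * p.2)) (NA2_mk L '' E) p} := by
      rw [hbd]
      exact hsx
    exact h3.2
  · rw [hbd]
    exact ((hC1 L E).1 hE.ai).1
  · rw [hbd]
    exact hE.eq.le

end NA2

end Pool.Agent.SFG
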