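import Pool.Agent.SFG.StR

/-!
# SFG : module NA3, finitely many narrow sets are not nested with a given one
-/

set_option autoImplicit false

namespace Pool.Agent.SFG

open Pool.Agent.CPD Pool.Agent.SPD

section NA3

variable {A : Type} [Group A]

private theorem NA3_nst (hAIB : St_AIB) (hCUT : St_CUT) (hNA1 : St_NA1) (S : Finset A)
    (L : Subgroup A) (m : ℕ) (hS : Subgroup.closure (S : Set A) = ⊤) (hm : MinN S L m)
    (E F : Set A) (hE : Nar S L m E) (hF : Nar S L m F)
    (h : ∀ p ∈ bd S E, p.2 ∈ F) : Nst E F := by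
  have hFc : Nar S L m Fᶜ := by
    refine ⟨(hAIB A L F F 1 hF.ai hF.ai).1, hF.cinf, ?_, ?_⟩
    · rw [compl_compl]
      exact hF.inf
    · rw [((hCUT A S hS).2.1 F).2]
      exact hF.eq
  by_cases hne : (E ∩ Fᶜ).Nonempty
  · have h1 := hNA1 A S L m Fᶜ hS hm hFc (E ∩ Fᶜ) Set.inter_subset_right hne ?_ ?_
    · right
      right
      left
      intro x hx
      by_contra hxF
      have h2 : x ∈ E ∩ Fᶜ := by
        rw [h1]
        exact hxF
      exact hx h2.1
    · intro l hl x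
      have h2 := hE.ai.inv l hl x (Subgroup.mem_top x)
      have h3 := hF.ai.inv l hl x (Subgroup.mem_top x)
      exact and_congr h2 (not_congr h3)
    · intro s hs x hx hsx
      have h2 : (s * x ∈ E ↔ x ∈ E) := by
        by_contra h3
        exact hx (h (s, x) ⟨hs, h3⟩)
      exact ⟨fun h4 => ⟨h2.1 h4.1, hx⟩, fun h4 => ⟨h2.2 h4.1, hsx⟩⟩
  · left
    intro x hx
    by_contra hxF
    exact hne ⟨x, hx, hxF⟩

/-- [NA3] Finitely many narrow sets are not nested with a given one. -/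
theorem NA3 : St_CUT → St_AIB → St_NA1 → St_NA2 → St_NA3 := by
  intro hCUT hAIB hNA1 hNA2 A _ S L m E hS hm hE
  classical
  obtain ⟨hC1, hC2, -, -, hC5, hC6⟩ := hCUT A S hS
  have hfin : (bd S E).Finite := ((hC1 L E).1 hE.ai).1
  have hne : (bd S E).Nonempty := by
    by_contra h0
    rcases hC5 E (Set.not_nonempty_iff_eq_empty.1 h0) with h | h
    · have h1 := hE.inf
      rw [h] at h1
      exact h1 Set.finite_empty
    · have h1 := hE.cinf
      rw [h, Set.compl_univ] at h1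
      exact h1 Set.finite_empty
  obtain ⟨p0, hp0⟩ := hne
  choose Y hYfin hYS hY using hC6
  have hU : (⋃ p ∈ bd S E, Y p0.2 p.2).Finite := hfin.biUnion fun p _ => hYfin _ _
  have hcov : {F : Set A | Nar S L m F ∧ ¬ Nst E F} ⊆
      ⋃ p ∈ (⋃ p ∈ bd S E, Y p0.2 p.2), {F : Set A | Nar S L m F ∧ (p.1, p.2) ∈ bd S F} := by
    rintro F ⟨hF, hn⟩
    by_contra hcon
    have h1 : ∀ p ∈ bd S E, (p0.2 ∈ F ↔ p.2 ∈ F) := by
      intro p hp
      by_contra h2
      obtain ⟨y, hy, hyF⟩ := hY p0.2 p.2 F h2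
      apply hcon
      exact Set.mem_biUnion (Set.mem_biUnion hp hy) ⟨hF, hyF⟩
    by_cases h0 : p0.2 ∈ F
    · exact hn (NA3_nst hAIB hCUT hNA1 S L m hS hm E F hE hF fun p hp => (h1 p hp).1 h0)
    · have hFc : Nar S L m Fᶜ := by
        refine ⟨(hAIB A L F F 1 hF.ai hF.ai).1, hF.cinf, ?_, ?_⟩
        · rw [compl_compl]
          exact hF.inf
        · rw [(hC2 F).2]
          exact hF.eq
      have h2 := NA3_nst hAIB hCUT hNA1 S L m hS hm E Fᶜ hE hFc
        fun p hp => fun h3 => h0 ((h1 p hp).2 h3)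
      apply hn
      rcases h2 with h2 | h2 | h2 | h2
      · exact Or.inr (Or.inl h2)
      · rw [compl_compl] at h2
        exact Or.inl h2
      · exact Or.inr (Or.inr (Or.inr h2))
      · rw [compl_compl] at h2
        exact Or.inr (Or.inr (Or.inl h2))
  refine Set.Finite.subset (hU.biUnion fun p hp => ?_) hcov
  obtain ⟨p', hp', hpp⟩ := Set.mem_iUnion₂.1 hp
  exact hNA2 A S L m p.1 p.2 hS hm (hYS _ _ p hpp)

end NA3

end Pool.Agent.SFG
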