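import Pool.Agent.SFG.StR

/-!
# SFG, module NA4: two opposite corners are narrow
-/

set_option autoImplicit false

namespace Pool.Agent.SFG

open Pool.Agent.CPD Pool.Agent.SPD

private theorem NA4_core (hCUT : St_CUT) (hAIB : St_AIB) (A : Type) [Group A] (S : Finset A)
    (L : Subgroup A) (m : ℕ) (E F : Set A) (hS : Subgroup.closure (S : Set A) = ⊤)
    (hm : MinN S L m) (hE : Nar S L m E) (hF : Nar S L m F) (h1 : (E ∩ F).Infinite)
    (h2 : (Eᶜ ∩ Fᶜ).Infinite) : Nar S L m (E ∩ F) ∧ Nar S L m (Eᶜ ∩ Fᶜ) := by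
  obtain ⟨c1, c2, _, c4, _, _⟩ := hCUT A S hS
  obtain ⟨aE, aI, aU, _, _⟩ := hAIB A L E F 1 hE.ai hF.ai
  obtain ⟨aF, _, _, _, _⟩ := hAIB A L F E 1 hF.ai hE.ai
  obtain ⟨_, aJ, _, _, _⟩ := hAIB A L Eᶜ Fᶜ 1 aE aF
  obtain ⟨_, _, h3⟩ := c4 E F ((c1 L E).1 hE.ai).1 ((c1 L F).1 hF.ai).1
  rw [hE.eq, hF.eq, ← (c2 (E ∪ F)).2, Set.compl_union] at h3
  have h4 : ((E ∩ F)ᶜ).Infinite :=
    hE.cinf.mono (Set.compl_subset_compl.2 Set.inter_subset_left)
  have h5 : ((Eᶜ ∩ Fᶜ)ᶜ).Infinite := by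
    refine hE.inf.mono ?_
    intro x hx hx'
    exact hx'.1 hx
  have h6 := hm _ aI h1 h4
  have h7 := hm _ aJ h2 h5
  exact ⟨⟨aI, h1, h4, by omega⟩, ⟨aJ, h2, h5, by omega⟩⟩

theorem NA4 (hCUT : St_CUT) (hAIB : St_AIB) : St_NA4 := by
  intro A _ S L m E F hS hm hE hF
  by_cases h1 : (E ∩ F).Infinite ∧ (Eᶜ ∩ Fᶜ).Infinite
  · exact Or.inl (NA4_core hCUT hAIB A S L m E F hS hm hE hF h1.1 h1.2)
  · right
    have hFc : Nar S L m Fᶜ := by
      obtain ⟨_, c2, _, _, _, _⟩ := hCUT A S hS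
      refine ⟨(hAIB A L F E 1 hF.ai hE.ai).1, hF.cinf, ?_, ?_⟩
      · rw [compl_compl]
        exact hF.inf
      · rw [(c2 F).2]
        exact hF.eq
    have key : (E ∩ Fᶜ).Infinite ∧ (Eᶜ ∩ F).Infinite := by
      rw [not_and_or, Set.not_infinite, Set.not_infinite] at h1
      rcases h1 with h | h
      · refine ⟨?_, ?_⟩
        · refine (hE.inf.sdiff h).mono ?_
          rintro x ⟨hx, hx'⟩
          exact ⟨hx, fun hxF => hx' ⟨hx, hxF⟩⟩
        · refine (hF.inf.sdiff h).mono ?_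
          rintro x ⟨hx, hx'⟩
          exact ⟨fun hxE => hx' ⟨hxE, hx⟩, hx⟩
      · refine ⟨?_, ?_⟩
        · refine (hF.cinf.sdiff h).mono ?_
          rintro x ⟨hx, hx'⟩
          refine ⟨?_, hx⟩
          by_contra hxE
          exact hx' ⟨hxE, hx⟩
        · refine (hE.cinf.sdiff h).mono ?_
          rintro x ⟨hx, hx'⟩
          refine ⟨hx, ?_⟩
          by_contra hxF
          exact hx' ⟨hx, hxF⟩
    have h2 := NA4_core hCUT hAIB A S L m E Fᶜ hS hm hE hFc key.1 (by rw [compl_compl]; exact key.2)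
    rw [compl_compl] at h2
    exact h2

end Pool.Agent.SFG
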