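import Pool.Agent.SFG.StR

/-!
# Corners and nestedness
-/

set_option autoImplicit false

namespace Pool.Agent.SFG

private lemma NA5_symm {V : Type} {E F : Set V} (h : Nst E F) : Nst F E := by
  rcases h with h | h | h | h
  · exact Or.inr (Or.inr (Or.inr (Set.compl_subset_compl.2 h)))
  · exact Or.inr (Or.inl (Set.subset_compl_comm.1 h))
  · exact Or.inr (Or.inr (Or.inl (Set.compl_subset_comm.1 h)))
  · exact Or.inl (Set.compl_subset_compl.1 h)

private lemma NA5_compl {V : Type} {E F : Set V} (h : Nst E F) : Nst E Fᶜ := by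
  rcases h with h | h | h | h
  · exact Or.inr (Or.inl (by rw [compl_compl]; exact h))
  · exact Or.inl h
  · exact Or.inr (Or.inr (Or.inr (by rw [compl_compl]; exact h)))
  · exact Or.inr (Or.inr (Or.inl h))

private lemma NA5_comp {V : Type} {E F : Set V} : Nst E F ↔ Nst E Fᶜ := by
  refine ⟨NA5_compl, fun h => ?_⟩
  have h1 := NA5_compl h
  rwa [compl_compl] at h1

private lemma NA5_comp' {V : Type} {E F : Set V} : Nst E F ↔ Nst Eᶜ F := by
  refine ⟨fun h => NA5_symm (NA5_compl (NA5_symm h)), fun h => ?_⟩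
  have h1 := NA5_symm (NA5_compl (NA5_symm h))
  rwa [compl_compl] at h1

private lemma NA5_corner {V : Type} {E F H : Set V} (h : ¬ Eᶜ ⊆ F) (h1 : Nst E H)
    (h2 : Nst F H) : Nst (E ∩ F) H := by
  rcases h1 with h1 | h1 | h1 | h1
  · exact Or.inl (Set.inter_subset_left.trans h1)
  · exact Or.inr (Or.inl (Set.inter_subset_left.trans h1))
  · rcases h2 with h2 | h2 | h2 | h2
    · exact Or.inl (Set.inter_subset_right.trans h2)
    · exact Or.inr (Or.inl (Set.inter_subset_right.trans h2))
    · refine Or.inr (Or.inr (Or.inl ?_))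
      rw [Set.compl_inter]
      exact Set.union_subset h1 h2
    · exact absurd (h1.trans (Set.compl_subset_compl.1 h2)) h
  · rcases h2 with h2 | h2 | h2 | h2
    · exact Or.inl (Set.inter_subset_right.trans h2)
    · exact Or.inr (Or.inl (Set.inter_subset_right.trans h2))
    · exact absurd (h1.trans (Set.compl_subset_comm.1 h2)) h
    · refine Or.inr (Or.inr (Or.inr ?_))
      rw [Set.compl_inter]
      exact Set.union_subset h1 h2

private lemma NA5_half {V : Type} {E F H : Set V} (h : Nst E H) :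
    Nst (E ∩ F) H ∨ Nst (Eᶜ ∩ Fᶜ) H := by
  rcases h with h | h | h | h
  · exact Or.inl (Or.inl (Set.inter_subset_left.trans h))
  · exact Or.inl (Or.inr (Or.inl (Set.inter_subset_left.trans h)))
  · exact Or.inr (Or.inl (Set.inter_subset_left.trans h))
  · exact Or.inr (Or.inr (Or.inl (Set.inter_subset_left.trans h)))

theorem NA5 : St_NA5 := by
  intro V E F
  refine ⟨fun h H h1 h2 => ⟨?_, ?_⟩, ?_, ⟨?_, ?_, ?_, ?_⟩, ?_, NA5_comp, NA5_comp', ?_⟩
  · exact NA5_corner (fun h3 => h (Or.inr (Or.inr (Or.inl h3)))) h1 h2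
  · refine NA5_corner (fun h3 => h (Or.inr (Or.inl ?_))) (NA5_comp'.1 h1) (NA5_comp'.1 h2)
    rwa [compl_compl] at h3
  · rintro H (h | h)
    · exact NA5_half h
    · have h1 := NA5_half (F := E) h
      rwa [Set.inter_comm F E, Set.inter_comm Fᶜ Eᶜ] at h1
  · exact Or.inl Set.inter_subset_left
  · exact Or.inl Set.inter_subset_right
  · exact Or.inr (Or.inl Set.inter_subset_left)
  · exact Or.inr (Or.inl Set.inter_subset_right)
  · exact ⟨NA5_symm, NA5_symm⟩
  · exact Or.inl subset_rfl

end Pool.Agent.SFG
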