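import Pool.Agent.SFG.StR

/-!
helper58. SFG, module NE: a narrow set which is nested with all its translates.
-/

set_option autoImplicit false

namespace Pool.Agent.SFG

open Pool.Agent.CPD Pool.Agent.SPD

/-- the narrow sets which are not nested with `E` -/
private def NE_nn {A : Type} [Group A] (S : Finset A) (L : Subgroup A) (m : ℕ) (E : Set A) :
    Set (Set A) := {F | Nar S L m F ∧ ¬ Nst E F}

private theorem NE_rt_nst {A : Type} [Group A] {E F : Set A} (g : A) (h : Nst E F) :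
    Nst (rt E g) (rt F g) := by
  rcases h with h | h | h | h
  · exact Or.inl fun x hx => h hx
  · exact Or.inr (Or.inl fun x hx => h hx)
  · exact Or.inr (Or.inr (Or.inl fun x hx => h hx))
  · exact Or.inr (Or.inr (Or.inr fun x hx => h hx))

private theorem NE_rt_rt {A : Type} [Group A] (E : Set A) (g : A) : rt (rt E g⁻¹) g = E := by
  ext x
  show x * g⁻¹ * (g⁻¹)⁻¹ ∈ E ↔ x ∈ E
  rw [inv_inv, inv_mul_cancel_right]

private theorem NE_rt_inf {A : Type} [Group A] {E : Set A} (g : A) (h : E.Infinite) :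
    (rt E g).Infinite := by
  refine (h.image (f := fun x => x * g) (mul_left_injective g).injOn).mono ?_
  rintro _ ⟨x, hx, rfl⟩
  show x * g * g⁻¹ ∈ E
  rwa [mul_inv_cancel_right]

theorem NE (h1 : St_CUT) (h2 : St_AIB) (h3 : St_NA3) (h4 : St_NA4) (h5 : St_NA5) : St_NE := by
  classical
  intro A _ S L hS hE
  obtain ⟨-, c2, c3, -, -, -⟩ := h1 A S hS
  -- the minimal number of cut edges
  have hex : ∃ k : ℕ, ∃ E : Set A, AI ⊤ L E ∧ E.Infinite ∧ Eᶜ.Infinite ∧ cn S E = k := by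
    obtain ⟨E, e1, e2, e3⟩ := hE
    exact ⟨cn S E, E, e1, e2, e3, rfl⟩
  obtain ⟨m, hm⟩ : ∃ m, m = Nat.find hex := ⟨_, rfl⟩
  have hMin : MinN S L m := by
    intro F f1 f2 f3
    rw [hm]
    exact Nat.find_min' hex ⟨F, f1, f2, f3, rfl⟩
  have hNar : ∃ E : Set A, Nar S L m E := by
    obtain ⟨E, e1, e2, e3, e4⟩ := Nat.find_spec hex
    rw [← hm] at e4
    exact ⟨E, e1, e2, e3, e4⟩
  -- narrow sets
  have hrt : ∀ (H : Set A) (g : A), Nar S L m H → Nar S L m (rt H g) := fun H g hH =>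
    { ai := (h2 A L H H g hH.ai hH.ai).2.2.2.2
      inf := NE_rt_inf g hH.inf
      cinf := NE_rt_inf g hH.cinf
      eq := by rw [(c3 H g).1, hH.eq] }
  have hco : ∀ H : Set A, Nar S L m H → Nar S L m Hᶜ := fun H hH =>
    { ai := (h2 A L H H 1 hH.ai hH.ai).1
      inf := hH.cinf
      cinf := by rw [compl_compl]; exact hH.inf
      eq := by rw [(c2 H).2, hH.eq] }
  have hfin : ∀ E : Set A, Nar S L m E → (NE_nn S L m E).Finite := fun E hE =>
    h3 A S L m E hS hMin hE
  -- the choice of `E`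
  have hex2 : ∃ k : ℕ, ∃ E : Set A, Nar S L m E ∧ (NE_nn S L m E).ncard = k := by
    obtain ⟨E, hE⟩ := hNar
    exact ⟨_, E, hE, rfl⟩
  obtain ⟨E, hEN, hEk⟩ := Nat.find_spec hex2
  have hmin : ∀ C : Set A, Nar S L m C → (NE_nn S L m E).ncard ≤ (NE_nn S L m C).ncard := by
    intro C hC
    rw [hEk]
    exact Nat.find_min' hex2 ⟨C, hC, rfl⟩
  -- the main step
  have key : ∀ F : Set A, Nar S L m F → ¬ Nst E F →
      (NE_nn S L m F).ncard ≤ (NE_nn S L m E).ncard →
      Nar S L m (E ∩ F) → Nar S L m (Eᶜ ∩ Fᶜ) → False := by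
    intro F hF hEF hle hC1 hC2
    obtain ⟨n1, n2, ⟨n3, n4, n5, n6⟩, n7, n8, n9, n10⟩ := h5 A E F
    have hu : NE_nn S L m (E ∩ F) ∪ NE_nn S L m (Eᶜ ∩ Fᶜ) ⊂ NE_nn S L m E ∪ NE_nn S L m F := by
      rw [Set.ssubset_iff_of_subset]
      · refine ⟨F, Or.inl ⟨hF, hEF⟩, ?_⟩
        rintro (h | h)
        · exact h.2 n4
        · exact h.2 n6
      · intro H hH
        have hHN : Nar S L m H := by
          rcases hH with h | h
          · exact h.1
          · exact h.1
        by_contra hcon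
        have g1 : Nst E H := by
          by_contra hc
          exact hcon (Or.inl ⟨hHN, hc⟩)
        have g2 : Nst F H := by
          by_contra hc
          exact hcon (Or.inr ⟨hHN, hc⟩)
        obtain ⟨g3, g4⟩ := n1 hEF H g1 g2
        rcases hH with h | h
        · exact h.2 g3
        · exact h.2 g4
    have hi : NE_nn S L m (E ∩ F) ∩ NE_nn S L m (Eᶜ ∩ Fᶜ) ⊆ NE_nn S L m E ∩ NE_nn S L m F := by
      rintro H ⟨⟨hH1, hH2⟩, -, hH3⟩
      refine ⟨⟨hH1, fun hc => ?_⟩, hH1, fun hc => ?_⟩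
      · rcases n2 H (Or.inl hc) with h | h
        · exact hH2 h
        · exact hH3 h
      · rcases n2 H (Or.inr hc) with h | h
        · exact hH2 h
        · exact hH3 h
    have fE := hfin E hEN
    have fF := hfin F hF
    have f1 := hfin _ hC1
    have f2 := hfin _ hC2
    have s1 := Set.ncard_union_add_ncard_inter (NE_nn S L m (E ∩ F)) (NE_nn S L m (Eᶜ ∩ Fᶜ)) f1 f2
    have s2 := Set.ncard_union_add_ncard_inter (NE_nn S L m E) (NE_nn S L m F) fE fF
    have s3 := Set.ncard_lt_ncard hu (fE.union fF)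
    have s4 := Set.ncard_le_ncard hi (fE.inter_of_left _)
    have s5 := hmin _ hC1
    have s6 := hmin _ hC2
    omega
  refine ⟨E, hEN.ai, hEN.inf, hEN.cinf, fun g => ?_⟩
  by_contra hcon
  have hF := hrt E g hEN
  have hle : (NE_nn S L m (rt E g)).ncard ≤ (NE_nn S L m E).ncard := by
    have hsub : NE_nn S L m (rt E g) ⊆ (fun H => rt H g) '' NE_nn S L m E := by
      rintro H ⟨hH1, hH2⟩
      refine ⟨rt H g⁻¹, ⟨hrt H g⁻¹ hH1, fun hc => hH2 ?_⟩, NE_rt_rt H g⟩
      have := NE_rt_nst g hc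
      rwa [NE_rt_rt] at this
    exact (Set.ncard_le_ncard hsub ((hfin E hEN).image _)).trans
      (Set.ncard_image_le (hfin E hEN))
  rcases h4 A S L m E (rt E g) hS hMin hEN hF with ⟨hC1, hC2⟩ | ⟨hC1, hC2⟩
  · exact key (rt E g) hF hcon hle hC1 hC2
  · refine key (rt E g)ᶜ (hco _ hF) (fun hc => hcon ?_) ?_ hC1 (by rwa [compl_compl])
    · exact (h5 A E (rt E g)).2.2.2.2.1.2 hc
    · have : NE_nn S L m (rt E g)ᶜ = NE_nn S L m (rt E g) := by
        ext H
        have h6 := (h5 A (rt E g) H).2.2.2.2.2.1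
        constructor
        · rintro ⟨a1, a2⟩
          exact ⟨a1, fun hc => a2 (h6.1 hc)⟩
        · rintro ⟨a1, a2⟩
          exact ⟨a1, fun hc => a2 (h6.2 hc)⟩
      rw [this]
      exact hle

end Pool.Agent.SFG
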