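import Pool.Agent.SFG.StP

/-!
# SFG, module PF: the stable image has no homomorphism onto the integers (assembly)
-/

set_option autoImplicit false

namespace Pool.Agent.SFG

open Matrix Pool.Agent.CPD Pool.Agent.SPD

private theorem PF_tl {G I : Type} [Group G] (g : G) (c : (G × I) →₀ ℤ) (y : G × I) :
    tl g c y = c (g⁻¹ * y.1, y.2) := by
  have h1 : y = (fun x : G × I => (g * x.1, x.2)) (g⁻¹ * y.1, y.2) := by
    show y = (g * (g⁻¹ * y.1), y.2)
    rw [mul_inv_cancel_left]
  have h2 : Function.Injective (fun x : G × I => (g * x.1, x.2)) := by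
    intro a b hab
    have h3 : g * a.1 = g * b.1 := congrArg Prod.fst hab
    have h4 : a.2 = b.2 := (Prod.mk.inj hab).2
    exact Prod.ext (mul_left_cancel h3) h4
  unfold tl
  conv_lhs => rw [h1]
  exact Finsupp.mapDomain_apply h2 _ _

private theorem PF_row {G I : Type} [Group G] [Fintype I] (A : Matrix I I (ZG G)) (g : G)
    (x : G × I) : row A (g * x.1, x.2) = tl g (row A x) := by
  ext y
  rw [PF_tl, CPD.row_apply, CPD.row_apply, _root_.mul_inv_rev, mul_assoc]

private theorem PF_opZ {G I : Type} [Group G] [Fintype I] (A : Matrix I I (ZG G)) (g : G)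
    (c : (G × I) →₀ ℤ) : opZ A (tl g c) = tl g (opZ A c) := by
  induction c using Finsupp.induction_linear with
  | zero => simp [tl]
  | add c c' h h' =>
    have h1 : ∀ c c' : (G × I) →₀ ℤ, tl g (c + c') = tl g c + tl g c' := fun _ _ =>
      Finsupp.mapDomain_add
    rw [h1, map_add, h, h', map_add, h1]
  | single x n =>
    have h1 : tl g (Finsupp.single x n) = Finsupp.single (g * x.1, x.2) n :=
      Finsupp.mapDomain_single
    have h2 : ∀ (y : G × I), opZ A (Finsupp.single y n) = n • row A y := fun y =>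
      Finsupp.linearCombination_single _ _ _
    rw [h1, h2, h2, PF_row]
    exact (Finsupp.mapDomain_smul _ _).symm

private theorem PF_tltl {G I : Type} [Group G] (g h : G) (c : (G × I) →₀ ℤ) :
    tl g (tl h c) = tl (g * h) c := by
  ext y
  rw [PF_tl, PF_tl, PF_tl, _root_.mul_inv_rev, mul_assoc]

private theorem PF_good {G π : Type} [Group G] [Group π] (L : Len G) (T : G → G → π)
    (hT : IsALS T) (K : ℕ) : ∃ n : ℕ, ∀ v, n < L.l v → GoodT L T K v := by
  classical
  have h1 : {v : G | ¬ ∀ h ∈ L.ball K, ∀ h' ∈ L.ball K,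
      T v h * T (v * h) h' = T v (h * h')}.Finite := by
    have h2 : ∀ᶠ v in Filter.cofinite, ∀ h ∈ L.ball K, ∀ h' ∈ L.ball K,
        T v h * T (v * h) h' = T v (h * h') := by
      rw [Filter.eventually_all_finset]
      intro h _
      rw [Filter.eventually_all_finset]
      intro h' _
      exact hT h h'
    exact h2
  obtain ⟨n, hn⟩ := (h1.image L.l).bddAbove
  refine ⟨n, fun v hv h h' hh hh' => ?_⟩
  by_contra hne
  have h3 : L.l v ≤ n := hn ⟨v, fun h4 => hne (h4 h ((L.mem_ball K h).2 hh) h'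
    ((L.mem_ball K h').2 hh')), rfl⟩
  omega

theorem PF (hL1 : SPD.St_L1) (hc : St_PFc) (hd : St_PFd) : St_PF := by
  classical
  intro G α π _ _ f Rel M N n0 T hB hL
  obtain ⟨R0, hR0⟩ := hL1 G M
  obtain ⟨𝓛⟩ := hR0 (max R0 1) (le_max_left _ _)
  obtain ⟨n, hn⟩ := PF_good M.L T hL.als 𝓛.kap
  intro χ hχ
  have hmul : ∀ x y, (χ (x * y)).toAdd = (χ x).toAdd + (χ y).toAdd := by
    intro x y
    rw [hχ x (Subgroup.mem_top _) y (Subgroup.mem_top _)]
    rfl
  have hone : (χ 1).toAdd = 0 := by
    have h1 := hmul 1 1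
    rw [mul_one] at h1
    omega
  obtain ⟨b, s, n', hn', -, hb2, hb3, hb4⟩ := hc G M (max R0 1) 𝓛 n
    (fun v h => (χ (T v h)).toAdd) (by
      intro v h h' hv hh hh'
      rw [← hmul, hn v hv h h' hh hh'])
  obtain ⟨p, n'', hp⟩ := hd G M n' b hb2 hb3
  -- the potential
  have hP : ∀ v h, n' + n'' + 𝓛.ρ < M.L.l v → M.L.l h ≤ 1 →
      (χ (T v h)).toAdd = (p (tl v 𝓛.o) + s v) - (p (tl (v * h) 𝓛.o) + s (v * h)) := by
    intro v h hv hh
    have hhR : M.L.l h ≤ max R0 1 := hh.trans (le_max_right _ _)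
    have h1 := hb4 v h (by omega) hhR
    have h2 : ∀ c : (G × M.I) →₀ ℤ, (∀ x, c x ≠ 0 → M.deg x.2 = 1 ∧ M.L.l x.1 ≤ 𝓛.ρ) →
        b (tl v c) = p (opZ M.D (tl v c)) := by
      intro c hcs
      have h3 : tl v c = ∑ x ∈ c.support, c x • Finsupp.single (v * x.1, x.2) (1 : ℤ) := by
        show Finsupp.mapDomain _ _ = _
        unfold Finsupp.mapDomain Finsupp.sum
        refine Finset.sum_congr rfl fun x _ => ?_
        rw [Finsupp.smul_single, smul_eq_mul, mul_one]
      rw [h3, map_sum, map_sum, map_sum]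
      refine Finset.sum_congr rfl fun x hx => ?_
      rw [map_smul, map_smul, map_smul]
      obtain ⟨h4, h5⟩ := hcs x (Finsupp.mem_support_iff.1 hx)
      have h6 : M.L.l v ≤ M.L.l (v * x.1) + M.L.l x.1 := by
        have h7 := M.L.mul (v * x.1) x.1⁻¹
        rw [mul_inv_cancel_right, M.L.inv] at h7
        exact h7
      rw [hp (v * x.1, x.2) h4 (by show n'' < M.L.l (v * x.1); omega)]
    have h3 := h2 (𝓛.es h) (fun x hx => 𝓛.es_supp h x hx)
    have h4 : opZ M.D (tl v (𝓛.es h)) = tl v 𝓛.o - tl (v * h) 𝓛.o := by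
      rw [PF_opZ, ← PF_tltl]
      have h5 := 𝓛.es_D h hhR
      have h6 : tl v 𝓛.o = tl v (tl h 𝓛.o) + tl v (opZ M.D (𝓛.es h)) := by
        conv_lhs => rw [h5]
        exact Finsupp.mapDomain_add
      rw [h6]
      abel
    rw [h4, map_sub] at h3
    rw [h3] at h1
    linarith
  -- along words
  have hW : ∀ (w : List (α × Bool)) (v : G), Avoids f (Bl M.L (n' + n'' + 𝓛.ρ)) v w →
      (χ (hol f (SPD.lab f T) v w)).toAdd =
        (p (tl v 𝓛.o) + s v) - (p (tl (v * value f w) 𝓛.o) + s (v * value f w)) := by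
    intro w
    induction w with
    | nil =>
      intro v _
      have h1 : value f ([] : List (α × Bool)) = 1 := rfl
      rw [h1, mul_one, sub_self]
      exact hone
    | cons a w ih =>
      intro v hv
      have h1 : hol f (SPD.lab f T) v (a :: w) =
          T v (letter f a) * hol f (SPD.lab f T) (v * letter f a) w := rfl
      have h2 : value f (a :: w) = letter f a * value f w := by
        simp [value]
      have h3 : Avoids f (Bl M.L (n' + n'' + 𝓛.ρ)) (v * letter f a) w := by
        intro k hk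
        have h4 := hv (k + 1) (by simp only [List.length_cons]; omega)
        rw [List.take_succ_cons] at h4
        have h5 : value f (a :: w.take k) = letter f a * value f (w.take k) := by
          simp [value]
        rw [h5, ← mul_assoc] at h4
        exact h4
      have h4 : n' + n'' + 𝓛.ρ < M.L.l v := by
        have h5 := hv 0 (Nat.zero_le _)
        have h6 : value f ((a :: w).take 0) = 1 := rfl
        rw [h6, mul_one] at h5
        exact not_le.1 h5
      rw [h1, hmul, hP v (letter f a) h4 (hB.len a), ih _ h3, h2, mul_assoc]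
      ring
  -- an element far away
  obtain ⟨k', hk'⟩ := hL.surj (n' + n'' + 𝓛.ρ)
  have hex : ∃ v : G, k' < M.L.l v := by
    by_contra hne
    push Not at hne
    have h1 : (Set.univ : Set G).Finite := (M.L.fin k').subset fun v _ => hne v
    have := hB.inf
    exact Set.infinite_univ h1
  obtain ⟨v, hv⟩ := hex
  intro g _
  obtain ⟨w, hw1, hw2, hw3⟩ := hk' v hv g
  have h1 := hW w v hw2
  rw [hw1, mul_one, sub_self, hw3] at h1
  exact Multiplicative.toAdd.injective h1

end Pool.Agent.SFG
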