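import Pool.Agent.SFG.StP

/-!
# SFG, module PFa: a finitely supported cocycle of degree two is a coboundary (helper34)
-/

set_option autoImplicit false

namespace Pool.Agent.SFG

open Matrix Pool.Agent.CPD Pool.Agent.SPD

private theorem PFa_coeff {G I : Type} [Group G] (c : (G × I) →₀ ℤ) (i : I) (g : G) :
    (toV c i).coeff g = c (g, i) := rfl

private theorem PFa_zero {G I : Type} [Group G] (c : (G × I) →₀ ℤ) (i : I)
    (h : ∀ g, c (g, i) = 0) : toV c i = 0 := by
  apply MonoidAlgebra.ext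
  ext g
  rw [PFa_coeff, h g]
  rfl

theorem PFa (h1 : CPD.St_E1) : St_PFa := by
  classical
  intro G _ M c hc hE hD
  obtain ⟨e1, e2, e3, e4, -⟩ := h1 G M.I
  have hz : toV (0 : (G × M.I) →₀ ℤ) = 0 := by
    funext i
    exact PFa_zero 0 i fun _ => rfl
  have hv0 : ∀ i, M.deg i ≠ 2 → toV c i = 0 := fun i hi => PFa_zero c i fun g => by
    by_contra hne
    exact hi (hc (g, i) hne)
  have hvE : toV c ᵥ* M.Eᴴ = toV c := by rw [← e1, hE]
  have hvD : toV c ᵥ* M.Dᴴ = 0 := by rw [← e1, hD, hz]
  have hvw : ∑ i, au (toV c i) * M.w i = 0 := by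
    refine Finset.sum_eq_zero fun i _ => ?_
    by_cases hw : M.w i = 0
    · rw [hw, mul_zero]
    · have h2 := M.resQ.e_deg i hw
      have h3 := M.deg_le i
      rw [hv0 i (by omega), map_zero, zero_mul]
  obtain ⟨u, hu1, hu2⟩ := M.resQ.exact (toV c) hvE hvD hvw
  obtain ⟨u', hu'⟩ : ∃ u' : M.I → ZG G, ∀ i, u' i = if M.deg i = 1 then u i else 0 :=
    ⟨_, fun _ => rfl⟩
  have hEd : ∀ i j, M.Eᴴ i j ≠ 0 → M.deg i = M.deg j := by
    intro i j h
    have h2 := M.resQ.E_deg i j h
    have h3 := M.deg_le i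
    have h4 := M.deg_le j
    omega
  have hDd : ∀ i j, M.Dᴴ i j ≠ 0 → M.deg j = M.deg i + 1 := by
    intro i j h
    have h2 := M.resQ.D_deg i j h
    have h3 := M.deg_le i
    have h4 := M.deg_le j
    omega
  have huE : u' ᵥ* M.Eᴴ = u' := by
    funext j
    rw [Matrix.vecMul_eq_sum, Finset.sum_apply, hu' j]
    by_cases hj : M.deg j = 1
    · rw [if_pos hj]
      have h2 : (u ᵥ* M.Eᴴ) j = u j := by rw [hu1]
      rw [Matrix.vecMul_eq_sum, Finset.sum_apply] at h2
      rw [← h2]
      refine Finset.sum_congr rfl fun i _ => ?_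
      rw [Pi.smul_apply, Pi.smul_apply, hu' i]
      by_cases hi : M.deg i = 1
      · rw [if_pos hi]
      · have h3 : M.Eᴴ i j = 0 := by
          by_contra h
          exact hi ((hEd i j h).trans hj)
        rw [h3, smul_zero, smul_zero]
    · rw [if_neg hj]
      refine Finset.sum_eq_zero fun i _ => ?_
      rw [Pi.smul_apply, hu' i]
      by_cases hi : M.deg i = 1
      · have h3 : M.Eᴴ i j = 0 := by
          by_contra h
          exact hj ((hEd i j h).symm.trans hi)
        rw [h3, smul_zero]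
      · rw [if_neg hi, zero_smul]
  have huD : u' ᵥ* M.Dᴴ = toV c := by
    funext j
    rw [Matrix.vecMul_eq_sum, Finset.sum_apply]
    by_cases hj : M.deg j = 2
    · have h2 : (u ᵥ* M.Dᴴ) j = toV c j := by rw [hu2]
      rw [Matrix.vecMul_eq_sum, Finset.sum_apply] at h2
      rw [← h2]
      refine Finset.sum_congr rfl fun i _ => ?_
      rw [Pi.smul_apply, Pi.smul_apply, hu' i]
      by_cases hi : M.deg i = 1
      · rw [if_pos hi]
      · have h3 : M.Dᴴ i j = 0 := by
          by_contra h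
          have := hDd i j h
          omega
        rw [h3, smul_zero, smul_zero]
    · rw [hv0 j hj]
      refine Finset.sum_eq_zero fun i _ => ?_
      rw [Pi.smul_apply, hu' i]
      by_cases hi : M.deg i = 1
      · have h3 : M.Dᴴ i j = 0 := by
          by_contra h
          have := hDd i j h
          omega
        rw [h3, smul_zero]
      · rw [if_neg hi, zero_smul]
  obtain ⟨b, hb⟩ := e4 u'
  refine ⟨b, ?_, ?_, ?_⟩
  · rintro ⟨g, i⟩ hy
    by_contra hi
    apply hy
    have h2 : toV b i = 0 := by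
      rw [hb, hu' i, if_neg hi]
    rw [← PFa_coeff, h2]
    rfl
  · apply e3
    rw [e1, hb, huE]
  · apply e3
    rw [e1, hb, huD]

end Pool.Agent.SFG
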