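import Pool.Agent.SFG.StP
import Pool.Agent.CPD.StE

/-!
# PFb: every integral cocycle of degree one is a coboundary
-/

set_option autoImplicit false

namespace Pool.Agent.SFG

open Matrix Pool.Agent.CPD Pool.Agent.SPD

section

variable {G I : Type} [Group G] [Fintype I]

private lemma PFb_opZ_apply (A : Matrix I I (ZG G)) (c : (G × I) →₀ ℤ) (y : G × I) :
    opZ A c y = c.sum fun x n => n * row A x y := by
  unfold opZ
  rw [Finsupp.linearCombination_apply, Finsupp.sum_apply]
  rfl

private lemma PFb_row_ne (A : Matrix I I (ZG G)) (x y : G × I) (h : row A x y ≠ 0) :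
    A x.2 y.2 ≠ 0 := by
  intro h1
  apply h
  rw [CPD.row_apply, h1]
  rfl

private lemma PFb_filter (deg : I → ℕ) (A : Matrix I I (ZG G)) (s : ℕ)
    (hA : ∀ i j, A i j ≠ 0 → deg i = deg j + s) (c : (G × I) →₀ ℤ) (k : ℕ) (y : G × I) :
    opZ A (c.filter (fun x => deg x.2 = k + s)) y = if deg y.2 = k then opZ A c y else 0 := by
  classical
  induction c using Finsupp.induction_linear with
  | zero => rw [Finsupp.filter_zero, map_zero, Finsupp.zero_apply, ite_self]
  | add a b ha hb =>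
    rw [Finsupp.filter_add, map_add, Finsupp.add_apply, ha, hb, map_add, Finsupp.add_apply]
    split_ifs
    · rfl
    · rw [add_zero]
  | single x n =>
    have h1 : opZ A (Finsupp.single x n) y = n * row A x y := by
      rw [PFb_opZ_apply, Finsupp.sum_single_index (by rw [zero_mul])]
    by_cases h2 : row A x y = 0
    · rw [h1, h2, mul_zero]
      by_cases h3 : deg x.2 = k + s
      · rw [Finsupp.filter_single_of_pos (p := fun x : G × I => deg x.2 = k + s) h3, h1, h2,
          mul_zero, ite_self]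
      · rw [Finsupp.filter_single_of_neg (p := fun x : G × I => deg x.2 = k + s) h3, map_zero,
          ite_self]
        rfl
    · have h3 := hA _ _ (PFb_row_ne A x y h2)
      by_cases h4 : deg y.2 = k
      · have h5 : deg x.2 = k + s := by omega
        rw [Finsupp.filter_single_of_pos (p := fun x : G × I => deg x.2 = k + s) h5, if_pos h4]
      · have h5 : ¬ deg x.2 = k + s := by omega
        rw [Finsupp.filter_single_of_neg (p := fun x : G × I => deg x.2 = k + s) h5, if_neg h4,
          map_zero]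
        rfl

omit [Fintype I] in
private lemma PFb_aug (e : I → ℤ) (c : (G × I) →₀ ℤ) :
    augZ e c = Finsupp.linearCombination ℤ (fun x : G × I => e x.2) c := rfl

/-- a homogeneous chain -/
private def PFb_H (deg : I → ℕ) (k : ℕ) (c : (G × I) →₀ ℤ) : Prop := ∀ x, c x ≠ 0 → deg x.2 = k

omit [Group G] [Fintype I] in
private lemma PFb_H_add {deg : I → ℕ} {k : ℕ} {c c' : (G × I) →₀ ℤ} (h : PFb_H deg k c)
    (h' : PFb_H deg k c') : PFb_H deg k (c + c') := by
  intro x hx
  by_cases h1 : c x = 0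
  · refine h' x fun h2 => hx ?_
    rw [Finsupp.add_apply, h1, h2, add_zero]
  · exact h x h1

omit [Group G] [Fintype I] in
private lemma PFb_H_smul {deg : I → ℕ} {k : ℕ} {c : (G × I) →₀ ℤ} (n : ℤ) (h : PFb_H deg k c) :
    PFb_H deg k (n • c) := by
  intro x hx
  refine h x fun h1 => hx ?_
  rw [Finsupp.smul_apply, h1, smul_zero]

omit [Group G] [Fintype I] in
private lemma PFb_H_sub {deg : I → ℕ} {k : ℕ} {c c' : (G × I) →₀ ℤ} (h : PFb_H deg k c)
    (h' : PFb_H deg k c') : PFb_H deg k (c - c') := by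
  intro x hx
  by_cases h1 : c x = 0
  · refine h' x fun h2 => hx ?_
    rw [Finsupp.sub_apply, h1, h2, sub_zero]
  · exact h x h1

omit [Group G] [Fintype I] in
private lemma PFb_H_zero (deg : I → ℕ) (k : ℕ) : PFb_H deg k (0 : (G × I) →₀ ℤ) :=
  fun _ hx => absurd rfl hx

omit [Group G] [Fintype I] in
private lemma PFb_H_sum {deg : I → ℕ} {k : ℕ} {ι : Type} (s : Finset ι)
    (F : ι → (G × I) →₀ ℤ) (h : ∀ i ∈ s, PFb_H deg k (F i)) : PFb_H deg k (∑ i ∈ s, F i) := by
  classical
  induction s using Finset.induction_on with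
  | empty =>
    rw [Finset.sum_empty]
    exact PFb_H_zero deg k
  | insert a s ha ih =>
    rw [Finset.sum_insert ha]
    exact PFb_H_add (h a (Finset.mem_insert_self _ _))
      (ih fun i hi => h i (Finset.mem_insert_of_mem hi))

omit [Group G] [Fintype I] in
private lemma PFb_lin {W : Type} [AddCommGroup W] (F : ((G × I) →₀ ℤ) →ₗ[ℤ] W)
    (c : (G × I) →₀ ℤ) : F c = ∑ x ∈ c.support, c x • F (Finsupp.single x 1) := by
  have h1 : c = ∑ x ∈ c.support, c x • Finsupp.single x (1 : ℤ) := by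
    conv_lhs => rw [← Finsupp.sum_single c]
    refine Finset.sum_congr rfl fun x _ => ?_
    rw [Finsupp.smul_single, smul_eq_mul, mul_one]
  conv_lhs => rw [h1]
  rw [map_sum]
  exact Finset.sum_congr rfl fun x _ => map_smul F (c x) (Finsupp.single x 1)

end

theorem PFb (h1 : CPD.St_E1) : St_PFb := by
  classical
  intro G _ M γ hγ2 hγ1
  obtain ⟨e1, e2, e3, e4, e5, e6, -, e8, e9⟩ := h1 G M.I
  have hres := M.resP
  have hE0 : ∀ i j, M.E i j ≠ 0 → M.deg i = M.deg j + 0 := hres.E_deg
  have htoV0 : toV (0 : (G × M.I) →₀ ℤ) = 0 := by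
    have h2 := e2 (0 : (G × M.I) →₀ ℤ) 0
    rw [add_zero] at h2
    exact left_eq_add.1 h2
  -- the compositions
  have hED : ∀ c : (G × M.I) →₀ ℤ, opZ M.D (opZ M.E c) = opZ M.D c := by
    intro c
    rw [← e6, hres.ED]
  have hDE : ∀ c : (G × M.I) →₀ ℤ, opZ M.E (opZ M.D c) = opZ M.D c := by
    intro c
    rw [← e6, hres.DE]
  have hEE : ∀ c : (G × M.I) →₀ ℤ, opZ M.E (opZ M.E c) = opZ M.E c := by
    intro c
    rw [← e6, hres.EE]
  have haugH : ∀ (k : ℕ) (c : (G × M.I) →₀ ℤ), 1 ≤ k → PFb_H M.deg k c → augZ M.e c = 0 := by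
    intro k c hk hc
    unfold augZ
    refine Finset.sum_eq_zero fun x hx => ?_
    have h5 : M.e x.2 = 0 := by
      by_contra h6
      have h7 := hres.e_deg _ h6
      have h8 := hc x (Finsupp.mem_support_iff.1 hx)
      omega
    show c x * M.e x.2 = 0
    rw [h5, mul_zero]
  have hD0 : ∀ c : (G × M.I) →₀ ℤ, PFb_H M.deg 0 c → opZ M.D c = 0 := by
    intro c hc
    ext y
    rw [PFb_opZ_apply]
    refine Finset.sum_eq_zero fun x hx => ?_
    have h2 := hc x (Finsupp.mem_support_iff.1 hx)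
    by_contra h3
    have h4 : row M.D x y ≠ 0 := fun h => h3 (by
      show c x * row M.D x y = 0
      rw [h, mul_zero])
    have h5 := hres.D_deg _ _ (PFb_row_ne M.D x y h4)
    omega
  -- filling
  have hfill : ∀ (k : ℕ) (c : (G × M.I) →₀ ℤ), opZ M.E c = c → PFb_H M.deg k c →
      opZ M.D c = 0 → augZ M.e c = 0 →
      ∃ b : (G × M.I) →₀ ℤ, PFb_H M.deg (k + 1) b ∧ opZ M.E b = b ∧ opZ M.D b = c := by
    intro k c hc hdeg hD haug
    obtain ⟨u, hu1, hu2⟩ := hres.exact (toV c) (by rw [← e1, hc])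
      (by rw [← e1, hD, htoV0]) (by rw [← e5, haug])
    obtain ⟨b', hb'⟩ := e4 u
    have hEb' : opZ M.E b' = b' := by
      apply e3
      rw [e1, hb', hu1]
    have hDb' : opZ M.D b' = c := by
      apply e3
      rw [e1, hb', hu2]
    refine ⟨b'.filter (fun x => M.deg x.2 = k + 1), ?_, ?_, ?_⟩
    · intro x hx
      by_contra h2
      exact hx (Finsupp.filter_apply_neg _ _ h2)
    · ext y
      have h2 := PFb_filter M.deg M.E 0 hE0 b' (k + 1) y
      rw [hEb'] at h2
      rw [Finsupp.filter_apply]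
      exact h2
    · ext y
      rw [PFb_filter M.deg M.D 1 hres.D_deg b' k y, hDb']
      split_ifs with h2
      · rfl
      · by_contra h3
        exact h2 (hdeg y (fun h => h3 h.symm))
  -- the chain of augmentation one
  obtain ⟨v, hv1, hv2⟩ := hres.surj
  obtain ⟨c0, hc0⟩ := e4 v
  have hc0E : opZ M.E c0 = c0 := by
    apply e3
    rw [e1, hc0, hv1]
  obtain ⟨o, ho0, hoE, hoa⟩ : ∃ o : (G × M.I) →₀ ℤ, PFb_H M.deg 0 o ∧
      opZ M.E o = o ∧ augZ M.e o = 1 := by
    refine ⟨c0.filter (fun x => M.deg x.2 = 0 + 0), ?_, ?_, ?_⟩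
    · intro x hx
      by_contra h2
      exact hx (Finsupp.filter_apply_neg _ _ (by rwa [zero_add]))
    · ext y
      rw [PFb_filter M.deg M.E 0 hE0 c0 0 y, hc0E, Finsupp.filter_apply]
    · have h2 : augZ M.e (c0.filter (fun x => M.deg x.2 = 0 + 0)) = augZ M.e c0 := by
        have h3 := Finsupp.filter_add_filter_not c0 (fun x => M.deg x.2 = 0 + 0)
        have h6 : augZ M.e c0 = augZ M.e (c0.filter (fun x => M.deg x.2 = 0 + 0) +
            c0.filter (fun x => ¬ M.deg x.2 = 0 + 0)) := by rw [h3]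
        rw [h6, PFb_aug, PFb_aug, map_add]
        have h4 : Finsupp.linearCombination ℤ (fun x : G × M.I => M.e x.2)
            (c0.filter (fun x => ¬ M.deg x.2 = 0 + 0)) = 0 := by
          rw [Finsupp.linearCombination_apply]
          refine Finset.sum_eq_zero fun x hx => ?_
          rw [Finsupp.support_filter, Finset.mem_filter] at hx
          have h5 : M.e x.2 = 0 := by
            by_contra h6
            exact hx.2 (hres.e_deg _ h6)
          show _ • M.e x.2 = 0
          rw [h5, smul_zero]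
        rw [h4]
        exact (add_zero _).symm
      rw [h2, e5, hc0, hv2]
  have htoV : ∀ (A : Matrix M.I M.I (ZG G)) (i j : M.I), toV (row A (1, i)) j = A i j := by
    intro A i j
    apply MonoidAlgebra.ext
    ext g
    show row A (1, i) (g, j) = _
    rw [CPD.row_apply, inv_one, one_mul]
  have hrow : ∀ (A : Matrix M.I M.I (ZG G)) (x : G × M.I),
      row A x = opZ A (Finsupp.single x 1) := by
    intro A x
    unfold opZ
    rw [Finsupp.linearCombination_single, one_smul]
  have htlrow : ∀ (A : Matrix M.I M.I (ZG G)) (x : G × M.I),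
      tl x.1 (row A (1, x.2)) = row A x := by
    intro A x
    ext y
    rw [e9, CPD.row_apply, CPD.row_apply, inv_one, one_mul]
  have haugrow : ∀ (A : Matrix M.I M.I (ZG G)) (x : G × M.I),
      augZ M.e (row A x) = ∑ j, au (A x.2 j) * M.e j := by
    intro A x
    rw [← htlrow, e8, e5]
    simp only [htoV]
  have hrowH : ∀ x : G × M.I, PFb_H M.deg (M.deg x.2) (row M.E x) := by
    intro x y hy
    exact (hres.E_deg _ _ (PFb_row_ne M.E x y hy)).symm
  -- the fillings of the vertices
  have hβ : ∀ x : G × M.I, ∃ b : (G × M.I) →₀ ℤ, PFb_H M.deg 1 b ∧ opZ M.E b = b ∧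
      (M.deg x.2 = 0 → opZ M.D b = opZ M.E (Finsupp.single x 1) - M.e x.2 • o) := by
    intro x
    by_cases hx : M.deg x.2 = 0
    · have hH : PFb_H M.deg 0 (opZ M.E (Finsupp.single x 1) - M.e x.2 • o) := by
        refine PFb_H_sub ?_ (PFb_H_smul _ ho0)
        have h2 := hrowH x
        rwa [hx, hrow] at h2
      obtain ⟨b, hb1, hb2, hb3⟩ := hfill 0 _
        (by rw [map_sub, map_smul, hoE, hEE]) hH (hD0 _ hH)
        (by
          rw [PFb_aug, map_sub, map_smul, ← PFb_aug, ← PFb_aug, hoa, ← hrow, haugrow, hres.Ee]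
          simp)
      exact ⟨b, hb1, hb2, fun _ => hb3⟩
    · exact ⟨0, PFb_H_zero _ _, map_zero _, fun h => absurd h hx⟩
  choose β hβ1 hβ2 hβ3 using hβ
  let S : ((G × M.I) →₀ ℤ) →ₗ[ℤ] ((G × M.I) →₀ ℤ) := Finsupp.linearCombination ℤ β
  have hSs : ∀ x, S (Finsupp.single x 1) = β x := by
    intro x
    show Finsupp.linearCombination ℤ β (Finsupp.single x 1) = β x
    rw [Finsupp.linearCombination_single, one_smul]
  have hSH : ∀ c, PFb_H M.deg 1 (S c) := by
    intro c
    rw [PFb_lin S c]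
    refine PFb_H_sum _ _ fun x _ => ?_
    rw [hSs]
    exact PFb_H_smul _ (hβ1 x)
  have hSE : ∀ c, opZ M.E (S c) = S c := by
    intro c
    rw [PFb_lin S c, map_sum]
    refine Finset.sum_congr rfl fun x _ => ?_
    rw [map_smul, hSs, hβ2]
  have hSD : ∀ c, PFb_H M.deg 0 c → opZ M.D (S c) = opZ M.E c - augZ M.e c • o := by
    intro c hc
    rw [PFb_lin S c, map_sum]
    have h2 : ∀ x ∈ c.support, opZ M.D (c x • S (Finsupp.single x 1)) =
        c x • opZ M.E (Finsupp.single x 1) - (c x * M.e x.2) • o := by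
      intro x hx
      rw [map_smul, hSs, hβ3 x (hc x (Finsupp.mem_support_iff.1 hx)), smul_sub, smul_smul]
    rw [Finset.sum_congr rfl h2, Finset.sum_sub_distrib, ← PFb_lin (opZ M.E) c, ← Finset.sum_smul]
    rfl
  refine ⟨γ.comp S, ?_⟩
  intro y hy
  have hrD : PFb_H M.deg 0 (opZ M.D (Finsupp.single y 1)) := by
    intro x hx
    rw [← hrow] at hx
    have h2 := hres.D_deg _ _ (PFb_row_ne M.D y x hx)
    omega
  have hB : opZ M.D (S (opZ M.D (Finsupp.single y 1))) = opZ M.D (Finsupp.single y 1) := by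
    rw [hSD _ hrD, hDE, ← hrow, haugrow, hres.De, zero_smul, sub_zero]
  have hyH : PFb_H M.deg 1 (opZ M.E (Finsupp.single y 1)) := by
    have h2 := hrowH y
    rwa [hy, hrow] at h2
  have hZH : PFb_H M.deg 1 (S (opZ M.D (Finsupp.single y 1)) - opZ M.E (Finsupp.single y 1)) :=
    PFb_H_sub (hSH _) hyH
  obtain ⟨ζ, hζ1, -, hζ3⟩ := hfill 1 _ (by rw [map_sub, hSE, hEE]) hZH
    (by rw [map_sub, hB, hED, sub_self]) (haugH 1 _ le_rfl hZH)
  have h2 : γ (opZ M.D ζ) = 0 := by
    have h3 := PFb_lin (γ.comp (opZ M.D)) ζ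
    have h4 : (γ.comp (opZ M.D)) ζ = γ (opZ M.D ζ) := rfl
    rw [← h4, h3]
    refine Finset.sum_eq_zero fun x hx => ?_
    have h5 : (γ.comp (opZ M.D)) (Finsupp.single x 1) = 0 :=
      hγ2 x (hζ1 x (Finsupp.mem_support_iff.1 hx))
    rw [h5, smul_zero]
  rw [hζ3, map_sub, hγ1 y hy, sub_eq_zero] at h2
  exact h2.symm

end Pool.Agent.SFG
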