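import Pool.Agent.SFG.StP

/-!
# PFd: an integral cocycle near infinity is a coboundary near infinity
-/

set_option autoImplicit false

namespace Pool.Agent.SFG

open Matrix Pool.Agent.CPD Pool.Agent.SPD

section

variable {G I : Type} [Group G] [Fintype I]

private lemma PFd_row_ne (A : Matrix I I (ZG G)) (x y : G × I) (h : row A x y ≠ 0) :
    A x.2 y.2 ≠ 0 := by
  intro h1
  apply h
  rw [CPD.row_apply, h1]
  rfl

private lemma PFd_row (A : Matrix I I (ZG G)) (x : G × I) :
    opZ A (Finsupp.single x 1) = row A x := by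
  unfold opZ
  rw [Finsupp.linearCombination_single, one_smul]

private lemma PFd_star (A : Matrix I I (ZG G)) (x y : G × I) : row Aᴴ y x = row A x y := by
  rw [CPD.row_apply, CPD.row_apply, Matrix.conjTranspose_apply, star_coeff]
  congr 1
  group

private lemma PFd_comm {α : Type} (f g : α →₀ ℤ) :
    Finsupp.linearCombination ℤ (fun y => g y) f = f.sum (fun y n => n * g y) ∧
    f.sum (fun y n => n * g y) = g.sum (fun y n => n * f y) := by
  classical
  refine ⟨rfl, ?_⟩
  rw [Finsupp.sum_of_support_subset f (Finset.subset_union_left (s₂ := g.support))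
    (fun y n => n * g y) (fun i _ => zero_mul _), Finsupp.sum_of_support_subset g
    (Finset.subset_union_right (s₁ := f.support)) (fun y n => n * f y) (fun i _ => zero_mul _)]
  exact Finset.sum_congr rfl fun i _ => mul_comm _ _

/-- The transpose of an operator. -/
private lemma PFd_tr (A : Matrix I I (ZG G)) (c : (G × I) →₀ ℤ) (x : G × I) :
    opZ Aᴴ c x = Finsupp.linearCombination ℤ (fun y => c y) (opZ A (Finsupp.single x 1)) := by
  rw [(PFd_comm _ _).1, (PFd_comm _ _).2, PFd_row]
  unfold opZ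
  rw [Finsupp.linearCombination_apply, Finsupp.sum_apply]
  refine Finset.sum_congr rfl fun y _ => ?_
  show (c y • row Aᴴ y) x = c y * row A x y
  rw [Finsupp.smul_apply, PFd_star, smul_eq_mul]

omit [Group G] [Fintype I] in
/-- Two functionals which agree on the cells of a chain agree on the chain. -/
private lemma PFd_agree (F F' : ((G × I) →₀ ℤ) →ₗ[ℤ] ℤ) (z : (G × I) →₀ ℤ)
    (h : ∀ y, z y ≠ 0 → F (Finsupp.single y 1) = F' (Finsupp.single y 1)) : F z = F' z := by
  have h1 : z = z.sum (fun y n => n • Finsupp.single y (1 : ℤ)) := by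
    conv_lhs => rw [← Finsupp.sum_single z]
    refine Finset.sum_congr rfl fun y _ => ?_
    show Finsupp.single y (z y) = z y • Finsupp.single y (1 : ℤ)
    rw [Finsupp.smul_single, smul_eq_mul, mul_one]
  rw [h1]
  unfold Finsupp.sum
  rw [map_sum, map_sum]
  refine Finset.sum_congr rfl fun y hy => ?_
  rw [map_smul, map_smul, h y (Finsupp.mem_support_iff.1 hy)]

end

theorem PFd (h1 : CPD.St_E1) (ha : St_PFa) (hb : St_PFb) : St_PFd := by
  classical
  intro G _ M n' b h2 h3
  obtain ⟨e1, -, e3, -, -, e6, -, -, -⟩ := h1 G M.I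
  have hres := M.resP
  have hDD : ∀ c : (G × M.I) →₀ ℤ, opZ M.D (opZ M.D c) = 0 := by
    intro c
    rw [← e6, hres.DD]
    unfold opZ
    have h4 : CPD.row (0 : Matrix M.I M.I (ZG G)) = fun _ => 0 := by
      funext x
      ext y
      rw [CPD.row_apply]
      rfl
    rw [h4, Finsupp.linearCombination_apply]
    exact Finset.sum_eq_zero fun y _ => smul_zero _
  have hED : ∀ c : (G × M.I) →₀ ℤ, opZ M.D (opZ M.E c) = opZ M.D c := by
    intro c
    rw [← e6, hres.ED]
  have hDE : ∀ c : (G × M.I) →₀ ℤ, opZ M.E (opZ M.D c) = opZ M.D c := by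
    intro c
    rw [← e6, hres.DE]
  have hEE : ∀ c : (G × M.I) →₀ ℤ, opZ M.E (opZ M.E c) = opZ M.E c := by
    intro c
    rw [← e6, hres.EE]
  have hdD : ∀ x y : G × M.I, opZ M.D (Finsupp.single x 1) y ≠ 0 →
      M.deg x.2 = M.deg y.2 + 1 := by
    intro x y h
    rw [PFd_row] at h
    exact hres.D_deg _ _ (PFd_row_ne _ _ _ h)
  have hdE : ∀ x y : G × M.I, opZ M.E (Finsupp.single x 1) y ≠ 0 →
      M.deg x.2 = M.deg y.2 := by
    intro x y h
    rw [PFd_row] at h
    exact hres.E_deg _ _ (PFd_row_ne _ _ _ h)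
  -- the finite cocycle of degree two
  obtain ⟨c, hc⟩ : ∃ c : (G × M.I) →₀ ℤ, ∀ x, c x =
      if M.deg x.2 = 2 then b (opZ M.D (Finsupp.single x 1)) else 0 := by
    refine ⟨Finsupp.onFinset (M.L.ball n' ×ˢ (Finset.univ : Finset M.I)) (fun x =>
      if M.deg x.2 = 2 then b (opZ M.D (Finsupp.single x 1)) else 0) ?_, fun x => rfl⟩
    intro x hx
    rw [Finset.mem_product]
    refine ⟨?_, Finset.mem_univ _⟩
    rw [Len.mem_ball]
    by_contra h
    apply hx
    split_ifs with h4
    · exact h2 x h4 (not_le.1 h)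
    · rfl
  have hC : ∀ z : (G × M.I) →₀ ℤ, (∀ y, z y ≠ 0 → M.deg y.2 = 2) →
      Finsupp.linearCombination ℤ (fun y => c y) z = b (opZ M.D z) := by
    intro z hz
    refine PFd_agree _ (b ∘ₗ opZ M.D) z fun y hy => ?_
    rw [Finsupp.linearCombination_single, one_smul, hc, if_pos (hz y hy)]
    rfl
  have hC0 : ∀ z : (G × M.I) →₀ ℤ, (∀ y, z y ≠ 0 → M.deg y.2 ≠ 2) →
      Finsupp.linearCombination ℤ (fun y => c y) z = 0 := by
    intro z hz
    refine (PFd_agree _ 0 z fun y hy => ?_).trans rfl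
    rw [Finsupp.linearCombination_single, one_smul, hc, if_neg (hz y hy)]
    rfl
  have hcE : opZ M.Eᴴ c = c := by
    ext x
    rw [PFd_tr, hc x]
    split_ifs with h4
    · rw [hC _ fun y hy => (hdE x y hy).symm.trans h4, hED]
    · exact hC0 _ fun y hy => by rw [← hdE x y hy]; exact h4
  have hcD : opZ M.Dᴴ c = 0 := by
    ext x
    rw [PFd_tr, Finsupp.zero_apply]
    by_cases h4 : M.deg x.2 = 3
    · rw [hC _ fun y hy => by have := hdD x y hy; omega, hDD, map_zero]
    · exact hC0 _ fun y hy => by have := hdD x y hy; omega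
  obtain ⟨b0, hb1, hb2, hb3⟩ := ha G M.toPDM c
    (fun x hx => by
      by_contra h4
      exact hx ((hc x).trans (if_neg h4))) hcE hcD
  have hBE : ∀ x : G × M.I, Finsupp.linearCombination ℤ (fun y => b0 y)
      (opZ M.E (Finsupp.single x 1)) = b0 x := by
    intro x
    rw [← PFd_tr, hb2]
  have hBD : ∀ x : G × M.I, Finsupp.linearCombination ℤ (fun y => b0 y)
      (opZ M.D (Finsupp.single x 1)) = c x := by
    intro x
    rw [← PFd_tr, hb3]
  -- the cocycle of degree one
  obtain ⟨γ, hγ⟩ : ∃ γ : ((G × M.I) →₀ ℤ) →ₗ[ℤ] ℤ, ∀ y, γ (Finsupp.single y 1) =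
      if M.deg y.2 = 1 then b (opZ M.E (Finsupp.single y 1)) - b0 y else 0 := by
    refine ⟨Finsupp.linearCombination ℤ (fun y : G × M.I =>
      if M.deg y.2 = 1 then b (opZ M.E (Finsupp.single y 1)) - b0 y else 0), fun y => ?_⟩
    rw [Finsupp.linearCombination_single, one_smul]
  have hγ1 : ∀ z : (G × M.I) →₀ ℤ, (∀ y, z y ≠ 0 → M.deg y.2 = 1) →
      γ z = b (opZ M.E z) - Finsupp.linearCombination ℤ (fun y => b0 y) z := by
    intro z hz
    refine PFd_agree _ (b ∘ₗ opZ M.E - Finsupp.linearCombination ℤ (fun y => b0 y)) z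
      fun y hy => ?_
    rw [hγ, if_pos (hz y hy), LinearMap.sub_apply, Finsupp.linearCombination_single, one_smul]
    rfl
  obtain ⟨p, hp⟩ := hb G M.toPDM γ
    (fun x hx => by
      rw [hγ1 _ fun y hy => by have := hdD x y hy; omega, hDE, hBD, hc, if_pos hx, sub_self])
    (fun y hy => by
      rw [hγ1 _ fun z hz => (hdE y z hz).symm.trans hy, hEE, hBE, hγ, if_pos hy])
  refine ⟨p, max n' (b0.support.sup fun x => M.L.l x.1), fun y hy hl => ?_⟩
  have hl1 : n' < M.L.l y.1 := lt_of_le_of_lt (le_max_left _ _) hl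
  have hl2 : b0 y = 0 := by
    by_contra h4
    exact absurd (Finset.le_sup (f := fun x : G × M.I => M.L.l x.1)
      (Finsupp.mem_support_iff.2 h4)) (not_le.2 (lt_of_le_of_lt (le_max_right _ _) hl))
  rw [← hp y hy, hγ, if_pos hy, hl2, sub_zero, h3 y hy hl1]

end Pool.Agent.SFG
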