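import Pool.Agent.SFG.StH
import Pool.Agent.SPD.StW

/-!
# SFG, module PL : cells of degree one are pushed to infinity (helper35)
-/

set_option autoImplicit false

namespace Pool.Agent.SFG

open Matrix Pool.Agent.CPD Pool.Agent.SPD

private theorem PL_val_nil {G α : Type} [Group G] (f : α → G) :
    value f ([] : List (α × Bool)) = 1 := rfl

private theorem PL_val_cons {G α : Type} [Group G] (f : α → G) (a : α × Bool)
    (x : List (α × Bool)) : value f (a :: x) = letter f a * value f x := by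
  unfold value
  rw [List.map_cons, List.prod_cons]

private theorem PL_len {G α : Type} [Group G] (f : α → G) (L : Len G)
    (h1 : ∀ a : α × Bool, L.l (letter f a) ≤ 1) (x : List (α × Bool)) :
    L.l (value f x) ≤ x.length := by
  induction x with
  | nil =>
    show L.l (1 : G) ≤ 0
    rw [L.one]
  | cons a x ih =>
    rw [PL_val_cons, List.length_cons]
    have h2 := L.mul (letter f a) (value f x)
    have h3 := h1 a
    omega

private theorem PL_far {G : Type} [Group G] (L : Len G) (v h : G) : L.l v ≤ L.l (v * h) + L.l h := by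
  have h1 := L.mul (v * h) h⁻¹
  rw [mul_inv_cancel_right, L.inv] at h1
  exact h1

private theorem PL_near {G : Type} [Group G] (L : Len G) (v y : G) :
    L.l v ≤ L.l y + L.l (v⁻¹ * y) := by
  have h1 := PL_far L v (v⁻¹ * y)
  rw [mul_inv_cancel_left] at h1
  exact h1

private theorem PL_short {G α : Type} [Group G] (f : α → G) (L : Len G)
    (h1 : ∀ a : α × Bool, L.l (letter f a) ≤ 1) (m : ℕ) (v : G) (s : List (α × Bool))
    (h : m + s.length < L.l v) : Avoids f (Bl L m) v s := by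
  intro k hk hmem
  have h2 : L.l (v * value f (s.take k)) ≤ m := hmem
  have h3 := PL_far L v (value f (s.take k))
  have h4 := PL_len f L h1 (s.take k)
  rw [List.length_take] at h4
  omega

private theorem PL_hol {G α π : Type} [Group G] [Group π] (f : α → G) (L : Len G)
    (T : G → G → π) (K n : ℕ) (hK : 1 ≤ K) (h1 : ∀ a : α × Bool, L.l (letter f a) ≤ 1)
    (hgood : ∀ v, n < L.l v → GoodT L T K v) :
    ∀ (s : List (α × Bool)) (v : G), n + s.length < L.l v → s.length ≤ K →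
      hol f (lab f T) v s = T v (value f s) := by
  intro s
  induction s with
  | nil =>
    intro v hv _
    have h2 := hgood v (by simpa using hv) 1 1 (by rw [L.one]; omega) (by rw [L.one]; omega)
    rw [mul_one, mul_one] at h2
    have h3 : T v 1 = 1 := by
      have h4 : T v 1 * T v 1 = T v 1 * 1 := by rw [h2, mul_one]
      exact mul_left_cancel h4
    rw [PL_val_nil, h3]
    rfl
  | cons a s ih =>
    intro v hv hs
    rw [List.length_cons] at hv hs
    have h2 := PL_far L v (letter f a)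
    have h3 := h1 a
    have h4 := ih (v * letter f a) (by omega) (by omega)
    have h5 := PL_len f L h1 s
    show T v (letter f a) * hol f (lab f T) (v * letter f a) s = _
    rw [h4, PL_val_cons]
    exact hgood v (by omega) _ _ (by omega) (by omega)

private theorem PL_au {G : Type} [Group G] (a : ZG G) : au a = a.coeff.sum (fun _ n => n) := by
  unfold au
  rw [MonoidAlgebra.lift_apply]
  refine Finsupp.sum_congr fun g _ => ?_
  rw [MonoidHom.one_apply, smul_eq_mul, mul_one]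

/-- the augmentation of the boundary of a cell -/
private theorem PL_aug {G : Type} [Group G] (M : Pk G) (j : M.I) :
    (row M.D (1, j)).sum (fun x n => n * M.e x.2) = 0 := by
  have h0 : ∀ x : G × M.I, (fun (x : G × M.I) (n : ℤ) => n * M.e x.2) x 0 = 0 :=
    fun x => zero_mul _
  have h1 : ∀ (x : G × M.I) (m n : ℤ), (fun (x : G × M.I) (n : ℤ) => n * M.e x.2) x (m + n) =
      (fun (x : G × M.I) (n : ℤ) => n * M.e x.2) x m +
        (fun (x : G × M.I) (n : ℤ) => n * M.e x.2) x n := fun x m n => add_mul _ _ _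
  unfold CPD.row
  rw [← Finsupp.sum_finsetSum_index h0 h1, ← M.resP.De j]
  refine Finset.sum_congr rfl fun i _ => ?_
  rw [Finsupp.sum_mapDomain_index h0 h1, PL_au, Finsupp.sum_mul]

private theorem PL_alg {Λ W : Type} [Ring Λ] [AddCommGroup W] [Module Λ W] (c e : ℤ) (g : Λ)
    (A B Cw Q K Gg : W) (h : B + g • Cw = Q + K + Gg) :
    c • (g • A - e • B) = ((c : Λ) * g) • (A + e • Cw) - (c * e) • K - (c * e) • Gg -
      (c * e) • Q := by
  have hB : B = Q + K + Gg - g • Cw := by rw [← h]; abel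
  have h1 : g • (e • Cw) = e • (g • Cw) := smul_comm g e Cw
  rw [mul_smul, Int.cast_smul_eq_zsmul, smul_add, h1, hB]
  generalize g • Cw = C'
  generalize g • A = A'
  module

section

variable {G α π : Type} [Group G] [Group π] (f : α → G) (Rel : Set (List (α × Bool)))
  (M : Pk G) {R : ℕ} (𝓛 : Loc M R) (n : ℕ) (T : G → G → π)

private theorem PL_row {v : G} {j : M.I} {x : G × M.I} (h : row M.D (v, j) x ≠ 0) :
    M.deg j = M.deg x.2 + 1 ∧ M.L.l (v⁻¹ * x.1) ≤ M.c := by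
  rw [CPD.row_apply] at h
  refine ⟨M.resP.D_deg j x.2 ?_, M.prop_D j x.2 _ h⟩
  intro h1
  apply h
  show (M.D j x.2).coeff _ = 0
  rw [h1]
  rfl

/-- the bracket -/
private theorem PL_br (hW0 : SPD.St_W0) (hL5 : SPD.St_L5) (hL6 : SPD.St_L6) (hD0 : CPD.St_D0)
    (hSHW : St_SHW) (hD : Dc f Rel M 𝓛 n T) (n1 m C : ℕ) (D' C' : Set G) (hn1 : n ≤ n1)
    (hm : n1 + 𝓛.ρ ≤ m) (hDm : D' ⊆ Bl M.L m)
    (hss : ∀ (v : G) (w p : List (α × Bool)), value f w = 1 →
      Avoids f D' v w → Avoids f D' v p → v * value f p ∉ C' →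
        ∃ w', value f w' = 1 ∧ Avoids f (Bl M.L (C + 𝓛.ρ)) (v * value f p) w' ∧
          Relation.EqvGen (Move f Rel (Bl M.L (n1 + 𝓛.ρ)) v) w (p ++ w' ++ winv p))
    (a v h : G) (ha : a ∉ C') (q q' : List (α × Bool)) (hq : Avoids f (Bl M.L m) v q)
    (hqa : v * value f q = a) (hq' : Avoids f (Bl M.L m) (v * h) q')
    (hqa' : v * h * value f q' = a) (hh : M.L.l h ≤ R) (hv : m + R < M.L.l v) :
    ∃ k g' : Ch M (ZG π), (∀ y, k y ≠ 0 → M.deg y.2 = 2 ∧ n1 < M.L.l y.1) ∧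
      (∀ y, g' y ≠ 0 → M.deg y.2 = 1 ∧ C < M.L.l y.1) ∧
      sh M T v (𝓛.es h) + gr (T v h) • chw f M 𝓛 T (v * h) q' =
        chw f M 𝓛 T v q + opT M T M.D k + g' := by
  obtain ⟨w1, w2, w3, w4, w5, -, w7, w8, w9⟩ := hW0 G α f
  have hρ : R + M.u ≤ 𝓛.ρ := 𝓛.hR
  have hu : 1 ≤ M.u := Nat.succ_le_succ (Nat.zero_le _)
  have hkap : R + 1 ≤ 𝓛.kap := by
    show R + 1 ≤ 4 * 𝓛.ρ + 20 * M.u
    omega
  have hlen := hD.base.len
  obtain ⟨l1, -, l3, -⟩ := hL5 G α f M R 𝓛 π T n hlen hD.good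
  -- the word s
  obtain ⟨s, hs, hsl⟩ := hD.base.word h
  have hsR : s.length ≤ R := by omega
  have hsav : Avoids f (Bl M.L m) v s := PL_short f M.L hlen m v s (by omega)
  have hshol : hol f (lab f T) v s = T v h := by
    rw [← hs]
    exact PL_hol f M.L T 𝓛.kap n (by omega) hlen hD.good s v (by omega) (by omega)
  obtain ⟨e1, he1, he1'⟩ := hSHW G α π f Rel M R 𝓛 n T hD m v s (by omega) hsR hsav
  rw [hs] at he1'
  -- the loop
  have hsq : Avoids f (Bl M.L m) v (s ++ q') := by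
    rw [w3]
    refine ⟨hsav, ?_⟩
    rw [hs]
    exact hq'
  have hinv : Avoids f (Bl M.L m) a (winv q) := by
    rw [← hqa]
    exact (w4 _ v q).1 hq
  have hav : a * value f (winv q) = v := by
    rw [(w1 q).1, ← hqa, mul_inv_cancel_right]
  have hloop : Avoids f (Bl M.L m) a (winv q ++ (s ++ q')) := by
    rw [w3]
    refine ⟨hinv, ?_⟩
    rw [hav]
    exact hsq
  have hval : value f (winv q ++ (s ++ q')) = 1 := by
    rw [(w2 _ _).1, (w2 _ _).1, (w1 q).1, hs]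
    have h1 : value f q = v⁻¹ * a := by rw [← hqa, inv_mul_cancel_left]
    have h2 : value f q' = (v * h)⁻¹ * a := by rw [← hqa', inv_mul_cancel_left]
    rw [h1, h2]
    group
  have haw : Avoids f (Bl M.L m) a ([] : List (α × Bool)) := by
    have h1 := (w3 (Bl M.L m) a [] (winv q)).1 (by simpa using hinv)
    exact h1.1
  obtain ⟨ℓ', hℓ1, hℓ2, hℓ3⟩ := hss a (winv q ++ (s ++ q')) [] hval (w7 _ _ _ _ hDm hloop)
    (w7 _ _ _ _ hDm haw) (by rw [PL_val_nil, mul_one]; exact ha)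
  rw [PL_val_nil, mul_one] at hℓ2
  have hnil : ([] : List (α × Bool)) ++ ℓ' ++ winv [] = ℓ' := by
    have h1 : winv ([] : List (α × Bool)) = [] := rfl
    rw [h1, List.nil_append, List.append_nil]
  rw [hnil] at hℓ3
  have hrel : ∀ r ∈ Rel, r.length ≤ R ∧ value f r = 1 := fun r hr =>
    ⟨hD.len r hr, hD.base.rel r hr⟩
  obtain ⟨e3, he3, he3'⟩ := hL6 G α f Rel M R 𝓛 π T n (n1 + 𝓛.ρ) hlen hrel hD.lab hD.good
    (by omega) a _ _ hℓ3
  have hcanc : Relation.EqvGen (Move f Rel (Bl M.L m) v) (q ++ (winv q ++ (s ++ q'))) (s ++ q') := by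
    have h1 := (hD0 G α f).2.2.2.2.2 Rel (Bl M.L m) v [] q (s ++ q') (by simpa using hsq)
      (by rw [PL_val_nil, mul_one]; exact hq)
    have h2 : [] ++ q ++ (q.map (fun a => (a.1, !a.2))).reverse ++ (s ++ q') =
        q ++ (winv q ++ (s ++ q')) := by
      show [] ++ q ++ winv q ++ (s ++ q') = _
      rw [List.nil_append, List.append_assoc]
    rw [h2, List.nil_append] at h1
    exact h1
  obtain ⟨e2, he2, he2'⟩ := hL6 G α f Rel M R 𝓛 π T n m hlen hrel hD.lab hD.good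
    (by omega) v _ _ hcanc
  set c := gr (hol f (lab f T) v q) with hc
  refine ⟨c • e3 - e2 - e1, c • chw f M 𝓛 T a ℓ', ?_, ?_, ?_⟩
  · intro y hy
    have h1 : e3 y ≠ 0 ∨ e2 y ≠ 0 ∨ e1 y ≠ 0 := by
      by_contra hcon
      push Not at hcon
      obtain ⟨h3, h4, h5⟩ := hcon
      apply hy
      rw [Finsupp.sub_apply, Finsupp.sub_apply, Finsupp.smul_apply, h3, h4, h5, smul_zero,
        sub_zero, sub_zero]
    rcases h1 with h1 | h1 | h1
    · have := he3 y h1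
      exact ⟨this.1, by omega⟩
    · have := he2 y h1
      exact ⟨this.1, by omega⟩
    · have := he1 y h1
      exact ⟨this.1, by omega⟩
  · intro y hy
    have h1 : chw f M 𝓛 T a ℓ' y ≠ 0 := by
      intro h1
      apply hy
      rw [Finsupp.smul_apply, h1, smul_zero]
    have := l3 (C + 𝓛.ρ) a ℓ' y hℓ2 h1
    exact ⟨this.1, by omega⟩
  · have t1 := l1 v s q'
    rw [hshol, hs] at t1
    have t2 := l1 v q (winv q ++ (s ++ q'))
    rw [hqa, ← hc] at t2
    have t3 : chw f M 𝓛 T a (winv q ++ (s ++ q')) = chw f M 𝓛 T a ℓ' + opT M T M.D e3 := by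
      rw [← he3']; abel
    have t4 : chw f M 𝓛 T v (q ++ (winv q ++ (s ++ q'))) =
        chw f M 𝓛 T v (s ++ q') + opT M T M.D e2 := by
      rw [← he2']; abel
    rw [t3, smul_add] at t2
    rw [t2, t1, he1'] at t4
    rw [map_sub, map_sub, map_smul]
    have t5 : sh M T v (𝓛.es h) + gr (T v h) • chw f M 𝓛 T (v * h) q' =
        chw f M 𝓛 T v q + (c • chw f M 𝓛 T a ℓ' + c • opT M T M.D e3) - opT M T M.D e2 -
          opT M T M.D e1 := by
      rw [t4]; abel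
    rw [t5]; abel

/-- the operator of degree one on cells of degree zero -/
private noncomputable def PL_K0 (m' : ℕ) (q : G → List (α × Bool)) :
    Ch M (ZG π) →ₗ[ZG π] Ch M (ZG π) :=
  Finsupp.linearCombination (ZG π) (fun x : G × M.I =>
    if M.deg x.2 = 0 ∧ m' < M.L.l x.1 then
      sh M T x.1 (𝓛.ex x.2) + M.e x.2 • chw f M 𝓛 T x.1 (q x.1) else 0)

private theorem PL_K0_single (m' : ℕ) (q : G → List (α × Bool)) (x : G × M.I) (a : ZG π) :
    PL_K0 f M 𝓛 T m' q (Finsupp.single x a) = a • (if M.deg x.2 = 0 ∧ m' < M.L.l x.1 then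
      sh M T x.1 (𝓛.ex x.2) + M.e x.2 • chw f M 𝓛 T x.1 (q x.1) else 0) :=
  Finsupp.linearCombination_single _ _ _

/-- support of the translate of `ex` -/
private theorem PL_ex (hL2 : SPD.St_L2) (v : G) (i : M.I) (y : G × M.I)
    (h : sh M T v (𝓛.ex i) y ≠ 0) : M.deg y.2 = 1 ∧ M.L.l v ≤ M.L.l y.1 + 𝓛.ρ := by
  have h1 := (hL2 G M R 𝓛 π T v).2.2.2.1 (𝓛.ex i) y h
  have h2 := 𝓛.ex_supp i _ h1
  have h3 := PL_near M.L v y.1
  exact ⟨h2.1, le_trans h3 (Nat.add_le_add_left h2.2 _)⟩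

/-- one cell -/
private theorem PL_cell (hL2 : SPD.St_L2) (hgood : ∀ v, n < M.L.l v → GoodT M.L T 𝓛.kap v)
    (n1 C m' n2 : ℕ) (q : G → List (α × Bool)) (hn : n ≤ n1) (h2 : m' + R + 2 * 𝓛.ρ ≤ n2)
    (h21 : n1 + 𝓛.ρ ≤ n2)
    (hbr : ∀ v h, n2 < M.L.l v → M.L.l h ≤ R →
      ∃ k g' : Ch M (ZG π), (∀ y, k y ≠ 0 → M.deg y.2 = 2 ∧ n1 < M.L.l y.1) ∧
        (∀ y, g' y ≠ 0 → M.deg y.2 = 1 ∧ C < M.L.l y.1) ∧
        sh M T v (𝓛.es h) + gr (T v h) • chw f M 𝓛 T (v * h) (q (v * h)) =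
          chw f M 𝓛 T v (q v) + opT M T M.D k + g')
    (y : G × M.I) (hy : M.deg y.2 = 1) (hy2 : n2 < M.L.l y.1) :
    ∃ k g' : Ch M (ZG π), (∀ z, k z ≠ 0 → M.deg z.2 = 2 ∧ n1 < M.L.l z.1) ∧
      (∀ z, g' z ≠ 0 → M.deg z.2 = 1 ∧ C < M.L.l z.1) ∧
      opT M T M.E (Finsupp.single y 1) = opT M T M.D k +
        PL_K0 f M 𝓛 T m' q (opT M T M.D (Finsupp.single y 1)) + g' := by
  obtain ⟨v, j⟩ := y
  have hj : M.deg j = 1 := hy
  have hv : n2 < M.L.l v := hy2
  have hcR : M.c + 1 ≤ R := 𝓛.hu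
  have hrow : ∀ x : G × M.I, row M.D (1, j) x ≠ 0 → M.deg x.2 = 0 ∧ M.L.l x.1 ≤ M.c := by
    intro x hx
    have h3 := PL_row M hx
    rw [inv_one, one_mul] at h3
    exact ⟨by omega, h3.2⟩
  have hex : ∀ x : G × M.I, ∃ k g' : Ch M (ZG π), row M.D (1, j) x ≠ 0 →
      (∀ y, k y ≠ 0 → M.deg y.2 = 2 ∧ n1 < M.L.l y.1) ∧
      (∀ y, g' y ≠ 0 → M.deg y.2 = 1 ∧ C < M.L.l y.1) ∧
      sh M T v (𝓛.es x.1) + gr (T v x.1) • chw f M 𝓛 T (v * x.1) (q (v * x.1)) =
        chw f M 𝓛 T v (q v) + opT M T M.D k + g' := by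
    intro x
    by_cases hx : row M.D (1, j) x ≠ 0
    · obtain ⟨k, g', h3⟩ := hbr v x.1 hv (by have := (hrow x hx).2; omega)
      exact ⟨k, g', fun _ => h3⟩
    · exact ⟨0, 0, fun h => absurd h hx⟩
  choose kf gf hkg using hex
  obtain ⟨a1, a2, -, a4, a5⟩ := hL2 G M R 𝓛 π T v
  obtain ⟨-, -, -, -, -, -, -, -, -, -, b11, -⟩ := a5 (hgood v (by omega))
  refine ⟨sh M T v (𝓛.f1 j) - (row M.D (1, j)).sum (fun x c => (c * M.e x.2) • kf x),
    - (row M.D (1, j)).sum (fun x c => (c * M.e x.2) • gf x), ?_, ?_, ?_⟩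
  · intro z hz
    have h3 : sh M T v (𝓛.f1 j) z ≠ 0 ∨ ∃ x, row M.D (1, j) x ≠ 0 ∧ kf x z ≠ 0 := by
      by_contra hcon
      push Not at hcon
      obtain ⟨h4, h5⟩ := hcon
      apply hz
      rw [Finsupp.sub_apply, h4, zero_sub, neg_eq_zero]
      unfold Finsupp.sum
      rw [Finsupp.finsetSum_apply]
      refine Finset.sum_eq_zero fun x hx => ?_
      rw [Finsupp.smul_apply, h5 x (Finsupp.mem_support_iff.1 hx), smul_zero]
    rcases h3 with h3 | ⟨x, hx, h3⟩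
    · have h4 := 𝓛.f1_supp j _ (a4 (𝓛.f1 j) z h3)
      have h5 := PL_near M.L v z.1
      have h6 : M.L.l (v⁻¹ * z.1) ≤ 𝓛.ρ := h4.2
      exact ⟨h4.1, by omega⟩
    · exact (hkg x hx).1 z h3
  · intro z hz
    have h3 : ∃ x, row M.D (1, j) x ≠ 0 ∧ gf x z ≠ 0 := by
      by_contra hcon
      push Not at hcon
      apply hz
      rw [Finsupp.neg_apply, neg_eq_zero]
      unfold Finsupp.sum
      rw [Finsupp.finsetSum_apply]
      refine Finset.sum_eq_zero fun x hx => ?_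
      rw [Finsupp.smul_apply, hcon x (Finsupp.mem_support_iff.1 hx), smul_zero]
    obtain ⟨x, hx, h3⟩ := h3
    exact (hkg x hx).2.1 z h3
  · have hK : PL_K0 f M 𝓛 T m' q (opT M T M.D (Finsupp.single (v, j) 1)) =
        (row M.D (1, j)).sum (fun x c => ((c : ZG π) * gr (T v x.1)) •
          (sh M T (v * x.1) (𝓛.ex x.2) + M.e x.2 • chw f M 𝓛 T (v * x.1) (q (v * x.1)))) := by
      rw [a2 M.D j, a1, map_finsuppSum]
      unfold Finsupp.sum
      refine Finset.sum_congr rfl fun x hx => ?_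
      have h3 := hrow x (Finsupp.mem_support_iff.1 hx)
      have h4 := PL_far M.L v x.1
      beta_reduce
      rw [PL_K0_single, if_pos ⟨h3.1, by
        show m' < M.L.l (v * x.1)
        omega⟩]
    have hS : (row M.D (1, j)).sum (fun x c => c • (gr (T v x.1) • sh M T (v * x.1) (𝓛.ex x.2) -
        M.e x.2 • sh M T v (𝓛.es x.1))) =
        (row M.D (1, j)).sum (fun x c => ((c : ZG π) * gr (T v x.1)) •
          (sh M T (v * x.1) (𝓛.ex x.2) + M.e x.2 • chw f M 𝓛 T (v * x.1) (q (v * x.1)))) -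
        (row M.D (1, j)).sum (fun x c => (c * M.e x.2) • opT M T M.D (kf x)) -
        (row M.D (1, j)).sum (fun x c => (c * M.e x.2) • gf x) -
        ((row M.D (1, j)).sum (fun x c => c * M.e x.2)) • chw f M 𝓛 T v (q v) := by
      unfold Finsupp.sum
      rw [Finset.sum_smul, ← Finset.sum_sub_distrib, ← Finset.sum_sub_distrib,
        ← Finset.sum_sub_distrib]
      refine Finset.sum_congr rfl fun x hx => ?_
      exact PL_alg _ _ _ _ _ _ _ _ _ (hkg x (Finsupp.mem_support_iff.1 hx)).2.2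
    rw [b11 j hj, hS, PL_aug, zero_smul, sub_zero, hK, map_sub, map_finsuppSum]
    have hm : (fun (x : G × M.I) (c : ℤ) => opT M T M.D ((c * M.e x.2) • kf x)) =
        (fun (x : G × M.I) (c : ℤ) => (c * M.e x.2) • opT M T M.D (kf x)) := by
      funext x c
      rw [map_zsmul]
    rw [hm]
    abel

end

theorem PL (hW0 : SPD.St_W0) (hL2 : SPD.St_L2) (hL5 : SPD.St_L5) (hL6 : SPD.St_L6)
    (hD0 : CPD.St_D0) (hSHW : St_SHW) : St_PL := by
  intro G α π _ _ f Rel M R 𝓛 n T hD hS n1 hn1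
  have hfin : ∀ k, (Bl M.L k).Finite := M.L.fin
  have hu : 1 ≤ M.u := Nat.succ_le_succ (Nat.zero_le _)
  have hρ : R + M.u ≤ 𝓛.ρ := 𝓛.hR
  have hlen := hD.base.len
  obtain ⟨D', hD'f, -, hD'⟩ := hS (Bl M.L (n1 + 𝓛.ρ)) (hfin _)
  -- the radius m
  obtain ⟨m0, hm0⟩ : ∃ m0, D' ⊆ Bl M.L m0 := by
    obtain ⟨b, hb⟩ := (hD'f.image M.L.l).bddAbove
    exact ⟨b, fun x hx => hb ⟨x, hx, rfl⟩⟩
  obtain ⟨m, hm1, hm2⟩ : ∃ m, n1 + 𝓛.ρ + M.u ≤ m ∧ m0 ≤ m :=
    ⟨max (n1 + 𝓛.ρ + M.u) m0, le_max_left _ _, le_max_right _ _⟩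
  have hDm : D' ⊆ Bl M.L m := fun x hx => le_trans (hm0 hx) hm2
  obtain ⟨m', hm', hjoin⟩ := hD.base.join m
  refine ⟨m' + m + R + 2 * 𝓛.ρ + 10 * M.u, by omega, fun C => ?_⟩
  obtain ⟨C', hC'f, hC'⟩ := hD' (Bl M.L (C + 𝓛.ρ)) (hfin _)
  obtain ⟨m3, hm3, hjoin3⟩ := hD.base.join (max m (C + 𝓛.ρ))
  have hm3a : m ≤ m3 := le_trans (le_max_left _ _) hm3
  have hm3b : C + 𝓛.ρ ≤ m3 := le_trans (le_max_right _ _) hm3
  -- the vertex a
  obtain ⟨a, ha⟩ : ∃ a, a ∉ C' ∪ Bl M.L (m' + m3) := by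
    by_contra hcon
    push Not at hcon
    have := hD.base.inf
    exact Set.infinite_univ ((hC'f.union (hfin (m' + m3))).subset (fun x _ => hcon x))
  have ha1 : a ∉ C' := fun h => ha (Or.inl h)
  have ha2 : m' + m3 < M.L.l a := by
    by_contra hcon
    exact ha (Or.inr (not_lt.1 hcon))
  -- the words q
  have hq : ∀ v, ∃ p : List (α × Bool), m' < M.L.l v → (Avoids f (Bl M.L m) v p ∧
      v * value f p = a ∧ (m3 < M.L.l v → Avoids f (Bl M.L (C + 𝓛.ρ)) v p)) := by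
    intro v
    by_cases hv : m' < M.L.l v
    · by_cases hv3 : m3 < M.L.l v
      · obtain ⟨p, hp1, hp2⟩ := hjoin3 v a hv3 (by omega)
        refine ⟨p, fun _ => ⟨?_, hp2, fun _ => ?_⟩⟩
        · exact (hW0 G α f).2.2.2.2.2.2.1 (Bl M.L m) (Bl M.L (max m (C + 𝓛.ρ))) v p
            (fun x hx => le_trans (show M.L.l x ≤ m from hx) (le_max_left _ _)) hp1
        · exact (hW0 G α f).2.2.2.2.2.2.1 (Bl M.L (C + 𝓛.ρ)) (Bl M.L (max m (C + 𝓛.ρ))) v p
            (fun x hx => le_trans (show M.L.l x ≤ C + 𝓛.ρ from hx) (le_max_right _ _)) hp1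
      · obtain ⟨p, hp1, hp2⟩ := hjoin v a hv (by omega)
        exact ⟨p, fun _ => ⟨hp1, hp2, fun h => absurd h hv3⟩⟩
    · exact ⟨[], fun h => absurd h hv⟩
  choose q hq using hq
  have hcell : ∀ y : G × M.I, ∃ k g' : Ch M (ZG π),
      (M.deg y.2 = 1 ∧ m' + m + R + 2 * 𝓛.ρ + 10 * M.u < M.L.l y.1) →
      (∀ z, k z ≠ 0 → M.deg z.2 = 2 ∧ n1 < M.L.l z.1) ∧
      (∀ z, g' z ≠ 0 → M.deg z.2 = 1 ∧ C < M.L.l z.1) ∧
      opT M T M.E (Finsupp.single y 1) = opT M T M.D k +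
        PL_K0 f M 𝓛 T m' q (opT M T M.D (Finsupp.single y 1)) + g' := by
    intro y
    by_cases hy : M.deg y.2 = 1 ∧ m' + m + R + 2 * 𝓛.ρ + 10 * M.u < M.L.l y.1
    · obtain ⟨k, g', h1⟩ := PL_cell f M 𝓛 n T hL2 hD.good n1 C m'
        (m' + m + R + 2 * 𝓛.ρ + 10 * M.u) q hn1 (by omega) (by omega) (fun v h hv hh => by
          have hvh := PL_far M.L v h
          have hq1 := hq v (by omega)
          have hq2 := hq (v * h) (by omega)
          exact PL_br f Rel M 𝓛 n T hW0 hL5 hL6 hD0 hSHW hD n1 m C D' C' hn1 (by omega) hDm hC' a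
            v h ha1 (q v) (q (v * h)) hq1.1 hq1.2.1 hq2.1 hq2.2.1 hh (by omega)) y hy.1 hy.2
      exact ⟨k, g', fun _ => h1⟩
    · exact ⟨0, 0, fun h => absurd h hy⟩
  choose kf gf hkg using hcell
  classical
  refine ⟨m3 + C + 2 * 𝓛.ρ + 10 * M.u, PL_K0 f M 𝓛 T m' q,
    Finsupp.linearCombination (ZG π) (fun y : G × M.I =>
      if M.deg y.2 = 1 ∧ m' + m + R + 2 * 𝓛.ρ + 10 * M.u < M.L.l y.1 then kf y else 0),
    Finsupp.linearCombination (ZG π) (fun y : G × M.I =>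
      if M.deg y.2 = 1 ∧ m' + m + R + 2 * 𝓛.ρ + 10 * M.u < M.L.l y.1 then gf y else 0),
    by omega, ?_, ?_, ?_, ?_, ?_⟩
  · intro x y hxy
    rw [Finsupp.linearCombination_single, one_smul] at hxy
    by_cases hx : M.deg x.2 = 1 ∧ m' + m + R + 2 * 𝓛.ρ + 10 * M.u < M.L.l x.1
    · rw [if_pos hx] at hxy
      have h1 := (hkg x hx).1 y hxy
      exact ⟨hx.1, h1.1, h1.2⟩
    · rw [if_neg hx] at hxy
      exact absurd rfl hxy
  · intro x y hxy
    rw [Finsupp.linearCombination_single, one_smul] at hxy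
    by_cases hx : M.deg x.2 = 1 ∧ m' + m + R + 2 * 𝓛.ρ + 10 * M.u < M.L.l x.1
    · rw [if_pos hx] at hxy
      have h1 := (hkg x hx).2.1 y hxy
      exact ⟨hx.1, h1.1, h1.2⟩
    · rw [if_neg hx] at hxy
      exact absurd rfl hxy
  · intro x y hxy
    rw [PL_K0_single, one_smul] at hxy
    by_cases hx : M.deg x.2 = 0 ∧ m' < M.L.l x.1
    · rw [if_pos hx] at hxy
      refine ⟨hx.1, ?_⟩
      have h1 : sh M T x.1 (𝓛.ex x.2) y ≠ 0 ∨ chw f M 𝓛 T x.1 (q x.1) y ≠ 0 := by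
        by_contra hcon
        push Not at hcon
        apply hxy
        rw [Finsupp.add_apply, Finsupp.smul_apply, hcon.1, hcon.2, smul_zero, add_zero]
      rcases h1 with h1 | h1
      · exact (PL_ex M 𝓛 T hL2 x.1 x.2 y h1).1
      · exact ((hL5 G α f M R 𝓛 π T n hlen hD.good).2.2.1 m x.1 (q x.1) y (hq x.1 hx.2).1 h1).1
    · rw [if_neg hx] at hxy
      exact absurd rfl hxy
  · intro x y hx1 hxy
    rw [PL_K0_single, one_smul] at hxy
    by_cases hx : M.deg x.2 = 0 ∧ m' < M.L.l x.1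
    · rw [if_pos hx] at hxy
      have h1 : sh M T x.1 (𝓛.ex x.2) y ≠ 0 ∨ chw f M 𝓛 T x.1 (q x.1) y ≠ 0 := by
        by_contra hcon
        push Not at hcon
        apply hxy
        rw [Finsupp.add_apply, Finsupp.smul_apply, hcon.1, hcon.2, smul_zero, add_zero]
      rcases h1 with h1 | h1
      · have h2 := (PL_ex M 𝓛 T hL2 x.1 x.2 y h1).2
        omega
      · have h2 := ((hL5 G α f M R 𝓛 π T n hlen hD.good).2.2.1 (C + 𝓛.ρ) x.1 (q x.1) y
          ((hq x.1 hx.2).2.2 (by omega)) h1).2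
        omega
    · rw [if_neg hx] at hxy
      exact absurd rfl hxy
  · intro y hy1 hy2
    rw [Finsupp.linearCombination_single, Finsupp.linearCombination_single, one_smul, one_smul,
      if_pos ⟨hy1, hy2⟩, if_pos ⟨hy1, hy2⟩]
    exact (hkg y ⟨hy1, hy2⟩).2.2

end Pool.Agent.SFG
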