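import Pool.Agent.SFG.StR

/-!
# Semistable PD₃-groups: module PPG, ping-pong for right multiplications
-/

set_option autoImplicit false

namespace Pool.Agent.SFG

open Pool.Agent.CPD Pool.Agent.SPD

/-- A copy of the group, acted on by right multiplications. -/
private structure PPG_Cp (A : Type) where
  el : A

private instance PPG_act (A : Type) [Group A] : MulAction A (PPG_Cp A) where
  smul g x := ⟨x.el * g⁻¹⟩
  one_smul x := by
    show (⟨x.el * 1⁻¹⟩ : PPG_Cp A) = x
    rw [inv_one, mul_one]
  mul_smul g h x := by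
    show (⟨x.el * (g * h)⁻¹⟩ : PPG_Cp A) = ⟨x.el * h⁻¹ * g⁻¹⟩
    rw [mul_inv_rev, mul_assoc]

private theorem PPG_smul {A : Type} [Group A] (g : A) (x : PPG_Cp A) :
    (g • x).el = x.el * g⁻¹ := rfl

private theorem PPG_inf {A : Type} [Group A] (A1 : Subgroup A) (hT : TF A) (h : A1 ≠ ⊥) :
    Infinite A1 := by
  obtain ⟨a, ha, ha1⟩ : ∃ a ∈ A1, a ≠ 1 := by
    by_contra hcon
    push Not at hcon
    exact h ((Subgroup.eq_bot_iff_forall A1).2 hcon)
  have h1 : ¬ IsOfFinOrder a := by
    intro h2
    obtain ⟨n, hn, h3⟩ := isOfFinOrder_iff_pow_eq_one.1 h2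
    exact ha1 (hT a n hn h3)
  refine Infinite.of_injective (fun n : ℕ => (⟨a ^ n, pow_mem ha n⟩ : A1)) ?_
  intro m n hmn
  exact injective_pow_iff_not_isOfFinOrder.2 h1 (congrArg Subtype.val hmn)

theorem PPG : St_PPG := by
  intro A _ A1 K X Y hT hX hY hdis hsup h1 h2
  refine ⟨hsup, ?_⟩
  intro N _ φ ψ hφ hψ
  have hφ1 : φ 1 = 1 := by
    have h := hφ 1 (one_mem _) 1 (one_mem _)
    rw [mul_one] at h
    exact mul_eq_left.1 h.symm
  have hψ1 : ψ 1 = 1 := by
    have h := hψ 1 (one_mem _) 1 (one_mem _)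
    rw [mul_one] at h
    exact mul_eq_left.1 h.symm
  by_cases hA1 : A1 = ⊥
  · refine ⟨ψ, ?_, ?_, fun x _ => rfl⟩
    · have hK : K = ⊤ := by
        rw [hA1, bot_sup_eq] at hsup
        exact hsup
      intro a _ b _
      exact hψ a (by rw [hK]; trivial) b (by rw [hK]; trivial)
    · intro x hx
      rw [hA1, Subgroup.mem_bot] at hx
      rw [hx, hφ1, hψ1]
  · let H : Bool → Subgroup A := fun b => bif b then A1 else K
    let f : ∀ b, H b →* A := fun b => (H b).subtype
    let Z : Bool → Set (PPG_Cp A) := fun b => bif b then {x | x.el ∈ X} else {x | x.el ∈ Y}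
    have hinj : Function.Injective (Monoid.CoprodI.lift f) := by
      refine Monoid.CoprodI.lift_injective_of_ping_pong f (Or.inr ⟨true, ?_⟩) Z ?_ ?_ ?_
      · have hi : Infinite A1 := PPG_inf A1 hT hA1
        have h3 : (3 : Cardinal) ≤ Cardinal.mk A1 :=
          (Cardinal.natCast_le_aleph0 (n := 3)).trans (Cardinal.aleph0_le_mk _)
        exact h3
      · rintro (_ | _)
        · obtain ⟨y, hy⟩ := hY
          exact ⟨⟨y⟩, hy⟩
        · obtain ⟨x, hx⟩ := hX
          exact ⟨⟨x⟩, hx⟩
      · rintro (_ | _) (_ | _) hij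
        · exact absurd rfl hij
        · exact Set.disjoint_left.2 fun x hx hx' => Set.disjoint_left.1 hdis hx' hx
        · exact Set.disjoint_left.2 fun x hx hx' => Set.disjoint_left.1 hdis hx hx'
        · exact absurd rfl hij
      · rintro (_ | _) (_ | _) hij
        · exact absurd rfl hij
        · rintro ⟨k, hk⟩ hk1 _ ⟨x, hx, rfl⟩
          exact h2 k⁻¹ (inv_mem hk) (fun h => hk1 (Subtype.ext (inv_eq_one.1 h))) x.el hx
        · rintro ⟨k, hk⟩ hk1 _ ⟨x, hx, rfl⟩
          exact h1 k⁻¹ (inv_mem hk) (fun h => hk1 (Subtype.ext (inv_eq_one.1 h))) x.el hx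
        · exact absurd rfl hij
    have hsurj : Function.Surjective (Monoid.CoprodI.lift f) := by
      rw [← MonoidHom.range_eq_top, eq_top_iff, ← hsup, sup_le_iff]
      constructor
      · intro x hx
        exact ⟨Monoid.CoprodI.of (M := fun b => H b) (i := true) ⟨x, hx⟩,
          Monoid.CoprodI.lift_of (fi := f) (i := true) ⟨x, hx⟩⟩
      · intro x hx
        exact ⟨Monoid.CoprodI.of (M := fun b => H b) (i := false) ⟨x, hx⟩,
          Monoid.CoprodI.lift_of (fi := f) (i := false) ⟨x, hx⟩⟩
    let F := MulEquiv.ofBijective (Monoid.CoprodI.lift f) ⟨hinj, hsurj⟩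
    let g : ∀ b, H b →* N := fun b =>
      { toFun := fun x => bif b then φ x else ψ x
        map_one' := by
          cases b
          · exact hψ1
          · exact hφ1
        map_mul' := by
          cases b
          · intro x y
            exact hψ x x.2 y y.2
          · intro x y
            exact hφ x x.2 y y.2 }
    refine ⟨fun x => Monoid.CoprodI.lift g (F.symm x), ?_, ?_, ?_⟩
    · intro a _ b _
      show Monoid.CoprodI.lift g (F.symm (a * b)) = _
      rw [map_mul, map_mul]
    · intro x hx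
      have e : F.symm x = Monoid.CoprodI.of (M := fun b => H b) (i := true) ⟨x, hx⟩ := by
        rw [MulEquiv.symm_apply_eq]
        exact (Monoid.CoprodI.lift_of (fi := f) (i := true) ⟨x, hx⟩).symm
      show Monoid.CoprodI.lift g (F.symm x) = φ x
      rw [e, Monoid.CoprodI.lift_of]
      rfl
    · intro x hx
      have e : F.symm x = Monoid.CoprodI.of (M := fun b => H b) (i := false) ⟨x, hx⟩ := by
        rw [MulEquiv.symm_apply_eq]
        exact (Monoid.CoprodI.lift_of (fi := f) (i := false) ⟨x, hx⟩).symm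
      show Monoid.CoprodI.lift g (F.symm x) = ψ x
      rw [e, Monoid.CoprodI.lift_of]
      rfl

end Pool.Agent.SFG
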