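import Pool.Agent.SFG.StH

/-!
# PSH: one step, a locally finite cycle is homologous to one far away
-/

set_option autoImplicit false

namespace Pool.Agent.SFG

open Matrix Pool.Agent.CPD Pool.Agent.SPD

private theorem PSH_len {G : Type} [Group G] (L : Len G) (x y : G) (c : ℕ)
    (h : L.l (x⁻¹ * y) ≤ c) : L.l y ≤ L.l x + c ∧ L.l x ≤ L.l y + c := by
  constructor
  · have h1 := L.mul x (x⁻¹ * y)
    rw [mul_inv_cancel_left] at h1
    omega
  · have h1 := L.mul y (x⁻¹ * y)⁻¹
    have h2 : y * (x⁻¹ * y)⁻¹ = x := by group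
    rw [h2, L.inv] at h1
    omega

private theorem PSH_exp {X Λ W : Type} [Ring Λ] [AddCommGroup W] [Module Λ W]
    (F : (X →₀ Λ) →ₗ[Λ] W) (a : X →₀ Λ) (B : Finset X) (hB : ∀ x, a x ≠ 0 → x ∈ B) :
    F a = ∑ x ∈ B, a x • F (Finsupp.single x 1) := by
  have h1 : F a = ∑ x ∈ a.support, F (Finsupp.single x (a x)) := by
    conv_lhs => rw [← Finsupp.sum_single a]
    rw [Finsupp.sum, map_sum]
  rw [h1]
  have h2 : ∀ x, F (Finsupp.single x (a x)) = a x • F (Finsupp.single x 1) := by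
    intro x
    rw [← map_smul, Finsupp.smul_single, smul_eq_mul, mul_one]
  rw [Finset.sum_congr rfl fun x _ => h2 x]
  refine Finset.sum_subset (fun x hx => hB x (Finsupp.mem_support_iff.1 hx)) fun x _ hx => ?_
  rw [Finsupp.notMem_support_iff.1 hx, zero_smul]

private theorem PSH_expy {X Λ : Type} [Ring Λ]
    (F : (X →₀ Λ) →ₗ[Λ] (X →₀ Λ)) (a : X →₀ Λ) (B : Finset X) (hB : ∀ x, a x ≠ 0 → x ∈ B) (y : X) :
    F a y = ∑ x ∈ B, a x * F (Finsupp.single x 1) y :=
  PSH_exp ((Finsupp.lapply y : (X →₀ Λ) →ₗ[Λ] Λ) ∘ₗ F) a B hB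

private theorem PSH_supp {X Λ : Type} [Ring Λ]
    (F : (X →₀ Λ) →ₗ[Λ] (X →₀ Λ)) (a : X →₀ Λ) (y : X) (h : F a y ≠ 0) :
    ∃ x, a x ≠ 0 ∧ F (Finsupp.single x 1) y ≠ 0 := by
  rw [PSH_expy F a a.support (fun x hx => Finsupp.mem_support_iff.2 hx) y] at h
  obtain ⟨x, _, hx⟩ := Finset.exists_ne_zero_of_sum_ne_zero h
  exact ⟨x, left_ne_zero_of_mul hx, right_ne_zero_of_mul hx⟩

theorem PSH (hF0 : SPD.St_F0) (hF6 : SPD.St_F6) (hF9 : SPD.St_F9) (hPL : St_PL) : St_PSH := by
  classical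
  intro G α π _ _ f Rel M R 𝓛 n T dc hss n1 hn1
  obtain ⟨n2, hn12, hpl⟩ := hPL G α π f Rel M R 𝓛 n T dc hss n1 (by omega)
  refine ⟨n2, hn12, ?_⟩
  intro W _ _ z hz1 hz2 hz3 C
  obtain ⟨C1, K0, K1, Gm, hCC1, hK1, hGm, hK0, hK0C, hid⟩ := hpl C
  have hu : M.u = M.c + 1 := rfl
  have hgood : GoodV M (tw T) {g : G | n < M.L.l g} := by
    intro g hg h h' hh hh'
    have hk : 20 * M.u ≤ 𝓛.kap := by
      unfold Loc.kap
      omega
    have h2 := dc.good g hg h h' (hh.trans hk) (hh'.trans hk)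
    show uhom π (T g h) * uhom π (T (g * h) h') = uhom π (T g (h * h'))
    rw [← map_mul, h2]
  obtain ⟨⟨fD, fE, -, -, -, fDh, fEh⟩, s1, -, -⟩ := hF0 G M (ZG π) (tw T)
  obtain ⟨h6a, -, h6c⟩ := hF6 G M (ZG π) (tw T) {g : G | n < M.L.l g} hgood
  -- supports
  have hsup : ∀ A : Matrix M.I M.I (ZG G), Five M A → ∀ x y : G × M.I,
      opT M T A (Finsupp.single x 1) y ≠ 0 →
      M.L.l y.1 ≤ M.L.l x.1 + M.c ∧ M.L.l x.1 ≤ M.L.l y.1 + M.c :=
    fun A hA x y h => PSH_len M.L x.1 y.1 M.c (hA _ _ _ (s1 A x y h))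
  -- transposition
  have hTR : ∀ (A : Matrix M.I M.I (ZG G)) (ξ : Ch M (ZG π)) (x : G × M.I), Five M A →
      (∀ y, ξ y ≠ 0 → n < M.L.l y.1) →
      pair (opT M T A (Finsupp.single x 1)) (fun y => star (ξ y)) = star (opT M T Aᴴ ξ x) :=
    fun A ξ x hA h => hF9 G M (ZG π) (tw T) {g : G | n < M.L.l g} A ξ x hgood hA
      (fun y hy _ => h y hy)
  have hTC : ∀ (A : Matrix M.I M.I (ZG G)) (x y : G × M.I), Five M Aᴴ → n < M.L.l y.1 →
      opT M T Aᴴ (Finsupp.single x 1) y = star (opT M T A (Finsupp.single y 1) x) := by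
    intro A x y hA hy
    have h1 := hTR Aᴴ (Finsupp.single y 1) x hA (by
      intro w hw
      by_cases h : y = w
      · rw [← h]; exact hy
      · exact absurd (Finsupp.single_eq_of_ne (Ne.symm h)) hw)
    rw [conjTranspose_conjTranspose] at h1
    rw [← h1]
    unfold pair
    rw [Finsupp.sum]
    rw [Finset.sum_eq_single y]
    · beta_reduce
      rw [Finsupp.single_eq_same, star_one, mul_one]
    · intro w _ hw
      beta_reduce
      rw [Finsupp.single_eq_of_ne hw, star_zero, mul_zero]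
    · intro h
      rw [Finsupp.notMem_support_iff.1 h, zero_mul]
  obtain ⟨C2, hC2⟩ : ∃ C2, C2 = C1 + C + 10 * M.u := ⟨_, rfl⟩
  obtain ⟨S, hS⟩ : ∃ S : Finset (G × M.I), ∀ y, y ∈ S ↔ M.L.l y.1 ≤ C2 :=
    ⟨M.L.ball C2 ×ˢ Finset.univ, fun y => by
      rw [Finset.mem_product, Len.mem_ball]
      exact ⟨fun h => h.1, fun h => ⟨h, Finset.mem_univ _⟩⟩⟩
  obtain ⟨m, hm⟩ : ∃ m : G × M.I → W, ∀ y, m y = z (Finsupp.single y 1) := ⟨_, fun _ => rfl⟩
  have hm0 : ∀ y, m y ≠ 0 → M.deg y.2 = 1 ∧ n2 < M.L.l y.1 := by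
    intro y hy
    rw [hm] at hy
    exact hz1 y hy
  obtain ⟨v, hv⟩ : ∃ v : Ch M (ZG π) →ₗ[ZG π] W, ∀ w, v (Finsupp.single w 1) =
      ∑ y ∈ S, star (K1 (Finsupp.single y 1) w) • m y :=
    ⟨Finsupp.linearCombination (ZG π) (fun w => ∑ y ∈ S, star (K1 (Finsupp.single y 1) w) • m y),
      fun w => by rw [Finsupp.linearCombination_single, one_smul]⟩
  -- values of `v`
  have hv1 : ∀ w, v (Finsupp.single w 1) ≠ 0 → M.deg w.2 = 2 ∧ n1 < M.L.l w.1 := by
    intro w hw
    rw [hv] at hw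
    obtain ⟨y, _, hy⟩ := Finset.exists_ne_zero_of_sum_ne_zero hw
    have h1 : K1 (Finsupp.single y 1) w ≠ 0 := by
      intro h
      rw [h, star_zero, zero_smul] at hy
      exact hy rfl
    exact (hK1 y w h1).2
  have hv0 : ∀ a : Ch M (ZG π), (∀ w, a w ≠ 0 → M.L.l w.1 ≤ n1) → v a = 0 := by
    intro a ha
    rw [PSH_exp v a a.support (fun x hx => Finsupp.mem_support_iff.2 hx)]
    refine Finset.sum_eq_zero fun w hw => ?_
    by_cases h : v (Finsupp.single w 1) = 0
    · rw [h, smul_zero]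
    · have h1 := (hv1 w h).2
      have h2 := ha w (Finsupp.mem_support_iff.1 hw)
      omega
  have hvD : ∀ x, v (opT M T M.Dᴴ (Finsupp.single x 1)) =
      ∑ y ∈ S, star (opT M T M.D (K1 (Finsupp.single y 1)) x) • m y := by
    intro x
    rw [PSH_exp v _ (opT M T M.Dᴴ (Finsupp.single x 1)).support
      (fun x hx => Finsupp.mem_support_iff.2 hx)]
    have h1 : ∀ w ∈ (opT M T M.Dᴴ (Finsupp.single x 1)).support,
        opT M T M.Dᴴ (Finsupp.single x 1) w • v (Finsupp.single w 1) =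
        ∑ y ∈ S, (opT M T M.Dᴴ (Finsupp.single x 1) w * star (K1 (Finsupp.single y 1) w)) • m y := by
      intro w _
      rw [hv, Finset.smul_sum]
      exact Finset.sum_congr rfl fun y _ => by rw [smul_smul]
    rw [Finset.sum_congr rfl h1, Finset.sum_comm]
    refine Finset.sum_congr rfl fun y _ => ?_
    rw [← Finset.sum_smul]
    have h2 := hTR M.Dᴴ (K1 (Finsupp.single y 1)) x fDh (by
      intro w hw
      have := (hK1 y w hw).2.2
      omega)
    rw [conjTranspose_conjTranspose] at h2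
    rw [← h2]
    rfl
  -- the part of `z` near and far
  have hE : ∀ x, ∑ y ∈ S, opT M T M.Eᴴ (Finsupp.single x 1) y • m y =
      ∑ y ∈ S, star (opT M T M.D (K1 (Finsupp.single y 1)) x) • m y +
      ∑ y ∈ S, star (K0 (opT M T M.D (Finsupp.single y 1)) x) • m y +
      ∑ y ∈ S, star (Gm (Finsupp.single y 1) x) • m y := by
    intro x
    rw [← Finset.sum_add_distrib, ← Finset.sum_add_distrib]
    refine Finset.sum_congr rfl fun y _ => ?_
    by_cases h : m y = 0
    · rw [h]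
      simp only [smul_zero, add_zero]
    · obtain ⟨h1, h2⟩ := hm0 y h
      rw [hTC M.E x y fEh (by omega), hid y h1 h2, Finsupp.add_apply, Finsupp.add_apply, star_add,
        star_add, add_smul, add_smul]
  have hz : ∀ x, m x - v (opT M T M.Dᴴ (Finsupp.single x 1)) =
      ∑ y ∈ (opT M T M.Eᴴ (Finsupp.single x 1)).support \ S,
        opT M T M.Eᴴ (Finsupp.single x 1) y • m y +
      ∑ y ∈ S, star (K0 (opT M T M.D (Finsupp.single y 1)) x) • m y +
      ∑ y ∈ S, star (Gm (Finsupp.single y 1) x) • m y := by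
    intro x
    have h1 : m x = ∑ y ∈ S, opT M T M.Eᴴ (Finsupp.single x 1) y • m y +
        ∑ y ∈ (opT M T M.Eᴴ (Finsupp.single x 1)).support \ S,
          opT M T M.Eᴴ (Finsupp.single x 1) y • m y := by
      rw [← Finset.sum_union Finset.disjoint_sdiff, hm x, ← hz3 x,
        PSH_exp z _ (S ∪ ((opT M T M.Eᴴ (Finsupp.single x 1)).support \ S)) (by
          intro y hy
          by_cases h : y ∈ S
          · exact Finset.mem_union_left _ h
          · exact Finset.mem_union_right _ (Finset.mem_sdiff.2 ⟨Finsupp.mem_support_iff.2 hy, h⟩))]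
      exact Finset.sum_congr rfl fun y _ => by rw [hm]
    rw [h1, hE, hvD]
    abel
  -- the second part
  have hA2 : ∀ x', ∑ y ∈ S, star (K0 (opT M T M.D (Finsupp.single y 1)) x') • m y ≠ 0 →
      M.deg x'.2 = 1 ∧ C < M.L.l x'.1 := by
    intro x' hx'
    obtain ⟨B2, hB2⟩ : ∃ B : Finset (G × M.I), ∀ y, y ∈ B ↔ M.L.l y.1 ≤ C2 + M.c :=
      ⟨M.L.ball (C2 + M.c) ×ˢ Finset.univ, fun y => by
        rw [Finset.mem_product, Len.mem_ball]
        exact ⟨fun h => h.1, fun h => ⟨h, Finset.mem_univ _⟩⟩⟩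
    have h1 : ∀ y ∈ S, star (K0 (opT M T M.D (Finsupp.single y 1)) x') • m y =
        ∑ x ∈ B2, star (K0 (Finsupp.single x 1) x') •
          star (opT M T M.D (Finsupp.single y 1) x) • m y := by
      intro y hy
      rw [PSH_expy K0 _ B2 (by
        intro x hx
        have h2 := (hsup M.D fD y x hx).1
        have h3 := (hS y).1 hy
        exact (hB2 x).2 (by omega)) x', star_sum, Finset.sum_smul]
      exact Finset.sum_congr rfl fun x _ => by rw [star_mul, smul_smul]
    rw [Finset.sum_congr rfl h1, Finset.sum_comm] at hx'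
    obtain ⟨x, _, hx⟩ := Finset.exists_ne_zero_of_sum_ne_zero hx'
    rw [← Finset.smul_sum] at hx
    have h2 : K0 (Finsupp.single x 1) x' ≠ 0 := by
      intro h
      rw [h, star_zero, zero_smul] at hx
      exact hx rfl
    have h3 : ¬ M.L.l x.1 + M.c ≤ C2 := by
      intro h
      apply hx
      have h4 : ∑ y ∈ S, star (opT M T M.D (Finsupp.single y 1) x) • m y = 0 := by
        rw [← hz2 x, PSH_exp z _ S (by
          intro y hy
          have h5 := (hsup M.Dᴴ fDh x y hy).1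
          exact (hS y).2 (by omega))]
        refine Finset.sum_congr rfl fun y _ => ?_
        rw [← hm]
        by_cases h6 : m y = 0
        · rw [h6, smul_zero, smul_zero]
        · rw [hTC M.D x y fDh (by have := (hm0 y h6).2; omega)]
      rw [h4, smul_zero]
    exact ⟨(hK0 x x' h2).2, hK0C x x' (by omega) h2⟩
  have hfar : ∀ x, m x - v (opT M T M.Dᴴ (Finsupp.single x 1)) ≠ 0 →
      M.deg x.2 = 1 ∧ C < M.L.l x.1 := by
    intro x hx
    rw [hz] at hx
    by_cases h2 : ∑ y ∈ S, star (K0 (opT M T M.D (Finsupp.single y 1)) x) • m y = 0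
    · by_cases h3 : ∑ y ∈ S, star (Gm (Finsupp.single y 1) x) • m y = 0
      · rw [h2, h3, add_zero, add_zero] at hx
        obtain ⟨y, hy, hne⟩ := Finset.exists_ne_zero_of_sum_ne_zero hx
        rw [Finset.mem_sdiff, Finsupp.mem_support_iff, hS] at hy
        have h4 : m y ≠ 0 := by
          intro h
          rw [h, smul_zero] at hne
          exact hne rfl
        have h5 := (hm0 y h4).1
        have h6 := (hsup M.Eᴴ fEh x y hy.1).1
        have h7 : M.E y.2 x.2 ≠ 0 := by
          intro h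
          have h8 := s1 M.Eᴴ x y hy.1
          rw [conjTranspose_apply, h, star_zero] at h8
          exact h8 rfl
        have h9 := M.resP.E_deg _ _ h7
        exact ⟨by omega, by omega⟩
      · obtain ⟨y, _, hne⟩ := Finset.exists_ne_zero_of_sum_ne_zero h3
        have h4 : Gm (Finsupp.single y 1) x ≠ 0 := by
          intro h
          rw [h, star_zero, zero_smul] at hne
          exact hne rfl
        exact (hGm y x h4).2
    · exact hA2 x h2
  have hval : ∀ x, (z - v ∘ₗ opT M T M.Dᴴ) (Finsupp.single x 1) =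
      m x - v (opT M T M.Dᴴ (Finsupp.single x 1)) := by
    intro x
    rw [LinearMap.sub_apply, LinearMap.comp_apply, hm]
  refine ⟨v, hv1, fun y hy => hfar y (by rw [← hval]; exact hy), ?_, ?_⟩
  · intro x
    rw [LinearMap.sub_apply, LinearMap.comp_apply, hz2, zero_sub, neg_eq_zero]
    by_cases hx : n < M.L.l x.1
    · have h3 := h6a M.Dᴴ M.Dᴴ (Finsupp.single x 1) fDh fDh (by
        intro w hw
        by_cases h : x = w
        · rw [← h]; exact hx
        · exact absurd (Finsupp.single_eq_of_ne (Ne.symm h)) hw)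
      rw [← conjTranspose_mul, M.resP.DD, conjTranspose_zero] at h3
      rw [h3, h6c, map_zero]
    · refine hv0 _ fun w hw => ?_
      obtain ⟨w', h1, h2⟩ := PSH_supp _ _ _ hw
      have h3 := (hsup M.Dᴴ fDh x w' h1).1
      have h4 := (hsup M.Dᴴ fDh w' w h2).1
      omega
  · intro y
    rw [LinearMap.sub_apply, LinearMap.sub_apply, LinearMap.comp_apply, LinearMap.comp_apply, hz3]
    congr 1
    by_cases hx : n < M.L.l y.1
    · have h3 := h6a M.Eᴴ M.Dᴴ (Finsupp.single y 1) fEh fDh (by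
        intro w hw
        by_cases h : y = w
        · rw [← h]; exact hx
        · exact absurd (Finsupp.single_eq_of_ne (Ne.symm h)) hw)
      rw [← conjTranspose_mul, M.resP.DE] at h3
      rw [h3]
    · rw [hv0 _ ?_, hv0 _ ?_]
      · intro w hw
        have h3 := (hsup M.Dᴴ fDh y w hw).1
        omega
      · intro w hw
        obtain ⟨w', h1, h2⟩ := PSH_supp _ _ _ hw
        have h3 := (hsup M.Eᴴ fEh y w' h1).1
        have h4 := (hsup M.Dᴴ fDh w' w h2).1
        omega

end Pool.Agent.SFG
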