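import Pool.Agent.SFG.StT

/-!
# [RAD] Torsion in the quotients of the stable images dies one level deeper
-/

set_option autoImplicit false

namespace Pool.Agent.SFG

open Matrix Pool.Agent.CPD Pool.Agent.SPD

section RADsec

variable {G : Type} [Group G]

private theorem RAD_bound (L : Len G) {S : Set G} (hS : S.Finite) :
    ∃ n, ∀ v, n < L.l v → v ∉ S := by
  obtain ⟨n, hn⟩ := (hS.image L.l).bddAbove
  refine ⟨n, fun v hv hvS => ?_⟩
  have h1 : L.l v ≤ n := hn ⟨v, hvS, rfl⟩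
  omega

private theorem RAD_good {π : Type} [Group π] (L : Len G) (T : G → G → π) (hT : IsALS T)
    (K : ℕ) : ∃ n, ∀ v, n < L.l v → GoodT L T K v := by
  have h1 : ∀ᶠ v in Filter.cofinite, ∀ h ∈ L.ball K, ∀ h' ∈ L.ball K,
      T v h * T (v * h) h' = T v (h * h') := by
    rw [Filter.eventually_all_finset]
    intro h _
    rw [Filter.eventually_all_finset]
    intro h' _
    exact hT h h'
  rw [Filter.eventually_cofinite] at h1
  obtain ⟨n, hn⟩ := RAD_bound L h1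
  refine ⟨n, fun v hv h h' hh hh' => ?_⟩
  have h2 := hn v hv
  by_contra h3
  apply h2
  intro h4
  exact h3 (h4 h ((L.mem_ball K h).2 hh) h' ((L.mem_ball K h').2 hh'))

private theorem RAD_len {α : Type} {Rel : Set (List (α × Bool))} (h : Rel.Finite) :
    ∃ n : ℕ, ∀ r ∈ Rel, r.length ≤ n := by
  obtain ⟨n, hn⟩ := (h.image List.length).bddAbove
  exact ⟨n, fun r hr => hn ⟨r, hr, rfl⟩⟩

private theorem RAD_sub (L : Len G) {n m : ℕ} (h : n ≤ m) : Bl L n ⊆ Bl L m := by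
  intro z hz
  have hz' : L.l z ≤ n := hz
  show L.l z ≤ m
  exact le_trans hz' h

private theorem RAD_pow {α : Type} (f : α → G) (hW0 : SPD.St_W0) (K : Set G) (v : G)
    (a : List (α × Bool)) (ha : value f a = 1) (hA : Avoids f K v a) (k : ℕ) :
    value f (List.replicate k a).flatten = 1 ∧ Avoids f K v (List.replicate k a).flatten ∧
      ∀ (Γ : Type) [Group Γ] (τ : G → (α × Bool) → Γ),
        hol f τ v (List.replicate k a).flatten = hol f τ v a ^ k := by
  obtain ⟨-, h2, h3, -, h5, -, -, h8, -⟩ := hW0 G α f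
  induction k with
  | zero =>
    refine ⟨rfl, ?_, fun Γ _ τ => ?_⟩
    · intro n hn
      have hv := (h8 K v a hA).1
      have hn0 : n = 0 := by simpa using hn
      subst hn0
      simpa [value] using hv
    · simp [hol]
  | succ k ih =>
    obtain ⟨i1, i2, i3⟩ := ih
    rw [List.replicate_succ, List.flatten_cons]
    refine ⟨?_, ?_, fun Γ _ τ => ?_⟩
    · rw [(h2 _ _).1, ha, i1, one_mul]
    · rw [h3, ha, mul_one]
      exact ⟨hA, i2⟩
    · rw [h5, ha, mul_one, i3 Γ τ, pow_succ']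

end RADsec

/-- [RAD] Torsion in the quotients of the stable images dies one level deeper. -/
theorem RAD (hW0 : SPD.St_W0) (hW1 : SPD.St_W1) (hD0 : CPD.St_D0) (hD1 : CPD.St_D1)
    (hL1 : SPD.St_L1) (hL5 : SPD.St_L5) (hL6 : SPD.St_L6) (hT1 : SPD.St_T1) (hT2 : St_T2v)
    (hT3 : St_T3v) (hCM : St_CMM) : St_RAD := by
  intro G α π _ _ f Rel M N n0 T hB hSS hL
  obtain ⟨w1, w2, w3, w4, w5, -, w7, -, w9⟩ := hW0 G α f
  obtain ⟨-, -, -, -, -, d6⟩ := hD0 G α f
  obtain ⟨-, c2⟩ := hD1 G α f Rel hB.rel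
  have hinf : Infinite G := hB.inf
  obtain ⟨R0, hR0⟩ := hL1 G M
  obtain ⟨Rb, hRb⟩ := RAD_len hB.Rfin
  obtain ⟨R1, hR1⟩ : ∃ R1, R1 = max R0 Rb := ⟨_, rfl⟩
  obtain ⟨𝓛⟩ := hR0 R1 (by rw [hR1]; exact le_max_left _ _)
  obtain ⟨n1, hn1⟩ := RAD_good M.L T hL.als 𝓛.kap
  obtain ⟨n, hn⟩ : ∃ n, n = max n0 n1 := ⟨_, rfl⟩
  have hn0 : n0 ≤ n := by rw [hn]; exact le_max_left _ _
  have hgood : ∀ v, n < M.L.l v → GoodT M.L T 𝓛.kap v := by
    intro v hv
    refine hn1 v (lt_of_le_of_lt ?_ hv)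
    rw [hn]
    exact le_max_right _ _
  have hlen : ∀ r ∈ Rel, r.length ≤ R1 := by
    intro r hr
    refine (hRb r hr).trans ?_
    rw [hR1]
    exact le_max_right _ _
  have hD : Dv f Rel M 𝓛 N n0 n T := ⟨hB, hlen, hL, hn0, hgood⟩
  obtain ⟨n2, hn2, hT2'⟩ := hT2 G α π f Rel M R1 𝓛 N n0 n T hD hSS
  refine ⟨n2 + 𝓛.ρ + n, ?_⟩
  intro N' n0' π' _ T' φ m1 hN' hL' hφ R hR hRφ x r hr hxr
  obtain ⟨s, hs1, hs⟩ := hR.tor _ hxr
  obtain ⟨q, hq⟩ : ∃ q, q = r * s := ⟨_, rfl⟩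
  have hq1 : 1 ≤ q := by
    rw [hq]
    exact Nat.mul_pos hr hs1
  have hxq : x ^ q ∈ ⁅R, R⁆ := by
    rw [hq, pow_mul]
    exact hs
  -- a vertex far out
  obtain ⟨m, hm⟩ : ∃ m, m = max N' (max n0' m1) := ⟨_, rfl⟩
  have hmN : N' ≤ m := by rw [hm]; exact le_max_left _ _
  have hmn : n0' ≤ m := by rw [hm]; exact le_trans (le_max_left _ _) (le_max_right _ _)
  have hm1 : m1 ≤ m := by rw [hm]; exact le_trans (le_max_right _ _) (le_max_right _ _)
  have hnN : n ≤ N' := by omega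
  obtain ⟨k', hk'⟩ := hL'.surj m
  obtain ⟨v, hv⟩ := Infinite.exists_notMem_finset (M.L.ball (max k' m))
  rw [Len.mem_ball, not_le] at hv
  have hvk : k' < M.L.l v := lt_of_le_of_lt (le_max_left _ _) hv
  have hvm : m < M.L.l v := lt_of_le_of_lt (le_max_right _ _) hv
  obtain ⟨g, hg⟩ := hφ v (lt_of_le_of_lt hm1 hvm)
  have sub1 : Bl M.L m1 ⊆ Bl M.L m := RAD_sub M.L hm1
  have sub2 : Bl M.L n0' ⊆ Bl M.L m := RAD_sub M.L hmn
  have sub3 : Bl M.L N' ⊆ Bl M.L m := RAD_sub M.L hmN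
  have sub4 : Bl M.L n0 ⊆ Bl M.L n := RAD_sub M.L hn0
  have sub5 : Bl M.L n ⊆ Bl M.L N' := RAD_sub M.L hnN
  obtain ⟨a, ha1, ha2, ha3⟩ := hk' v hvk x
  -- the commutator
  obtain ⟨c, hc1, hc2, hc3, hc4, e, he, hce⟩ := hCM G α π π' f Rel M R1 𝓛 N n0 n N' n0' m T T' R v
    hD hL' (hnN.trans hmN) hmn (fun y _ => hk' v hvk y)
    (fun w hw1 hw2 hw3 => by
      have h1 : φ (hol f (lab f T') v w) = 1 := hRφ hw3
      have h2 := hg w hw1 (w7 _ _ v w sub1 hw2)
      rw [h1] at h2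
      have h3 : hol f (lab f T) v w = g⁻¹ * (g * hol f (lab f T) v w * g⁻¹) * g := by group
      rw [h3, ← h2]
      group) (x ^ q) hxq
  -- the homotopy
  obtain ⟨p1, p2, p3⟩ := RAD_pow f hW0 (Bl M.L m) v a ha1 ha2 q
  obtain ⟨b, hb⟩ : ∃ b, b = (List.replicate q a).flatten := ⟨_, rfl⟩
  rw [← hb] at p1 p2 p3
  have hwc1 : value f (winv c) = 1 := by rw [(w1 c).1, hc1, inv_one]
  have hwc2 : Avoids f (Bl M.L m) v (winv c) := by
    have h := (w4 (Bl M.L m) v c).1 hc2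
    rwa [hc1, mul_one] at h
  have hW1' : value f (b ++ winv c) = 1 := by rw [(w2 _ _).1, p1, hwc1, one_mul]
  have hW2' : Avoids f (Bl M.L m) v (b ++ winv c) := by
    rw [w3, p1, mul_one]
    exact ⟨p2, hwc2⟩
  have hhol : hol f (lab f T') v (b ++ winv c) = 1 := by
    obtain ⟨-, -, -, q4⟩ := hW1 G α f Rel (Bl M.L n0') hB.rel
    have h1 := q4 π' (lab f T') hL'.lab v c (w7 _ _ v c sub2 hc2)
    rw [hc1, mul_one] at h1
    rw [w5, p1, mul_one, h1, hc3, p3, ha3]
    group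
  have e1 : Relation.EqvGen (Move f Rel (Bl M.L N') v) (b ++ winv c) [] :=
    hL'.faith v _ hW1' (w7 _ _ v _ sub2 hW2') hhol
  have hN'c : Avoids f (Bl M.L N') v c := w7 _ _ v _ sub3 hc2
  have hN'wc : Avoids f (Bl M.L N') v (winv c) := w7 _ _ v _ sub3 hwc2
  have hN'b : Avoids f (Bl M.L N') v b := w7 _ _ v _ sub3 p2
  have e2 : Relation.EqvGen (Move f Rel (Bl M.L N') v) (b ++ winv c ++ c) b := by
    have h := d6 Rel (Bl M.L N') v b (winv c) [] (by rwa [List.append_nil])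
      (by rw [p1, mul_one]; exact hN'wc)
    have hww : ((winv c).map (fun a => (a.1, !a.2))).reverse = c := (w1 c).2.1
    rw [hww, List.append_nil, List.append_nil] at h
    exact h
  have e3 : Relation.EqvGen (Move f Rel (Bl M.L N') v) (b ++ winv c ++ c) c := by
    have h := c2 (Bl M.L N') v [] (b ++ winv c) [] c ?_ ?_
    · simpa using h
    · rw [List.nil_append, w3, hW1', mul_one]
      exact ⟨w7 _ _ v _ sub3 hW2', hN'c⟩
    · have hv1 : v * value f ([] : List (α × Bool)) = v := by simp [value]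
      rw [hv1]
      exact e1
  have e4 : Relation.EqvGen (Move f Rel (Bl M.L N') v) b c :=
    Relation.EqvGen.trans _ _ _ (Relation.EqvGen.symm _ _ e2) e3
  -- the subgroup
  obtain ⟨X, hX⟩ : ∃ X, X = hol f (lab f T) v a := ⟨_, rfl⟩
  obtain ⟨A, hA⟩ : ∃ A : Subgroup π, A = Subgroup.closure {X} := ⟨_, rfl⟩
  have hXA : X ∈ A := by
    rw [hA]
    exact Subgroup.subset_closure rfl
  -- homology
  have hlab : IsLabel f Rel (Bl M.L n) (lab f T) :=
    ⟨fun g c d h1 h2 => hL.lab.edge g c d (fun h => h1 (sub4 h)) (fun h => h2 (sub4 h)),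
      fun r hr g h => hL.lab.cell r hr g (w7 _ _ g r sub4 h)⟩
  obtain ⟨e', he', hch⟩ := hL6 G α f Rel M R1 𝓛 π T n N' hB.len
    (fun r hr => ⟨hlen r hr, hB.rel r hr⟩) hlab hgood hnN v _ _ e4
  obtain ⟨happ, -, hsup, -⟩ := hL5 G α f M R1 𝓛 π T n hB.len hgood
  obtain ⟨hadd, -, -, hact, -⟩ := hT1 G π M A 0
  have hz : JC A 0 (0 : Ch M (ZG π)) := by
    have h1 := hact 1 A.one_mem 0
    rw [smul_zero, sub_zero] at h1
    exact h1
  have hF : ∀ j : ℕ, JC A 0 (chw f M 𝓛 T v (List.replicate j a).flatten -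
      (j : ℤ) • chw f M 𝓛 T v a) := by
    intro j
    induction j with
    | zero =>
      have h1 : chw f M 𝓛 T v (List.replicate 0 a).flatten - ((0 : ℕ) : ℤ) • chw f M 𝓛 T v a =
          0 := by
        rw [Nat.cast_zero, zero_smul, sub_zero]
        rfl
      rw [h1]
      exact hz
    | succ j ih =>
      have h0 : (List.replicate (j + 1) a).flatten = a ++ (List.replicate j a).flatten := by
        rw [List.replicate_succ, List.flatten_cons]
      rw [h0, happ, ha1, mul_one, ← hX]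
      have h1 := (hadd _ _ (hact X hXA (chw f M 𝓛 T v (List.replicate j a).flatten)) ih).1
      have h2 : chw f M 𝓛 T v a + gr X • chw f M 𝓛 T v (List.replicate j a).flatten -
          ((j + 1 : ℕ) : ℤ) • chw f M 𝓛 T v a =
          gr X • chw f M 𝓛 T v (List.replicate j a).flatten -
            chw f M 𝓛 T v (List.replicate j a).flatten +
          (chw f M 𝓛 T v (List.replicate j a).flatten - (j : ℤ) • chw f M 𝓛 T v a) := by
        push_cast
        rw [add_smul, one_smul]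
        abel
      rw [h2]
      exact h1
  have hFq := hF q
  rw [← hb] at hFq
  have hJ : JC A 0 ((q : ℤ) • chw f M 𝓛 T v a - opT M T M.D (e + e')) := by
    have h1 := (hadd _ _ hz hFq).2
    have h2 : (q : ℤ) • chw f M 𝓛 T v a - opT M T M.D (e + e') =
        0 - (chw f M 𝓛 T v b - (q : ℤ) • chw f M 𝓛 T v a) := by
      rw [map_add, ← hch, ← hce]
      abel
    rw [h2]
    exact h1
  obtain ⟨e'', he'', hJ'⟩ := hT2' A q (chw f M 𝓛 T v a) (e + e') hq1
    (fun y hy => (hsup m v a y ha2 hy).1)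
    (fun y hy => by
      by_cases h1 : e y = 0
      · have h2 : e' y ≠ 0 := by
          intro h2
          apply hy
          rw [Finsupp.add_apply, h1, h2, add_zero]
        obtain ⟨h3, h4⟩ := he' y h2
        exact ⟨h3, by omega⟩
      · obtain ⟨h3, h4⟩ := he y h1
        exact ⟨h3, by omega⟩) hJ
  have hcom := hT3 G α π f Rel M R1 𝓛 N n0 n T hD A v a e'' ha1
    (w7 _ _ v a (sub5.trans sub3) ha2) (by rw [← hX]; exact hXA) he'' hJ'
  rw [← hX] at hcom
  have hX1 : X = 1 := by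
    have hle : ⁅A, A⁆ ≤ (⊥ : Subgroup π) := by
      rw [Subgroup.commutator_le]
      intro y hy z hz
      rw [hA, Subgroup.mem_closure_singleton] at hy hz
      obtain ⟨i, rfl⟩ := hy
      obtain ⟨j, rfl⟩ := hz
      rw [Subgroup.mem_bot, commutatorElement_eq_one_iff_mul_comm]
      exact (Commute.zpow_zpow_self X i j).eq
    exact Subgroup.mem_bot.1 (hle hcom)
  have hfin := hg a ha1 (w7 _ _ v a sub1 ha2)
  rw [ha3, ← hX, hX1, mul_one, mul_inv_cancel] at hfin
  exact hfin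

end Pool.Agent.SFG
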