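import Pool.Agent.SFG.StT

/-!
# RMX : the largest normal subgroup with torsion abelianization in a kernel
-/

set_option autoImplicit false

namespace Pool.Agent.SFG

private theorem RMX_iff {P : Type} [Group P] (H : Subgroup P) (y : H) (n : ℕ) :
    (y : P) ^ n ∈ ⁅H, H⁆ ↔ (Abelianization.of y) ^ n = 1 := by
  rw [← map_pow, ← MonoidHom.mem_ker, Abelianization.ker_of, ← Subgroup.map_subtype_commutator,
    ← Subgroup.coe_pow]
  constructor
  · rintro ⟨z, hz, e⟩
    have : z = y ^ n := Subtype.ext e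
    rw [← this]
    exact hz
  · intro h
    exact ⟨y ^ n, h, rfl⟩

/-- the elements of `H` which are torsion in the abelianization -/
private def RMX_TS {P : Type} [Group P] (H : Subgroup P) : Subgroup P where
  carrier := {y | y ∈ H ∧ ∃ s : ℕ, 1 ≤ s ∧ y ^ s ∈ ⁅H, H⁆}
  one_mem' := ⟨H.one_mem, 1, le_refl _, by rw [one_pow]; exact Subgroup.one_mem _⟩
  mul_mem' := by
    rintro y z ⟨hy, s, hs, hys⟩ ⟨hz, t, ht, hzt⟩
    refine ⟨H.mul_mem hy hz, s * t, Nat.mul_pos hs ht, ?_⟩
    have h1 := (RMX_iff H ⟨y, hy⟩ s).1 hys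
    have h2 := (RMX_iff H ⟨z, hz⟩ t).1 hzt
    have h3 := (RMX_iff H (⟨y, hy⟩ * ⟨z, hz⟩) (s * t)).2 (by
      rw [map_mul, mul_pow, pow_mul, h1, one_pow, one_mul, mul_comm s t, pow_mul, h2, one_pow])
    exact h3
  inv_mem' := by
    rintro y ⟨hy, s, hs, hys⟩
    refine ⟨H.inv_mem hy, s, hs, ?_⟩
    rw [inv_pow]
    exact Subgroup.inv_mem _ hys

private theorem RMX_mem {P : Type} [Group P] (H : Subgroup P) (y : P) :
    y ∈ RMX_TS H ↔ y ∈ H ∧ ∃ s : ℕ, 1 ≤ s ∧ y ^ s ∈ ⁅H, H⁆ := Iff.rfl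

private theorem RMX_normal {P : Type} [Group P] (H : Subgroup P) (hH : H.Normal) :
    (RMX_TS H).Normal := by
  constructor
  rintro y ⟨hy, s, hs, hys⟩ g
  refine ⟨hH.conj_mem y hy g, s, hs, ?_⟩
  rw [conj_pow]
  have h := Subgroup.commutator_normal H H
  exact h.conj_mem _ hys g

private theorem RMX_NT {P : Type} [Group P] (H : Subgroup P) (hH : H.Normal) (h : H ≤ RMX_TS H) :
    NT H := ⟨hH, fun y hy => (h hy).2⟩

private theorem RMX_le {P : Type} [Group P] (R H : Subgroup P) (hR : NT R) (h : R ≤ H) :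
    R ≤ RMX_TS H := fun y hy => by
  obtain ⟨s, hs, hys⟩ := hR.tor y hy
  exact ⟨h hy, s, hs, Subgroup.commutator_mono h h hys⟩

theorem RMX : St_RMX := by
  intro π π' _ _ φ hyp
  let S : Set (Subgroup π') := {R' | NT R' ∧ R' ≤ φ.ker}
  have hker : sSup S ≤ φ.ker := sSup_le fun R' h => h.2
  have hnor : (sSup S).Normal := by
    constructor
    intro y hy g
    have h : sSup S ≤ (sSup S).comap (MulAut.conj g).toMonoidHom := by
      apply sSup_le
      intro R' hR' x hx
      rw [Subgroup.mem_comap]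
      exact (le_sSup hR' : R' ≤ sSup S) (hR'.1.nor.conj_mem x hx g)
    exact h hy
  have hNT : NT (sSup S) :=
    RMX_NT _ hnor (sSup_le fun R' hR' => RMX_le R' _ hR'.1 (le_sSup hR'))
  refine ⟨sSup S, hNT, hker, ?_⟩
  intro x r hr hx
  have hx1 : φ x = 1 := hyp _ hNT hker x r hr hx
  have hn : (sSup S ⊔ Subgroup.normalClosure {x}).Normal := Subgroup.sup_normal _ _
  have hxm : x ∈ sSup S ⊔ Subgroup.normalClosure {x} :=
    (le_sup_right : Subgroup.normalClosure {x} ≤ _)
      (Subgroup.subset_normalClosure (Set.mem_singleton x))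
  have hmem : (sSup S ⊔ Subgroup.normalClosure {x}) ∈ S := by
    refine ⟨RMX_NT _ hn (sup_le (RMX_le _ _ hNT le_sup_left) ?_), sup_le hker ?_⟩
    · have := RMX_normal _ hn
      apply Subgroup.normalClosure_le_normal
      rw [Set.singleton_subset_iff]
      obtain ⟨s, hs, hys⟩ := hNT.tor _ hx
      refine ⟨hxm, r * s, Nat.mul_pos hr hs, ?_⟩
      rw [pow_mul]
      exact Subgroup.commutator_mono le_sup_left le_sup_left hys
    · apply Subgroup.normalClosure_le_normal
      rw [Set.singleton_subset_iff]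
      exact MonoidHom.mem_ker.2 hx1
  exact (le_sSup hmem : _ ≤ sSup S) hxm

end Pool.Agent.SFG
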