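import Pool.Agent.SFG.StR

/-!
# Module RS : the splitting (assembly)
-/

set_option autoImplicit false

namespace Pool.Agent.SFG

open Pool.Agent.CPD Pool.Agent.SPD

private theorem RS_inj {A : Type} [Group A] (hTF : TF A) {t : A} (ht : t ≠ 1) (m n : ℤ)
    (h : t ^ m = t ^ n) : m = n := by
  by_contra hmn
  have key : ∀ k : ℕ, 1 ≤ k → t ^ k ≠ 1 := fun k hk h1 => ht (hTF t k hk h1)
  have h1 : t ^ (m - n) = 1 := by rw [zpow_sub, h, mul_inv_cancel]
  rcases lt_or_gt_of_ne hmn with h2 | h2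
  · obtain ⟨k, hk⟩ := Int.eq_ofNat_of_zero_le (by omega : 0 ≤ n - m)
    refine key k (by omega) ?_
    have h3 : t ^ (n - m) = 1 := by
      rw [← neg_sub, zpow_neg, h1, inv_one]
    rw [hk, zpow_natCast] at h3
    exact h3
  · obtain ⟨k, hk⟩ := Int.eq_ofNat_of_zero_le (by omega : 0 ≤ m - n)
    refine key k (by omega) ?_
    rw [hk, zpow_natCast] at h1
    exact h1

/-- The splitting of a torsion-free group along an almost invariant set. -/
theorem RS (hTX : St_TX) (hVT : St_VT) (hPP : St_PPG) (h2a : St_C2a) (h2b : St_C2b)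
    (h1a : St_C1a) (h1b : St_C1b) : St_RS := by
  intro A _ L hTF hFG hE
  obtain ⟨𝓔, hTS, hAI⟩ := hTX A L hTF hFG hE
  obtain ⟨-, -, -, hvt, hvv, hv1, -, -, -, -, hmin, hfin⟩ := hVT A 𝓔 hTS
  obtain ⟨hVx, -⟩ := hVT A 𝓔 hTS
  -- a minimal member at the base vertex
  obtain ⟨F0, hF0, h1F0⟩ : ∃ F0 ∈ 𝓔, (1 : A) ∈ F0 := by
    obtain ⟨F, hF⟩ := hTS.ne
    by_cases h : (1 : A) ∈ F
    · exact ⟨F, hF, h⟩
    · exact ⟨Fᶜ, hTS.compl F hF, h⟩
  obtain ⟨y, hy⟩ := (hTS.inf _ (hTS.compl F0 hF0)).nonempty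
  have hne : pt 𝓔 1 ≠ pt 𝓔 y := by
    intro h
    have h1 : F0 ∈ pt 𝓔 1 := ⟨hF0, h1F0⟩
    rw [h] at h1
    exact hy h1.2
  obtain ⟨E, hEm, -, -⟩ := hmin (pt 𝓔 1) (pt 𝓔 y) (hVx 1) (hVx y) hne (hfin 1 y)
  have hE𝓔 : E ∈ 𝓔 := hEm.1.1
  have h1E : (1 : A) ∈ E := hEm.1.2
  -- the stabilizer of the base vertex
  let A1 : Subgroup A :=
    { carrier := {a | pt 𝓔 a = pt 𝓔 1}
      one_mem' := rfl
      mul_mem' := by
        intro a b ha hb
        show pt 𝓔 (a * b) = pt 𝓔 1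
        have ha' : pt 𝓔 a = pt 𝓔 1 := ha
        have hb' : pt 𝓔 b = pt 𝓔 1 := hb
        rw [← hvt a b, ha', hvt, one_mul, hb']
      inv_mem' := by
        intro a ha
        show pt 𝓔 a⁻¹ = pt 𝓔 1
        have ha' : pt 𝓔 a = pt 𝓔 1 := ha
        have h1 := hvt 1 a⁻¹
        rw [one_mul] at h1
        rw [← h1, ← ha', hvt, mul_inv_cancel, ha'] }
  have hA1 : ∀ a, a ∈ A1 ↔ pt 𝓔 a = pt 𝓔 1 := fun a => Iff.rfl
  have hLA : L ≤ A1 := by
    intro l hl
    rw [hA1]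
    ext F
    constructor
    · rintro ⟨h1, h2⟩
      refine ⟨h1, ?_⟩
      have h3 := (hAI F h1).inv l hl 1 trivial
      rw [mul_one] at h3
      exact h3.1 h2
    · rintro ⟨h1, h2⟩
      refine ⟨h1, ?_⟩
      have h3 := (hAI F h1).inv l hl 1 trivial
      rw [mul_one] at h3
      exact h3.2 h2
  have hEc : (Eᶜ).Infinite := hTS.inf _ (hTS.compl E hE𝓔)
  have hA1T : A1 ≠ ⊤ := by
    intro h
    obtain ⟨g, hg⟩ := hEc.nonempty
    have h1 : g ∈ A1 := by rw [h]; trivial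
    rw [hA1] at h1
    have h2 : E ∈ pt 𝓔 g := by
      rw [h1]
      exact hEm.1
    exact hg h2.2
  by_cases hcase : ∃ t, pt 𝓔 t = flip (pt 𝓔 1) E
  · -- the two ends of the edge are in the same orbit
    obtain ⟨t, ht⟩ := hcase
    obtain ⟨ha, hb, hc⟩ := h1a A 𝓔 E t hTS hEm ht
    have hsup := h1b A 𝓔 E A1 t hTS hEm ht hA1
    have ht1 : t ≠ 1 := by
      rintro rfl
      have h1 : E ∈ flip (pt 𝓔 1) E := by
        rw [← ht]
        exact hEm.1
      rcases h1 with h1 | h1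
      · exact h1.2 rfl
      · rw [h1] at h1E
        exact h1E (h1 ▸ hEm.1.2)
    have hK : Subgroup.zpowers t ≠ ⊥ := by
      intro h
      apply ht1
      have h1 : t ∈ Subgroup.zpowers t := Subgroup.mem_zpowers t
      rw [h] at h1
      exact Subgroup.mem_bot.1 h1
    have hS : Spl A1 (Subgroup.zpowers t) ⊤ := by
      refine hPP A A1 (Subgroup.zpowers t) (Eᶜ ∪ rt E t⁻¹)ᶜ (Eᶜ ∪ rt E t⁻¹) hTF ⟨1, hc⟩
        (hEc.nonempty.mono Set.subset_union_left) disjoint_compl_left hsup ?_ ?_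
      · intro a haA ha1 x hx
        exact hb a haA ha1 x hx
      · intro k hk hk1 x hx
        obtain ⟨n, rfl⟩ := Subgroup.mem_zpowers_iff.1 hk
        have hn : n ≠ 0 := by
          rintro rfl
          exact hk1 (zpow_zero t)
        rcases lt_or_gt_of_ne hn with h2 | h2
        · obtain ⟨m, hm⟩ := Int.eq_ofNat_of_zero_le (by omega : 0 ≤ -n)
          have h3 : t ^ n = (t⁻¹) ^ m := by
            rw [inv_pow, ← zpow_natCast, ← hm, zpow_neg, inv_inv]
          rw [h3]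
          exact (ha m (by omega) x hx).2
        · obtain ⟨m, hm⟩ := Int.eq_ofNat_of_zero_le (by omega : 0 ≤ n)
          have h3 : t ^ n = t ^ m := by
            rw [hm, zpow_natCast]
          rw [h3]
          exact (ha m (by omega) x hx).1
    refine ⟨A1, Subgroup.zpowers t, hLA, hA1T, hK, hS, Or.inr ?_⟩
    classical
    let ψ : A → Multiplicative ℤ := fun x =>
      if h : ∃ n : ℤ, t ^ n = x then Multiplicative.ofAdd h.choose else 1
    have hψ : ∀ n : ℤ, ψ (t ^ n) = Multiplicative.ofAdd n := by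
      intro n
      have h : ∃ k : ℤ, t ^ k = t ^ n := ⟨n, rfl⟩
      show (if h : ∃ k : ℤ, t ^ k = t ^ n then Multiplicative.ofAdd h.choose else 1) = _
      rw [dif_pos h]
      have h1 := RS_inj hTF ht1 _ _ h.choose_spec
      rw [h1]
    obtain ⟨χ, hχ1, -, hχ3⟩ := hS.ext (Multiplicative ℤ) (fun _ => 1) ψ
      (fun _ _ _ _ => (one_mul 1).symm) (by
        intro a ha b hb
        obtain ⟨m, rfl⟩ := Subgroup.mem_zpowers_iff.1 ha
        obtain ⟨n, rfl⟩ := Subgroup.mem_zpowers_iff.1 hb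
        rw [← zpow_add, hψ, hψ, hψ]
        rfl)
    refine ⟨MonoidHom.mk' χ (fun a b => hχ1 a trivial b trivial), ?_⟩
    intro h
    have h1 : χ t = 1 := congrArg (fun f : A →* Multiplicative ℤ => f t) h
    rw [hχ3 t (Subgroup.mem_zpowers t)] at h1
    have h2 := hψ 1
    rw [zpow_one, h1] at h2
    have h3 : (0 : ℤ) = 1 := congrArg Multiplicative.toAdd h2
    omega
  · -- the two ends of the edge are in different orbits
    push Not at hcase
    let K : Subgroup A :=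
      { carrier := {k | vt (flip (pt 𝓔 1) E) k = flip (pt 𝓔 1) E}
        one_mem' := hv1 _
        mul_mem' := by
          intro a b ha hb
          show vt (flip (pt 𝓔 1) E) (a * b) = flip (pt 𝓔 1) E
          have ha' : vt (flip (pt 𝓔 1) E) a = flip (pt 𝓔 1) E := ha
          have hb' : vt (flip (pt 𝓔 1) E) b = flip (pt 𝓔 1) E := hb
          rw [← hvv, ha', hb']
        inv_mem' := by
          intro a ha
          show vt (flip (pt 𝓔 1) E) a⁻¹ = flip (pt 𝓔 1) E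
          have ha' : vt (flip (pt 𝓔 1) E) a = flip (pt 𝓔 1) E := ha
          have h1 := hvv (flip (pt 𝓔 1) E) a a⁻¹
          rw [ha', mul_inv_cancel, hv1] at h1
          exact h1 }
    have hK : ∀ k, k ∈ K ↔ vt (flip (pt 𝓔 1) E) k = flip (pt 𝓔 1) E := fun k => Iff.rfl
    obtain ⟨ha, hb⟩ := h2a A 𝓔 E hTS hEm
    have hsup := h2b A 𝓔 E A1 K hTS hEm hcase hA1 hK
    have hS : Spl A1 K ⊤ := by
      refine hPP A A1 K E Eᶜ hTF ⟨1, h1E⟩ hEc.nonempty disjoint_compl_right hsup ?_ ?_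
      · intro a haA ha1 x hx
        exact ha a haA ha1 x hx
      · intro k hk hk1 x hx
        exact hb k hk hk1 x hx
    refine ⟨A1, K, hLA, hA1T, ?_, hS, Or.inl ?_⟩
    · intro h
      rw [h, sup_bot_eq] at hsup
      exact hA1T hsup
    · intro h
      rw [h, bot_sup_eq] at hsup
      have h1 : E ⊆ {1} := by
        intro x hx
        by_contra hx1
        have hx1' : x⁻¹ ≠ 1 := fun h2 => hx1 (inv_eq_one.1 h2)
        have h2 : x⁻¹ ∈ K := by rw [hsup]; trivial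
        rw [hK] at h2
        have h3 : rt Eᶜ x⁻¹ ∈ flip (pt 𝓔 1) E := by
          rw [← h2]
          show rt (rt Eᶜ x⁻¹) (x⁻¹)⁻¹ ∈ flip (pt 𝓔 1) E
          have h4 : rt (rt Eᶜ x⁻¹) (x⁻¹)⁻¹ = Eᶜ := by
            ext z
            show z * ((x⁻¹)⁻¹)⁻¹ * (x⁻¹)⁻¹ ∈ Eᶜ ↔ z ∈ Eᶜ
            rw [inv_mul_cancel_right]
          rw [h4]
          exact Or.inr rfl
        rcases h3 with h3 | h3
        · have h4 : (1 : A) * (x⁻¹)⁻¹ ∈ Eᶜ := h3.1.2
          rw [one_mul, inv_inv] at h4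
          exact h4 hx
        · exact hx1' (hTS.free _ (hTS.compl E hE𝓔) _ h3)
      exact hTS.inf E hE𝓔 ((Set.finite_singleton 1).subset h1)

end Pool.Agent.SFG
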