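import Pool.Agent.SFG.StG

/-!
# A free factor without infinite coinfinite almost invariant subsets
-/

set_option autoImplicit false

namespace Pool.Agent.SFG

open Pool.Agent.CPD Pool.Agent.SPD

theorem RSA (hRSa : St_RSa) (hITR : St_ITR) (hSB : St_SB) : St_RSA := by
  intro P _ K hTF hFG hne hNoZ
  have step : ∀ A' : Subgroup P, A'.FG → (A' ≠ ⊥ ∧ NoZ A') → One A' ∨
      ∃ A'' K' : Subgroup P, Spl A'' K' A' ∧ K' ≠ ⊥ ∧ (A'' ≠ ⊥ ∧ NoZ A'') := by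
    rintro A' hfg ⟨hne', hnz⟩
    by_cases hOne : One A'
    · exact Or.inl hOne
    right
    unfold One at hOne
    push Not at hOne
    obtain ⟨E, hE, h1, h2⟩ := hOne
    obtain ⟨A1, K1, -, -, -, hK1, hs, hA1⟩ := hRSa P A' ⊥ E hTF hfg bot_le hE h1 h2
    refine ⟨A1, K1, hs, hK1, ?_, ((hSB P).2.2.2.2.2.1 A1 K1 A' hs hnz).1⟩
    rcases hA1 with h | ⟨χ, hχ, a, ha, hne1⟩
    · exact h
    · exact absurd (hnz χ hχ a ha) hne1
  obtain ⟨A', K1, hs, hA'fg, -, hQ, hOne⟩ :=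
    hITR P (fun A' => A' ≠ ⊥ ∧ NoZ A') One hTF step K hFG ⟨hne, hNoZ⟩
  exact ⟨A', K1, hs, hA'fg, hQ.1, hOne⟩

end Pool.Agent.SFG
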