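import Pool.Agent.SFG.StG

/-!
# Closed subgroups are free factors
-/

set_option autoImplicit false

namespace Pool.Agent.SFG

open Pool.Agent.CPD Pool.Agent.SPD

private theorem RSF_infinite {P : Type} [Group P] (hTF : TF P) {L A : Subgroup P} (hL : L ≠ ⊥)
    (S : Set P) (hS : S.Nonempty) (hSA : ∀ x ∈ S, x ∈ A)
    (hinv : ∀ l ∈ L, ∀ x ∈ A, x ∈ S → l * x ∈ S) : S.Infinite := by
  obtain ⟨l, hl, hl1⟩ := (Subgroup.ne_bot_iff_exists_ne_one).mp hL |>.elim fun l hl =>
    (⟨l.1, l.2, fun h => hl (Subtype.ext h)⟩ : ∃ l : P, l ∈ L ∧ l ≠ 1)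
  obtain ⟨x, hx⟩ := hS
  have hinj : Function.Injective fun n : ℕ => l ^ n * x := by
    have key : ∀ m n : ℕ, m < n → l ^ m * x ≠ l ^ n * x := by
      intro m n hmn h
      have h1 : l ^ m = l ^ n := mul_right_cancel h
      have h2 : l ^ (n - m) = 1 := by
        have h3 : l ^ n = l ^ m * l ^ (n - m) := by
          rw [← pow_add]
          congr 1
          omega
        rw [h3] at h1
        exact (mul_eq_left.mp h1.symm)
      exact hl1 (hTF l (n - m) (by omega) h2)
    intro m n hmn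
    rcases lt_trichotomy m n with h | h | h
    · exact absurd hmn (key m n h)
    · exact h
    · exact absurd hmn.symm (key n m h)
  refine Set.infinite_of_injective_forall_mem hinj fun n => ?_
  have hpow : l ^ n ∈ L := L.pow_mem hl n
  exact hinv _ hpow x (hSA x hx) hx

private theorem RSF_cl {P : Type} [Group P] {L A' A1 : Subgroup P} (hcl : Cl A' L)
    (hA1 : A1 ≤ A') : Cl A1 L := by
  intro a ha haL
  obtain ⟨E, hE, x, hx, hne⟩ := hcl a (hA1 ha) haL
  refine ⟨{y | y * x ∈ E}, ⟨?_, ?_⟩, 1, A1.one_mem, ?_⟩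
  · intro b hb
    have hfin := hE.fin b (hA1 hb)
    have hinj : Set.InjOn (fun y : P => y * x)
        ((fun y : P => y * x) ⁻¹' {z | z ∈ A' ∧ ¬ (b * z ∈ E ↔ z ∈ E)}) :=
      fun y _ z _ h => mul_right_cancel h
    refine (hfin.preimage hinj).subset ?_
    rintro y ⟨hy, hyn⟩
    refine ⟨A'.mul_mem (hA1 hy) hx, ?_⟩
    intro h
    apply hyn
    show b * y * x ∈ E ↔ y * x ∈ E
    rw [mul_assoc]
    exact h
  · intro l hl y hy
    have h := hE.inv l hl (y * x) (A'.mul_mem (hA1 hy) hx)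
    show l * y * x ∈ E ↔ y * x ∈ E
    rw [mul_assoc]
    exact h
  · intro h
    apply hne
    have h2 : a * 1 * x ∈ E ↔ 1 * x ∈ E := h
    rw [mul_one, one_mul] at h2
    exact h2

theorem RSF (hRSa : St_RSa) (hITR : St_ITR) : St_RSF := by
  intro P _ A L hTF hA hL hLA hcl
  obtain ⟨A', K, hspl, _, hKf, _, hT⟩ := hITR P (fun A' => L ≤ A' ∧ Cl A' L) (fun A' => A' = L) hTF
    (by
      intro A' hA'f hQ
      obtain ⟨hLA', hcl'⟩ := hQ
      by_cases hT : A' = L
      · exact Or.inl hT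
      right
      have hex : ∃ a ∈ A', a ∉ L := by
        by_contra hc
        push Not at hc
        exact hT (le_antisymm (fun a ha => hc a ha) hLA')
      obtain ⟨a, ha, haL⟩ := hex
      obtain ⟨E, hE, x, hx, hne⟩ := hcl' a ha haL
      have hax : a * x ∈ A' := A'.mul_mem ha hx
      have hn1 : {x | x ∈ A' ∧ x ∈ E}.Nonempty := by
        by_cases hxE : x ∈ E
        · exact ⟨x, hx, hxE⟩
        · by_cases haE : a * x ∈ E
          · exact ⟨a * x, hax, haE⟩
          · exact absurd (iff_of_false haE hxE) hne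
      have hn2 : {x | x ∈ A' ∧ x ∉ E}.Nonempty := by
        by_cases hxE : x ∈ E
        · by_cases haE : a * x ∈ E
          · exact absurd (iff_of_true haE hxE) hne
          · exact ⟨a * x, hax, haE⟩
        · exact ⟨x, hx, hxE⟩
      have hi1 := RSF_infinite hTF hL _ hn1 (fun y hy => hy.1) (fun l hl y hy hyS =>
        ⟨A'.mul_mem (hLA' hl) hy, (hE.inv l hl y hy).mpr hyS.2⟩)
      have hi2 := RSF_infinite hTF hL _ hn2 (fun y hy => hy.1) (fun l hl y hy hyS =>
        ⟨A'.mul_mem (hLA' hl) hy, fun h => hyS.2 ((hE.inv l hl y hy).mp h)⟩)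
      obtain ⟨A1, K, hLA1, hA1A, _, hK, hspl, _⟩ := hRSa P A' L E hTF hA'f hLA' hE hi1 hi2
      exact ⟨A1, K, hspl, hK, hLA1, RSF_cl hcl' hA1A⟩)
    A hA ⟨hLA, hcl⟩
  have hT' : A' = L := hT
  subst hT'
  exact ⟨K, hspl, by assumption, hKf⟩

end Pool.Agent.SFG
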