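import Pool.Agent.SFG.StR

/-!
# RSa : the splitting, for a subgroup of an ambient group
-/

set_option autoImplicit false

namespace Pool.Agent.SFG

open Pool.Agent.CPD Pool.Agent.SPD

private theorem RSa_ne_bot {P : Type} [Group P] {A : Subgroup P} (K : Subgroup A) (h : K ≠ ⊥) :
    K.map A.subtype ≠ ⊥ := by
  intro h1
  apply h
  rw [Subgroup.eq_bot_iff_forall]
  intro k hk
  have h2 : (k : P) ∈ K.map A.subtype := ⟨k, hk, rfl⟩
  rw [h1, Subgroup.mem_bot] at h2
  exact Subtype.ext h2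

open Classical in
/-- extension of a map by `1` -/
private noncomputable def RSa_e {P N : Type} [Group P] [Group N] (A : Subgroup P) (f : A → N)
    (x : P) : N := if h : x ∈ A then f ⟨x, h⟩ else 1

private theorem RSa_e_mem {P N : Type} [Group P] [Group N] (A : Subgroup P) (f : A → N) (x : P)
    (h : x ∈ A) : RSa_e A f x = f ⟨x, h⟩ := by
  unfold RSa_e
  rw [dif_pos h]

private theorem RSa_e_mul {P N : Type} [Group P] [Group N] (A : Subgroup P) (f : A → N)
    (hf : ∀ a b, f (a * b) = f a * f b) : MulOn A (RSa_e A f) := by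
  intro a ha b hb
  rw [RSa_e_mem A f a ha, RSa_e_mem A f b hb, RSa_e_mem A f _ (mul_mem ha hb), ← hf]
  rfl

theorem RSa : St_RS → St_RSa := by
  intro hRS P _ A L E hTF hFG hLA hAI h1 h2
  have hTF' : TF A := by
    intro x n hn hx
    apply Subtype.ext
    refine hTF x n hn ?_
    have h3 := congrArg (Subtype.val : A → P) hx
    exact h3
  have hFG' : Group.FG A := (Group.fg_iff_subgroup_fg A).2 hFG
  have hex : ∃ E' : Set A, AI ⊤ (L.subgroupOf A) E' ∧ E'.Infinite ∧ E'ᶜ.Infinite := by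
    refine ⟨{x | (x : P) ∈ E}, ⟨?_, ?_⟩, ?_, ?_⟩
    · intro a _
      refine Set.Finite.subset ((hAI.fin a a.2).preimage
        (f := (Subtype.val : A → P)) Subtype.val_injective.injOn) ?_
      rintro x ⟨-, hx⟩
      exact ⟨x.2, hx⟩
    · intro l hl x _
      exact hAI.inv l hl x x.2
    · intro hfin
      refine h1 ((hfin.image (Subtype.val : A → P)).subset ?_)
      rintro x ⟨hx, hxE⟩
      exact ⟨⟨x, hx⟩, hxE, rfl⟩
    · intro hfin
      refine h2 ((hfin.image (Subtype.val : A → P)).subset ?_)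
      rintro x ⟨hx, hxE⟩
      exact ⟨⟨x, hx⟩, hxE, rfl⟩
  obtain ⟨A1, K, hL, hA1, hK, hS, hor⟩ := hRS A (L.subgroupOf A) hTF' hFG' hex
  refine ⟨A1.map A.subtype, K.map A.subtype, ?_, Subgroup.map_subtype_le A1, ?_,
    RSa_ne_bot K hK, ⟨?_, ?_⟩, ?_⟩
  · intro l hl
    exact ⟨⟨l, hLA hl⟩, hL hl, rfl⟩
  · intro h3
    apply hA1
    rw [Subgroup.eq_top_iff']
    intro x
    have h4 : (x : P) ∈ A1.map A.subtype := by
      rw [h3]
      exact x.2
    obtain ⟨y, hy, hyx⟩ := h4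
    have h5 : y = x := Subtype.ext hyx
    rw [← h5]
    exact hy
  · rw [← Subgroup.map_sup, hS.sup, ← MonoidHom.range_eq_map, Subgroup.range_subtype]
  · intro N _ φ ψ hφ hψ
    obtain ⟨χ, hχ, hχφ, hχψ⟩ := hS.ext N (fun x => φ x) (fun x => ψ x)
      (fun a ha b hb => hφ a ⟨a, ha, rfl⟩ b ⟨b, hb, rfl⟩)
      (fun a ha b hb => hψ a ⟨a, ha, rfl⟩ b ⟨b, hb, rfl⟩)
    refine ⟨RSa_e A χ, RSa_e_mul A χ fun a b => hχ a (Subgroup.mem_top a) b (Subgroup.mem_top b),
      ?_, ?_⟩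
    · rintro _ ⟨x, hx, rfl⟩
      exact (RSa_e_mem A χ x x.2).trans (hχφ x hx)
    · rintro _ ⟨x, hx, rfl⟩
      exact (RSa_e_mem A χ x x.2).trans (hχψ x hx)
  · rcases hor with h | ⟨χ, hχ⟩
    · exact Or.inl (RSa_ne_bot A1 h)
    · right
      obtain ⟨a, ha⟩ : ∃ a, χ a ≠ 1 := by
        by_contra h
        push Not at h
        exact hχ (MonoidHom.ext h)
      refine ⟨RSa_e A χ, RSa_e_mul A χ fun a b => map_mul χ a b, a, a.2, ?_⟩
      rw [RSa_e_mem A χ _ a.2]
      exact ha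

end Pool.Agent.SFG
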