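import Pool.Agent.SFG.StT

/-!
# SFG S1v: cocycles with compact support; semistability (helper15, after SPD/S1 by helper73)
-/

set_option autoImplicit false

namespace Pool.Agent.SFG

open Matrix Pool.Agent.CPD Pool.Agent.SPD

private theorem S1v_gr_mul {π : Type} [Group π] (g h : π) : gr g * gr h = gr (g * h) := by
  unfold gr
  rw [MonoidAlgebra.single_mul_single, mul_one]

private theorem S1v_gr_one {π : Type} [Group π] : gr (1 : π) = 1 := rfl

private theorem S1v_gr_inj {π W : Type} [Group π] [AddCommGroup W] [Module (ZG π) W] (g : π)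
    (x : W) (h : gr g • x = 0) : x = 0 := by
  have h1 : gr g⁻¹ • (gr g • x) = x := by
    rw [smul_smul, S1v_gr_mul, inv_mul_cancel, S1v_gr_one, one_smul]
  rw [← h1, h, smul_zero]

private theorem S1v_value_cons {G α : Type} [Group G] (f : α → G) (a : α × Bool)
    (w : List (α × Bool)) : value f (a :: w) = letter f a * value f w := by
  simp [value]

private theorem S1v_value_nil {G α : Type} [Group G] (f : α → G) :
    value f ([] : List (α × Bool)) = 1 := by
  simp [value]

private theorem S1v_av_cons {G α : Type} [Group G] (f : α → G) (K : Set G) (g : G)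
    (a : α × Bool) (w : List (α × Bool)) :
    Avoids f K g (a :: w) ↔ g ∉ K ∧ Avoids f K (g * letter f a) w := by
  unfold Avoids
  constructor
  · intro h
    constructor
    · have := h 0 (Nat.zero_le _)
      rw [List.take_zero, S1v_value_nil, mul_one] at this
      exact this
    · intro n hn
      have := h (n + 1) (by rw [List.length_cons]; omega)
      rw [List.take_succ_cons, S1v_value_cons, ← mul_assoc] at this
      exact this
  · rintro ⟨h1, h2⟩ n hn
    rcases n with _ | n
    · rw [List.take_zero, S1v_value_nil, mul_one]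
      exact h1
    · rw [List.take_succ_cons, S1v_value_cons, ← mul_assoc]
      exact h2 n (by rw [List.length_cons] at hn; omega)

private theorem S1v_len {G α : Type} [Group G] (f : α → G) (L : Len G)
    (hL : ∀ a : α × Bool, L.l (letter f a) ≤ 1) (w : List (α × Bool)) :
    L.l (value f w) ≤ w.length := by
  induction w with
  | nil => rw [S1v_value_nil, L.one]; exact Nat.zero_le _
  | cons a w ih =>
    rw [S1v_value_cons, List.length_cons]
    have h1 := L.mul (letter f a) (value f w)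
    have h2 := hL a
    omega

private theorem S1v_sub {G : Type} [Group G] (L : Len G) (v x : G) :
    L.l v ≤ L.l (v * x) + L.l x := by
  have h1 := L.mul (v * x) x⁻¹
  rw [mul_inv_cancel_right, L.inv] at h1
  exact h1

private theorem S1v_short {G α : Type} [Group G] (f : α → G) (L : Len G)
    (hL : ∀ a : α × Bool, L.l (letter f a) ≤ 1) (m : ℕ) (v : G) (w : List (α × Bool))
    (h : m + w.length < L.l v) : Avoids f (Bl L m) v w := by
  intro n hn hmem
  have h1 := S1v_sub L v (value f (w.take n))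
  have h2 := S1v_len f L hL (w.take n)
  have h3 : (w.take n).length ≤ w.length := by
    rw [List.length_take]; exact min_le_right _ _
  have h4 : L.l (v * value f (w.take n)) ≤ m := hmem
  omega

private theorem S1v_ball {G : Type} [Group G] (L : Len G) (S : Set G) (hS : S.Finite) :
    ∃ k, S ⊆ Bl L k := by
  obtain ⟨k, hk⟩ := (hS.image L.l).bddAbove
  exact ⟨k, fun x hx => hk (Set.mem_image_of_mem _ hx)⟩

private theorem S1v_far {G : Type} [Group G] [Infinite G] (L : Len G) (B : ℕ) :
    ∃ u : G, B < L.l u := by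
  by_contra h
  push Not at h
  have h1 : (Set.univ : Set G).Finite := (L.fin B).subset fun x _ => h x
  exact Set.infinite_univ h1

private theorem S1v_zero {G α π W : Type} [Group G] [Group π] [AddCommGroup W]
    [Module (ZG π) W] (f : α → G) (T : G → G → π) (β : G → (α × Bool) → W) (K : Set G)
    (h : ∀ v a, v ∉ K → β v a = 0) (w : List (α × Bool)) :
    ∀ v, Avoids f K v w → Iw f T β v w = 0 := by
  induction w with
  | nil => intro v _; rfl
  | cons a w ih =>
    intro v hv
    rw [S1v_av_cons] at hv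
    show β v a + gr (T v (letter f a)) • Iw f T β (v * letter f a) w = 0
    rw [h v a hv.1, ih _ hv.2, smul_zero, add_zero]

/-- the integral along a word followed by its inverse -/
private theorem S1v_back {G α π W : Type} [Group G] [Group π] [AddCommGroup W]
    [Module (ZG π) W] (hW0 : St_W0) (hW1 : St_W1) (f : α → G) (R : Set (List (α × Bool)))
    (K : Set G) (hR : ∀ r ∈ R, value f r = 1) (T : G → G → π) (β : G → (α × Bool) → W)
    (hl : IsLabel f R K (SPD.lab f T)) (hc : WCoc f R K T β) (w : List (α × Bool)) :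
    ∀ g, Avoids f K g w →
      Iw f T β g w + gr (hol f (SPD.lab f T) g w) • Iw f T β (g * value f w) (winv w) = 0 := by
  obtain ⟨hinv, happ, hav, hawinv, hhol, hIw, hmono, hends, hmono2⟩ := hW0 G α f
  obtain ⟨-, -, -, hwi⟩ := hW1 G α f R K hR
  induction w with
  | nil =>
    intro g _
    show (0 : W) + gr (hol f (SPD.lab f T) g []) • (0 : W) = 0
    rw [smul_zero, add_zero]
  | cons a w ih =>
    intro g hg
    have hg' := hg
    rw [S1v_av_cons] at hg'
    have h1 : winv (a :: w) = winv w ++ [(a.1, !a.2)] := by simp [winv]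
    have h2 : g * value f (a :: w) = g * letter f a * value f w := by
      rw [S1v_value_cons, mul_assoc]
    have h3 : g * letter f a * value f w * value f (winv w) = g * letter f a := by
      rw [(hinv w).1, mul_inv_cancel_right]
    have h4 : hol f (SPD.lab f T) g (a :: w) =
        T g (letter f a) * hol f (SPD.lab f T) (g * letter f a) w := rfl
    have h5 := hwi π (SPD.lab f T) hl (g * letter f a) w hg'.2
    have h6 := ih (g * letter f a) hg'.2
    have h7 : Iw f T β (g * letter f a) [(a.1, !a.2)] = β (g * letter f a) (a.1, !a.2) := by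
      show β (g * letter f a) (a.1, !a.2) + gr _ • (0 : W) = _
      rw [smul_zero, add_zero]
    have h8 := hc.edge g a.1 a.2 hg'.1 (hends K _ _ hg'.2).1
    show β g a + gr (T g (letter f a)) • Iw f T β (g * letter f a) w + _ = 0
    rw [h1, h2, hIw π W T β _ (winv w) [(a.1, !a.2)], h3, h5, h7, h4, ← S1v_gr_mul,
      smul_add, mul_smul, mul_smul, smul_smul (gr (hol f (SPD.lab f T) (g * letter f a) w)),
      S1v_gr_mul, mul_inv_cancel, S1v_gr_one, one_smul]
    have h9 : gr (T g (letter f a)) • Iw f T β (g * letter f a) w +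
        gr (T g (letter f a)) • gr (hol f (SPD.lab f T) (g * letter f a) w) •
          Iw f T β (g * letter f a * value f w) (winv w) = 0 := by
      rw [← smul_add, h6, smul_zero]
    have h10 : β g a + gr (T g (letter f a)) • β (g * letter f a) (a.1, !a.2) = 0 := h8
    calc β g a + gr (T g (letter f a)) • Iw f T β (g * letter f a) w +
        (gr (T g (letter f a)) • gr (hol f (SPD.lab f T) (g * letter f a) w) •
          Iw f T β (g * letter f a * value f w) (winv w) +
          gr (T g (letter f a)) • β (g * letter f a) (a.1, !a.2)) =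
        (gr (T g (letter f a)) • Iw f T β (g * letter f a) w +
          gr (T g (letter f a)) • gr (hol f (SPD.lab f T) (g * letter f a) w) •
            Iw f T β (g * letter f a * value f w) (winv w)) +
        (β g a + gr (T g (letter f a)) • β (g * letter f a) (a.1, !a.2)) := by abel
      _ = 0 := by rw [h9, h10, add_zero]

/-- the holonomy of a short word -/
private theorem S1v_hol {G α π : Type} [Group G] [Group π] (f : α → G) (L : Len G)
    (hL : ∀ a : α × Bool, L.l (letter f a) ≤ 1) (T : G → G → π) (κ n : ℕ)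
    (hT : ∀ v, n < L.l v → GoodT L T κ v) (w : List (α × Bool)) :
    ∀ v, w.length ≤ κ → 1 ≤ κ → Avoids f (Bl L n) v w →
      hol f (SPD.lab f T) v w = T v (value f w) := by
  induction w with
  | nil =>
    intro v _ _ hv
    have h1 : v ∉ Bl L n := by
      have := hv 0 (Nat.zero_le _)
      rw [List.take_zero, S1v_value_nil, mul_one] at this
      exact this
    have h2 : n < L.l v := by
      by_contra h
      exact h1 (show L.l v ≤ n by omega)
    have h3 := hT v h2 1 1 (by rw [L.one]; omega) (by rw [L.one]; omega)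
    rw [mul_one, mul_one] at h3
    rw [S1v_value_nil]
    show (1 : π) = T v 1
    exact (mul_eq_left.1 h3).symm
  | cons a w ih =>
    intro v hw hκ hv
    rw [S1v_av_cons] at hv
    rw [List.length_cons] at hw
    have h2 : n < L.l v := by
      by_contra h
      exact hv.1 (show L.l v ≤ n by omega)
    have h3 := S1v_len f L hL w
    have h4 := hT v h2 (letter f a) (value f w) ((hL a).trans hκ) (by omega)
    rw [S1v_value_cons, ← h4, ← ih _ (by omega) hκ hv.2]
    rfl

theorem S1v (hW0 : SPD.St_W0) (hW1 : SPD.St_W1) (hL2 : SPD.St_L2) (hL3 : SPD.St_L3) : St_S1v := by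
  intro G α π _ _ f Rel M R 𝓛 N n0 n T hD hSS
  obtain ⟨hinv, happ, hav, hawinv, hhol, hIw, hmono, hends, hmono2⟩ := hW0 G α f
  have hB := hD.base
  have hinf := hB.inf
  have hlen := hB.len
  obtain ⟨D, hDfin, hKD, hDC⟩ := hSS (Bl M.L (n + 𝓛.ρ)) (M.L.fin _)
  obtain ⟨m0, hm0⟩ := S1v_ball M.L D hDfin
  obtain ⟨m1, hm1, hDm1⟩ : ∃ m1, n + 𝓛.ρ ≤ m1 ∧ D ⊆ Bl M.L m1 := by
    refine ⟨max m0 (n + 𝓛.ρ), le_max_right _ _, fun x hx => ?_⟩
    have h1 : M.L.l x ≤ m0 := hm0 hx
    exact h1.trans (le_max_left _ _)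
  obtain ⟨R1, hR1, hj1⟩ := hB.join m1
  refine ⟨R1 + R + m1, by omega, ?_⟩
  intro W _ _ b hb hQ0
  obtain ⟨Q, hQ⟩ := hQ0
  obtain ⟨-, -, -, -, hL35, hL36⟩ := hL3 G M R 𝓛 π T n W b hD.good hb
  obtain ⟨β, hβ⟩ : ∃ β : G → (α × Bool) → W, β = fun v a => be M T 𝓛 b v (letter f a) :=
    ⟨_, rfl⟩
  have hcoc : WCoc f Rel (Bl M.L (n + 𝓛.ρ)) T β := by
    rw [hβ]
    exact hL36 α f Rel hlen fun r hr => ⟨hD.len r hr, hB.rel r hr⟩
  have hsubBl : ∀ i j : ℕ, i ≤ j → Bl M.L i ⊆ Bl M.L j := fun i j h x hx =>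
    le_trans (show M.L.l x ≤ i from hx) h
  have hn0 : n0 ≤ n + 𝓛.ρ := by
    have := hD.le
    omega
  have hlab : IsLabel f Rel (Bl M.L (n + 𝓛.ρ)) (SPD.lab f T) := by
    refine ⟨fun g a c h1 h2 => ?_, fun r hr g h => ?_⟩
    · exact hD.lvl.lab.edge g a c (fun h => h1 (hsubBl _ _ hn0 h))
        (fun h => h2 (hsubBl _ _ hn0 h))
    · exact hD.lvl.lab.cell r hr g (hmono _ _ _ _ (hsubBl _ _ hn0) h)
  obtain ⟨hw1, hw2, hw3, hw4⟩ := hW1 G α f Rel (Bl M.L (n + 𝓛.ρ)) hB.rel
  -- the cochain vanishes far out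
  have hz : ∀ v h, Q + 𝓛.ρ < M.L.l v → be M T 𝓛 b v h = 0 := by
    intro v h hv
    obtain ⟨-, -, -, hsupp, -⟩ := hL2 G M R 𝓛 π T v
    unfold be
    rw [← Finsupp.sum_single (sh M T v (𝓛.es h)), map_finsuppSum, Finsupp.sum]
    apply Finset.sum_eq_zero
    intro x hx
    have h1 := hsupp (𝓛.es h) x (Finsupp.mem_support_iff.1 hx)
    obtain ⟨h2, h3⟩ := 𝓛.es_supp h _ h1
    have h4 := S1v_sub M.L v (v⁻¹ * x.1)
    rw [mul_inv_cancel_left] at h4
    have h5 : Q < M.L.l x.1 := by
      have h6 : M.L.l (v⁻¹ * x.1) ≤ 𝓛.ρ := h3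
      omega
    have h7 := hQ x h2 h5
    have h8 : Finsupp.single x (sh M T v (𝓛.es h) x) =
        sh M T v (𝓛.es h) x • Finsupp.single x (1 : ZG π) := by
      rw [Finsupp.smul_single, smul_eq_mul, mul_one]
    rw [h8, map_smul, h7, smul_zero]
  have hβ0 : ∀ v a, v ∉ Bl M.L (Q + 𝓛.ρ) → β v a = 0 := by
    intro v a hv
    rw [hβ]
    apply hz
    by_contra h
    exact hv (show M.L.l v ≤ Q + 𝓛.ρ by omega)
  -- the far base vertex
  obtain ⟨C', hC'fin, hC'⟩ := hDC (Bl M.L (Q + 𝓛.ρ)) (M.L.fin _)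
  obtain ⟨kC, hkC⟩ := S1v_ball M.L C' hC'fin
  obtain ⟨Rk, hRk, hjk⟩ := hB.join (max m1 (Q + 𝓛.ρ))
  obtain ⟨u0, hu0⟩ := S1v_far M.L (R1 + kC + Rk)
  have hu0C : u0 ∉ C' := by
    intro h
    have : M.L.l u0 ≤ kC := hkC h
    omega
  -- words to the base vertex: independence
  have hind : ∀ (v : G) (q q' : List (α × Bool)), Avoids f (Bl M.L m1) v q →
      v * value f q = u0 → Avoids f (Bl M.L m1) v q' → v * value f q' = u0 →
      Iw f T β v q = Iw f T β v q' := by
    intro v q q' hq hqu hq' hqu'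
    have hKm1 : Bl M.L (n + 𝓛.ρ) ⊆ Bl M.L m1 := hsubBl _ _ hm1
    have hval : value f q = value f q' := mul_left_cancel (hqu.trans hqu'.symm)
    have hqK := hmono _ _ _ _ hKm1 hq
    have hqK' := hmono _ _ _ _ hKm1 hq'
    -- the closed word
    have hcl : value f (q ++ winv q') = 1 := by
      rw [(happ _ _).1, (hinv q').1, hval, mul_inv_cancel]
    have hwav : Avoids f (Bl M.L m1) v (q ++ winv q') := by
      rw [hav, hqu, ← hqu']
      exact ⟨hq, (hawinv _ _ _).1 hq'⟩
    obtain ⟨w', hw'1, hw'2, hw'3⟩ := hC' v (q ++ winv q') q hcl (hmono _ _ _ _ hDm1 hwav)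
      (hmono _ _ _ _ hDm1 hq) (by rw [hqu]; exact hu0C)
    rw [hqu] at hw'2
    have hI := hw2 π W T β hlab hcoc v _ _ hw'3
    have hH := (hw1 π (SPD.lab f T) hlab v _ _ hw'3).1
    have hIw' : Iw f T β u0 w' = 0 := S1v_zero f T β _ hβ0 w' u0 hw'2
    have hb1 := S1v_back hW0 hW1 f Rel _ hB.rel T β hlab hcoc q v hqK
    have hb2 := S1v_back hW0 hW1 f Rel _ hB.rel T β hlab hcoc q' v hqK'
    have hi1 := hw4 π (SPD.lab f T) hlab v q hqK
    have hi2 := hw4 π (SPD.lab f T) hlab v q' hqK'
    rw [hqu] at hb1 hi1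
    rw [hqu'] at hb2 hi2
    -- rewrite the two sides
    have e1 : Iw f T β v (q ++ winv q') =
        Iw f T β v q + gr (hol f (SPD.lab f T) v q) • Iw f T β u0 (winv q') := by
      rw [hIw, hqu]
    have e2 : Iw f T β v (q ++ w' ++ winv q) = Iw f T β v q +
        gr (hol f (SPD.lab f T) v q * hol f (SPD.lab f T) u0 w') • Iw f T β u0 (winv q) := by
      rw [hIw, hIw, hhol, (happ _ _).1, hw'1, mul_one, hqu, hIw', smul_zero, add_zero]
    have e3 : hol f (SPD.lab f T) v (q ++ winv q') =
        hol f (SPD.lab f T) v q * (hol f (SPD.lab f T) v q')⁻¹ := by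
      rw [hhol, hqu, hi2]
    have e4 : hol f (SPD.lab f T) v (q ++ w' ++ winv q) =
        hol f (SPD.lab f T) v q * hol f (SPD.lab f T) u0 w' * (hol f (SPD.lab f T) v q)⁻¹ := by
      rw [hhol, hhol, (happ _ _).1, hw'1, mul_one, hqu, hi1]
    -- the inverse words
    have e5 : Iw f T β u0 (winv q') = -(gr (hol f (SPD.lab f T) v q')⁻¹ • Iw f T β v q') := by
      have h1 : gr (hol f (SPD.lab f T) v q')⁻¹ • (Iw f T β v q' +
          gr (hol f (SPD.lab f T) v q') • Iw f T β u0 (winv q')) = 0 := by rw [hb2, smul_zero]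
      rw [smul_add, smul_smul, S1v_gr_mul, inv_mul_cancel, S1v_gr_one, one_smul] at h1
      exact (neg_eq_of_add_eq_zero_right h1).symm
    have e6 : Iw f T β u0 (winv q) = -(gr (hol f (SPD.lab f T) v q)⁻¹ • Iw f T β v q) := by
      have h1 : gr (hol f (SPD.lab f T) v q)⁻¹ • (Iw f T β v q +
          gr (hol f (SPD.lab f T) v q) • Iw f T β u0 (winv q)) = 0 := by rw [hb1, smul_zero]
      rw [smul_add, smul_smul, S1v_gr_mul, inv_mul_cancel, S1v_gr_one, one_smul] at h1
      exact (neg_eq_of_add_eq_zero_right h1).symm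
    rw [e1, e2, e5, e6] at hI
    rw [e3, e4] at hH
    rw [smul_neg, smul_neg, smul_smul, smul_smul, S1v_gr_mul, S1v_gr_mul, ← hH] at hI
    have h1 : gr (hol f (SPD.lab f T) v q * (hol f (SPD.lab f T) v q')⁻¹) •
        (Iw f T β v q - Iw f T β v q') = 0 := by
      rw [smul_sub]
      have h2 := neg_injective (add_left_cancel hI)
      rw [h2, sub_self]
    exact sub_eq_zero.1 (S1v_gr_inj _ _ h1)
  -- the potential
  classical
  obtain ⟨p, hp⟩ : ∃ p : G → W, ∀ v q, Avoids f (Bl M.L m1) v q → v * value f q = u0 →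
      p v = Iw f T β v q := by
    refine ⟨fun v => if h : ∃ q, Avoids f (Bl M.L m1) v q ∧ v * value f q = u0 then
      Iw f T β v h.choose else 0, ?_⟩
    intro v q h1 h2
    have h : ∃ q, Avoids f (Bl M.L m1) v q ∧ v * value f q = u0 := ⟨q, h1, h2⟩
    show (if h : ∃ q, Avoids f (Bl M.L m1) v q ∧ v * value f q = u0 then
      Iw f T β v h.choose else 0) = _
    rw [dif_pos h]
    exact hind v _ _ h.choose_spec.1 h.choose_spec.2 h1 h2
  refine ⟨p, ?_, Rk, ?_⟩
  · intro v h hv hh
    obtain ⟨c, hc1, hc2⟩ := hB.word h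
    have hvh : M.L.l v ≤ M.L.l (v * h) + M.L.l h := S1v_sub M.L v h
    obtain ⟨q, hq1, hq2⟩ := hj1 (v * h) u0 (by omega) (by omega)
    have hcav : Avoids f (Bl M.L m1) v c := S1v_short f M.L hlen m1 v c (by omega)
    have hcq : Avoids f (Bl M.L m1) v (c ++ q) := by
      rw [hav, hc1]
      exact ⟨hcav, hq1⟩
    have e1 := hp v (c ++ q) hcq (by rw [(happ _ _).1, hc1, ← mul_assoc]; exact hq2)
    have e2 := hp (v * h) q hq1 hq2
    have e3 := hL35 α f hlen v c (by omega) (hmono _ _ _ _ (hsubBl _ _ hm1) hcav)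
    have hu : 1 ≤ M.u := by unfold Pk.u; omega
    have hkap : R + M.u ≤ 𝓛.kap := by
      unfold Loc.kap
      have := 𝓛.hR
      omega
    have e4 := S1v_hol f M.L hlen T 𝓛.kap n hD.good c v (by omega) (by omega)
      (hmono _ _ _ _ (hsubBl _ _ (by omega)) hcav)
    rw [hc1] at e3 e4
    rw [hβ] at e1 e2
    rw [e1, e2, hIw, hc1, e3, e4]
    abel
  · intro v hv
    obtain ⟨q, hq1, hq2⟩ := hjk v u0 hv (by omega)
    rw [hp v q (hmono _ _ _ _ (hsubBl _ _ (le_max_left _ _)) hq1) hq2]
    exact S1v_zero f T β _ hβ0 q v (hmono _ _ _ _ (hsubBl _ _ (le_max_right _ _)) hq1)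

end Pool.Agent.SFG
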