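import Pool.Agent.SFG.StV

/-!
# Module SB : free splittings
-/

set_option autoImplicit false

namespace Pool.Agent.SFG

open Pool.Agent.CPD Pool.Agent.SPD

private theorem SB_gr_mul {P : Type} [Group P] (g h : P) : gr (g * h) = gr g * gr h := by
  unfold gr
  rw [MonoidAlgebra.single_mul_single, mul_one]

private theorem SB_gr_one {P : Type} [Group P] : gr (1 : P) = 1 := rfl

private theorem SB_gr_inv {P : Type} [Group P] (g : P) (z : ZG P) :
    gr g⁻¹ * (gr g * z) = z := by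
  rw [← mul_assoc, ← SB_gr_mul, inv_mul_cancel, SB_gr_one, one_mul]

private theorem SB_gr_inv' {P : Type} [Group P] (g : P) (z : ZG P) :
    gr g * (gr g⁻¹ * z) = z := by
  rw [← mul_assoc, ← SB_gr_mul, mul_inv_cancel, SB_gr_one, one_mul]

private theorem SB_one {P N : Type} [Group P] [Group N] {A : Subgroup P} {χ : P → N}
    (hχ : MulOn A χ) : χ 1 = 1 := by
  have h := hχ 1 A.one_mem 1 A.one_mem
  rw [mul_one] at h
  exact left_eq_mul.mp h

private theorem SB_inv {P N : Type} [Group P] [Group N] {A : Subgroup P} {χ : P → N}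
    (hχ : MulOn A χ) {a : P} (ha : a ∈ A) : χ a⁻¹ = (χ a)⁻¹ := by
  have h := hχ a⁻¹ (A.inv_mem ha) a ha
  rw [inv_mul_cancel, SB_one hχ] at h
  exact eq_inv_of_mul_eq_one_left h.symm

/-- A property which is stable under products and inverses, on a subgroup. -/
private theorem SB_ind {P : Type} [Group P] {A1 K A : Subgroup P} (hA : A1 ⊔ K = A)
    (p : P → Prop) (h1 : ∀ x ∈ A1, p x) (h2 : ∀ x ∈ K, p x)
    (hm : ∀ x ∈ A, ∀ y ∈ A, p x → p y → p (x * y)) (hi : ∀ x ∈ A, p x → p x⁻¹) :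
    ∀ x ∈ A, p x := by
  have hA1 : A1 ≤ A := hA ▸ le_sup_left
  have hK : K ≤ A := hA ▸ le_sup_right
  let B : Subgroup P :=
    { carrier := {x | x ∈ A ∧ p x}
      one_mem' := ⟨A.one_mem, h1 1 A1.one_mem⟩
      mul_mem' := fun {a b} ha hb => ⟨A.mul_mem ha.1 hb.1, hm a ha.1 b hb.1 ha.2 hb.2⟩
      inv_mem' := fun {a} ha => ⟨A.inv_mem ha.1, hi a ha.1 ha.2⟩ }
  have hB : A ≤ B := by
    rw [← hA]
    exact sup_le (fun x hx => ⟨hA1 hx, h1 x hx⟩) (fun x hx => ⟨hK hx, h2 x hx⟩)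
  exact fun x hx => (hB hx).2

private theorem SB_mono {P N : Type} [Group P] [Group N] {A B : Subgroup P} (h : B ≤ A)
    {χ : P → N} (hχ : MulOn A χ) : MulOn B χ :=
  fun a ha b hb => hχ a (h ha) b (h hb)

/-- The image of a finitely generated subgroup under a retraction. -/
private theorem SB_fg {P : Type} [Group P] {A1 K A : Subgroup P} (hA : A1 ⊔ K = A)
    (χ : P → P) (hχ : MulOn A χ) (h1 : ∀ x ∈ A1, χ x = x) (h2 : ∀ x ∈ K, χ x = 1)
    (hfg : A.FG) : A1.FG := by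
  classical
  have hA1 : A1 ≤ A := hA ▸ le_sup_left
  obtain ⟨S, hS⟩ := hfg
  have hSA : ∀ s ∈ S, s ∈ A := fun s hs => hS ▸ Subgroup.subset_closure hs
  have hin : ∀ x ∈ A, χ x ∈ A1 := by
    refine SB_ind hA (fun x => χ x ∈ A1) ?_ ?_ ?_ ?_
    · intro x hx
      rw [h1 x hx]
      exact hx
    · intro x hx
      rw [h2 x hx]
      exact A1.one_mem
    · intro x hx y hy hpx hpy
      rw [hχ x hx y hy]
      exact A1.mul_mem hpx hpy
    · intro x hx hpx
      rw [SB_inv hχ hx]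
      exact A1.inv_mem hpx
  refine ⟨S.image χ, le_antisymm ?_ ?_⟩
  · rw [Subgroup.closure_le]
    intro y hy
    rw [Finset.coe_image] at hy
    obtain ⟨s, hs, rfl⟩ := hy
    exact hin s (hSA s hs)
  · let B : Subgroup P :=
      { carrier := {x | x ∈ A ∧ χ x ∈ Subgroup.closure (S.image χ : Set P)}
        one_mem' := ⟨A.one_mem, by rw [SB_one hχ]; exact Subgroup.one_mem _⟩
        mul_mem' := fun {a b} ha hb => ⟨A.mul_mem ha.1 hb.1, by
          rw [hχ a ha.1 b hb.1]; exact Subgroup.mul_mem _ ha.2 hb.2⟩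
        inv_mem' := fun {a} ha => ⟨A.inv_mem ha.1, by
          rw [SB_inv hχ ha.1]; exact Subgroup.inv_mem _ ha.2⟩ }
    have hB : A ≤ B := by
      rw [← hS, Subgroup.closure_le]
      intro s hs
      refine ⟨hSA s hs, Subgroup.subset_closure ?_⟩
      rw [Finset.coe_image]
      exact ⟨s, hs, rfl⟩
    intro x hx
    have h := (hB (hA1 hx)).2
    rw [h1 x hx] at h
    exact h

private theorem SB_symm {P : Type} [Group P] {A1 K A : Subgroup P} (h : Spl A1 K A) :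
    Spl K A1 A := by
  refine ⟨by rw [sup_comm]; exact h.sup, ?_⟩
  intro N _ φ ψ hφ hψ
  obtain ⟨χ, h1, h2, h3⟩ := h.ext N ψ φ hψ hφ
  exact ⟨χ, h1, h3, h2⟩

private theorem SB_fg1 {P : Type} [Group P] {A1 K A : Subgroup P} (h : Spl A1 K A)
    (hfg : A.FG) : A1.FG := by
  obtain ⟨χ, h1, h2, h3⟩ := h.ext P (fun x => x) (fun _ => 1) (fun a _ b _ => rfl)
    (fun a _ b _ => (mul_one 1).symm)
  exact SB_fg h.sup χ h1 h2 h3 hfg

private theorem SB_comp {P : Type} [Group P] {A2 K2 A1 K1 A : Subgroup P} (h : Spl A1 K1 A)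
    (h' : Spl A2 K2 A1) : Spl A2 (K2 ⊔ K1) A := by
  refine ⟨by rw [← sup_assoc, h'.sup, h.sup], ?_⟩
  intro N _ φ ψ hφ hψ
  obtain ⟨χ1, m1, e1, e2⟩ := h'.ext N φ ψ hφ (SB_mono le_sup_left hψ)
  obtain ⟨χ, m, e3, e4⟩ := h.ext N χ1 ψ m1 (SB_mono le_sup_right hψ)
  have hA1 : A1 ≤ A := h.sup ▸ le_sup_left
  have hK1 : K1 ≤ A := h.sup ▸ le_sup_right
  have hA2 : A2 ≤ A1 := h'.sup ▸ le_sup_left
  have hK2 : K2 ≤ A1 := h'.sup ▸ le_sup_right
  have hle : K2 ⊔ K1 ≤ A := sup_le (hK2.trans hA1) hK1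
  refine ⟨χ, m, fun x hx => by rw [e3 x (hA2 hx), e1 x hx], ?_⟩
  refine SB_ind rfl (fun x => χ x = ψ x) ?_ ?_ ?_ ?_
  · intro x hx
    show χ x = ψ x
    rw [e3 x (hK2 hx), e2 x hx]
  · intro x hx
    exact e4 x hx
  · intro x hx y hy hpx hpy
    show χ (x * y) = ψ (x * y)
    rw [m x (hle hx) y (hle hy), hψ x hx y hy, hpx, hpy]
  · intro x hx hpx
    show χ x⁻¹ = ψ x⁻¹
    rw [SB_inv m (hle hx), SB_inv hψ hx, hpx]

/-- The affine bijection `z ↦ d b + b z` of the group ring. -/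
private noncomputable def SB_aff {P : Type} [Group P] (d : P → ZG P) (b : P) :
    Equiv.Perm (ZG P) where
  toFun z := d b + gr b * z
  invFun z := gr b⁻¹ * (z - d b)
  left_inv z := by
    show gr b⁻¹ * (d b + gr b * z - d b) = z
    rw [add_sub_cancel_left, SB_gr_inv]
  right_inv z := by
    show d b + gr b * (gr b⁻¹ * (z - d b)) = z
    rw [SB_gr_inv', add_sub_cancel]

private theorem SB_aff_apply {P : Type} [Group P] (d : P → ZG P) (b : P) (z : ZG P) :
    SB_aff d b z = d b + gr b * z := rfl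

private theorem SB_aff_mul {P : Type} [Group P] {B : Subgroup P} {d : P → ZG P}
    (hd : Der B d) : MulOn B (SB_aff d) := by
  intro a ha b hb
  refine Equiv.ext fun z => ?_
  rw [Equiv.Perm.mul_apply, SB_aff_apply, SB_aff_apply, SB_aff_apply, hd a ha b hb, SB_gr_mul,
    mul_add, mul_assoc, add_assoc]

private theorem SB_der {P : Type} [Group P] {A1 K A : Subgroup P} {d1 d2 : P → ZG P}
    (h : Spl A1 K A) (h1 : Der A1 d1) (h2 : Der K d2) :
    ∃ d, Der A d ∧ (∀ x ∈ A1, d x = d1 x) ∧ ∀ x ∈ K, d x = d2 x := by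
  obtain ⟨χ, m, e1, e2⟩ := h.ext (Equiv.Perm (ZG P)) (SB_aff d1) (SB_aff d2) (SB_aff_mul h1)
    (SB_aff_mul h2)
  have hlin : ∀ x ∈ A, ∀ z, χ x z = χ x 0 + gr x * z := by
    refine SB_ind h.sup (fun x => ∀ z, χ x z = χ x 0 + gr x * z) ?_ ?_ ?_ ?_
    · intro x hx z
      rw [e1 x hx, SB_aff_apply, SB_aff_apply, mul_zero, add_zero]
    · intro x hx z
      rw [e2 x hx, SB_aff_apply, SB_aff_apply, mul_zero, add_zero]
    · intro x hx y hy hpx hpy z
      rw [m x hx y hy, Equiv.Perm.mul_apply, Equiv.Perm.mul_apply, hpy z,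
        hpx (χ y 0 + gr y * z), hpx (χ y 0), SB_gr_mul, mul_add, mul_assoc, add_assoc]
    · intro x hx hpx z
      have key : ∀ z, χ x⁻¹ z = gr x⁻¹ * (z - χ x 0) := by
        intro z
        have hw : χ x (χ x⁻¹ z) = z := by
          rw [← Equiv.Perm.mul_apply, ← m x hx x⁻¹ (A.inv_mem hx), mul_inv_cancel, SB_one m,
            Equiv.Perm.one_apply]
        have h3 := hpx (χ x⁻¹ z)
        rw [hw] at h3
        have h4 : z - χ x 0 = gr x * χ x⁻¹ z := by
          rw [sub_eq_iff_eq_add, add_comm]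
          exact h3
        rw [h4, SB_gr_inv]
      rw [key z, key 0, ← mul_add]
      congr 1
      abel
  refine ⟨fun a => χ a 0, ?_, ?_, ?_⟩
  · intro a ha b hb
    show χ (a * b) 0 = χ a 0 + gr a * χ b 0
    rw [m a ha b hb, Equiv.Perm.mul_apply, hlin a ha]
  · intro x hx
    show χ x 0 = d1 x
    rw [e1 x hx, SB_aff_apply, mul_zero, add_zero]
  · intro x hx
    show χ x 0 = d2 x
    rw [e2 x hx, SB_aff_apply, mul_zero, add_zero]

private theorem SB_noZ {P : Type} [Group P] {A1 K A : Subgroup P} (h : Spl A1 K A)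
    (hA : NoZ A) : NoZ A1 := by
  intro χ hχ a ha
  obtain ⟨χ', m, e1, -⟩ := h.ext (Multiplicative ℤ) χ (fun _ => 1) hχ
    (fun a _ b _ => (mul_one 1).symm)
  have hA1 : A1 ≤ A := h.sup ▸ le_sup_left
  rw [← e1 a ha]
  exact hA χ' m a (hA1 ha)

/-- [SB] Free splittings.

Proof. (1) `N := P`, `φ := id`, `ψ := 1`: `χ` maps `A` onto `A1` (the image of `A = A1 ⊔ K` is generated by
`A1`), so `A1` is generated by the images of the generators of `A`. The same for `K`. (2) `sup` clear.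
Given `φ` on `A2`, `ψ` on `K2 ⊔ K1`: extend `φ`, `ψ` to `χ1` on `A1` (second splitting), then `χ1`, `ψ` to `χ`
on `A`; `χ` and `ψ` are multiplicative on `K2 ⊔ K1` and agree on `K2` and `K1`, so on `K2 ⊔ K1`.
(3) `N := Equiv.Perm (ZG P)`: a derivation `d` on `B` gives the multiplicative function
`b ↦ (z ↦ d b + gr b * z)`; extend `d1`, `d2`, get `χ`; `χ a z = χ a 0 + gr a * z` on `A1`, on `K`, and it is
stable under products and inverses, so it holds on `A`; `d a := χ a 0`. (4) symmetric. (5) `K = ⊥`: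
`A1 = A`. (6) extend `χ` on `A1` by `1` on `K`. (7) `χ := φ`. -/
theorem SB : St_SB := by
  intro P _
  refine ⟨fun A1 K A h hfg => ⟨SB_fg1 h hfg, SB_fg1 (SB_symm h) hfg⟩,
    fun A2 K2 A1 K1 A h h' => SB_comp h h', fun A1 K A d1 d2 h h1 h2 => SB_der h h1 h2,
    fun A1 K A h => SB_symm h, ?_, fun A1 K A h hA => ⟨SB_noZ h hA, SB_noZ (SB_symm h) hA⟩, ?_⟩
  · intro A1 A h
    have := h.sup
    rwa [sup_bot_eq] at this
  · intro A
    refine ⟨sup_bot_eq A, ?_⟩
    intro N _ φ ψ hφ hψ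
    refine ⟨φ, hφ, fun x _ => rfl, ?_⟩
    intro x hx
    rw [Subgroup.mem_bot] at hx
    rw [hx, SB_one hφ, SB_one hψ]

end Pool.Agent.SFG
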