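import Pool.Agent.SFG.StT

/-!
# SFG, module SEC: an equivariant set-theoretic section
-/

set_option autoImplicit false

namespace Pool.Agent.SFG

open Matrix Pool.Agent.CPD Pool.Agent.SPD

/-- the image of `m` in `ℤ[π ⧸ A]` -/
private noncomputable def SEC_P {π : Type} [Group π] (A : Subgroup π) : ZG π →+ (π ⧸ A →₀ ℤ) :=
  (Finsupp.mapDomain.addMonoidHom (QuotientGroup.mk : π → π ⧸ A)).comp
    (MonoidAlgebra.coeffAddEquiv (R := ℤ) (M := π)).toAddMonoidHom

/-- the lift by representatives -/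
private noncomputable def SEC_Q {π : Type} [Group π] (A : Subgroup π) : (π ⧸ A →₀ ℤ) →+ ZG π :=
  (MonoidAlgebra.coeffAddEquiv (R := ℤ) (M := π)).symm.toAddMonoidHom.comp
    (Finsupp.mapDomain.addMonoidHom (Quotient.out : π ⧸ A → π))

private theorem SEC_P_def {π : Type} [Group π] (A : Subgroup π) (m : ZG π) :
    SEC_P A m = m.coeff.mapDomain (QuotientGroup.mk : π → π ⧸ A) := rfl

private theorem SEC_P_single {π : Type} [Group π] (A : Subgroup π) (g : π) (n : ℤ) :
    SEC_P A (MonoidAlgebra.single g n) = Finsupp.single (QuotientGroup.mk g : π ⧸ A) n := by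
  rw [SEC_P_def, MonoidAlgebra.coeff_single, Finsupp.mapDomain_single]

private theorem SEC_PQ {π : Type} [Group π] (A : Subgroup π) (u : π ⧸ A →₀ ℤ) :
    SEC_P A (SEC_Q A u) = u := by
  show Finsupp.mapDomain (QuotientGroup.mk : π → π ⧸ A)
    (Finsupp.mapDomain (Quotient.out : π ⧸ A → π) u) = u
  rw [← Finsupp.mapDomain_comp]
  have : (QuotientGroup.mk : π → π ⧸ A) ∘ (Quotient.out : π ⧸ A → π) = id := by
    funext ξ
    exact Quotient.out_eq' ξ
  rw [this, Finsupp.mapDomain_id]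

private theorem SEC_ind {π : Type} [Group π] {p : ZG π → Prop} (m : ZG π) (h0 : p 0)
    (hadd : ∀ x y, p x → p y → p (x + y)) (hs : ∀ (g : π) (n : ℤ), p (MonoidAlgebra.single g n)) :
    p m := by
  have h : ∀ u : π →₀ ℤ, p (MonoidAlgebra.ofCoeff u) := by
    intro u
    induction u using Finsupp.induction_linear with
    | zero => exact h0
    | add x y hx hy => exact hadd _ _ hx hy
    | single g n => exact hs g n
  exact h m.coeff

private theorem SEC_mul {π : Type} [Group π] (A : Subgroup π) (g : π) (n : ℤ) (m : ZG π) (ξ : π ⧸ A) :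
    SEC_P A (MonoidAlgebra.single g n * m) ξ = n * SEC_P A m (g⁻¹ • ξ) := by
  induction m using SEC_ind with
  | h0 => simp
  | hadd x y hx hy =>
    rw [mul_add, map_add, map_add, Finsupp.add_apply, Finsupp.add_apply, hx, hy, mul_add]
  | hs h k =>
    rw [MonoidAlgebra.single_mul_single, SEC_P_single, SEC_P_single]
    have h1 : (QuotientGroup.mk (g * h) : π ⧸ A) = g • (QuotientGroup.mk h : π ⧸ A) := rfl
    rw [h1]
    by_cases h2 : g • (QuotientGroup.mk h : π ⧸ A) = ξ
    · have h3 : (QuotientGroup.mk h : π ⧸ A) = g⁻¹ • ξ := by rw [← h2, inv_smul_smul]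
      rw [h2, h3, Finsupp.single_eq_same, Finsupp.single_eq_same]
    · have h3 : (QuotientGroup.mk h : π ⧸ A) ≠ g⁻¹ • ξ := by
        intro h4
        exact h2 (by rw [h4, smul_inv_smul])
      rw [Finsupp.single_eq_of_ne' h2, Finsupp.single_eq_of_ne' h3, mul_zero]

private theorem SEC_gr {π : Type} [Group π] (A : Subgroup π) (g : π) (m : ZG π) (ξ : π ⧸ A) :
    SEC_P A (gr g * m) ξ = SEC_P A m (g⁻¹ • ξ) :=
  (SEC_mul A g 1 m ξ).trans (one_mul _)

private theorem SEC_iff {π : Type} [Group π] (A : Subgroup π) (q : ℕ) (m : ZG π) :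
    InI A q m ↔ ∀ ξ, (q : ℤ) ∣ SEC_P A m ξ := Iff.rfl

/-- the section -/
private noncomputable def SEC_s {π : Type} [Group π] (A : Subgroup π) (q : ℕ) (m : ZG π) : ZG π :=
  SEC_Q A (Finsupp.mapRange (fun z : ℤ => z % (q : ℤ)) (Int.zero_emod _) (SEC_P A m))

private theorem SEC_P_s {π : Type} [Group π] (A : Subgroup π) (q : ℕ) (m : ZG π) (ξ : π ⧸ A) :
    SEC_P A (SEC_s A q m) ξ = SEC_P A m ξ % (q : ℤ) := by
  unfold SEC_s
  rw [SEC_PQ, Finsupp.mapRange_apply]

theorem SEC : St_SEC := by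
  intro π _ A q _
  refine ⟨SEC_s A q, ?_, ?_, ?_, ?_⟩
  · intro m
    rw [SEC_iff]
    intro ξ
    rw [map_sub, Finsupp.sub_apply, SEC_P_s, Int.emod_def]
    exact ⟨-(SEC_P A m ξ / q), by ring⟩
  · intro m m' h
    rw [SEC_iff] at h ⊢
    intro ξ
    have h1 := h ξ
    rw [map_sub, Finsupp.sub_apply] at h1
    rw [map_sub, Finsupp.sub_apply, SEC_P_s, SEC_P_s,
      Int.emod_eq_emod_iff_emod_sub_eq_zero.2 (Int.emod_eq_zero_of_dvd h1), sub_self]
    exact dvd_zero _
  · intro g m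
    rw [SEC_iff]
    intro ξ
    rw [map_sub, Finsupp.sub_apply, SEC_P_s, SEC_gr, SEC_gr, SEC_P_s, sub_self]
    exact dvd_zero _
  · unfold SEC_s
    rw [map_zero, Finsupp.mapRange_zero, map_zero]

end Pool.Agent.SFG
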