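import Pool.Agent.SFG.StH

/-!
# SFG SHW : the chain along a short word (helper78)
-/

set_option autoImplicit false

namespace Pool.Agent.SFG

open Matrix Pool.Agent.CPD Pool.Agent.SPD

private theorem SHW_gr_one (π : Type) [Group π] : gr (1 : π) = 1 := rfl

private theorem SHW_val_cons {G α : Type} [Group G] (f : α → G) (a : α × Bool)
    (x : List (α × Bool)) : value f (a :: x) = letter f a * value f x := by
  unfold value
  rw [List.map_cons, List.prod_cons]

private theorem SHW_len {G α : Type} [Group G] (f : α → G) (L : Len G)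
    (h1 : ∀ a : α × Bool, L.l (letter f a) ≤ 1) (x : List (α × Bool)) :
    L.l (value f x) ≤ x.length := by
  induction x with
  | nil =>
    show L.l (1 : G) ≤ 0
    rw [L.one]
  | cons a x ih =>
    rw [SHW_val_cons, List.length_cons]
    have h2 := L.mul (letter f a) (value f x)
    have h3 := h1 a
    omega

private theorem SHW_fst {G α : Type} [Group G] (f : α → G) (K : Set G) (g : G)
    (w : List (α × Bool)) (h : Avoids f K g w) : g ∉ K := by
  have h1 := h 0 (Nat.zero_le _)
  rw [List.take_zero] at h1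
  have h2 : g * value f ([] : List (α × Bool)) = g := mul_one g
  rw [h2] at h1
  exact h1

private theorem SHW_tail {G α : Type} [Group G] (f : α → G) (K : Set G) (g : G)
    (a : α × Bool) (x : List (α × Bool)) (h : Avoids f K g (a :: x)) :
    Avoids f K (g * letter f a) x := by
  intro i hi
  have h1 := h (i + 1) (by rw [List.length_cons]; omega)
  rw [List.take_succ_cons, SHW_val_cons, ← mul_assoc] at h1
  exact h1

/-- [SHW] the chain along a short word. -/
theorem SHW (hL2 : SPD.St_L2) : St_SHW := by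
  intro G α π _ _ f Rel M R 𝓛 n T hD m v s hnm hs hA
  have h1 := hD.base.len
  have hgood := hD.good
  have hR : 1 ≤ R := by
    have h2 := 𝓛.hu
    have h3 : 1 ≤ M.u := Nat.le_add_left 1 M.c
    omega
  have hsup : ∀ (g : G) (h h' : G), m < M.L.l g → ∀ z, sh M T g (𝓛.f2 h h') z ≠ 0 →
      M.deg z.2 = 2 ∧ m < M.L.l z.1 + 𝓛.ρ := by
    intro g h h' hg z hz
    obtain ⟨-, -, -, h4, -⟩ := hL2 G M R 𝓛 π T g
    have h5 := 𝓛.f2_supp h h' _ (h4 _ z hz)
    refine ⟨h5.1, ?_⟩
    have h6 : M.L.l (g⁻¹ * z.1) ≤ 𝓛.ρ := h5.2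
    have h7 : g = z.1 * (g⁻¹ * z.1)⁻¹ := by
      rw [_root_.mul_inv_rev, inv_inv, mul_inv_cancel_left]
    have h8 := M.L.mul z.1 (g⁻¹ * z.1)⁻¹
    rw [← h7, M.L.inv] at h8
    omega
  clear hD
  revert v
  induction s with
  | nil =>
    intro g hg
    have hg1 : m < M.L.l g := by
      have h2 : ¬ (M.L.l g ≤ m) := SHW_fst f _ g _ hg
      omega
    obtain ⟨-, -, -, -, h5⟩ := hL2 G M R 𝓛 π T g
    obtain ⟨hT1, -, -, -, -, -, -, -, -, hf2, -⟩ := h5 (hgood g (by omega))
    have h6 := hf2 1 1 (by rw [M.L.one]; omega) (by rw [M.L.one]; omega)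
      (by rw [mul_one, M.L.one]; omega)
    rw [hT1, SHW_gr_one, one_smul, mul_one, mul_one] at h6
    have h7 : sh M T g (𝓛.es 1) = opT M T M.D (sh M T g (𝓛.f2 1 1)) := add_left_cancel h6
    refine ⟨- sh M T g (𝓛.f2 1 1), fun z hz => hsup g 1 1 hg1 z ?_, ?_⟩
    · intro h8
      apply hz
      rw [Finsupp.neg_apply, h8, neg_zero]
    · show (0 : Ch M (ZG π)) = sh M T g (𝓛.es (1 : G)) + _
      rw [map_neg, h7, add_neg_cancel]
  | cons a x ih =>
    intro g hg
    have hlx : x.length + 1 ≤ R := by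
      rw [List.length_cons] at hs
      exact hs
    have hg1 : m < M.L.l g := by
      have h2 : ¬ (M.L.l g ≤ m) := SHW_fst f _ g _ hg
      omega
    obtain ⟨e, he1, he2⟩ := ih (by omega) (g * letter f a) (SHW_tail f _ g a x hg)
    obtain ⟨-, -, -, -, h5⟩ := hL2 G M R 𝓛 π T g
    obtain ⟨-, -, -, -, -, -, -, -, -, hf2, -⟩ := h5 (hgood g (by omega))
    have ha := h1 a
    have hx1 : M.L.l (value f x) ≤ x.length := SHW_len f M.L h1 x
    have hx2 : M.L.l (letter f a * value f x) ≤ R := by
      have h2 := M.L.mul (letter f a) (value f x)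
      omega
    have h6 := hf2 (letter f a) (value f x) (by omega) (by omega) hx2
    refine ⟨sh M T g (𝓛.f2 (letter f a) (value f x)) + gr (T g (letter f a)) • e, ?_, ?_⟩
    · intro z hz
      by_cases h7 : sh M T g (𝓛.f2 (letter f a) (value f x)) z = 0
      · apply he1 z
        intro h8
        apply hz
        rw [Finsupp.add_apply, h7, Finsupp.smul_apply, h8, smul_zero, add_zero]
      · exact hsup g _ _ hg1 z h7
    · show sh M T g (𝓛.es (letter f a)) +
        gr (T g (letter f a)) • chw f M 𝓛 T (g * letter f a) x = _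
      rw [he2, SHW_val_cons, smul_add, ← add_assoc, h6, map_add, LinearMap.map_smul, add_assoc]

end Pool.Agent.SFG
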