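import Pool.Agent.SFG.StT
import Pool.Agent.CPD.E1

/-!
# [T2bv] A cocycle modulo `q` lifts, via a section
-/

set_option autoImplicit false

namespace Pool.Agent.SFG

open Matrix Pool.Agent.CPD Pool.Agent.SPD

section T2bvsec

variable {G : Type} [Group G]

private theorem T2bv_len1 (L : Len G) (x y : G) : L.l x ≤ L.l y + L.l (x⁻¹ * y) := by
  have h6 := L.mul y (x⁻¹ * y)⁻¹
  rw [L.inv] at h6
  have h7 : y * (x⁻¹ * y)⁻¹ = x := by group
  rw [h7] at h6
  exact h6

private theorem T2bv_len2 (L : Len G) (x y : G) : L.l y ≤ L.l x + L.l (x⁻¹ * y) := by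
  have h6 := L.mul x (x⁻¹ * y)
  rwa [mul_inv_cancel_left] at h6

private theorem T2bv_key {X Λ W : Type} [Ring Λ] [AddCommGroup W] [Module Λ W]
    (Φ : (X →₀ Λ) →ₗ[Λ] W) (c : X →₀ Λ) :
    Φ c = ∑ x ∈ c.support, c x • Φ (Finsupp.single x 1) := by
  classical
  conv_lhs => rw [← Finsupp.sum_single c]
  unfold Finsupp.sum
  rw [map_sum]
  refine Finset.sum_congr rfl (fun x _ => ?_)
  rw [← map_smul, Finsupp.smul_single, smul_eq_mul, mul_one]

private theorem T2bv_ext {X Λ W : Type} [Ring Λ] [AddCommGroup W] [Module Λ W]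
    (Φ Ψ : (X →₀ Λ) →ₗ[Λ] W) (c : X →₀ Λ)
    (h : ∀ x, c x ≠ 0 → Φ (Finsupp.single x 1) = Ψ (Finsupp.single x 1)) : Φ c = Ψ c := by
  rw [T2bv_key Φ, T2bv_key Ψ]
  refine Finset.sum_congr rfl (fun x hx => ?_)
  rw [h x (Finsupp.mem_support_iff.mp hx)]

private theorem T2bv_zero {X Λ W : Type} [Ring Λ] [AddCommGroup W] [Module Λ W]
    (Φ : (X →₀ Λ) →ₗ[Λ] W) (c : X →₀ Λ)
    (h : ∀ x, c x ≠ 0 → Φ (Finsupp.single x 1) = 0) : Φ c = 0 := by
  rw [T2bv_ext Φ 0 c (fun x hx => by rw [h x hx, LinearMap.zero_apply]), LinearMap.zero_apply]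

private theorem T2bv_mem {X Λ W : Type} [Ring Λ] [AddCommGroup W] [Module Λ W]
    (Φ : (X →₀ Λ) →ₗ[Λ] W) (S : Submodule Λ W) (c : X →₀ Λ)
    (h : ∀ x, c x ≠ 0 → Φ (Finsupp.single x 1) ∈ S) : Φ c ∈ S := by
  rw [T2bv_key Φ]
  exact Submodule.sum_mem _ (fun x hx => S.smul_mem _ (h x (Finsupp.mem_support_iff.mp hx)))

/-- augmentation of a boundary -/
private theorem T2bv_aug (M : Pk G) (j : M.I) : augZ M.e (row M.D (1, j)) = 0 := by
  obtain ⟨-, -, -, -, h5, -⟩ := E1 G M.I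
  rw [h5, ← M.resP.De j]
  refine Finset.sum_congr rfl (fun k _ => ?_)
  congr 2
  apply MonoidAlgebra.ext
  ext g
  show row M.D (1, j) (g, k) = _
  rw [CPD.row_apply]
  show (M.D j k).coeff (1⁻¹ * g) = _
  rw [inv_one, one_mul]

end T2bvsec

/-- [T2bv] A cocycle modulo `q` lifts. -/
theorem T2bv (hL2 : SPD.St_L2) (hL4 : SPD.St_L4) (hT0 : SPD.St_T0) (hF6 : SPD.St_F6)
    (hS1 : St_S1v) (hSEC : St_SEC) : St_T2bv := by
  classical
  intro G α π _ _ f Rel M R 𝓛 N n0 n T hD hSS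
  -- constants
  set n1 : ℕ := n + 10 * M.u with hn1
  have hgood1 : ∀ v, n1 < M.L.l v → GoodT M.L T 𝓛.kap v := fun v hv => hD.good v (by omega)
  have hD1 : Dv f Rel M 𝓛 N n0 n1 T :=
    ⟨hD.base, hD.len, hD.lvl, by have := hD.le; omega, hgood1⟩
  obtain ⟨n'', hn'', hC⟩ := hS1 G α π f Rel M R 𝓛 N n0 n1 T hD1 hSS
  obtain ⟨σ, hσ⟩ : ∃ σ, σ = n'' + 2 * 𝓛.ρ + 20 * M.u := ⟨_, rfl⟩
  refine ⟨σ + 10 * M.u + 𝓛.ρ, by omega, ?_⟩
  intro A q b hq hb1 hb2 hb3
  have hu : M.u = M.c + 1 := rfl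
  have huR : M.u ≤ R := 𝓛.hu
  -- the submodules
  obtain ⟨⟨S, hS⟩, -⟩ := hT0 π A q
  obtain ⟨⟨S0, hS0⟩, -⟩ := hT0 π A 0
  obtain ⟨s, hs1, hs2, hs3, hs4⟩ := hSEC π A q hq
  -- the map B
  let B : Ch M (ZG π) →ₗ[ZG π] (ZG π ⧸ S) :=
    S.mkQ ∘ₗ Finsupp.linearCombination (ZG π) (fun y => b y)
  have hBs : ∀ x, B (Finsupp.single x 1) = S.mkQ (b x) := by
    intro x
    show S.mkQ (Finsupp.linearCombination (ZG π) (fun y => b y) (Finsupp.single x 1)) = _
    rw [Finsupp.linearCombination_single, one_smul]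
  have hBp : ∀ c, B c = S.mkQ (pair c (fun y => b y)) := fun c => rfl
  have hmk0 : ∀ m, S.mkQ m = 0 ↔ InI A q m := by
    intro m
    rw [Submodule.mkQ_apply, Submodule.Quotient.mk_eq_zero, hS]
  have hmks : ∀ m, S.mkQ (s m) = S.mkQ m := by
    intro m
    have h1 := (hmk0 _).2 (hs1 m)
    rw [map_sub, sub_eq_zero] at h1
    exact h1
  have hCoc : Coc M T n1 B := by
    constructor
    · intro x hx hx1
      rw [hBp, hmk0]
      exact hb2 x hx (by omega)
    · intro x hx hx1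
      rw [hBp, hBs, hb3 x hx (by omega)]
  -- a bound for b
  obtain ⟨Q, hQ⟩ : ∃ Q, ∀ y, b y ≠ 0 → M.L.l y.1 ≤ Q :=
    ⟨b.support.sup (fun y => M.L.l y.1), fun y hy =>
      Finset.le_sup (f := fun y : G × M.I => M.L.l y.1) (Finsupp.mem_support_iff.mpr hy)⟩
  obtain ⟨p, hPot, Q', hQ'⟩ := hC (ZG π ⧸ S) B hCoc ⟨Q, fun x _ hx => by
    have h1 : b x = 0 := by
      by_contra h
      have h2 := hQ x h
      omega
    rw [hBs, h1, map_zero]⟩
  obtain ⟨hF4, -⟩ := hL4 G M R 𝓛 π T n1 n'' (ZG π ⧸ S) B p hgood1 hCoc hn'' hPot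
  -- B vanishes on chains which do not meet b
  have hBz : ∀ c : Ch M (ZG π), (∀ x, c x ≠ 0 → b x = 0) → B c = 0 := by
    intro c hc
    refine T2bv_zero B c (fun x hx => ?_)
    rw [hBs, hc x hx, map_zero]
  -- supports of lifts
  have hshs : ∀ (v : G) (c : (G × M.I) →₀ ℤ) (x : G × M.I), sh M T v c x ≠ 0 →
      c (v⁻¹ * x.1, x.2) ≠ 0 := by
    intro v
    obtain ⟨-, -, -, h4, -⟩ := hL2 G M R 𝓛 π T v
    exact h4
  have hDs : ∀ x y : G × M.I, opT M T M.D (Finsupp.single x 1) y ≠ 0 →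
      M.deg x.2 = M.deg y.2 + 1 ∧ M.L.l (x.1⁻¹ * y.1) ≤ M.c := by
    intro x y hxy
    obtain ⟨-, h2, -, h4, -⟩ := hL2 G M R 𝓛 π T x.1
    have h5 := h2 M.D x.2
    rw [show ((x.1, x.2) : G × M.I) = x from rfl] at h5
    rw [h5] at hxy
    have h6 := h4 _ _ hxy
    rw [CPD.row_apply] at h6
    have h7 : (M.D x.2 y.2).coeff (x.1⁻¹ * y.1) ≠ 0 := by
      intro h8
      apply h6
      show (M.D x.2 y.2).coeff (1⁻¹ * (x.1⁻¹ * y.1)) = 0
      rw [inv_one, one_mul, h8]
    refine ⟨M.resP.D_deg _ _ ?_, M.prop_D _ _ _ h7⟩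
    intro h8
    apply h7
    rw [h8]
    rfl
  -- lifts of the potential
  have hmex : ∀ v : G, ∃ z : ZG π, S.mkQ z = p v := fun v => Submodule.mkQ_surjective S (p v)
  choose m hm using hmex
  -- the potential is parallel on the shell, modulo `InI A 0`
  have hpar : ∀ v h, n'' < M.L.l v → M.L.l v ≤ σ + 10 * M.u → M.L.l h ≤ R →
      s (m v) - gr (T v h) * s (m (v * h)) ∈ S0 := by
    intro v h hv hv' hh
    have h1 := hPot v h hv hh
    have h2 : be M T 𝓛 B v h = 0 := by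
      apply hBz
      intro x hx
      by_contra hbx
      have h3 : M.L.l (v⁻¹ * x.1) ≤ 𝓛.ρ := (𝓛.es_supp _ _ (hshs v _ x hx)).2
      have h4 := T2bv_len2 M.L v x.1
      have h5 := (hb1 x hbx).2
      omega
    rw [h2] at h1
    have h3 : p v = gr (T v h) • p (v * h) := sub_eq_zero.1 h1.symm
    have h4 : InI A q (m v - gr (T v h) * m (v * h)) := by
      rw [← hmk0, map_sub, hm, ← smul_eq_mul, map_smul, hm, ← h3, sub_self]
    have h5 := (hS0 _).2 (hs2 _ _ h4)
    have h6 := (hS0 _).2 (hs3 (T v h) (m (v * h)))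
    have h7 := S0.add_mem h5 h6
    have h8 : s (m v) - s (gr (T v h) * m (v * h)) +
        (s (gr (T v h) * m (v * h)) - gr (T v h) * s (m (v * h))) =
        s (m v) - gr (T v h) * s (m (v * h)) := by abel
    rw [h8] at h7
    exact h7
  -- the function F'
  have hpotF : ∀ x : G × M.I, M.deg x.2 = 0 → potF M T 𝓛 B p (Finsupp.single x 1) =
      M.e x.2 • p x.1 + B (sh M T x.1 (𝓛.ex x.2)) := by
    intro x hx
    unfold potF
    rw [Finsupp.linearCombination_single, one_smul, if_pos hx]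
  have hFex : ∀ x : G × M.I, ∃ z : ZG π,
      (M.deg x.2 = 0 → S.mkQ z = potF M T 𝓛 B p (Finsupp.single x 1)) ∧
      (M.deg x.2 = 0 → M.L.l x.1 ≤ σ → z = M.e x.2 • s (m x.1)) ∧
      (σ + Q' + Q + 𝓛.ρ < M.L.l x.1 → z = 0) := by
    intro x
    by_cases hx0 : M.deg x.2 = 0
    · by_cases hx1 : M.L.l x.1 ≤ σ
      · refine ⟨M.e x.2 • s (m x.1), ?_, fun _ _ => rfl, fun h => by omega⟩
        intro _
        have h1 : B (sh M T x.1 (𝓛.ex x.2)) = 0 := by
          apply hBz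
          intro y hy
          by_contra hby
          have h3 : M.L.l (x.1⁻¹ * y.1) ≤ 𝓛.ρ := (𝓛.ex_supp _ _ (hshs x.1 _ y hy)).2
          have h5 := T2bv_len2 M.L x.1 y.1
          have h7 := (hb1 y hby).2
          omega
        rw [hpotF x hx0, h1, add_zero, map_zsmul, hmks, hm]
      · by_cases hx2 : potF M T 𝓛 B p (Finsupp.single x 1) = 0
        · refine ⟨0, fun _ => ?_, fun _ h => absurd h hx1, fun _ => rfl⟩
          rw [map_zero, hx2]
        · obtain ⟨z, hz⟩ := Submodule.mkQ_surjective S (potF M T 𝓛 B p (Finsupp.single x 1))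
          refine ⟨z, fun _ => hz, fun _ h => absurd h hx1, fun h => absurd ?_ hx2⟩
          have h1 : B (sh M T x.1 (𝓛.ex x.2)) = 0 := by
            apply hBz
            intro y hy
            by_contra hby
            have h3 : M.L.l (x.1⁻¹ * y.1) ≤ 𝓛.ρ := (𝓛.ex_supp _ _ (hshs x.1 _ y hy)).2
            have h5 := T2bv_len1 M.L x.1 y.1
            have h7 := hQ y hby
            omega
          rw [hpotF x hx0, h1, add_zero, hQ' x.1 (by omega), smul_zero]
    · exact ⟨0, fun h => absurd h hx0, fun h => absurd h hx0, fun _ => rfl⟩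
  choose F' hFa hFb hFc using hFex
  let FF : Ch M (ZG π) →ₗ[ZG π] ZG π := Finsupp.linearCombination (ZG π) F'
  have hFFs : ∀ x, FF (Finsupp.single x 1) = F' x := by
    intro x
    show Finsupp.linearCombination (ZG π) F' (Finsupp.single x 1) = _
    rw [Finsupp.linearCombination_single, one_smul]
  -- first claim
  have hcl1 : ∀ y : G × M.I, M.deg y.2 = 1 → n'' + 𝓛.ρ < M.L.l y.1 →
      S.mkQ (FF (opT M T M.D (Finsupp.single y 1))) = S.mkQ (b y) := by
    intro y hy hy1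
    rw [← hBs, hF4 y hy (by omega)]
    have h1 := T2bv_ext (S.mkQ ∘ₗ FF) (potF M T 𝓛 B p) (opT M T M.D (Finsupp.single y 1)) (by
      intro x hx
      obtain ⟨h2, h3⟩ := hDs y x hx
      rw [LinearMap.comp_apply, hFFs]
      exact hFa x (by omega))
    exact h1
  -- second claim
  have hcl2 : ∀ y : G × M.I, M.deg y.2 = 1 → n'' + M.u < M.L.l y.1 → M.L.l y.1 + M.u ≤ σ →
      FF (opT M T M.D (Finsupp.single y 1)) ∈ S0 := by
    intro y hy hy1 hy2
    obtain ⟨h1, h2, -⟩ := hL2 G M R 𝓛 π T y.1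
    have h5 : opT M T M.D (Finsupp.single y 1) = sh M T y.1 (row M.D (1, y.2)) := h2 M.D y.2
    rw [h1] at h5
    obtain ⟨c, hc⟩ : ∃ c, c = row M.D ((1 : G), y.2) := ⟨_, rfl⟩
    have haug : augZ M.e c = 0 := by
      rw [hc]
      exact T2bv_aug M y.2
    have hcs : ∀ x, c x ≠ 0 → M.deg x.2 = 0 ∧ M.L.l x.1 ≤ M.c ∧ M.L.l (y.1 * x.1) ≤ σ := by
      intro x hx
      rw [hc, CPD.row_apply] at hx
      have h7 : (M.D y.2 x.2).coeff x.1 ≠ 0 := by
        intro h8
        apply hx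
        show (M.D y.2 x.2).coeff (1⁻¹ * x.1) = 0
        rw [inv_one, one_mul, h8]
      have h8 := M.prop_D _ _ _ h7
      have h9 := M.resP.D_deg y.2 x.2 (by
        intro h10
        apply h7
        rw [h10]
        rfl)
      have h10 := M.L.mul y.1 x.1
      exact ⟨by omega, h8, by omega⟩
    rw [← hc] at h5
    have h6 : FF (opT M T M.D (Finsupp.single y 1)) =
        ∑ x ∈ c.support, (c x * M.e x.2) • (gr (T y.1 x.1) * s (m (y.1 * x.1))) := by
      rw [h5]
      unfold Finsupp.sum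
      rw [map_sum]
      refine Finset.sum_congr rfl (fun x hx => ?_)
      obtain ⟨h7, -, h8⟩ := hcs x (Finsupp.mem_support_iff.mp hx)
      show Finsupp.linearCombination (ZG π) F' (Finsupp.single (y.1 * x.1, x.2)
        (((c x : ℤ) : ZG π) * gr (T y.1 x.1))) = _
      rw [Finsupp.linearCombination_single, smul_eq_mul, hFb (y.1 * x.1, x.2) h7 h8]
      show ((c x : ℤ) : ZG π) * gr (T y.1 x.1) * (M.e x.2 • s (m (y.1 * x.1))) = _
      rw [mul_smul_comm, mul_assoc, ← zsmul_eq_mul, smul_smul, mul_comm (M.e x.2)]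
    have h9 : ∑ x ∈ c.support, (c x * M.e x.2) • s (m y.1) = 0 := by
      rw [← Finset.sum_smul]
      have h10 : ∑ x ∈ c.support, c x * M.e x.2 = 0 := haug
      rw [h10, zero_smul]
    have h11 : FF (opT M T M.D (Finsupp.single y 1)) =
        ∑ x ∈ c.support, (c x * M.e x.2) •
          (gr (T y.1 x.1) * s (m (y.1 * x.1)) - s (m y.1)) := by
      rw [h6, ← sub_zero (∑ x ∈ c.support, (c x * M.e x.2) •
        (gr (T y.1 x.1) * s (m (y.1 * x.1)))), ← h9, ← Finset.sum_sub_distrib]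
      refine Finset.sum_congr rfl (fun x _ => ?_)
      rw [smul_sub]
    rw [h11]
    refine Submodule.sum_mem _ (fun x hx => zsmul_mem ?_ _)
    obtain ⟨-, h7, -⟩ := hcs x (Finsupp.mem_support_iff.mp hx)
    have h8 := hpar y.1 x.1 (by omega) (by omega) (by omega)
    rw [← S0.neg_mem_iff, neg_sub]
    exact h8
  -- the lift
  obtain ⟨Qb, hQb⟩ : ∃ Qb, Qb = σ + Q' + Q + 𝓛.ρ + M.u := ⟨_, rfl⟩
  obtain ⟨b1, hb1d⟩ : ∃ b1, b1 = trunc M Qb (fun y => if M.deg y.2 = 1 ∧
      σ < M.L.l y.1 + 5 * M.u then FF (opT M T M.D (Finsupp.single y 1)) else 0) := ⟨_, rfl⟩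
  have hfar : ∀ y : G × M.I, Qb < M.L.l y.1 → FF (opT M T M.D (Finsupp.single y 1)) = 0 := by
    intro y hy
    apply T2bv_zero
    intro x hx
    obtain ⟨-, h3⟩ := hDs y x hx
    have h4 := T2bv_len1 M.L y.1 x.1
    rw [hFFs]
    exact hFc x (by omega)
  have hbv : ∀ y, b1 y = if M.L.l y.1 ≤ Qb then (if M.deg y.2 = 1 ∧
      σ < M.L.l y.1 + 5 * M.u then FF (opT M T M.D (Finsupp.single y 1)) else 0) else 0 := by
    intro y
    rw [hb1d]
    rfl
  have hbin : ∀ y : G × M.I, M.deg y.2 = 1 → σ < M.L.l y.1 + 5 * M.u →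
      b1 y = FF (opT M T M.D (Finsupp.single y 1)) := by
    intro y hy hy1
    rw [hbv]
    by_cases h1 : M.L.l y.1 ≤ Qb
    · rw [if_pos h1, if_pos ⟨hy, hy1⟩]
    · rw [if_neg h1, hfar y (by omega)]
  have hbout : ∀ y : G × M.I, ¬ (M.deg y.2 = 1 ∧ σ < M.L.l y.1 + 5 * M.u) → b1 y = 0 := by
    intro y hy
    rw [hbv]
    by_cases h1 : M.L.l y.1 ≤ Qb
    · rw [if_pos h1, if_neg hy]
    · rw [if_neg h1]
  refine ⟨b1, ?_, ?_, ?_⟩
  · intro y hy
    by_cases h1 : M.deg y.2 = 1 ∧ σ < M.L.l y.1 + 5 * M.u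
    · exact ⟨h1.1, by omega⟩
    · exact absurd (hbout y h1) hy
  · intro y
    by_cases h1 : M.deg y.2 = 1 ∧ σ < M.L.l y.1 + 5 * M.u
    · rw [← hmk0, map_sub, hbin y h1.1 h1.2, hcl1 y h1.1 (by omega), sub_self]
    · have h2 : b y = 0 := by
        by_contra h
        exact h1 ⟨(hb1 y h).1, by have := (hb1 y h).2; omega⟩
      rw [h2, hbout y h1, sub_self, ← hS]
      exact S.zero_mem
  · intro x hx hx1
    rw [← hS0]
    by_cases hx2 : M.L.l x.1 + 2 * M.u ≤ σ
    · refine T2bv_mem (Finsupp.linearCombination (ZG π) (fun y => b1 y)) S0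
        (opT M T M.D (Finsupp.single x 1)) (fun y hy => ?_)
      obtain ⟨h2, h3⟩ := hDs x y hy
      have h4 := T2bv_len2 M.L x.1 y.1
      rw [Finsupp.linearCombination_single, one_smul]
      by_cases h5 : M.deg y.2 = 1 ∧ σ < M.L.l y.1 + 5 * M.u
      · rw [hbin y h5.1 h5.2]
        exact hcl2 y h5.1 (by omega) (by omega)
      · rw [hbout y h5]
        exact S0.zero_mem
    · have hGV : GoodV (Λ := ZG π) M (tw T) {v | n < M.L.l v} := by
        intro v hv h h' hh hh'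
        have h20 : 20 * M.u ≤ 𝓛.kap := by
          unfold Loc.kap
          omega
        show uhom π (T v h) * uhom π (T (v * h) h') = uhom π (T v (h * h'))
        rw [← map_mul, hD.good v hv h h' (hh.trans h20) (hh'.trans h20)]
      obtain ⟨h61, -, h63⟩ := hF6 G M (ZG π) (tw T) _ hGV
      have hDD : opT M T M.D (opT M T M.D (Finsupp.single x 1)) = 0 := by
        have h1 := h61 M.D M.D (Finsupp.single x 1) M.prop_D M.prop_D (by
          intro z hz
          have h2 : x = z := by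
            by_contra h3
            exact hz (Finsupp.single_eq_of_ne (Ne.symm h3))
          rw [← h2]
          exact hx1)
        rw [M.resP.DD, h63] at h1
        exact h1
      have h1 := T2bv_ext (FF ∘ₗ opT M T M.D) (Finsupp.linearCombination (ZG π) (fun y => b1 y))
        (opT M T M.D (Finsupp.single x 1)) (by
          intro y hy
          obtain ⟨h2, h3⟩ := hDs x y hy
          have h4 := T2bv_len1 M.L x.1 y.1
          rw [LinearMap.comp_apply, Finsupp.linearCombination_single, one_smul,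
            hbin y (by omega) (by omega)])
      rw [LinearMap.comp_apply, hDD, map_zero] at h1
      show Finsupp.linearCombination (ZG π) (fun y => b1 y)
        (opT M T M.D (Finsupp.single x 1)) ∈ S0
      rw [← h1]
      exact S0.zero_mem

end Pool.Agent.SFG
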