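import Pool.Agent.SFG.StT

/-!
# [T2v] Torsion dies
-/

set_option autoImplicit false

namespace Pool.Agent.SFG

open Matrix Pool.Agent.CPD Pool.Agent.SPD

section

variable {G π : Type} [Group G] [Group π] {M : Pk G}

private theorem T2v_supp (T : G → G → π) (A : Matrix M.I M.I (ZG G)) (c : Ch M (ZG π))
    (y : G × M.I) (h : opT M T A c y ≠ 0) :
    ∃ x, c x ≠ 0 ∧ (A x.2 y.2).coeff (x.1⁻¹ * y.1) ≠ 0 := by
  by_contra hcon
  apply h
  have h1 : opT M T A c = c.sum fun x l => l • bl (Λ := ZG π) (tw T) x.1 (row A x) :=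
    Finsupp.linearCombination_apply _ _
  rw [h1, Finsupp.sum, Finsupp.finsetSum_apply]
  refine Finset.sum_eq_zero fun x hx => ?_
  have h2 : (A x.2 y.2).coeff (x.1⁻¹ * y.1) = 0 := by
    by_contra h3
    exact hcon ⟨x, Finsupp.mem_support_iff.1 hx, h3⟩
  rw [Finsupp.smul_apply, bl_apply, CPD.row_apply, h2, Int.cast_zero, zero_mul, smul_zero]

private theorem T2v_len (x y : G) : M.L.l x ≤ M.L.l y + M.L.l (x⁻¹ * y) := by
  have h1 : x = y * (x⁻¹ * y)⁻¹ := by group
  have h2 := M.L.mul y (x⁻¹ * y)⁻¹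
  rw [← h1, M.L.inv] at h2
  exact h2

/-- support and degree of the image of a chain -/
private theorem T2v_far (T : G → G → π) (A : Matrix M.I M.I (ZG G)) (hA : Five M A)
    (c : Ch M (ZG π)) (d d' k : ℕ) (hc : ∀ x, c x ≠ 0 → M.deg x.2 = d ∧ k < M.L.l x.1)
    (hd : ∀ i j, A i j ≠ 0 → M.deg i = d → M.deg j = d') :
    ∀ y, opT M T A c y ≠ 0 → M.deg y.2 = d' ∧ k < M.L.l y.1 + M.c := by
  intro y hy
  obtain ⟨x, hx, hxy⟩ := T2v_supp T A c y hy
  obtain ⟨h1, h2⟩ := hc x hx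
  refine ⟨hd x.2 y.2 ?_ h1, ?_⟩
  · intro h3
    apply hxy
    rw [h3]
    rfl
  · have h3 := hA _ _ _ hxy
    have h4 := T2v_len (M := M) x.1 y.1
    omega

private theorem T2v_good {R : ℕ} {𝓛 : Loc M R} {T : G → G → π} {n : ℕ}
    (h : ∀ v, n < M.L.l v → GoodT M.L T 𝓛.kap v) :
    GoodV M (Λ := ZG π) (tw T) {v | n < M.L.l v} := by
  intro v hv k k' hk hk'
  have hle : 20 * M.u ≤ 𝓛.kap := by
    unfold Loc.kap
    omega
  have h1 := h v hv k k' (hk.trans hle) (hk'.trans hle)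
  show uhom π (T v k) * uhom π (T (v * k) k') = uhom π (T v (k * k'))
  rw [← map_mul, h1]

private theorem T2v_zero (A : Subgroup π) (q : ℕ) : InI A q (star (0 : ZG π)) := by
  intro ξ
  rw [star_zero]
  have h1 : (0 : ZG π).coeff = 0 := rfl
  rw [h1, Finsupp.mapDomain_zero, Finsupp.zero_apply]
  exact dvd_zero _

end

theorem T2v (F0 : SPD.St_F0) (F6 : SPD.St_F6) (F9 : SPD.St_F9) (T1 : SPD.St_T1) (T2bv : St_T2bv) :
    St_T2v := by
  intro G α π _ _ f Rel M R 𝓛 N n0 n T hD hss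
  obtain ⟨n2, hn, hb⟩ := T2bv G α π f Rel M R 𝓛 N n0 n T hD hss
  refine ⟨n2 + 10 * M.u, by omega, ?_⟩
  intro A q z e hq hz he hJ
  obtain ⟨fD, fE, fPs, fPh, fh, fDt, fEt⟩ := (F0 G M (ZG π) (tw T)).1
  have hV := T2v_good hD.good
  obtain ⟨c6, a6, z6⟩ := F6 G M (ZG π) (tw T) {v | n < M.L.l v} hV
  obtain ⟨t1, t2, t3, -, -, t6, t7⟩ := T1 G π M A q
  obtain ⟨s1, -, s3, -, -, -, -⟩ := T1 G π M A 0
  have t5 := (T1 G π M A q).2.2.2.2.1
  have hu : M.u = M.c + 1 := rfl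
  -- the chain e1
  set e1 : Ch M (ZG π) := opT M T M.E e with he1
  have he' : ∀ x, e x ≠ 0 → x.1 ∈ {v | n < M.L.l v} := by
    intro x hx
    have := (he x hx).2
    show n < M.L.l x.1
    omega
  have se1 : ∀ y, e1 y ≠ 0 → M.deg y.2 = 2 ∧ n2 + 10 * M.u < M.L.l y.1 + M.c :=
    T2v_far T M.E fE e 2 2 _ he fun i j hij h2 => by rw [← M.resP.E_deg i j hij]; exact h2
  have se1' : ∀ y, e1 y ≠ 0 → M.deg y.2 = 2 ∧ n2 + 9 * M.u < M.L.l y.1 := fun y hy => by
    have h1 := se1 y hy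
    exact ⟨h1.1, by omega⟩
  have ve1 : ∀ x, e1 x ≠ 0 → x.1 ∈ {v | n < M.L.l v} := by
    intro x hx
    have := (se1' x hx).2
    show n < M.L.l x.1
    omega
  have hDe1 : opT M T M.D e1 = opT M T M.D e := by
    rw [he1, c6 M.E M.D e fE fD he', M.resP.ED]
  have hEe1 : opT M T M.E e1 = e1 := by
    rw [he1, c6 M.E M.E e fE fE he', M.resP.EE]
  -- the chain b
  set bh : Ch M (ZG π) := opT M T M.Ps e1 with hbh
  have sb : ∀ y, bh y ≠ 0 → M.deg y.2 = 1 ∧ n2 + 9 * M.u < M.L.l y.1 + M.c :=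
    T2v_far T M.Ps fPs e1 2 1 _ se1' fun i j hij h2 => by
      have := M.Ps_deg i j hij
      omega
  have sb' : ∀ y, bh y ≠ 0 → M.deg y.2 = 1 ∧ n2 < M.L.l y.1 := fun y hy => by
    have h1 := sb y hy
    exact ⟨h1.1, by omega⟩
  have hJD : JC A q (opT M T M.D e) := by
    have h1 := (t1 ((q : ℤ) • z) ((q : ℤ) • z - opT M T M.D e) (t7 z) (t2 _ hJ)).2
    rwa [sub_sub_cancel] at h1
  have hch : opT M T M.Dᴴ bh = opT M T M.Ps (opT M T M.D e1) := by
    rw [hbh, c6 M.Ps M.Dᴴ e1 fPs fDt ve1, c6 M.D M.Ps e1 fD fPs ve1, M.DPs]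
  have hJc : JC A q (opT M T M.Dᴴ bh) := by
    rw [hch, hDe1]
    exact t3 T M.Ps _ hJD
  have hEb : opT M T M.Eᴴ bh = bh := by
    rw [hbh, c6 M.Ps M.Eᴴ e1 fPs fEt ve1, M.PsE]
  have vb : ∀ (x : G × M.I) (y : G × M.I), bh y ≠ 0 → M.L.l (x.1⁻¹ * y.1) ≤ M.c →
      y.1 ∈ {v | n < M.L.l v} := by
    intro x y hy _
    have := (sb' y hy).2
    show n < M.L.l y.1
    omega
  let b : Ch M (ZG π) := bh.mapRange star (star_zero _)
  have hby : ∀ y, b y = star (bh y) := fun y => Finsupp.mapRange_apply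
  obtain ⟨b1, sb1, jb1, kb1⟩ := hb A q b hq
    (fun y hy => sb' y fun h0 => hy (by rw [hby, h0, star_zero]))
    (fun x _ _ => by
      have h1 := F9 G M (ZG π) (tw T) {v | n < M.L.l v} M.D bh x hV fD (vb x)
      have h2 : (fun y => b y) = fun y => star (bh y) := funext hby
      rw [h2]
      have h3 : pair (opT M T M.D (Finsupp.single x 1)) (fun y => star (bh y)) =
        star (opT M T M.Dᴴ bh x) := h1
      rw [h3]
      exact hJc x)
    (fun x _ _ => by
      have h1 := F9 G M (ZG π) (tw T) {v | n < M.L.l v} M.E bh x hV fE (vb x)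
      have h2 : (fun y => b y) = fun y => star (bh y) := funext hby
      rw [h2]
      have h3 : pair (opT M T M.E (Finsupp.single x 1)) (fun y => star (bh y)) =
        star (opT M T M.Eᴴ bh x) := h1
      rw [h3, hEb, hby])
  let b1h : Ch M (ZG π) := b1.mapRange star (star_zero _)
  have hb1 : ∀ y, b1h y = star (b1 y) := fun y => Finsupp.mapRange_apply
  have hb1' : ∀ y, star (b1h y) = b1 y := fun y => by rw [hb1, star_star]
  have sb1h : ∀ y, b1h y ≠ 0 → M.deg y.2 = 1 ∧ n + 10 * M.u < M.L.l y.1 := fun y hy =>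
    sb1 y fun h0 => hy (by rw [hb1, h0, star_zero])
  have vb1 : ∀ y, b1h y ≠ 0 → y.1 ∈ {v | n < M.L.l v} := by
    intro y hy
    have := (sb1h y hy).2
    show n < M.L.l y.1
    omega
  have jb : JC A q (bh - b1h) := by
    intro y
    rw [Finsupp.sub_apply, star_sub, hb1', ← hby]
    exact jb1 y
  have kb : JC A 0 (opT M T M.Dᴴ b1h) := by
    intro x
    by_cases hx : opT M T M.Dᴴ b1h x = 0
    · rw [hx]
      exact T2v_zero A 0
    · have h1 := T2v_far T M.Dᴴ fDt b1h 1 2 _ sb1h (fun i j hij h2 => by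
        have h3 : M.D j i ≠ 0 := by
          intro h4
          apply hij
          rw [Matrix.conjTranspose_apply, h4, star_zero]
        have h4 := M.resP.D_deg j i h3
        omega) x hx
      have h2 := kb1 x h1.1 (by omega)
      have h3 := F9 G M (ZG π) (tw T) {v | n < M.L.l v} M.D b1h x hV fD
        (fun y hy _ => vb1 y hy)
      have h4 : (fun y => b1 y) = fun y => star (b1h y) := funext fun y => (hb1' y).symm
      rw [h4] at h2
      have h5 : pair (opT M T M.D (Finsupp.single x 1)) (fun y => star (b1h y)) =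
        star (opT M T M.Dᴴ b1h x) := h3
      rw [h5] at h2
      exact h2
  -- the chain e2
  have hhom : opT M T M.Ph bh - e1 =
      opT M T M.D (opT M T M.h e1) + opT M T M.h (opT M T M.D e1) := by
    have h1 := (a6 (M.Ps * M.Ph) M.E e1).2
    have h2 := (a6 (M.h * M.D) (M.D * M.h) e1).1
    rw [M.homot, h2, ← c6 M.Ps M.Ph e1 fPs fPh ve1, ← c6 M.h M.D e1 fh fD ve1,
      ← c6 M.D M.h e1 fD fh ve1] at h1
    have h3 : op M (tw T) M.E e1 = e1 := hEe1
    rw [h3] at h1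
    exact h1.symm
  set e2 : Ch M (ZG π) := e1 - opT M T M.Ph b1h + opT M T M.D (opT M T M.h e1) with he2
  have he2' : e2 = opT M T M.Ph (bh - b1h) - opT M T M.h (opT M T M.D e1) := by
    rw [map_sub]
    have h1 : e1 = opT M T M.Ph bh -
        (opT M T M.D (opT M T M.h e1) + opT M T M.h (opT M T M.D e1)) := by
      rw [← hhom, sub_sub_cancel]
    rw [he2]
    nth_rewrite 1 [h1]
    abel
  have je2 : JC A q e2 := by
    rw [he2', hDe1]
    exact (t1 _ _ (t3 T M.Ph _ jb) (t3 T M.h _ hJD)).2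
  have she : ∀ y, opT M T M.h e1 y ≠ 0 → M.deg y.2 = 3 ∧ n2 + 9 * M.u < M.L.l y.1 + M.c :=
    T2v_far T M.h fh e1 2 3 _ se1' fun i j hij h2 => by
      have := M.h_deg i j hij
      omega
  have she' : ∀ y, opT M T M.h e1 y ≠ 0 → M.deg y.2 = 3 ∧ n2 + 8 * M.u < M.L.l y.1 :=
    fun y hy => by
      have h1 := she y hy
      exact ⟨h1.1, by omega⟩
  have hDe2 : opT M T M.D e2 = opT M T M.D e - opT M T M.Ph (opT M T M.Dᴴ b1h) := by
    rw [he2, map_add, map_sub, hDe1, c6 M.D M.D (opT M T M.h e1) fD fD (fun x hx => by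
      have := (she' x hx).2
      show n < M.L.l x.1
      omega), M.resP.DD, z6, add_zero, c6 M.Ph M.D b1h fPh fD vb1, c6 M.Dᴴ M.Ph b1h fDt fPh vb1,
      M.DPh]
  obtain ⟨e', je', se'⟩ := t6 e2 je2
  have hdD : ∀ i j, M.D i j ≠ 0 → M.deg i = 3 → M.deg j = 2 := fun i j hij h2 => by
    have := M.resP.D_deg i j hij
    omega
  refine ⟨e', fun x hx => ?_, ?_⟩
  · have h1 := se' x hx
    rw [he2, Finsupp.add_apply, Finsupp.sub_apply] at h1
    by_cases h2 : e1 x = 0
    · by_cases h3 : opT M T M.Ph b1h x = 0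
      · have h4 : opT M T M.D (opT M T M.h e1) x ≠ 0 := by
          intro h5
          apply h1
          rw [h2, h3, h5]
          simp
        have h5 := T2v_far T M.D fD _ 3 2 _ she' hdD x h4
        exact ⟨h5.1, by omega⟩
      · have h5 := T2v_far T M.Ph fPh b1h 1 2 _ sb1h (fun i j hij h2 => by
          have := M.Ph_deg i j hij
          omega) x h3
        exact ⟨h5.1, by omega⟩
    · have h5 := se1' x h2
      exact ⟨h5.1, by omega⟩
  · apply t5 _ hq
    have h1 : (q : ℤ) • (z - opT M T M.D e') = ((q : ℤ) • z - opT M T M.D e) +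
        (opT M T M.D e - opT M T M.D e2) + opT M T M.D (e2 - (q : ℤ) • e') := by
      rw [map_sub, map_zsmul, smul_sub]
      abel
    rw [h1]
    refine (s1 _ _ ((s1 _ _ hJ ?_).1) (s3 T M.D _ je')).1
    rw [hDe2, sub_sub_cancel]
    exact s3 T M.Ph _ kb

end Pool.Agent.SFG
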