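import Pool.Agent.SFG.StT

/-!
# [T3v] A loop whose chain is a boundary modulo `A` is a commutator
-/

set_option autoImplicit false

namespace Pool.Agent.SFG

open Matrix Pool.Agent.CPD Pool.Agent.SPD

section T3vsec

variable {G π : Type} [Group G] [Group π]

private theorem T3v_au_single (g : π) (n : ℤ) : au (MonoidAlgebra.single g n : ZG π) = n := by
  unfold au
  rw [MonoidAlgebra.lift_single]
  simp

private theorem T3v_au_gr (g : π) : au (gr g) = 1 := T3v_au_single g 1

private theorem T3v_star_gr (g : π) : star (gr g) = gr g⁻¹ := gs_single g 1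

/-- the class of an element of `A` -/
private def T3v_cl (A : Subgroup π) (a : A) : Additive (Abelianization A) :=
  Additive.ofMul (Abelianization.of a)

private theorem T3v_cl_mul (A : Subgroup π) (a b : A) :
    T3v_cl A (a * b) = T3v_cl A a + T3v_cl A b := by
  unfold T3v_cl
  rw [map_mul, ofMul_mul]

private theorem T3v_ex (A : Subgroup π) : ∃ ψ : π → Additive (Abelianization A),
    ∀ (a : A) (g : π), ψ ((a : π) * g) = T3v_cl A a + ψ g := by
  classical
  have hs : ∀ g : π, g * ((Quotient.mk (QuotientGroup.rightRel A) g).out)⁻¹ ∈ A := by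
    intro g
    have h1 := Quotient.mk_out (s := QuotientGroup.rightRel A) g
    exact QuotientGroup.rightRel_apply.1 h1
  refine ⟨fun g => T3v_cl A ⟨g * ((Quotient.mk (QuotientGroup.rightRel A) g).out)⁻¹, hs g⟩, ?_⟩
  intro a g
  have h1 : Quotient.mk (QuotientGroup.rightRel A) ((a : π) * g) =
      Quotient.mk (QuotientGroup.rightRel A) g := by
    apply Quotient.sound
    show (QuotientGroup.rightRel A) ((a : π) * g) g
    rw [QuotientGroup.rightRel_apply, _root_.mul_inv_rev, mul_inv_cancel_left]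
    exact A.inv_mem a.2
  rw [← T3v_cl_mul]
  refine congrArg (T3v_cl A) (Subtype.ext ?_)
  show (a : π) * g * ((Quotient.mk (QuotientGroup.rightRel A) ((a : π) * g)).out)⁻¹ =
    (a : π) * (g * ((Quotient.mk (QuotientGroup.rightRel A) g).out)⁻¹)
  rw [h1, mul_assoc]

/-- the additive extension of `ψ` to the group ring -/
private noncomputable def T3v_Psi {B : Type} [AddCommGroup B] (ψ : π → B) : ZG π →+ B where
  toFun m := Finsupp.linearCombination ℤ ψ m.coeff
  map_zero' := by rw [MonoidAlgebra.coeff_zero, map_zero]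
  map_add' a b := by rw [MonoidAlgebra.coeff_add, map_add]

private theorem T3v_Psi_single {B : Type} [AddCommGroup B] (ψ : π → B) (g : π) (n : ℤ) :
    T3v_Psi ψ (MonoidAlgebra.single g n) = n • ψ g := by
  show Finsupp.linearCombination ℤ ψ (MonoidAlgebra.single g n : ZG π).coeff = n • ψ g
  rw [MonoidAlgebra.coeff_single, Finsupp.linearCombination_single]

private theorem T3v_Psi_gr {A : Subgroup π} {ψ : π → Additive (Abelianization A)}
    (hψ : ∀ (a : A) (g : π), ψ ((a : π) * g) = T3v_cl A a + ψ g) (a : A) (m : ZG π) :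
    T3v_Psi ψ (gr (a : π) * m) = T3v_Psi ψ m + au m • T3v_cl A a := by
  induction m using MonoidAlgebra.induction_linear with
  | zero => rw [mul_zero, map_zero, map_zero, zero_smul, add_zero]
  | add x y hx hy => rw [mul_add, map_add, map_add, map_add, hx, hy, add_smul]; abel
  | single g n =>
    have h1 : gr (a : π) * (MonoidAlgebra.single g n : ZG π) =
        MonoidAlgebra.single ((a : π) * g) n := by
      unfold gr
      rw [MonoidAlgebra.single_mul_single, one_mul]
    rw [h1, T3v_Psi_single, T3v_Psi_single, hψ, T3v_au_single, smul_add, add_comm]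

/-- the additive function on chains -/
private noncomputable def T3v_F (M : Pk G) {B : Type} [AddCommGroup B] (ψ : π → B) :
    Ch M (ZG π) →+ B :=
  Finsupp.liftAddHom (fun x : G × M.I => M.e x.2 • T3v_Psi ψ)

private theorem T3v_F_single (M : Pk G) {B : Type} [AddCommGroup B] (ψ : π → B) (x : G × M.I)
    (m : ZG π) : T3v_F M ψ (Finsupp.single x m) = M.e x.2 • T3v_Psi ψ m := by
  unfold T3v_F
  rw [Finsupp.liftAddHom_apply_single]
  rfl

/-- the augmentation of chains -/
private noncomputable def T3v_aug (π : Type) [Group π] (M : Pk G) : Ch M (ZG π) →+ ℤ :=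
  Finsupp.liftAddHom (fun x : G × M.I => M.e x.2 • (au : ZG π →ₐ[ℤ] ℤ).toRingHom.toAddMonoidHom)

private theorem T3v_aug_single (M : Pk G) (x : G × M.I) (m : ZG π) :
    T3v_aug π M (Finsupp.single x m) = M.e x.2 * au m := by
  unfold T3v_aug
  rw [Finsupp.liftAddHom_apply_single]
  rfl

private theorem T3v_aug_smul (M : Pk G) (m : ZG π) (c : Ch M (ZG π)) :
    T3v_aug π M (m • c) = au m * T3v_aug π M c := by
  induction c using Finsupp.induction_linear with
  | zero => rw [smul_zero, map_zero, mul_zero]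
  | add x y hx hy => rw [smul_add, map_add, map_add, hx, hy, mul_add]
  | single x l =>
    rw [Finsupp.smul_single, smul_eq_mul, T3v_aug_single, T3v_aug_single, map_mul]
    ring

private theorem T3v_F_gr (M : Pk G) {A : Subgroup π} {ψ : π → Additive (Abelianization A)}
    (hψ : ∀ (a : A) (g : π), ψ ((a : π) * g) = T3v_cl A a + ψ g) (a : A) (c : Ch M (ZG π)) :
    T3v_F M ψ (gr (a : π) • c) = T3v_F M ψ c + T3v_aug π M c • T3v_cl A a := by
  induction c using Finsupp.induction_linear with
  | zero => rw [smul_zero, map_zero, map_zero, zero_smul, add_zero]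
  | add x y hx hy => rw [smul_add, map_add, map_add, map_add, hx, hy, add_smul]; abel
  | single x l =>
    rw [Finsupp.smul_single, smul_eq_mul, T3v_F_single, T3v_F_single, T3v_Psi_gr hψ, T3v_aug_single,
      smul_add, mul_smul]

/-- the augmentation of a lifted chain -/
private theorem T3v_aug_sh (hL2 : SPD.St_L2) (M : Pk G) {R : ℕ} (𝓛 : Loc M R) (T : G → G → π) (v : G)
    (c : (G × M.I) →₀ ℤ) : T3v_aug π M (sh M T v c) = augZ M.e c := by
  obtain ⟨h1, -⟩ := hL2 G M R 𝓛 π T v
  rw [h1, Finsupp.sum, map_sum]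
  unfold augZ
  rw [Finsupp.sum]
  refine Finset.sum_congr rfl fun x _ => ?_
  rw [T3v_aug_single, map_mul, T3v_au_gr, mul_one, map_intCast, mul_comm]
  rfl

private theorem T3v_augZ_row (M : Pk G) (j : M.I) : augZ M.e (CPD.row M.D ((1 : G), j)) = 0 := by
  classical
  have h1 : ∀ c c' : (G × M.I) →₀ ℤ, augZ M.e (c + c') = augZ M.e c + augZ M.e c' := by
    intro c c'
    unfold augZ
    exact Finsupp.sum_add_index' (fun _ => zero_mul _) (fun _ _ _ => add_mul _ _ _)
  have h0 : augZ M.e (0 : (G × M.I) →₀ ℤ) = 0 := Finsupp.sum_zero_index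
  have h2 : ∀ (s : Finset M.I) (F : M.I → (G × M.I) →₀ ℤ), augZ M.e (∑ i ∈ s, F i) =
      ∑ i ∈ s, augZ M.e (F i) := by
    intro s F
    induction s using Finset.induction_on with
    | empty => rw [Finset.sum_empty, Finset.sum_empty, h0]
    | insert a s ha ih => rw [Finset.sum_insert ha, Finset.sum_insert ha, h1, ih]
  unfold CPD.row
  rw [h2, ← M.resP.De j]
  refine Finset.sum_congr rfl fun i _ => ?_
  unfold augZ
  rw [Finsupp.sum_mapDomain_index (fun _ => zero_mul _) (fun _ _ _ => add_mul _ _ _)]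
  have h3 : ∀ a : ZG G, au a = a.coeff.sum (fun _ n => n) := by
    intro a
    induction a using MonoidAlgebra.induction_linear with
    | zero => rw [map_zero, MonoidAlgebra.coeff_zero, Finsupp.sum_zero_index]
    | add x y hx hy =>
      rw [map_add, hx, hy, MonoidAlgebra.coeff_add,
        Finsupp.sum_add_index' (fun _ => rfl) (fun _ _ _ => rfl)]
    | single g n =>
      rw [MonoidAlgebra.coeff_single, Finsupp.sum_single_index rfl]
      unfold au
      rw [MonoidAlgebra.lift_single]
      simp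
  rw [h3, Finsupp.sum_mul]

private theorem T3v_aug_D (hL2 : SPD.St_L2) (M : Pk G) {R : ℕ} (𝓛 : Loc M R) (T : G → G → π)
    (x : G × M.I) : T3v_aug π M (opT M T M.D (Finsupp.single x 1)) = 0 := by
  obtain ⟨-, h2, -⟩ := hL2 G M R 𝓛 π T x.1
  have h3 := h2 M.D x.2
  rw [Prod.mk.eta] at h3
  rw [h3, T3v_aug_sh hL2 M 𝓛, T3v_augZ_row]

end T3vsec

/-- [T3v] A loop whose chain is a boundary modulo `A` is a commutator. -/
theorem T3v (hL2 : SPD.St_L2) (hL5 : SPD.St_L5) (hF6 : SPD.St_F6) (hT0 : SPD.St_T0) :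
    St_T3v := by
  intro G α π _ _ f Rel M R 𝓛 N n0 n T dat A v w e' hval hav hA he' hJ
  classical
  obtain ⟨ψ, hψ⟩ := T3v_ex A
  -- (iii) `F` vanishes on the boundaries of the chains in `JC A 0`
  obtain ⟨-, -, -, -, -, hclos, -⟩ := hT0 π A 0
  have hstar : ∀ (c : Ch M (ZG π)), T3v_aug π M c = 0 → ∀ m : ZG π, InI A 0 (star m) →
      T3v_F M ψ (m • c) = 0 := by
    intro c hc m hm
    have h1 : ∀ m' ∈ AddSubgroup.closure {x : ZG π | ∃ (g : π), ∃ a ∈ A,
        x = gr g * gr a - gr g}, T3v_F M ψ (star m' • c) = 0 := by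
      intro m' hm'
      induction hm' using AddSubgroup.closure_induction with
      | mem x hx =>
        obtain ⟨g, a, ha, rfl⟩ := hx
        have h2 : star (gr g * gr a - gr g) • c = gr a⁻¹ • (gr g⁻¹ • c) - gr g⁻¹ • c := by
          rw [star_sub, star_mul, T3v_star_gr, T3v_star_gr, sub_smul, mul_smul]
        have h3 := T3v_F_gr M hψ ⟨a⁻¹, A.inv_mem ha⟩ (gr g⁻¹ • c)
        rw [h2, map_sub]
        change T3v_F M ψ (gr a⁻¹ • (gr g⁻¹ • c)) = _ at h3
        rw [h3, T3v_aug_smul, hc, mul_zero, zero_smul, add_zero, sub_self]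
      | zero => rw [star_zero, zero_smul, map_zero]
      | add x y _ _ hx hy => rw [star_add, add_smul, map_add, hx, hy, add_zero]
      | neg x _ hx => rw [star_neg, neg_smul, map_neg, hx, neg_zero]
    have h2 := h1 (star m) (hclos (star m) hm)
    rw [star_star] at h2
    exact h2
  have hFD : ∀ j : Ch M (ZG π), JC A 0 j → T3v_F M ψ (opT M T M.D j) = 0 := by
    intro j hj
    have h1 : j = ∑ y ∈ j.support, Finsupp.single y (j y) := by
      conv_lhs => rw [← Finsupp.sum_single j]
      rfl
    rw [h1, map_sum, map_sum]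
    refine Finset.sum_eq_zero fun y _ => ?_
    have h2 : opT M T M.D (Finsupp.single y (j y)) =
        j y • opT M T M.D (Finsupp.single y 1) := by
      rw [← map_smul, Finsupp.smul_single, smul_eq_mul, mul_one]
    rw [h2]
    exact hstar _ (T3v_aug_D hL2 M 𝓛 T y) _ (hj y)
  -- the boundary of the chain of the word
  obtain ⟨-, hbd, -, -⟩ := hL5 G α f M R 𝓛 π T n dat.base.len dat.good
  have h1 := hbd v w hav
  rw [hval, mul_one] at h1
  -- `D (D e') = 0`
  have hgood : GoodV M (tw T) {g : G | n < M.L.l g} := by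
    intro g hg h h' hh hh'
    have hk : 20 * M.u ≤ 𝓛.kap := by
      unfold Loc.kap
      omega
    have h2 := dat.good g hg h h' (hh.trans hk) (hh'.trans hk)
    show uhom π (T g h) * uhom π (T (g * h) h') = uhom π (T g (h * h'))
    rw [← map_mul, h2]
  obtain ⟨h6a, -, h6c⟩ := hF6 G M (ZG π) (tw T) {g : G | n < M.L.l g} hgood
  have h2 : opT M T M.D (opT M T M.D e') = 0 := by
    have h3 := h6a M.D M.D e' M.prop_D M.prop_D (fun x hx => (he' x hx).2)
    rw [M.resP.DD] at h3
    exact h3.trans (h6c e')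
  have h3 := hFD _ hJ
  rw [map_sub, h2, sub_zero, h1, map_sub, T3v_F_gr M hψ ⟨_, hA⟩, T3v_aug_sh hL2 M 𝓛, 𝓛.o_aug,
    one_smul] at h3
  have h4 : T3v_cl A ⟨hol f (lab f T) v w, hA⟩ = 0 := by
    have h5 : T3v_F M ψ (sh M T v 𝓛.o) - (T3v_F M ψ (sh M T v 𝓛.o) +
        T3v_cl A ⟨hol f (lab f T) v w, hA⟩) = -T3v_cl A ⟨hol f (lab f T) v w, hA⟩ := by abel
    rw [h5] at h3
    exact neg_eq_zero.1 h3
  have h5 : Abelianization.of (⟨hol f (lab f T) v w, hA⟩ : A) = 1 := h4
  have h6 : (⟨hol f (lab f T) v w, hA⟩ : A) ∈ commutator A := by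
    rw [← Abelianization.ker_of]
    exact h5
  have h7 : (commutator A).map A.subtype = ⁅A, A⁆ := Subgroup.map_subtype_commutator A
  rw [← h7]
  exact ⟨_, h6, rfl⟩

end Pool.Agent.SFG
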