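import Pool.Agent.SFG.StH

/-!
# SFG TB: the augmentation of chains modulo a subgroup
-/

set_option autoImplicit false

namespace Pool.Agent.SFG

open Matrix Pool.Agent.CPD Pool.Agent.SPD

private theorem TB_au_gr {π : Type} [Group π] (g : π) : au (gr g) = 1 := by
  show MonoidAlgebra.lift ℤ ℤ π 1 (MonoidAlgebra.single g (1 : ℤ)) = 1
  rw [MonoidAlgebra.lift_single]
  simp

private theorem TB_au_int {π : Type} [Group π] (n : ℤ) : au ((n : ℤ) : ZG π) = n := by
  simp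

private theorem TB_au_sum {G : Type} [Group G] (a : ZG G) : au a = a.coeff.sum (fun _ n => n) := by
  show MonoidAlgebra.lift ℤ ℤ G 1 a = _
  rw [MonoidAlgebra.lift_apply]
  refine Finsupp.sum_congr fun g _ => ?_
  simp

/-- the value of the augmentation map on a lifted chain -/
private theorem TB_mu {G π : Type} [Group G] [Group π] (M : Pk G) (T : G → G → π)
    (μ : Ch M (ZG π) →ₗ[ZG π] ZG π)
    (hμ : ∀ x : G × M.I, μ (Finsupp.single x 1) = ((M.e x.2 : ℤ) : ZG π))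
    (v : G) (c : (G × M.I) →₀ ℤ)
    (h1 : sh M T v c =
      c.sum (fun x n => Finsupp.single (v * x.1, x.2) ((n : ZG π) * gr (T v x.1)))) :
    μ (sh M T v c) = c.sum (fun x n => ((n * M.e x.2 : ℤ) : ZG π) * gr (T v x.1)) := by
  rw [h1, Finsupp.sum, map_sum, Finsupp.sum]
  refine Finset.sum_congr rfl fun x _ => ?_
  have h2 : (Finsupp.single (v * x.1, x.2) ((c x : ZG π) * gr (T v x.1)) : Ch M (ZG π)) =
      ((c x : ZG π) * gr (T v x.1)) • Finsupp.single (v * x.1, x.2) 1 := by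
    rw [Finsupp.smul_single, smul_eq_mul, mul_one]
  rw [h2, map_smul, hμ, smul_eq_mul, Int.cast_mul, mul_assoc, mul_assoc]
  congr 1
  exact (Int.cast_commute (M.e x.2) (gr (T v x.1))).eq.symm

private theorem TB_aug_row {G : Type} [Group G] (M : Pk G) (j : M.I) :
    augZ M.e (row M.D (1, j)) = 0 := by
  classical
  have key : ∀ (b : M.I) (c : G →₀ ℤ),
      augZ M.e (c.mapDomain (fun h => ((1 : G) * h, b))) = c.sum (fun _ n => n) * M.e b := by
    intro b c
    unfold augZ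
    rw [Finsupp.sum_mapDomain_index]
    · rw [Finsupp.sum, Finsupp.sum, Finset.sum_mul]
    · intro x
      rw [zero_mul]
    · intro x m n
      rw [add_mul]
  have hadd : ∀ c c' : (G × M.I) →₀ ℤ, augZ M.e (c + c') = augZ M.e c + augZ M.e c' := by
    intro c c'
    unfold augZ
    rw [Finsupp.sum_add_index']
    · intro x
      rw [zero_mul]
    · intro x m n
      rw [add_mul]
  have h0 : augZ M.e (0 : (G × M.I) →₀ ℤ) = 0 := by
    unfold augZ
    rw [Finsupp.sum_zero_index]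
  have hsum : ∀ (s : Finset M.I) (F : M.I → ((G × M.I) →₀ ℤ)),
      augZ M.e (∑ b ∈ s, F b) = ∑ b ∈ s, augZ M.e (F b) := by
    intro s F
    induction s using Finset.induction_on with
    | empty => rw [Finset.sum_empty, Finset.sum_empty, h0]
    | insert a s ha ih => rw [Finset.sum_insert ha, Finset.sum_insert ha, hadd, ih]
  unfold CPD.row
  rw [hsum]
  have h1 : ∀ b, augZ M.e ((M.D j b).coeff.mapDomain (fun h => ((1 : G) * h, b))) =
      au (M.D j b) * M.e b := by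
    intro b
    rw [key, TB_au_sum]
  rw [Finset.sum_congr rfl fun b _ => h1 b]
  exact M.resP.De j

theorem TB (hL2 : St_L2) (hT0 : St_T0) : St_TB := by
  intro G π _ _ M R 𝓛 T a r B hB
  have hfin : {t : π | ∃ v g, (M.L.l v ≤ r ∨ v = a) ∧ M.L.l g ≤ 𝓛.ρ ∧ t = T v g}.Finite := by
    have h1 : (({v | M.L.l v ≤ r} ∪ {a}) ×ˢ {g | M.L.l g ≤ 𝓛.ρ}).Finite :=
      ((M.L.fin r).union (Set.finite_singleton a)).prod (M.L.fin 𝓛.ρ)
    refine (h1.image (fun p : G × G => T p.1 p.2)).subset ?_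
    rintro t ⟨v, g, hv, hg, rfl⟩
    exact ⟨(v, g), ⟨hv, hg⟩, rfl⟩
  refine ⟨B ⊔ Subgroup.closure
    {t : π | ∃ v g, (M.L.l v ≤ r ∨ v = a) ∧ M.L.l g ≤ 𝓛.ρ ∧ t = T v g}, le_sup_left, ?_, ?_⟩
  · obtain ⟨S, hS, hSf⟩ := (Subgroup.fg_iff B).1 hB
    rw [← hS, ← Subgroup.closure_union]
    exact (Subgroup.fg_iff _).2 ⟨_, rfl, hSf.union hfin⟩
  · intro μ hμ
    obtain ⟨⟨S, hS⟩, -, -, -, h5, -, -⟩ := hT0 π (B ⊔ Subgroup.closure
      {t : π | ∃ v g, (M.L.l v ≤ r ∨ v = a) ∧ M.L.l g ≤ 𝓛.ρ ∧ t = T v g}) 0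
    have hmem : ∀ v g, (M.L.l v ≤ r ∨ v = a) → M.L.l g ≤ 𝓛.ρ → T v g ∈ B ⊔ Subgroup.closure
        {t : π | ∃ v g, (M.L.l v ≤ r ∨ v = a) ∧ M.L.l g ≤ 𝓛.ρ ∧ t = T v g} := fun v g hv hg =>
      (le_sup_right : _ ≤ B ⊔ Subgroup.closure _)
        (Subgroup.subset_closure ⟨v, g, hv, hg, rfl⟩)
    have hgen : ∀ v, (M.L.l v ≤ r ∨ v = a) → ∀ c : (G × M.I) →₀ ℤ,
        (∀ x, c x ≠ 0 → M.L.l x.1 ≤ 𝓛.ρ) →
        μ (sh M T v c) - ((augZ M.e c : ℤ) : ZG π) ∈ S := by
      intro v hv c hc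
      rw [TB_mu M T μ hμ v c ((hL2 G M R 𝓛 π T v).1 c)]
      unfold augZ
      rw [Finsupp.sum, Finsupp.sum, Int.cast_sum, ← Finset.sum_sub_distrib]
      refine S.sum_mem fun x hx => ?_
      rw [hS]
      exact h5 _ (hmem v x.1 hv (hc x (Finsupp.mem_support_iff.1 hx))) _
    refine ⟨?_, ?_, ?_⟩
    · rintro ⟨v, j⟩
      rw [(hL2 G M R 𝓛 π T v).2.1 M.D j, TB_mu M T μ hμ v _ ((hL2 G M R 𝓛 π T v).1 _),
        Finsupp.sum, map_sum]
      have h1 : ∀ x ∈ (row M.D (1, j)).support,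
          au ((((row M.D (1, j)) x * M.e x.2 : ℤ) : ZG π) * gr (T v x.1)) =
            (row M.D (1, j)) x * M.e x.2 := by
        intro x _
        rw [map_mul, TB_au_gr, TB_au_int, mul_one]
      rw [Finset.sum_congr rfl h1]
      exact TB_aug_row M j
    · rintro ⟨v, j⟩ hv
      rw [(hL2 G M R 𝓛 π T v).2.1 M.D j, ← hS]
      have h1 := hgen v (Or.inl hv) (row M.D (1, j)) (by
        intro x hx
        rw [CPD.row_apply] at hx
        have h2 := M.prop_D _ _ _ hx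
        have h3 : M.L.l ((1 : G)⁻¹ * x.1) = M.L.l x.1 := by rw [inv_one, one_mul]
        have h4 := 𝓛.hR
        unfold Pk.u at h4
        have h5 : M.L.l x.1 ≤ M.c := by
          rw [← h3]
          exact h2
        omega)
      rw [TB_aug_row, Int.cast_zero, sub_zero] at h1
      exact h1
    · rw [← hS]
      have h1 := hgen a (Or.inr rfl) 𝓛.o (by
        intro x hx
        have h2 := (𝓛.o_supp x hx).2
        have h4 := 𝓛.hR
        omega)
      rw [𝓛.o_aug, Int.cast_one] at h1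
      exact h1

end Pool.Agent.SFG
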