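import Pool.Agent.SFG.StH

/-!
# TEL : locally finite cycles of degree one bound (telescoping)
-/

set_option autoImplicit false

namespace Pool.Agent.SFG

open Matrix Pool.Agent.CPD Pool.Agent.SPD

/-- The radii. -/
private def TEL_N (nn : ℕ → ℕ) (n1 : ℕ) : ℕ → ℕ
  | 0 => n1
  | i + 1 => nn (TEL_N nn n1 i) + 1

/-- The sum of locally finitely many maps. -/
private theorem TEL_sum {Λ C W : Type} [Ring Λ] [AddCommGroup W] [Module Λ W]
    (l : C → ℕ) (vs : ℕ → ((C →₀ Λ) →ₗ[Λ] W))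
    (hv : ∀ i x, vs i (Finsupp.single x 1) ≠ 0 → i < l x) :
    ∃ v : (C →₀ Λ) →ₗ[Λ] W,
      (∀ x, v (Finsupp.single x 1) ≠ 0 → ∃ i, vs i (Finsupp.single x 1) ≠ 0) ∧
      ∀ (k : ℕ) (a : C →₀ Λ), (∀ x, a x ≠ 0 → l x ≤ k) →
        v a = ∑ i ∈ Finset.range k, vs i a := by
  refine ⟨Finsupp.linearCombination Λ
    (fun x => ∑ i ∈ Finset.range (l x), vs i (Finsupp.single x 1)), ?_, ?_⟩
  · intro x hx
    rw [Finsupp.linearCombination_single, one_smul] at hx
    obtain ⟨i, _, hi⟩ := Finset.exists_ne_zero_of_sum_ne_zero hx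
    exact ⟨i, hi⟩
  · intro k a ha
    have h1 : ∀ i, vs i a = ∑ x ∈ a.support, a x • vs i (Finsupp.single x 1) := by
      intro i
      conv_lhs => rw [← Finsupp.sum_single a, Finsupp.sum, map_sum]
      refine Finset.sum_congr rfl fun x _ => ?_
      rw [← map_smul, Finsupp.smul_single, smul_eq_mul, mul_one]
    rw [Finsupp.linearCombination_apply, Finsupp.sum, Finset.sum_congr rfl fun i _ => h1 i,
      Finset.sum_comm]
    refine Finset.sum_congr rfl fun x hx => ?_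
    rw [← Finset.smul_sum]
    congr 1
    refine Finset.sum_subset (Finset.range_subset_range.2 (ha x (Finsupp.mem_support_iff.1 hx))) ?_
    intro i _ hi
    by_contra h
    exact hi (Finset.mem_range.2 (hv i x h))

theorem TEL (hF0 : SPD.St_F0) (hPSH : St_PSH) : St_TEL := by
  classical
  intro G α π _ _ f Rel M R 𝓛 n T hDc hS n1 hn1
  choose! nn hnn hP using hPSH G α π f Rel M R 𝓛 n T hDc hS
  set N := TEL_N nn n1 with hN
  have hN0 : N 0 = n1 := rfl
  have hNs : ∀ i, N (i + 1) = nn (N i) + 1 := fun i => rfl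
  have hNn : ∀ i, n + 100 * M.u ≤ N i := by
    intro i
    induction i with
    | zero => exact hn1
    | succ i ih =>
      have := hnn (N i) ih
      rw [hNs]
      omega
  have hNi : ∀ i, n1 + i ≤ N i := by
    intro i
    induction i with
    | zero => exact le_rfl
    | succ i ih =>
      have := hnn (N i) (hNn i)
      rw [hNs]
      omega
  refine ⟨N 1, by have := hNi 1; omega, ?_⟩
  intro W _ _ z hz1 hz2 hz3
  -- the invariant
  let Inv : ℕ → (Ch M (ZG π) →ₗ[ZG π] W) → Prop := fun i z' =>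
    (∀ y : G × M.I, z' (Finsupp.single y 1) ≠ 0 → M.deg y.2 = 1 ∧ N (i + 1) < M.L.l y.1) ∧
    (∀ x : G × M.I, z' (opT M T M.Dᴴ (Finsupp.single x 1)) = 0) ∧
    (∀ y : G × M.I, z' (opT M T M.Eᴴ (Finsupp.single y 1)) = z' (Finsupp.single y 1))
  have step : ∀ (i : ℕ) (z' : Ch M (ZG π) →ₗ[ZG π] W), Inv i z' →
      ∃ v : Ch M (ZG π) →ₗ[ZG π] W,
        (∀ x : G × M.I, v (Finsupp.single x 1) ≠ 0 → M.deg x.2 = 2 ∧ N i < M.L.l x.1) ∧
        Inv (i + 1) (z' - v ∘ₗ opT M T M.Dᴴ) := by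
    intro i z' hz'
    obtain ⟨v, hv1, hv2, hv3, hv4⟩ := hP (N i) (hNn i) W z' (fun y hy => by
      have h := hz'.1 y hy
      rw [hNs] at h
      exact ⟨h.1, by omega⟩) hz'.2.1 hz'.2.2 (N (i + 2))
    exact ⟨v, hv1, hv2, hv3, hv4⟩
  choose! F hF1 hF2 using step
  let zs : ℕ → (Ch M (ZG π) →ₗ[ZG π] W) := fun i =>
    Nat.rec z (fun i zi => zi - (F i zi) ∘ₗ opT M T M.Dᴴ) i
  have hzs0 : zs 0 = z := rfl
  have hzss : ∀ i, zs (i + 1) = zs i - (F i (zs i)) ∘ₗ opT M T M.Dᴴ := fun i => rfl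
  have hInv : ∀ i, Inv i (zs i) := by
    intro i
    induction i with
    | zero => exact ⟨hz1, hz2, hz3⟩
    | succ i ih =>
      rw [hzss]
      exact hF2 i (zs i) ih
  obtain ⟨v, hv1, hv2⟩ := TEL_sum (fun x : G × M.I => M.L.l x.1) (fun i => F i (zs i))
    (fun i x hx => by
      have h := (hF1 i (zs i) (hInv i) x hx).2
      have h' := hNi i
      show i < M.L.l x.1
      omega)
  refine ⟨v, ?_, ?_⟩
  · intro x hx
    obtain ⟨i, hi⟩ := hv1 x hx
    have h := hF1 i (zs i) (hInv i) x hi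
    have h' := hNi i
    exact ⟨h.1, by omega⟩
  · intro y
    have hF := hF0 G M (ZG π) (tw T)
    have hsupp : ∀ x : G × M.I, opT M T M.Dᴴ (Finsupp.single y 1) x ≠ 0 →
        M.L.l x.1 ≤ M.L.l y.1 + M.c := by
      intro x hx
      have h1 := hF.2.1 M.Dᴴ y x hx
      have h2 := hF.1.2.2.2.2.2.1 y.2 x.2 _ h1
      have h3 := M.L.mul y.1 (y.1⁻¹ * x.1)
      rw [mul_inv_cancel_left] at h3
      omega
    rw [hv2 (M.L.l y.1 + M.c) _ hsupp]
    have h4 : ∀ k, ∑ i ∈ Finset.range k, F i (zs i) (opT M T M.Dᴴ (Finsupp.single y 1)) =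
        z (Finsupp.single y 1) - zs k (Finsupp.single y 1) := by
      intro k
      induction k with
      | zero => rw [Finset.sum_range_zero, hzs0, sub_self]
      | succ k ih =>
        rw [Finset.sum_range_succ, ih, hzss, LinearMap.sub_apply, LinearMap.comp_apply]
        abel
    rw [h4]
    have h5 : zs (M.L.l y.1 + M.c) (Finsupp.single y 1) = 0 := by
      by_contra h
      have h6 := ((hInv (M.L.l y.1 + M.c)).1 y h).2
      have h7 := hNi (M.L.l y.1 + M.c + 1)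
      omega
    rw [h5, sub_zero]

end Pool.Agent.SFG
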