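import Pool.Agent.SFG.StX

/-!
# [THM] the theorem: semistable at infinity implies 1-connected at infinity
-/

set_option autoImplicit false

namespace Pool.Agent.SFG

open Matrix Pool.Agent.CPD Pool.Agent.SPD

/-- see `St_THM` -/
theorem THM (hE4 : CPD.St_E4) (hW2 : SPD.St_W2) (hW9 : SPD.St_W9) (hK3 : SPD.St_K3)
    (hFIN : SPD.St_FIN) (hFGI : St_FGI) (hFPN : St_FPN) : St_THM := by
  intro G _ hPD α _ f R hRf hP hSS
  rcases finite_or_infinite G with hG | hG
  · intro K _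
    refine ⟨Set.univ, Set.finite_univ, Set.subset_univ K, ?_⟩
    intro g w _ hav
    exact absurd (Set.mem_univ _) (hav 0 (Nat.zero_le _))
  obtain ⟨D⟩ := hE4 G hPD
  obtain ⟨L, hL⟩ := hW2 G α f R ⟨D⟩ hRf hP
  obtain ⟨M, rfl⟩ := hK3.2 G D L
  have hSt : StrongSemistable f R := hW9 G α f R M.L hL hSS
  have hFG : FGAtInfinity f R := hFGI G α f R M.L hL (hFPN G α f R M hL hSt)
  exact hFIN G hPD α f R hRf hP hSS hFG

end Pool.Agent.SFG
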