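import Pool.Agent.SFG.StR

/-!
# SFG TX: tree sets exist
-/

set_option autoImplicit false

namespace Pool.Agent.SFG

open Pool.Agent.CPD Pool.Agent.SPD

section

variable {A : Type} [Group A]

private theorem TX_rt_rt (E : Set A) (g h : A) : rt (rt E g) h = rt E (g * h) := by
  ext x
  show x * h⁻¹ * g⁻¹ ∈ E ↔ x * (g * h)⁻¹ ∈ E
  rw [mul_inv_rev, mul_assoc]

private theorem TX_rt_one (E : Set A) : rt E 1 = E := by
  ext x
  show x * 1⁻¹ ∈ E ↔ x ∈ E
  rw [inv_one, mul_one]

private theorem TX_rt_compl (E : Set A) (g : A) : rt Eᶜ g = (rt E g)ᶜ := rfl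

private theorem TX_nst (E F : Set A) (g : A) (h : Nst E F) : Nst (rt E g) (rt F g) := by
  rcases h with h | h | h | h
  · exact Or.inl fun x hx => h hx
  · exact Or.inr (Or.inl fun x hx => h hx)
  · exact Or.inr (Or.inr (Or.inl fun x hx => h hx))
  · exact Or.inr (Or.inr (Or.inr fun x hx => h hx))

private theorem TX_inf (E : Set A) (g : A) (h : E.Infinite) : (rt E g).Infinite := by
  have h1 : rt E g = (fun x => x * g⁻¹) ⁻¹' E := rfl
  rw [h1]
  refine h.preimage fun x _ => ⟨x * g, ?_⟩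
  show x * g * g⁻¹ = x
  rw [mul_inv_cancel_right]

end

theorem TX (hCUT : St_CUT) (hAIB : St_AIB) (hNA5 : St_NA5) (hNE : St_NE) : St_TX := by
  intro A _ L hTF hFG hex
  obtain ⟨S, hS⟩ := hFG.out
  obtain ⟨E, hAI, hEi, hEc, hN⟩ := hNE A S L hS hex
  obtain ⟨c1, c2, c3, -, c5, -⟩ := hCUT A S hS
  -- the boundary
  have hfin : (bd S E).Finite := ((c1 L E).1 hAI).1
  have hne : (bd S E).Nonempty := by
    rw [Set.nonempty_iff_ne_empty]
    intro h0
    rcases c5 E h0 with h | h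
    · rw [h] at hEi
      exact hEi Set.finite_empty
    · rw [h, Set.compl_univ] at hEc
      exact hEc Set.finite_empty
  have key : ∀ g : A, rt E g = E ∨ rt E g = Eᶜ → g = 1 := by
    intro g hg
    by_contra hg1
    have hb : bd S (rt E g) = bd S E := by
      rcases hg with h | h
      · rw [h]
      · rw [h, (c2 E).1]
    obtain ⟨⟨s, x⟩, hp⟩ := hne
    have hit : ∀ n : ℕ, ((s, x * g ^ n) : A × A) ∈ bd S E := by
      intro n
      induction n with
      | zero => rwa [pow_zero, mul_one]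
      | succ n ih =>
        have h1 := ((c3 E g).2.2 s (x * g ^ n)).1 ih
        rw [hb, mul_assoc, ← pow_succ] at h1
        exact h1
    have hno : ¬ IsOfFinOrder g := by
      intro ho
      obtain ⟨n, hn, hn1⟩ := isOfFinOrder_iff_pow_eq_one.1 ho
      exact hg1 (hTF g n hn hn1)
    have hinj : Function.Injective fun n : ℕ => ((s, x * g ^ n) : A × A) := by
      intro n m hnm
      have h1 : x * g ^ n = x * g ^ m := congrArg Prod.snd hnm
      exact (injective_pow_iff_not_isOfFinOrder.2 hno) (mul_left_cancel h1)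
    exact Set.infinite_of_injective_forall_mem hinj hit hfin
  have hEne : E ≠ Eᶜ := by
    intro h
    obtain ⟨z, hz⟩ := hEi.nonempty
    have h1 : z ∈ Eᶜ := h ▸ hz
    exact h1 hz
  -- conjugation
  have conj1 : ∀ h g : A, rt (rt E h) g = rt E h → g = 1 := by
    intro h g hg
    have h1 := congrArg (fun F => rt F h⁻¹) hg
    simp only [TX_rt_rt, mul_inv_cancel, TX_rt_one] at h1
    have h2 := key _ (Or.inl h1)
    rw [mul_inv_eq_one] at h2
    exact mul_eq_left.1 h2
  have conj2 : ∀ h g : A, rt (rt E h) g ≠ (rt E h)ᶜ := by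
    intro h g hg
    have h1 := congrArg (fun F => rt F h⁻¹) hg
    simp only [TX_rt_compl, TX_rt_rt, mul_inv_cancel, TX_rt_one] at h1
    have h2 := key _ (Or.inr h1)
    rw [h2, TX_rt_one] at h1
    exact hEne h1
  have hnest : ∀ g h : A, Nst (rt E g) (rt E h) := by
    intro g h
    have h1 := TX_nst E (rt E (h * g⁻¹)) g (hN _)
    rwa [TX_rt_rt, inv_mul_cancel_right] at h1
  have hn5 : ∀ F G : Set A, Nst F G → Nst F Gᶜ := fun F G h =>
    ((hNA5 A F G).2.2.2.2.1).1 h
  have hn6 : ∀ F G : Set A, Nst F G → Nst Fᶜ G := fun F G h =>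
    ((hNA5 A F G).2.2.2.2.2.1).1 h
  refine ⟨{F | ∃ g, F = rt E g ∨ F = (rt E g)ᶜ}, ?_, ?_⟩
  · refine ⟨⟨E, 1, Or.inl (TX_rt_one E).symm⟩, ?_, ?_, ?_, ?_, ?_, ?_, ?_, ?_⟩
    · rintro F ⟨g, rfl | rfl⟩
      · exact ⟨g, Or.inr rfl⟩
      · exact ⟨g, Or.inl (compl_compl _)⟩
    · rintro F ⟨g, rfl | rfl⟩ h
      · exact ⟨g * h, Or.inl (TX_rt_rt E g h)⟩
      · exact ⟨g * h, Or.inr (by rw [TX_rt_compl, TX_rt_rt])⟩
    · rintro F ⟨g, hF⟩ G ⟨h, hG⟩
      refine ⟨g⁻¹ * h, ?_⟩
      have e : rt (rt E g) (g⁻¹ * h) = rt E h := by rw [TX_rt_rt, mul_inv_cancel_left]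
      rcases hF with rfl | rfl <;> rcases hG with rfl | rfl
      · exact Or.inl e.symm
      · exact Or.inr (by rw [e])
      · exact Or.inr (by rw [TX_rt_compl, e, compl_compl])
      · exact Or.inl (by rw [TX_rt_compl, e])
    · rintro F ⟨g, rfl | rfl⟩ G ⟨h, rfl | rfl⟩
      · exact hnest g h
      · exact hn5 _ _ (hnest g h)
      · exact hn6 _ _ (hnest g h)
      · exact hn6 _ _ (hn5 _ _ (hnest g h))
    · rintro F ⟨h, rfl | rfl⟩ g hg
      · exact conj1 h g hg
      · rw [TX_rt_compl] at hg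
        exact conj1 h g (compl_injective hg)
    · rintro F ⟨h, rfl | rfl⟩ g hg
      · exact conj2 h g hg
      · rw [TX_rt_compl] at hg
        exact conj2 h g (compl_injective hg)
    · intro x y
      have hf := hAI.fin (y * x⁻¹) (Subgroup.mem_top _)
      refine ((hf.image fun z => rt E (z⁻¹ * x)).union
        (hf.image fun z => (rt E (z⁻¹ * x))ᶜ)).subset ?_
      rintro F ⟨⟨g, hF⟩, hx, hy⟩
      have e1 : y * x⁻¹ * (x * g⁻¹) = y * g⁻¹ := by group
      have e2 : (x * g⁻¹)⁻¹ * x = g := by group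
      rcases hF with rfl | rfl
      · left
        refine ⟨x * g⁻¹, ⟨Subgroup.mem_top _, ?_⟩, ?_⟩
        · rw [e1]
          intro hc
          exact hy (hc.2 hx)
        · show rt E ((x * g⁻¹)⁻¹ * x) = rt E g
          rw [e2]
      · right
        refine ⟨x * g⁻¹, ⟨Subgroup.mem_top _, ?_⟩, ?_⟩
        · rw [e1]
          intro hc
          have hy' : y * g⁻¹ ∈ E := by
            by_contra hcon
            exact hy hcon
          exact hx (hc.1 hy')
        · show (rt E ((x * g⁻¹)⁻¹ * x))ᶜ = (rt E g)ᶜ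
          rw [e2]
    · rintro F ⟨g, rfl | rfl⟩
      · exact TX_inf E g hEi
      · rw [← TX_rt_compl]
        exact TX_inf Eᶜ g hEc
  · rintro F ⟨g, rfl | rfl⟩
    · exact (hAIB A L E E g hAI hAI).2.2.2.2
    · have h1 := (hAIB A L E E g hAI hAI).2.2.2.2
      exact (hAIB A L _ _ 1 h1 h1).1

end Pool.Agent.SFG
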