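import Pool.Agent.SFG.StR

/-!
# Module VT : vertices of the tree of a tree set
-/

set_option autoImplicit false

namespace Pool.Agent.SFG

open Pool.Agent.CPD Pool.Agent.SPD

section

variable {A : Type} [Group A]

private theorem VT_cancel (F : Set A) (g : A) : rt (rt F g) g⁻¹ = F := by
  ext x
  show x * g⁻¹⁻¹ * g⁻¹ ∈ F ↔ x ∈ F
  rw [inv_inv, mul_inv_cancel_right]

private theorem VT_cancel' (F : Set A) (g : A) : rt (rt F g⁻¹) g = F := by
  ext x
  show x * g⁻¹ * g⁻¹⁻¹ ∈ F ↔ x ∈ F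
  rw [mul_assoc, mul_inv_cancel, mul_one]

private theorem VT_compl (F : Set A) (g : A) : rt Fᶜ g = (rt F g)ᶜ := rfl

private theorem VT_mono {F F' : Set A} (h : F ⊆ F') (g : A) : rt F g ⊆ rt F' g :=
  fun _ hx => h hx

private theorem VT_iff (F F' : Set A) (g : A) : rt F' g⁻¹ = F ↔ F' = rt F g := by
  constructor
  · intro h
    rw [← h, VT_cancel']
  · intro h
    rw [h, VT_cancel]

private theorem VT_rtrt (F : Set A) (g h : A) : rt (rt F h⁻¹) g⁻¹ = rt F (g * h)⁻¹ := by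
  ext x
  show x * g⁻¹⁻¹ * h⁻¹⁻¹ ∈ F ↔ x * (g * h)⁻¹⁻¹ ∈ F
  rw [inv_inv, inv_inv, inv_inv, mul_assoc]

private theorem VT_one (F : Set A) : rt F (1 : A)⁻¹ = F := by
  ext x
  show x * (1 : A)⁻¹⁻¹ ∈ F ↔ x ∈ F
  rw [inv_inv, mul_one]

private theorem VT_ne {𝓔 : Set (Set A)} (h : TS 𝓔) {F : Set A} (hF : F ∈ 𝓔) : F.Nonempty :=
  (h.inf F hF).nonempty

private theorem VT_nc {𝓔 : Set (Set A)} (h : TS 𝓔) {F : Set A} (hF : F ∈ 𝓔) : F ≠ Fᶜ := by
  intro h1
  obtain ⟨x, hx⟩ := VT_ne h hF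
  have h2 : x ∈ Fᶜ := h1 ▸ hx
  exact h2 hx

private theorem VT_sub {𝓔 : Set (Set A)} (h : TS 𝓔) {v w : Set (Set A)} {F : Set A}
    (hv : Vx 𝓔 v) (hw : Vx 𝓔 w) (hFv : MinV v F) (hFw : MinV w F) : v ⊆ w := by
  intro F' hF'
  by_contra hn
  have hE : F' ∈ 𝓔 := hv.sub hF'
  have hF : F ∈ 𝓔 := hv.sub hFv.1
  have hcE : F'ᶜ ∈ 𝓔 := h.compl F' hE
  have hc : F'ᶜ ∈ w := by
    by_contra h1
    exact hn ((hw.or F' hE).2 h1)
  have hcv : F'ᶜ ∉ v := (hv.or F' hE).1 hF'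
  rcases h.nest F hF F' hE with h1 | h1 | h1 | h1
  · exact hn (hw.up F hFw.1 F' hE h1)
  · exact hcv (hv.up F hFv.1 F'ᶜ hcE h1)
  · have h2 : F'ᶜ ⊆ F := Set.compl_subset_comm.1 h1
    have h3 := hFw.2 F'ᶜ hc h2
    rw [h3] at hcv
    exact hcv hFv.1
  · have h2 : F' ⊆ F := Set.compl_subset_compl.1 h1
    have h3 := hFv.2 F' hF' h2
    rw [h3] at hn
    exact hn hFw.1

private theorem VT_two {𝓔 : Set (Set A)} (h : TS 𝓔) {v : Set (Set A)} {F F' : Set A}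
    (hv : Vx 𝓔 v) (hF : MinV v F) (hF' : MinV v F') (hne : F ≠ F') : Fᶜ ⊆ F' := by
  have hE : F ∈ 𝓔 := hv.sub hF.1
  have hE' : F' ∈ 𝓔 := hv.sub hF'.1
  rcases h.nest F hE F' hE' with h1 | h1 | h1 | h1
  · exact absurd (hF'.2 F hF.1 h1) hne
  · exact absurd (hv.up F hF.1 F'ᶜ (h.compl F' hE') h1) ((hv.or F' hE').1 hF'.1)
  · exact h1
  · exact absurd (hF.2 F' hF'.1 (Set.compl_subset_compl.1 h1)).symm hne

private theorem VT_mem (v : Set (Set A)) (F F' : Set A) :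
    F' ∈ flip v F ↔ (F' ∈ v ∧ F' ≠ F) ∨ F' = Fᶜ := Iff.rfl

private theorem VT_flip {𝓔 : Set (Set A)} (h : TS 𝓔) {v : Set (Set A)} {F : Set A}
    (hv : Vx 𝓔 v) (hF : MinV v F) :
    Vx 𝓔 (flip v F) ∧ MinV (flip v F) Fᶜ ∧ flip (flip v F) Fᶜ = v := by
  have hE : F ∈ 𝓔 := hv.sub hF.1
  have hcE : Fᶜ ∈ 𝓔 := h.compl F hE
  have hcv : Fᶜ ∉ v := (hv.or F hE).1 hF.1
  have hnc := VT_nc h hE
  refine ⟨⟨?_, ?_, ?_⟩, ⟨?_, ?_⟩, ?_⟩
  · rintro F' (h1 | h1)
    · exact hv.sub h1.1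
    · rw [h1]
      exact hcE
  · intro F' hF'
    rw [VT_mem, VT_mem, compl_inj_iff]
    by_cases h1 : F' = F
    · constructor
      · rintro (h2 | h2)
        · exact absurd h1 h2.2
        · exact absurd (h1.symm.trans h2) hnc
      · intro h2
        exact absurd (Or.inr h1) h2
    · by_cases h2 : F' = Fᶜ
      · constructor
        · intro _ h3
          rcases h3 with h3 | h3
          · apply h3.2
            rw [h2, compl_compl]
          · exact h1 h3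
        · intro _
          exact Or.inr h2
      · have h3 := hv.or F' hF'
        constructor
        · rintro (h4 | h4)
          · rintro (h5 | h5)
            · exact (h3.1 h4.1) h5.1
            · exact h1 h5
          · exact absurd h4 h2
        · intro h4
          left
          refine ⟨?_, h1⟩
          rw [h3]
          intro h5
          apply h4
          left
          refine ⟨h5, ?_⟩
          intro h6
          apply h2
          rw [← h6, compl_compl]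
  · rintro F' (h1 | h1) F'' hE'' hsub
    · refine Or.inl ⟨hv.up F' h1.1 F'' hE'' hsub, ?_⟩
      intro h2
      rw [h2] at hsub
      exact h1.2 (hF.2 F' h1.1 hsub)
    · by_cases h2 : F'' = Fᶜ
      · exact Or.inr h2
      · left
        rw [h1] at hsub
        have h3 : F'' ∈ v := by
          by_contra h4
          have h5 : F''ᶜ ∈ v := by
            by_contra h6
            exact h4 ((hv.or F'' hE'').2 h6)
          have h7 : F''ᶜ ⊆ F := Set.compl_subset_comm.1 hsub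
          have h8 := hF.2 F''ᶜ h5 h7
          apply h2
          rw [← h8, compl_compl]
        refine ⟨h3, ?_⟩
        intro h4
        rw [h4] at hsub
        obtain ⟨x, hx⟩ := VT_ne h hcE
        exact hx (hsub hx)
  · exact Or.inr rfl
  · rintro F' (h1 | h1) hsub
    · have h2 : F ⊆ F'ᶜ := Set.subset_compl_comm.1 hsub
      have hE' : F' ∈ 𝓔 := hv.sub h1.1
      exact absurd (hv.up F hF.1 F'ᶜ (h.compl F' hE') h2) ((hv.or F' hE').1 h1.1)
    · exact h1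
  · ext F'
    rw [VT_mem, VT_mem, compl_compl]
    constructor
    · rintro (⟨h1 | h1, h2⟩ | h1)
      · exact h1.1
      · exact absurd h1 h2
      · rw [h1]
        exact hF.1
    · intro h1
      by_cases h2 : F' = F
      · exact Or.inr h2
      · refine Or.inl ⟨Or.inl ⟨h1, h2⟩, ?_⟩
        intro h3
        rw [h3] at h1
        exact hcv h1

private theorem VT_path {𝓔 : Set (Set A)} (h : TS 𝓔) {v w : Set (Set A)}
    (hv : Vx 𝓔 v) (hw : Vx 𝓔 w) (hne : v ≠ w) (hfin : (v \ w).Finite) :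
    ∃ F, MinV v F ∧ F ∉ w ∧ flip v F \ w = (v \ w) \ {F} := by
  have hnon : (v \ w).Nonempty := by
    by_contra h1
    have hsub : v ⊆ w := by
      intro F hF
      by_contra h2
      exact h1 ⟨F, hF, h2⟩
    apply hne
    refine Set.Subset.antisymm hsub ?_
    intro F hF
    have hE : F ∈ 𝓔 := hw.sub hF
    by_contra h2
    have h3 : Fᶜ ∈ v := by
      by_contra h4
      exact h2 ((hv.or F hE).2 h4)
    exact (hw.or F hE).1 hF (hsub h3)
  obtain ⟨F, hFm⟩ := hfin.exists_minimal hnon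
  have hFv : F ∈ v := hFm.1.1
  have hFw : F ∉ w := hFm.1.2
  have hE : F ∈ 𝓔 := hv.sub hFv
  have hmin : MinV v F := by
    refine ⟨hFv, fun F' hF' hsub => ?_⟩
    have h1 : F' ∉ w := fun h2 => hFw (hw.up F' h2 F hE hsub)
    exact Set.Subset.antisymm hsub (hFm.2 ⟨hF', h1⟩ hsub)
  have hcw : Fᶜ ∈ w := by
    by_contra h1
    exact hFw ((hw.or F hE).2 h1)
  refine ⟨F, hmin, hFw, ?_⟩
  ext F'
  rw [Set.mem_diff, Set.mem_diff, Set.mem_diff, Set.mem_singleton_iff, VT_mem]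
  constructor
  · rintro ⟨h1 | h1, h2⟩
    · exact ⟨⟨h1.1, h2⟩, h1.2⟩
    · rw [h1] at h2
      exact absurd hcw h2
  · rintro ⟨⟨h1, h2⟩, h3⟩
    exact ⟨Or.inl ⟨h1, h3⟩, h2⟩

end

theorem VT : St_VT := by
  intro A _ 𝓔 h
  refine ⟨?_, ?_, ?_, ?_, ?_, ?_, ?_, ?_, ?_, ?_, ?_, ?_⟩
  · intro x
    refine ⟨fun F hF => hF.1, fun F hF => ?_, fun F hF F' hF' hsub => ⟨hF', hsub hF.2⟩⟩
    constructor
    · intro h1 h2
      exact h2.2 h1.2
    · intro h1
      refine ⟨hF, ?_⟩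
      by_contra h2
      exact h1 ⟨h.compl F hF, h2⟩
  · intro v g hv
    refine ⟨fun F hF => ?_, fun F hF => ?_, fun F hF F' hF' hsub => ?_⟩
    · have h1 := h.tr _ (hv.sub hF) g
      rwa [VT_cancel'] at h1
    · exact hv.or _ (h.tr F hF g⁻¹)
    · exact hv.up _ hF _ (h.tr F' hF' g⁻¹) (VT_mono hsub _)
  · intro v g F hF
    refine ⟨?_, fun F' hF' hsub => ?_⟩
    · show rt (rt F g) g⁻¹ ∈ v
      rw [VT_cancel]
      exact hF.1
    · have h1 := VT_mono hsub g⁻¹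
      rw [VT_cancel] at h1
      exact (VT_iff F F' g).1 (hF.2 _ hF' h1)
  · intro x g
    ext F
    show (rt F g⁻¹ ∈ 𝓔 ∧ x * g⁻¹⁻¹ ∈ F) ↔ (F ∈ 𝓔 ∧ x * g ∈ F)
    rw [inv_inv]
    constructor
    · rintro ⟨h1, h2⟩
      refine ⟨?_, h2⟩
      have h3 := h.tr _ h1 g
      rwa [VT_cancel'] at h3
    · rintro ⟨h1, h2⟩
      exact ⟨h.tr F h1 g⁻¹, h2⟩
  · intro v g k
    ext F
    show rt (rt F k⁻¹) g⁻¹ ∈ v ↔ rt F (g * k)⁻¹ ∈ v
    rw [VT_rtrt]
  · intro v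
    ext F
    show rt F (1 : A)⁻¹ ∈ v ↔ F ∈ v
    rw [VT_one]
  · intro v w F hv hw h1 h2
    exact Set.Subset.antisymm (VT_sub h hv hw h1 h2) (VT_sub h hw hv h2 h1)
  · intro v F F' hv h1 h2 h3
    exact VT_two h hv h1 h2 h3
  · intro v F hv hF
    exact VT_flip h hv hF
  · intro v F g
    ext F'
    show ((rt F' g⁻¹ ∈ v ∧ rt F' g⁻¹ ≠ F) ∨ rt F' g⁻¹ = Fᶜ) ↔
      ((rt F' g⁻¹ ∈ v ∧ F' ≠ rt F g) ∨ F' = (rt F g)ᶜ)
    rw [Ne, Ne, VT_iff, VT_iff, VT_compl]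
  · intro v w hv hw hne hfin
    exact VT_path h hv hw hne hfin
  · intro x y
    refine (h.sep x y).subset ?_
    rintro F ⟨⟨h1, h2⟩, h3⟩
    exact ⟨h1, h2, fun h4 => h3 ⟨h1, h4⟩⟩

end Pool.Agent.SFG
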