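import Pool.Agent.SFG.StT

/-!
# W7v : levels exist (assembly of W4, W6v)
-/

set_option autoImplicit false

namespace Pool.Agent.SFG

open Matrix Pool.Agent.CPD Pool.Agent.SPD

/-- Levels exist. -/
theorem W7v : SPD.St_W4 → St_W6v → St_W7v := by
  intro h4 h6 G _ α f R L hB hS N
  obtain ⟨Γ, i, τ, T0, γ, P, n0, hP⟩ := h4 G α f R L hB hS N
  obtain ⟨T, hT⟩ := h6 G α Γ f R L N n0 τ T0 γ P hB hP
  exact ⟨P, inferInstance, T, n0, hT⟩

end Pool.Agent.SFG
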