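import Pool.Agent.SPD.All
import Pool.Agent.SFG.AIB
import Pool.Agent.SFG.C1a
import Pool.Agent.SFG.C1b
import Pool.Agent.SFG.C2a
import Pool.Agent.SFG.C2b
import Pool.Agent.SFG.CBD
import Pool.Agent.SFG.CMM
import Pool.Agent.SFG.CUT
import Pool.Agent.SFG.DER
import Pool.Agent.SFG.DIM
import Pool.Agent.SFG.DM1
import Pool.Agent.SFG.DM2
import Pool.Agent.SFG.EXT
import Pool.Agent.SFG.FGI
import Pool.Agent.SFG.FPN
import Pool.Agent.SFG.FRE
import Pool.Agent.SFG.GRD
import Pool.Agent.SFG.GT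
import Pool.Agent.SFG.HH1
import Pool.Agent.SFG.HW
import Pool.Agent.SFG.HXX
import Pool.Agent.SFG.INN
import Pool.Agent.SFG.INT
import Pool.Agent.SFG.ITR
import Pool.Agent.SFG.LB
import Pool.Agent.SFG.LF
import Pool.Agent.SFG.LTX
import Pool.Agent.SFG.NA1
import Pool.Agent.SFG.NA2
import Pool.Agent.SFG.NA3
import Pool.Agent.SFG.NA4
import Pool.Agent.SFG.NA5
import Pool.Agent.SFG.NE
import Pool.Agent.SFG.PF
import Pool.Agent.SFG.PFa
import Pool.Agent.SFG.PFb
import Pool.Agent.SFG.PFc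
import Pool.Agent.SFG.PFd
import Pool.Agent.SFG.PL
import Pool.Agent.SFG.PPG
import Pool.Agent.SFG.PSH
import Pool.Agent.SFG.RAD
import Pool.Agent.SFG.RMX
import Pool.Agent.SFG.RS
import Pool.Agent.SFG.RSA
import Pool.Agent.SFG.RSF
import Pool.Agent.SFG.RSa
import Pool.Agent.SFG.S1v
import Pool.Agent.SFG.SB
import Pool.Agent.SFG.SEC
import Pool.Agent.SFG.SHW
import Pool.Agent.SFG.T2bv
import Pool.Agent.SFG.T2v
import Pool.Agent.SFG.T3v
import Pool.Agent.SFG.TB
import Pool.Agent.SFG.TC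
import Pool.Agent.SFG.TEL
import Pool.Agent.SFG.THM
import Pool.Agent.SFG.TX
import Pool.Agent.SFG.VT
import Pool.Agent.SFG.W6v
import Pool.Agent.SFG.W7v
import Pool.Agent.SFG.W8v

/-!
# Assembly : orientable PD₃-groups which are semistable at infinity
-/

set_option autoImplicit false

namespace Pool.Agent.SFG

/-- An orientable PD₃-group with a finite presentation whose Cayley 2-complex is semistable at
infinity is 1-connected at infinity. -/
theorem All : St_THM := by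
  have d0 := CPD.D0
  have d1 := CPD.D1 d0
  have d2 := CPD.D2 d0 d1
  have d3 := CPD.D3 d0
  have e0 := CPD.E0
  have e1 := CPD.E1
  have e4 := CPD.E4 CPD.thm_E2a CPD.thm_E2b CPD.E2c CPD.E2d CPD.E3a CPD.E3b
  have e6a := CPD.E6a e1
  have e6b := CPD.E6b e6a
  have pf1 := CPD.F1
  have w0 := SPD.W0
  have w1 := SPD.W1 w0 d0
  have w2 := SPD.W2 e0 e6b w0
  have w3 := SPD.W3 w1
  have w4 := SPD.W4 d2 d3 w0 w1
  have w9 := SPD.W9 d0 d1 w0
  have f0 := SPD.F0
  have f6 := SPD.F6 pf1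
  have f9 := SPD.F9 pf1
  have l1 := SPD.L1 e1
  have l2 := SPD.L2 pf1 e1
  have l3 := SPD.L3 l2
  have l4 := SPD.L4 l2 l3
  have l5 := SPD.L5 l2
  have l6 := SPD.L6 l2 l5 w0
  have t0 := SPD.T0
  have t1 := SPD.T1 t0
  have aib := AIB
  have cut := CUT
  have na1 := NA1 cut
  have na2 := NA2 TC cut aib na1
  have na3 := NA3 cut aib na1 na2
  have na4 := NA4 cut aib
  have ne := NE cut aib na3 na4 NA5
  have tx := TX cut aib NA5 ne
  have vt := VT
  have rs := RS tx vt PPG (C2a vt) (C2b vt) (C1a vt) (C1b vt)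
  have rsa := RSa rs
  have grd := GRD (DIM DM1 DM2)
  have itr := ITR grd SB
  have rsf := RSF rsa itr
  have rsa' := RSA rsa itr SB
  have lf := LF thm_LB rsf
  have gt := GT SB thm_LB lf rsa' INN (EXT SB) INT FRE
  have w6v := W6v w3
  have w7v := W7v w4 w6v
  have w8v := W8v w0 w1
  have s1v := S1v w0 w1 l2 l3
  have t2bv := T2bv l2 l4 t0 f6 s1v SEC
  have t2v := T2v f0 f6 f9 t1 t2bv
  have t3v := T3v l2 l5 f6 t0
  have cmm := CMM w0 w1 l5 l6 d0
  have rad := RAD w0 w1 d0 d1 l1 l5 l6 t1 t2v t3v cmm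
  have ltx := LTX w0 w1
  have pfa := PFa e1
  have pfd := PFd e1 pfa (PFb e1)
  have pf := PF l1 (PFc e1) pfd
  have shw := SHW l2
  have pl := PL w0 l2 l5 l6 d0 shw
  have psh := PSH f0 f6 f9 pl
  have tel := TEL f0 psh
  have hw := HW f0 f6 tel
  have hh1 := HH1 f0 f6 hw
  have cbd := CBD f0 f6 hh1
  have der := DER w0 w1 l2 l3
  have tb := TB l2 t0
  have hxx := HXX l1 l5 t0 cbd der tb
  have fpn := FPN w7v w8v rad RMX ltx pf hxx gt
  have fgi := FGI w0 w1 d0 d1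
  exact THM e4 w2 w9 SPD.K3 SPD.All fgi fpn

end Pool.Agent.SFG
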