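import Pool.Agent.SFG.GDefs

/-!
# Semistable PD₃-groups, second part : levels without finite generation

`Lv` is `SPD.Lvl` without the finite generation of the stable image; `Lt` is the version for the
torsion-free quotients of the stable images.
-/

set_option autoImplicit false

namespace Pool.Agent.SFG

open Matrix Pool.Agent.CPD Pool.Agent.SPD

/-- A level: a coefficient system `T` with values in the stable image `π` of the fundamental group
of the complement of the ball of radius `N`; everything is right outside the ball of radius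
`n0`. -/
structure Lv {G α π : Type} [Group G] [Group π] (f : α → G) (R : Set (List (α × Bool)))
    (L : Len G) (N n0 : ℕ) (T : G → G → π) : Prop where
  le : N ≤ n0
  als : IsALS T
  lab : IsLabel f R (Bl L n0) (SPD.lab f T)
  faith : ∀ v w, value f w = 1 → Avoids f (Bl L n0) v w → hol f (SPD.lab f T) v w = 1 →
    Relation.EqvGen (Move f R (Bl L N) v) w []
  surj : ∀ k, ∃ k', ∀ v, k' < L.l v → ∀ g : π, ∃ w, value f w = 1 ∧ Avoids f (Bl L k) v w ∧
    hol f (SPD.lab f T) v w = g
  ind : ∀ n, n0 ≤ n → ∃ l, ∀ (W : Type) [AddCommGroup W] [Module (ZG π) W]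
    (β : G → (α × Bool) → W), WCoc f R (Bl L n) T β →
    (∀ v a, n < L.l v → L.l v ≤ l → β v a = 0) →
    ∀ v w, value f w = 1 → Avoids f (Bl L n) v w → hol f (SPD.lab f T) v w = 1 →
      Iw f T β v w = 0

/-- A torsion-free level: `T` has values in a torsion-free group, the labels need not be faithful,
and the integrals of cocycles with values in torsion-free modules along loops with trivial
holonomy vanish. -/
structure Lt {G α π : Type} [Group G] [Group π] (f : α → G) (R : Set (List (α × Bool)))
    (L : Len G) (n0 : ℕ) (T : G → G → π) : Prop where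
  tf : TF π
  als : IsALS T
  lab : IsLabel f R (Bl L n0) (SPD.lab f T)
  surj : ∀ k, ∃ k', ∀ v, k' < L.l v → ∀ g : π, ∃ w, value f w = 1 ∧ Avoids f (Bl L k) v w ∧
    hol f (SPD.lab f T) v w = g
  ind : ∀ n, n0 ≤ n → ∃ l, ∀ (W : Type) [AddCommGroup W] [Module (ZG π) W]
    (β : G → (α × Bool) → W), (∀ (m : ℕ) (x : W), 1 ≤ m → m • x = 0 → x = 0) →
    WCoc f R (Bl L n) T β → (∀ v a, n < L.l v → L.l v ≤ l → β v a = 0) →
    ∀ v w, l < L.l v → value f w = 1 → Avoids f (Bl L n) v w → hol f (SPD.lab f T) v w = 1 →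
      Iw f T β v w = 0

/-- The standing data for a level. -/
structure Dv {G α π : Type} [Group G] [Group π] (f : α → G) (Rel : Set (List (α × Bool)))
    (M : Pk G) {R : ℕ} (𝓛 : Loc M R) (N n0 n : ℕ) (T : G → G → π) : Prop where
  base : Base f Rel M.L
  len : ∀ r ∈ Rel, r.length ≤ R
  lvl : Lv f Rel M.L N n0 T
  le : n0 ≤ n
  good : ∀ v, n < M.L.l v → GoodT M.L T 𝓛.kap v

/-- The standing data for a coefficient system without further properties. -/
structure Dc {G α π : Type} [Group G] [Group π] (f : α → G) (Rel : Set (List (α × Bool)))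
    (M : Pk G) {R : ℕ} (𝓛 : Loc M R) (n : ℕ) (T : G → G → π) : Prop where
  base : Base f Rel M.L
  len : ∀ r ∈ Rel, r.length ≤ R
  lab : IsLabel f Rel (Bl M.L n) (SPD.lab f T)
  good : ∀ v, n < M.L.l v → GoodT M.L T 𝓛.kap v

/-- `R` is a normal subgroup with torsion abelianization. -/
structure NT {π : Type} [Group π] (R : Subgroup π) : Prop where
  nor : R.Normal
  tor : ∀ y ∈ R, ∃ s : ℕ, 1 ≤ s ∧ y ^ s ∈ ⁅R, R⁆

end Pool.Agent.SFG
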