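import Pool.Agent.SPD.StT

/-!
# Semistable PD₃-groups, second part : group theory, definitions

Left modules over `ZG P = ℤ[P]`; `gr g` is the group element `g` in `ℤ[P]`, `au` the augmentation,
`InI B 0 m` means that the image of `m` in `ℤ[P ⧸ B]` is zero.
-/

set_option autoImplicit false

namespace Pool.Agent.SFG

open Pool.Agent.CPD Pool.Agent.SPD

/-- No torsion. -/
def TF (P : Type) [Group P] : Prop := ∀ (x : P) (n : ℕ), 1 ≤ n → x ^ n = 1 → x = 1

/-- `f` is multiplicative on the subgroup `A`. -/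
def MulOn {P N : Type} [Group P] [Group N] (A : Subgroup P) (f : P → N) : Prop :=
  ∀ a ∈ A, ∀ b ∈ A, f (a * b) = f a * f b

/-- `A` is the free product of its subgroups `A1` and `K`. -/
structure Spl {P : Type} [Group P] (A1 K A : Subgroup P) : Prop where
  sup : A1 ⊔ K = A
  ext : ∀ (N : Type) [Group N] (φ ψ : P → N), MulOn A1 φ → MulOn K ψ →
    ∃ χ : P → N, MulOn A χ ∧ (∀ x ∈ A1, χ x = φ x) ∧ ∀ x ∈ K, χ x = ψ x

/-- `d` is a derivation on `A` with values in `ℤ[P]`. -/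
def Der {P : Type} [Group P] (A : Subgroup P) (d : P → ZG P) : Prop :=
  ∀ a ∈ A, ∀ b ∈ A, d (a * b) = d a + gr a * d b

/-- Every homomorphism from `A` to the integers is trivial. -/
def NoZ {P : Type} [Group P] (A : Subgroup P) : Prop :=
  ∀ χ : P → Multiplicative ℤ, MulOn A χ → ∀ a ∈ A, χ a = 1

/-- `E` is a subset of `A` (only `E ∩ A` matters) which is almost invariant under left
multiplication by the elements of `A`, and invariant under the elements of `L`. -/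
structure AI {P : Type} [Group P] (A L : Subgroup P) (E : Set P) : Prop where
  fin : ∀ a ∈ A, {x | x ∈ A ∧ ¬ (a * x ∈ E ↔ x ∈ E)}.Finite
  inv : ∀ l ∈ L, ∀ x ∈ A, (l * x ∈ E ↔ x ∈ E)

/-- Every element of `A` outside `L` moves some `E` as above. -/
def Cl {P : Type} [Group P] (A L : Subgroup P) : Prop :=
  ∀ a ∈ A, a ∉ L → ∃ E, AI A L E ∧ ∃ x ∈ A, ¬ (a * x ∈ E ↔ x ∈ E)

/-- All almost invariant subsets of `A` are finite or cofinite in `A`. -/
def One {P : Type} [Group P] (A : Subgroup P) : Prop :=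
  ∀ E, AI A ⊥ E → {x | x ∈ A ∧ x ∈ E}.Finite ∨ {x | x ∈ A ∧ x ∉ E}.Finite

/-- The subgroup of all elements which leave every `E` with `AI ⊤ B E` invariant. -/
def LL {P : Type} [Group P] (B : Subgroup P) : Subgroup P where
  carrier := {p | ∀ E, AI ⊤ B E → ∀ x, (p * x ∈ E ↔ x ∈ E)}
  one_mem' := fun E _ x => by rw [one_mul]
  mul_mem' := fun {a b} ha hb E hE x => by rw [mul_assoc]; exact (ha E hE _).trans (hb E hE x)
  inv_mem' := fun {a} ha E hE x => by
    have h := ha E hE (a⁻¹ * x)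
    rw [mul_inv_cancel_left] at h
    exact h.symm

/-- The condition which comes from duality. -/
def HX (P : Type) [Group P] : Prop := ∀ B : Subgroup P, B.FG → ∃ B' : Subgroup P, B ≤ B' ∧
  B'.FG ∧ ∃ (J : Type) (δ : P → (J →₀ ZG P)) (t : J → ZG P),
    (∀ p q, δ (p * q) = δ p + gr p • δ q) ∧ (∀ b ∈ B, δ b = 0) ∧ (∀ j, au (t j) = 0) ∧
    ∀ p, InI B' 0 ((δ p).sum (fun j a => a * t j) - (gr p - 1))

/-! ## Cuts and tree sets in a group -/

/-- The edge `i` is cut by `E`. -/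
def Cut {V ι : Type} (a b : ι → V) (E : Set V) (i : ι) : Prop := ¬ (a i ∈ E ↔ b i ∈ E)

/-- `E` is connected by the edges in `X`: a nonempty part of `E` which is not separated from the
rest of `E` by an edge in `X` is equal to `E`. -/
def ConE {V ι : Type} (a b : ι → V) (X : Set ι) (E : Set V) : Prop :=
  ∀ F : Set V, F ⊆ E → F.Nonempty → (∀ i ∈ X, a i ∈ E → b i ∈ E → (a i ∈ F ↔ b i ∈ F)) → F = E

/-- Two sets are nested: one of the four corners is empty. -/
def Nst {V : Type} (E F : Set V) : Prop := E ⊆ F ∨ E ⊆ Fᶜ ∨ Eᶜ ⊆ F ∨ Eᶜ ⊆ Fᶜ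

section

variable {A : Type} [Group A]

/-- The right translate `E g`. -/
def rt (E : Set A) (g : A) : Set A := {x | x * g⁻¹ ∈ E}

/-- The edges `(s, x)`, from `x` to `s x`, which are cut by `E`. -/
def bd (S : Finset A) (E : Set A) : Set (A × A) :=
  {p | p.1 ∈ S ∧ ¬ (p.1 * p.2 ∈ E ↔ p.2 ∈ E)}

/-- The number of edges which are cut by `E`. -/
noncomputable def cn (S : Finset A) (E : Set A) : ℕ := (bd S E).ncard

/-- Infinite and coinfinite almost invariant sets cut at least `m` edges. -/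
def MinN (S : Finset A) (L : Subgroup A) (m : ℕ) : Prop :=
  ∀ F : Set A, AI ⊤ L F → F.Infinite → Fᶜ.Infinite → m ≤ cn S F

/-- Narrow sets. -/
structure Nar (S : Finset A) (L : Subgroup A) (m : ℕ) (E : Set A) : Prop where
  ai : AI ⊤ L E
  inf : E.Infinite
  cinf : Eᶜ.Infinite
  eq : cn S E = m

/-- A tree set: a nonempty family of nested subsets of `A`, stable under complements and right
translations, essentially one orbit, with trivial stabilizers, without inversions, and such that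
two elements of `A` are separated by finitely many members only. -/
structure TS (𝓔 : Set (Set A)) : Prop where
  ne : 𝓔.Nonempty
  compl : ∀ F ∈ 𝓔, Fᶜ ∈ 𝓔
  tr : ∀ F ∈ 𝓔, ∀ g, rt F g ∈ 𝓔
  one : ∀ E ∈ 𝓔, ∀ F ∈ 𝓔, ∃ g, F = rt E g ∨ F = (rt E g)ᶜ
  nest : ∀ E ∈ 𝓔, ∀ F ∈ 𝓔, Nst E F
  free : ∀ F ∈ 𝓔, ∀ g, rt F g = F → g = 1
  noinv : ∀ F ∈ 𝓔, ∀ g, rt F g ≠ Fᶜ
  sep : ∀ x y, {F | F ∈ 𝓔 ∧ x ∈ F ∧ y ∉ F}.Finite
  inf : ∀ F ∈ 𝓔, F.Infinite

/-- A vertex of the tree: a consistent orientation of `𝓔`. -/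
structure Vx (𝓔 v : Set (Set A)) : Prop where
  sub : v ⊆ 𝓔
  or : ∀ F ∈ 𝓔, (F ∈ v ↔ Fᶜ ∉ v)
  up : ∀ F ∈ v, ∀ F' ∈ 𝓔, F ⊆ F' → F' ∈ v

/-- The vertex which belongs to the element `x`. -/
def pt (𝓔 : Set (Set A)) (x : A) : Set (Set A) := {F | F ∈ 𝓔 ∧ x ∈ F}

/-- `F` is minimal in `v`. -/
def MinV (v : Set (Set A)) (F : Set A) : Prop := F ∈ v ∧ ∀ F' ∈ v, F' ⊆ F → F' = F

/-- The right translate of a vertex. -/
def vt (v : Set (Set A)) (g : A) : Set (Set A) := {F | rt F g⁻¹ ∈ v}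

/-- The neighbour of the vertex `v` at the other end of the edge `F`. -/
def flip (v : Set (Set A)) (F : Set A) : Set (Set A) := {F' | (F' ∈ v ∧ F' ≠ F) ∨ F' = Fᶜ}

end

end Pool.Agent.SFG
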