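import Pool.Agent.SFG.StG

/-!
# SFG, module GT: the group theoretic theorem
-/

set_option autoImplicit false

namespace Pool.Agent.SFG

open Pool.Agent.CPD Pool.Agent.SPD

private theorem GT_au_eq {P : Type} [Group P] (a : ZG P) : au a = a.coeff.sum (fun _ n => n) := by
  unfold au
  rw [MonoidAlgebra.lift_apply]
  apply Finsupp.sum_congr
  intro x _
  simp

private theorem GT_au_zero {P : Type} [Group P] (B : Subgroup P) (m : ZG P) (h : InI B 0 m) :
    au m = 0 := by
  have h1 : m.coeff.mapDomain (QuotientGroup.mk : P → P ⧸ B) = 0 := by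
    ext ξ
    have h2 := h ξ
    rw [Nat.cast_zero, zero_dvd_iff] at h2
    rw [h2]
    rfl
  have h2 : (m.coeff.mapDomain (QuotientGroup.mk : P → P ⧸ B)).sum (fun _ n => n) =
      m.coeff.sum (fun _ n => n) :=
    Finsupp.sum_mapDomain_index (fun _ => rfl) (fun _ _ _ => rfl)
  rw [GT_au_eq, ← h2, h1, Finsupp.sum_zero_index]

private theorem GT_zp {P : Type} [Group P] (g : P) : (Subgroup.zpowers g).FG :=
  ⟨{g}, by rw [Finset.coe_singleton, Subgroup.zpowers_eq_closure]⟩

private theorem GT_inf {P : Type} [Group P] (hT : TF P) (K : Subgroup P) (hK : K ≠ ⊥) :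
    (K : Set P).Infinite := by
  obtain ⟨⟨x, hx⟩, hx0⟩ := Subgroup.ne_bot_iff_exists_ne_one.1 hK
  have hx1 : x ≠ 1 := fun h => hx0 (Subtype.ext h)
  have h6 : Function.Injective fun n : ℕ => (x : P) ^ n := by
    rw [injective_pow_iff_not_isOfFinOrder, isOfFinOrder_iff_pow_eq_one]
    rintro ⟨n, hn, hn1⟩
    exact hx1 (hT _ n hn hn1)
  exact Set.infinite_of_injective_forall_mem h6 fun n => K.pow_mem hx n

theorem GT (hSB : St_SB) (hLB : St_LB) (hLF : St_LF) (hRSA : St_RSA) (hINN : St_INN)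
    (hEXT : St_EXT) (hINT : St_INT) (hFRE : St_FRE) : St_GT := by
  classical
  intro P _ hTF hcount hNoZ hHX
  by_contra hnfg
  obtain ⟨p0, hp0⟩ : ∃ p0 : P, p0 ≠ 1 := by
    by_contra hcon
    push Not at hcon
    have : Subsingleton P := ⟨fun a b => by rw [hcon a, hcon b]⟩
    exact hnfg inferInstance
  obtain ⟨B', hBB', hB'fg, J, δ, t, hδ, hδB, ht, hI⟩ := hHX (Subgroup.zpowers p0) (GT_zp p0)
  have hB'ne : B' ≠ ⊥ := by
    intro h
    have h1 : p0 ∈ B' := hBB' (Subgroup.mem_zpowers p0)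
    rw [h, Subgroup.mem_bot] at h1
    exact hp0 h1
  have : Nonempty P := ⟨1⟩
  obtain ⟨p, hp⟩ := exists_surjective_nat P
  -- the sequence of closed subgroups
  obtain ⟨C, hC0, hCs⟩ : ∃ C : ℕ → Subgroup P, C 0 = LL B' ∧
      ∀ n, C (n + 1) = LL (C n ⊔ Subgroup.zpowers (p n)) :=
    ⟨fun n => Nat.rec (LL B') (fun n c => LL (c ⊔ Subgroup.zpowers (p n))) n, rfl, fun _ => rfl⟩
  have hD : ∀ n, ∃ D : Subgroup P, C n = LL D ∧ D.FG ∧ D ≠ ⊥ := by
    intro n
    induction n with
    | zero => exact ⟨B', hC0, hB'fg, hB'ne⟩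
    | succ n ih =>
      obtain ⟨D, hD1, hD2, hD3⟩ := ih
      refine ⟨C n ⊔ Subgroup.zpowers (p n), hCs n, ?_, ?_⟩
      · rw [hD1]
        exact Subgroup.FG.sup (hLF P D hTF hHX hD2 hD3).1 (GT_zp _)
      · intro h
        apply hD3
        rw [eq_bot_iff]
        calc D ≤ LL D := (hLB P D).1
          _ = C n := hD1.symm
          _ ≤ C n ⊔ Subgroup.zpowers (p n) := le_sup_left
          _ = ⊥ := h
  have hCfg : ∀ n, (C n).FG := by
    intro n
    obtain ⟨D, hD1, hD2, hD3⟩ := hD n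
    rw [hD1]
    exact (hLF P D hTF hHX hD2 hD3).1
  have hle : ∀ n, C n ⊔ Subgroup.zpowers (p n) ≤ C (n + 1) := by
    intro n
    rw [hCs n]
    exact (hLB P _).1
  have hCle : ∀ n, C n ≤ C (n + 1) := fun n => le_sup_left.trans (hle n)
  have hmono : Monotone C := monotone_nat_of_le_succ hCle
  have hK : ∀ n, ∃ K : Subgroup P, Spl (C n) K (C (n + 1)) ∧ K.FG := by
    intro n
    obtain ⟨D, hD1, hD2, hD3⟩ := hD n
    have h1 := (hLF P D hTF hHX hD2 hD3).2 (C (n + 1)) (hCfg (n + 1)) (by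
      rw [← hD1]
      exact hCle n)
    rw [← hD1] at h1
    exact h1
  choose K hKs hKfg using hK
  have hmem : ∀ x, ∃ n, x ∈ C n := by
    intro x
    obtain ⟨n, hn⟩ := hp x
    refine ⟨n + 1, hle n ?_⟩
    rw [← hn]
    exact Subgroup.mem_sup_right (Subgroup.mem_zpowers _)
  -- some `K n` is not trivial
  obtain ⟨n, hKn⟩ : ∃ n, K n ≠ ⊥ := by
    by_contra hcon
    push Not at hcon
    have h1 : ∀ n, C n = C (n + 1) := by
      intro n
      have h2 := hKs n
      rw [hcon n] at h2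
      exact (hSB P).2.2.2.2.1 _ _ h2
    have h2 : ∀ n, C n = C 0 := by
      intro n
      induction n with
      | zero => rfl
      | succ n ih => rw [← h1 n, ih]
    have h3 : C 0 = ⊤ := by
      rw [eq_top_iff]
      intro x _
      obtain ⟨n, hn⟩ := hmem x
      rw [h2 n] at hn
      exact hn
    apply hnfg
    rw [Group.fg_def, ← h3]
    exact hCfg 0
  obtain ⟨-, hE2, hE3⟩ := hEXT P C K hKs hmem
  obtain ⟨K0, K1, hK0s, hK0fg, hK0ne, hOne⟩ := hRSA P (K n) hTF (hKfg n) hKn (hE3 hNoZ n)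
  obtain ⟨y, hy⟩ := hINN P K0 J δ hTF hK0fg hK0ne hOne hδ
  have hK0le : K0 ≤ K n := by
    rw [← hK0s.sup]
    exact le_sup_left
  have hB'le : B' ≤ C n := by
    have h1 : B' ≤ C 0 := by
      rw [hC0]
      exact (hLB P B').1
    exact h1.trans (hmono (Nat.zero_le n))
  obtain ⟨d, hd1, hd2, hd3⟩ := hE2 n
  -- the element `q`
  obtain ⟨q, hq⟩ : ∃ q : ZG P, q = y.sum (fun j a => a * t j) := ⟨_, rfl⟩
  have hinv : ∀ k ∈ K0, InI B' 0 (gr k * (q - 1) - (q - 1)) := by
    intro k hk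
    have h1 := hI k
    have h2 : (δ k).sum (fun j a => a * t j) = gr k * q - q := by
      rw [hy k hk, Finsupp.sum_sub_index (fun j a b => by rw [sub_mul]),
        Finsupp.sum_smul_index (fun j => by rw [zero_mul]), hq]
      congr 1
      unfold Finsupp.sum
      rw [Finset.mul_sum]
      refine Finset.sum_congr rfl fun j _ => ?_
      exact mul_assoc _ _ _
    rw [h2] at h1
    have h3 : gr k * (q - 1) - (q - 1) = gr k * q - q - (gr k - 1) := by
      rw [mul_sub, mul_one]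
      abel
    rw [h3]
    exact h1
  have hfin : InI B' 0 (q - 1) := by
    refine hFRE P B' K0 (q - 1) (GT_inf hTF K0 hK0ne) ?_ hinv
    intro g l hl hx
    exact hINT P (C n) (K n) d hTF hNoZ hd1 hd2 hd3 g l (hB'le hl) (hK0le hx)
  have h1 := GT_au_zero B' (q - 1) hfin
  have h2 : au q = 0 := by
    rw [hq, map_finsuppSum]
    unfold Finsupp.sum
    refine Finset.sum_eq_zero fun j _ => ?_
    change au (y j * t j) = 0
    rw [map_mul, ht j, mul_zero]
  rw [map_sub, map_one, h2] at h1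
  norm_num at h1

end Pool.Agent.SFG
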