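import Pool.Agent.SFG.StP

/-!
# SFG PFc : the cochain of a group-valued cocycle near infinity
-/

set_option autoImplicit false

namespace Pool.Agent.SFG

open Matrix Pool.Agent.CPD Pool.Agent.SPD

section

private theorem PFc_key {X : Type} (Φ : (X →₀ ℤ) →ₗ[ℤ] ℤ) (c : X →₀ ℤ) :
    Φ c = ∑ x ∈ c.support, c x • Φ (Finsupp.single x 1) := by
  conv_lhs => rw [← Finsupp.sum_single c, Finsupp.sum, map_sum]
  refine Finset.sum_congr rfl fun x _ => ?_
  rw [← map_smul, Finsupp.smul_single, smul_eq_mul, mul_one]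

private theorem PFc_ext {X : Type} (Φ Ψ : (X →₀ ℤ) →ₗ[ℤ] ℤ) (c : X →₀ ℤ)
    (h : ∀ x, c x ≠ 0 → Φ (Finsupp.single x 1) = Ψ (Finsupp.single x 1)) : Φ c = Ψ c := by
  rw [PFc_key Φ, PFc_key Ψ]
  refine Finset.sum_congr rfl fun x hx => ?_
  rw [h x (Finsupp.mem_support_iff.1 hx)]

variable {G : Type} [Group G] {I : Type}

private noncomputable def PFc_phi (e : I → ℤ) (a : G → G → ℤ) (v : G) :
    ((G × I) →₀ ℤ) →ₗ[ℤ] ℤ :=
  Finsupp.linearCombination ℤ (fun x => -(e x.2 * a v (v⁻¹ * x.1)))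

private theorem PFc_phi_single (e : I → ℤ) (a : G → G → ℤ) (v : G) (x : G × I) :
    PFc_phi e a v (Finsupp.single x 1) = -(e x.2 * a v (v⁻¹ * x.1)) := by
  unfold PFc_phi
  rw [Finsupp.linearCombination_single, one_smul]

private theorem PFc_shift (L : Len G) (n K : ℕ) (a : G → G → ℤ)
    (ha : ∀ v h h', n < L.l v → L.l h ≤ K → L.l h' ≤ K → a v h + a (v * h) h' = a v (h * h'))
    (e : I → ℤ) (v g : G) (hv : n < L.l v) (hg : L.l g ≤ K) (z : (G × I) →₀ ℤ)
    (hz : ∀ x, z x ≠ 0 → L.l ((v * g)⁻¹ * x.1) ≤ K) :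
    PFc_phi e a v z = PFc_phi e a (v * g) z - a v g * augZ e z := by
  have h1 : augZ e z = Finsupp.linearCombination ℤ (fun x : G × I => e x.2) z := rfl
  have h2 : PFc_phi e a v z = (PFc_phi e a (v * g) -
      a v g • Finsupp.linearCombination ℤ (fun x : G × I => e x.2)) z := by
    refine PFc_ext _ _ z fun x hx => ?_
    rw [LinearMap.sub_apply, LinearMap.smul_apply, PFc_phi_single, PFc_phi_single,
      Finsupp.linearCombination_single, one_smul, smul_eq_mul]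
    have h3 := ha v g ((v * g)⁻¹ * x.1) hv hg (hz x hx)
    have h4 : g * ((v * g)⁻¹ * x.1) = v⁻¹ * x.1 := by group
    rw [h4] at h3
    rw [← h3]
    ring
  rw [h2, LinearMap.sub_apply, LinearMap.smul_apply, h1, smul_eq_mul]

end

theorem PFc (h1 : CPD.St_E1) : St_PFc := by
  classical
  intro G _ M R 𝓛 n a ha
  obtain ⟨e1, e2, e3, e4, e5, e6, e7, e8, e9⟩ := h1 G M.I
  have hres := M.resP
  have hkap : 𝓛.kap = 4 * 𝓛.ρ + 20 * M.u := rfl
  have hu : M.u = M.c + 1 := rfl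
  have hR := 𝓛.hR
  have htoV0 : toV (0 : (G × M.I) →₀ ℤ) = 0 := by
    have h2 := e2 (0 : (G × M.I) →₀ ℤ) 0
    rw [add_zero] at h2
    exact left_eq_add.1 h2
  have hDD : ∀ c : (G × M.I) →₀ ℤ, opZ M.D (opZ M.D c) = 0 := by
    intro c
    rw [← e6, hres.DD]
    apply e3
    rw [e1, vecMul_zero, htoV0]
  have hED : ∀ c : (G × M.I) →₀ ℤ, opZ M.D (opZ M.E c) = opZ M.D c := by
    intro c
    rw [← e6, hres.ED]
  have hops : ∀ (A : Matrix M.I M.I (ZG G)) (x : G × M.I),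
      opZ A (Finsupp.single x 1) = row A x := by
    intro A x
    unfold opZ
    rw [Finsupp.linearCombination_single, one_smul]
  have hrow : ∀ (A : Matrix M.I M.I (ZG G)) (x : G × M.I), row A x = tl x.1 (row A (1, x.2)) := by
    intro A x
    ext y
    rw [e9, CPD.row_apply, CPD.row_apply, inv_one, one_mul]
  have haug : ∀ x : G × M.I, augZ M.e (row M.D x) = 0 := by
    intro x
    rw [hrow, e8, e5, ← M.resP.De x.2]
    refine Finset.sum_congr rfl (fun k _ => ?_)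
    congr 2
    apply MonoidAlgebra.ext
    ext g
    show row M.D (1, x.2) (g, k) = _
    rw [CPD.row_apply]
    show (M.D x.2 k).coeff (1⁻¹ * g) = _
    rw [inv_one, one_mul]
  have hDs : ∀ x y : G × M.I, row M.D x y ≠ 0 →
      M.deg x.2 = M.deg y.2 + 1 ∧ M.L.l (x.1⁻¹ * y.1) ≤ M.c := by
    intro x y h
    rw [CPD.row_apply] at h
    refine ⟨hres.D_deg _ _ fun h2 => h ?_, M.prop_D _ _ _ h⟩
    rw [h2]
    rfl
  have hEs : ∀ x y : G × M.I, row M.E x y ≠ 0 →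
      M.deg x.2 = M.deg y.2 ∧ M.L.l (x.1⁻¹ * y.1) ≤ M.c := by
    intro x y h
    rw [CPD.row_apply] at h
    refine ⟨hres.E_deg _ _ fun h2 => h ?_, M.prop_E _ _ _ h⟩
    rw [h2]
    rfl
  -- the cochain
  obtain ⟨b, hb⟩ : ∃ b : ((G × M.I) →₀ ℤ) →ₗ[ℤ] ℤ, b = Finsupp.linearCombination ℤ
      (fun y : G × M.I => if M.deg y.2 = 1 then PFc_phi M.e a y.1 (row M.D y) else 0) :=
    ⟨_, rfl⟩
  have hb1 : ∀ y : G × M.I, M.deg y.2 = 1 →
      b (Finsupp.single y 1) = PFc_phi M.e a y.1 (row M.D y) := by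
    intro y hy
    rw [hb, Finsupp.linearCombination_single, one_smul, if_pos hy]
  have hb0 : ∀ y : G × M.I, M.deg y.2 ≠ 1 → b (Finsupp.single y 1) = 0 := by
    intro y hy
    rw [hb, Finsupp.linearCombination_single, one_smul, if_neg hy]
  -- the main property
  have hP : ∀ (v : G) (c : (G × M.I) →₀ ℤ), n < M.L.l v →
      (∀ x, c x ≠ 0 → M.deg x.2 = 1 ∧ M.L.l (v⁻¹ * x.1) ≤ 𝓛.kap) →
      b c = PFc_phi M.e a v (opZ M.D c) := by
    intro v c hv hc
    refine PFc_ext b (PFc_phi M.e a v ∘ₗ opZ M.D) c fun x hx => ?_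
    obtain ⟨hx1, hx2⟩ := hc x hx
    rw [hb1 x hx1, LinearMap.comp_apply, hops]
    have h2 : v * (v⁻¹ * x.1) = x.1 := mul_inv_cancel_left _ _
    have h3 := PFc_shift M.L n 𝓛.kap a ha M.e v (v⁻¹ * x.1) hv hx2 (row M.D x) (by
      intro y hy
      rw [h2]
      have := (hDs x y hy).2
      omega)
    rw [h3, haug, mul_zero, sub_zero, h2]
  refine ⟨b, fun v => -(PFc_phi M.e a v (tl v 𝓛.o)), n, le_refl n, hb0, ?_, ?_, ?_⟩
  · intro x hx hxn
    rw [hP x.1 (opZ M.D (Finsupp.single x 1)) hxn ?_, hDD, map_zero]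
    intro y hy
    rw [hops] at hy
    obtain ⟨h2, h3⟩ := hDs x y hy
    exact ⟨by omega, by omega⟩
  · intro y hy hyn
    rw [hP y.1 (opZ M.E (Finsupp.single y 1)) hyn ?_, hED, hops, hb1 y hy]
    intro x hx
    rw [hops] at hx
    obtain ⟨h2, h3⟩ := hEs y x hx
    exact ⟨by omega, by omega⟩
  · intro v h hv hh
    rw [hP v (tl v (𝓛.es h)) hv ?_]
    · have h2 : opZ M.D (𝓛.es h) = 𝓛.o - tl h 𝓛.o := by
        rw [eq_sub_iff_add_eq, add_comm]
        exact (𝓛.es_D h hh).symm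
      have h3 : tl v (𝓛.o - tl h 𝓛.o) = tl v 𝓛.o - tl (v * h) 𝓛.o := by
        ext y
        rw [Finsupp.sub_apply, e9, e9, e9, Finsupp.sub_apply, e9]
        congr 3
        show h⁻¹ * (v⁻¹ * y.1) = (v * h)⁻¹ * y.1
        rw [_root_.mul_inv_rev, mul_assoc]
      have h4 := PFc_shift M.L n 𝓛.kap a ha M.e v h hv (by omega) (tl (v * h) 𝓛.o) (by
        intro y hy
        rw [e9] at hy
        have := (𝓛.o_supp _ hy).2
        show M.L.l ((v * h)⁻¹ * y.1) ≤ 𝓛.kap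
        exact this.trans (by omega))
      rw [e7, h2, h3, map_sub, h4, e8, 𝓛.o_aug]
      ring
    · intro x hx
      rw [e9] at hx
      obtain ⟨h2, h3⟩ := 𝓛.es_supp _ _ hx
      exact ⟨h2, h3.trans (by omega)⟩

end Pool.Agent.SFG
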