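import Pool.Agent.SFG.GDefs

/-!
# Statements, part V : free splittings, von Neumann dimension, accessibility

`X : Matrix (Fin k) (Fin r) (ZG P)` acts on square summable families `x : Fin r → P → ℝ` from the
left: `(X x)_i (g) = ∑_a ∑_h X i a (h) * x_a (h⁻¹ g)`. Final theorems: `St_GRD`, `St_ITR`.
-/

set_option autoImplicit false

namespace Pool.Agent.SFG

open Matrix Pool.Agent.CPD Pool.Agent.SPD

/-- The Hilbert space `ℓ²(P)^r`. -/
abbrev HH (P : Type) (r : ℕ) : Type := lp (fun _ : P × Fin r => ℝ) 2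

/-- [DM1] Powers of a self-adjoint contraction without eigenvalue `±1`.
Proof. `V := U²`. `⟪V^j x, x⟫ = ‖U^j x‖²` is decreasing in `j`, so it converges. For `m ≤ n`:
`‖V^m x - V^n x‖² = ‖U^(2m) x‖² - 2 ‖U^(m+n) x‖² + ‖U^(2n) x‖²` (`⟪V^m x, V^n x⟫ = ‖U^(m+n) x‖²`) tends to
`0`: `V^n x` is a Cauchy sequence, with limit `y`; `V y = y`, so `y = 0` by the hypothesis. So
`‖U^(2n) x‖ → 0`, and `‖U^n x‖` is decreasing. -/
def St_DM1 : Prop := ∀ (H : Type) [NormedAddCommGroup H] [InnerProductSpace ℝ H]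
  [CompleteSpace H] (U : H →L[ℝ] H), (∀ x y, inner ℝ (U x) y = inner ℝ x (U y)) →
  (∀ x, ‖U x‖ ≤ ‖x‖) → (∀ y, U (U y) = y → y = 0) →
  ∀ x, Filter.Tendsto (fun n : ℕ => ‖(U ^ n) x‖) Filter.atTop (nhds 0)

/-- [DM2] Matrices over the group ring act on `ℓ²`.
Proof. For `h : P`, `i : Fin k`, `a : Fin r` the partial isometry `x ↦ ((g, i') ↦ if i' = i then x (h⁻¹ g,
a) else 0)` is linear of norm `≤ 1` (`LinearMap.mkContinuous`; sums of squares, reindexed along an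
injective map). `ρ X` is the finite sum of these with the coefficients of `X`. The product: compare
coordinates, by additivity it is enough to take matrices with one entry `single h 1`. The adjoint:
the same; for one entry `⟪x', y⟫ = ∑_g x (h⁻¹ g, a) y (g, i) = ∑_g x (g, a) y (h g, i)`. -/
def St_DM2 : Prop := ∀ (P : Type) [Group P],
  ∃ ρ : ∀ k r : ℕ, Matrix (Fin k) (Fin r) (ZG P) → (HH P r →L[ℝ] HH P k),
    (∀ k r X (x : HH P r) (g : P) (i : Fin k), (ρ k r X x : P × Fin k → ℝ) (g, i) =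
      ∑ a, (X i a).coeff.sum (fun h n => (n : ℝ) * (x : P × Fin r → ℝ) (h⁻¹ * g, a))) ∧
    (∀ k r X Y, ρ k r (X + Y) = ρ k r X + ρ k r Y) ∧
    (∀ k r m (X : Matrix (Fin k) (Fin r) (ZG P)) (Y : Matrix (Fin r) (Fin m) (ZG P)) (x : HH P m),
      ρ k m (X * Y) x = ρ k r X (ρ r m Y x)) ∧
    (∀ r x, ρ r r 1 x = x) ∧
    (∀ k r X x y, inner ℝ (ρ k r X x) y = inner ℝ x (ρ r k Xᴴ y))

/-- [DIM] (uses DM1, DM2) An injective matrix has at most as many columns as rows.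

Proof. `T := Xᴴ * X` (`r × r`), `T' := X * Xᴴ` (`k × k`). `ρ T x = 0` implies `‖ρ X x‖² = 0`, so `x = 0` by the
hypothesis (`HH P r` is the space of square summable families). Choose a natural number `c` larger
than the operator norms of `ρ T` and `ρ T'`, `c ≥ 1`. `M := c - T`, `M' := c - T'` (`c` = the scalar
matrix). `U := (1/c) • ρ M` is self-adjoint, `0 ≤ ⟪ρ T x, x⟫ ≤ c ‖x‖²`; `‖U‖ ≤ 1`: `‖U x‖² = ‖x‖² - (2/c) ⟪T x, x⟫ +
(1/c²) ‖T x‖²`, and `‖T x‖² ≤ c ⟪T x, x⟫` (`‖T x‖² = ⟪T x, T x⟫`, Cauchy-Schwarz for the form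
`⟪T x, y⟫`; or: `T = Xᴴ X`, `‖Xᴴ (X x)‖² ≤ ‖ρ T'‖ ‖X x‖²` as `‖Xᴴ y‖² = ⟪T' y, y⟫`). `U (U y) = y`: expand:
`T (2 c - T) y = 0`, so `(2 c - T) y = 0` (injectivity), `T y = 2 c y`, so `y = 0` as `‖T‖ < 2 c`. DM1:
`‖U^n x‖ → 0` for all `x`. `τ N := ∑_a (N a a).coeff 1` for square matrices over `ℤ[P]`: additive,
`τ (N1 N2) = τ (N2 N1)` also for rectangular matrices (`CPD.St_TR1` or directly), `τ (Nᴴ N) = ∑ (all
coefficients)² ≥ 0`. `c^m - M^m = Xᴴ Q X` with `Q := ∑_{j<m} c^(m-1-j) M'^j` (as `X M = M' X` and `c - M = Xᴴ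
X`), and `c^m - M'^m = Q X Xᴴ`: so `r c^m - τ (M^m) = k c^m - τ (M'^m)`. For `m = 2 n`: `τ (M'^m) =
τ ((M'^n)ᴴ M'^n) ≥ 0`, and `τ (M^m) / c^m = ∑_a ‖U^n e_a‖² → 0` (`e_a` the unit vector at `(1, a)`;
`‖ρ N e_a‖²` is the sum of the squares of the coefficients of the column `a` of `N`, DM2 (1)). So
`r ≤ k + ε` for every `ε > 0`, and `r ≤ k`. -/
def St_DIM : Prop := ∀ (P : Type) [Group P] (r k : ℕ) (X : Matrix (Fin k) (Fin r) (ZG P)),
  (∀ x : Fin r → P → ℝ, (∀ a, Summable (fun g => (x a g) ^ 2)) →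
    (∀ i g, ∑ a, (X i a).coeff.sum (fun h n => (n : ℝ) * x a (h⁻¹ * g)) = 0) →
    ∀ a g, x a g = 0) → r ≤ k

/-- [GRD] (uses DIM) A bound for the number of independent infinite subgroups.
Proof. DIM for `X i a := d a (s i)`. Let `x` be as there, `(m · y)(g) := ∑_h m(h) y(h⁻¹ g)` for `m : ZG P`,
`y : P → ℝ` (an action of the ring `ℤ[P]`). `F p := ∑_a (d a p) · x_a`: `F (p q) = F p + gr p · F q` for
`p, q ∈ A`, `F (s i) = 0`. So `F = 0` on the closure `A` (`F 1 = 0`, `F p⁻¹ = - gr p⁻¹ · F p`). For `κ ∈ K b`: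
`0 = F κ = (gr κ - 1) · x_b`, i.e. `x_b (κ⁻¹ g) = x_b g`. If `x_b g ≠ 0`, the infinitely many terms at
`κ⁻¹ g`, `κ ∈ K b`, are equal and not zero, which contradicts `Summable`. -/
def St_GRD : Prop := ∀ (P : Type) [Group P] (A : Subgroup P) (k r : ℕ) (s : Fin k → P)
  (K : Fin r → Subgroup P) (d : Fin r → P → ZG P), A = Subgroup.closure (Set.range s) →
  (∀ a, K a ≤ A ∧ (K a : Set P).Infinite) → (∀ a, Der A (d a)) →
  (∀ a b, ∀ x ∈ K b, d a x = if a = b then gr x - 1 else 0) → r ≤ k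

/-- [SB] Free splittings.
Proof. (1) `N := P`, `φ := id`, `ψ := 1`: `χ` maps `A` onto `A1` (the image of `A = A1 ⊔ K` is generated by
`A1`), so `A1` is generated by the images of the generators of `A`. The same for `K`. (2) `sup` clear.
Given `φ` on `A2`, `ψ` on `K2 ⊔ K1`: extend `φ`, `ψ` to `χ1` on `A1` (second splitting), then `χ1`, `ψ` to `χ`
on `A`. `χ` and `ψ` are multiplicative on `K2 ⊔ K1` and agree on `K2` and `K1`, so on `K2 ⊔ K1` (closure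
induction). (3) `N := Equiv.Perm (ZG P)`: a derivation `d` on `B` gives the multiplicative function
`b ↦ (z ↦ d b + gr b * z)`; extend `d1`, `d2` (outside of the subgroups use any value), get `χ`; the
set of all `a ∈ A` such that `χ a z = χ a 0 + gr a * z` for all `z` is a subgroup and contains `A1`, `K`;
`d a := χ a 0`. (4) symmetric. (5) `K = ⊥`: `A1 = A`. (6) extend `χ` on `A1` by `1` on `K`. (7) `χ := φ`. -/
def St_SB : Prop := ∀ (P : Type) [Group P],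
  (∀ A1 K A : Subgroup P, Spl A1 K A → A.FG → A1.FG ∧ K.FG) ∧
  (∀ A2 K2 A1 K1 A : Subgroup P, Spl A1 K1 A → Spl A2 K2 A1 → Spl A2 (K2 ⊔ K1) A) ∧
  (∀ (A1 K A : Subgroup P) (d1 d2 : P → ZG P), Spl A1 K A → Der A1 d1 → Der K d2 →
    ∃ d, Der A d ∧ (∀ x ∈ A1, d x = d1 x) ∧ ∀ x ∈ K, d x = d2 x) ∧
  (∀ A1 K A : Subgroup P, Spl A1 K A → Spl K A1 A) ∧
  (∀ A1 A : Subgroup P, Spl A1 ⊥ A → A1 = A) ∧
  (∀ A1 K A : Subgroup P, Spl A1 K A → NoZ A → NoZ A1 ∧ NoZ K) ∧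
  (∀ A : Subgroup P, Spl A ⊥ A)

/-- [ITR] (uses GRD, SB) Iterated free splittings stop.

Proof. `A` is generated by `k` elements. Let `p r` be the statement: there are `A'`, `K` with `Spl A' K
A`, `Q A'`, and `Kr : Fin r → Subgroup P`, `d : Fin r → P → ZG P` with `Kr a ≤ K`, `Kr a` infinite, `Der A (d
a)`, `d a = 0` on `A'`, `d a x = if a = b then gr x - 1 else 0` for `x ∈ Kr b`. `p 0` holds (`Spl A ⊥ A`). By
GRD `p r` implies `r ≤ k`. Choose `r` maximal with `p r`, and its data. If `Tm A'` does not hold then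
`Spl A'' K' A'`, `K' ≠ ⊥` (so `K'` is infinite, `TF`), `Q A''` (`A'` is f.g. by SB (1)). `Spl A'' (K' ⊔ K) A`
(SB (2)); the new subgroup is `K'`, the new derivation is `0` on `A''`, `gr x - 1` on `K'` (SB (3), on
`A'`), and `0` on `K` (SB (3), on `A`); it vanishes on `Kr b ≤ K`; the old ones vanish on `A' ⊇ K'`, `A''`:
`p (r + 1)`, a contradiction. -/
def St_ITR : Prop := ∀ (P : Type) [Group P] (Q Tm : Subgroup P → Prop), TF P →
  (∀ A' : Subgroup P, A'.FG → Q A' → Tm A' ∨ ∃ A'' K' : Subgroup P, Spl A'' K' A' ∧ K' ≠ ⊥ ∧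
    Q A'') →
  ∀ A : Subgroup P, A.FG → Q A → ∃ A' K : Subgroup P, Spl A' K A ∧ A'.FG ∧ K.FG ∧ Q A' ∧ Tm A'

end Pool.Agent.SFG
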