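import Pool.Agent.SFG.StR
import Pool.Agent.SFG.StV

/-!
# Statements, part G : the group theoretic theorem

Final theorem: `St_GT`. `Cl A L`, `One A`, `LL B`, `NoZ A`, `HX P` are defined in `GDefs`.
-/

set_option autoImplicit false

namespace Pool.Agent.SFG

open Pool.Agent.CPD Pool.Agent.SPD

/-- [RSF] (uses `St_RSa`, `St_ITR`) Closed subgroups are free factors.
Proof. ITR with `Q A' := L ≤ A' ∧ Cl A' L`, `Tm A' := (A' = L)`. Step: if `A' ≠ L` there are `a ∈ A'`, `a ∉ L`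
and `E` with `AI A' L E`, moved by `a`. `{x ∈ A' | x ∈ E}` and `{x ∈ A' | x ∉ E}` are not empty and
invariant under the infinite group `L` (`TF`), so infinite. RSa: `L ≤ A1 ≤ A'`, `Spl A1 K A'`, `K ≠ ⊥`.
`Cl A1 L`: for `a ∈ A1`, `a ∉ L` let `E` be as in `Cl A' L`, `x ∈ A'` with `¬ (a x ∈ E ↔ x ∈ E)`; `E' := {y | y x
∈ E}`: `AI A1 L E'` (injective map `y ↦ y x`), and `a` moves `E'` at `1`. -/
def St_RSF : Prop := ∀ (P : Type) [Group P] (A L : Subgroup P), TF P → A.FG → L ≠ ⊥ → L ≤ A →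
  Cl A L → ∃ K : Subgroup P, Spl L K A ∧ L.FG ∧ K.FG

/-- [RSA] (uses `St_RSa`, `St_ITR`, `St_SB`) A free factor without infinite coinfinite almost
invariant subsets.
Proof. ITR with `Q A' := A' ≠ ⊥ ∧ NoZ A'`, `Tm A' := One A'`. Step: if not `One A'`, RSa with `L = ⊥`:
`Spl A1 K1 A'`, `K1 ≠ ⊥`; the last clause and `NoZ A'` give `A1 ≠ ⊥`; `NoZ A1` by SB (6). -/
def St_RSA : Prop := ∀ (P : Type) [Group P] (K : Subgroup P), TF P → K.FG → K ≠ ⊥ → NoZ K →
  ∃ K0 K1 : Subgroup P, Spl K0 K1 K ∧ K0.FG ∧ K0 ≠ ⊥ ∧ One K0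

/-- [LB] Consequences of `HX`: `B ≤ LL B ≤ B'`.
Proof. (1) clear (`AI.inv`, `x ∈ ⊤`). (2) Let `δ p = 0` for `p ∈ B`, `j : J`, `f h := (δ h j).coeff h` with a
minus sign: `f h := - (δ h j).coeff h`. From `δ (p h) = δ p + gr p • δ h`: `f (p h) = f h - (δ p j).coeff (p
h)` (`(gr p * m).coeff (p h) = m.coeff h`). So `{x | f x = n}` satisfies `AI ⊤ B` for every `n`: `f (a x) = f
x` for all but finitely many `x`, and for all `x` if `a ∈ B`. So for `p ∈ LL B`: `f (p x) = f x` for all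
`x`, `(δ p j).coeff (p x) = 0` for all `x`, so `δ p = 0`. (3) By (2) and the last clause of `HX`:
`InI B' 0 (0 - (gr p - 1))` for `p ∈ LL B`, so `mk p = mk 1` in `P ⧸ B'`, `p ∈ B'`. (4) Let `a ∈ A`, `a ∉ LL
B`: some `E` with `AI ⊤ B E`, `x` with `¬ (a x ∈ E ↔ x ∈ E)`. `E' := {y | y x ∈ E}` satisfies `AI ⊤ B`, so
`AI A (LL B)` (the elements of `LL B` leave it invariant by definition), and `a` moves it at `1`. -/
def St_LB : Prop := ∀ (P : Type) [Group P] (B : Subgroup P),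
  B ≤ LL B ∧
  (∀ (J : Type) (δ : P → (J →₀ ZG P)), (∀ p q, δ (p * q) = δ p + gr p • δ q) →
    (∀ b ∈ B, δ b = 0) → ∀ p ∈ LL B, δ p = 0) ∧
  (HX P → B.FG → ∃ B' : Subgroup P, B'.FG ∧ LL B ≤ B') ∧
  (∀ A : Subgroup P, LL B ≤ A → Cl A (LL B))

/-- [LF] (uses LB, RSF) `LL B` is finitely generated.
Proof. `LL B ≤ B'` with `B'` f.g. (LB (3)), `LL B ≥ B ≠ ⊥`; LB (4), RSF for `A := B'`. -/
def St_LF : Prop := ∀ (P : Type) [Group P] (B : Subgroup P), TF P → HX P → B.FG → B ≠ ⊥ →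
  (LL B).FG ∧ ∀ A : Subgroup P, A.FG → LL B ≤ A → ∃ K : Subgroup P, Spl (LL B) K A ∧ K.FG

/-- [INN] The derivation is inner on a one-ended subgroup.

Proof. Let `K` be infinite and generated by the finite set `S`, `f h x := - (δ h j).coeff (h x)` for
`j : J`, `h ∈ K`, `x : P` (fixed `j`, `x`): `f (k h) x = f h x - (δ k j).coeff (k h x)`. For `T ⊆ ℤ` the set
`{h | h ∈ K ∧ f h x ∈ T}` satisfies `AI K ⊥` (for `a ∈ K`: `f (a h) x = f h x` for all but finitely many
`h ∈ K`). By `One K` it is finite or cofinite in `K`, for every `T`. So there is a unique `c = c j x` with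
`f h x = c` for all but finitely many `h ∈ K` (if all fibres were finite there would be infinitely
many values, and a set `T` of half of them would give an infinite coinfinite set). Choose a set `X`
of representatives of the right cosets `K x`, i.e. a function `r : P → P` with `K r(g) = K g`, constant
on the cosets; `g = h r(g)`, `h := g r(g)⁻¹ ∈ K`. `y j g := f h (r g) - c j (r g)`. (i) For `k ∈ K`:
`y j (k g) = y j g - (δ k j).coeff (k g)`, so `(δ k j).coeff (k g) = y j g - y j (k g)`, i.e. `δ k = gr k •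
y - y` coefficientwise at `k g`. (ii) `y j` is finitely supported on every coset. For all pairs `(j,
x)`, `x ∈ X`, such that no `(δ k j)`, `k ∈ S`, has a coefficient on `K x`: `(δ k j).coeff` vanishes on `K
x` for all `k ∈ K` (closure induction: `δ (k k') = δ k + gr k • δ k'`, `δ k⁻¹ = - gr k⁻¹ • δ k`), so `f h x
= 0` for all `h`, `c = 0`, `y j = 0` on `K x`. Only finitely many pairs are left, so `y` is a finitely
supported family `J →₀ ZG P`. -/
def St_INN : Prop := ∀ (P : Type) [Group P] (K : Subgroup P) (J : Type) (δ : P → (J →₀ ZG P)),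
  TF P → K.FG → K ≠ ⊥ → One K → (∀ p q, δ (p * q) = δ p + gr p • δ q) →
  ∃ y : J →₀ ZG P, ∀ k ∈ K, δ k = gr k • y - y

/-- [EXT] (uses `St_SB`) Extensions along an increasing sequence of free splittings.
Proof. (1) Choose successively (`Spl.ext` with `ψ := 1`) `χ_m` on `C m`, `m ≥ n + 1`, `χ_(n+1) = φ`,
`χ_(m+1) = χ_m` on `C m`; `χ p := χ_m p` for the first `m ≥ n + 1` with `p ∈ C m` (monotone). (2) the same
with SB (3), the derivations `0` on `C n`, `gr x - 1` on `K n`, then `0` on all `K m`, `m > n`. (3) Let `χ` be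
multiplicative on `K n`; extend it to `C (n + 1)` by `1` on `C n`, to `P` by (1); by hypothesis it is
trivial. -/
def St_EXT : Prop := ∀ (P : Type) [Group P] (C K : ℕ → Subgroup P),
  (∀ n, Spl (C n) (K n) (C (n + 1))) → (∀ p, ∃ n, p ∈ C n) →
  (∀ n (N : Type) [Group N] (φ : P → N), MulOn (C n) φ →
    ∃ χ : P → N, MulOn ⊤ χ ∧ ∀ x ∈ C n, χ x = φ x) ∧
  (∀ n, ∃ d : P → ZG P, Der ⊤ d ∧ (∀ x ∈ C n, d x = 0) ∧ ∀ x ∈ K n, d x = gr x - 1) ∧
  (NoZ (⊤ : Subgroup P) → ∀ n, NoZ (K n))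

/-- [INT] A derivation separates `K` from the conjugates of `C`.
Proof. Let `x ∈ K`, `x = g l g⁻¹`, `l ∈ C`, `x ≠ 1`. `d 1 = 0`, `d g⁻¹ = - gr g⁻¹ * d g`. `gr x - 1 = d x =
d g + gr g * d l + gr (g l) * d g⁻¹ = (1 - gr x) * d g`. So `(gr x - 1) * (1 + d g) = 0`; `x` has infinite
order, so the finitely supported function `1 + d g`, invariant under left translation by `x`, is
zero. But `au (d g) = 0`: `p ↦ ofAdd (au (d p))` is multiplicative, so trivial by `NoZ ⊤`. So `1 = 0`. -/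
def St_INT : Prop := ∀ (P : Type) [Group P] (C K : Subgroup P) (d : P → ZG P), TF P →
  NoZ (⊤ : Subgroup P) → Der ⊤ d → (∀ x ∈ C, d x = 0) → (∀ x ∈ K, d x = gr x - 1) →
  ∀ (g l : P), l ∈ C → g * l * g⁻¹ ∈ K → g * l * g⁻¹ = 1

/-- [FRE] An infinite group which acts freely has no invariants in `ℤ[P ⧸ B]`.
Proof. `F := m.coeff.mapDomain mk`, finitely supported on `P ⧸ B`. `InI B 0 (gr k * m - m)` for `k ∈ K`
means that `F` is invariant under `K`. If `F ξ ≠ 0`, `ξ = mk g`, then `F` is not zero at the points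
`mk (k g)`, `k ∈ K`; these are different: `mk (k g) = mk (k' g)` gives `g⁻¹ k⁻¹ k' g ∈ B`, so
`k⁻¹ k' = g l g⁻¹` with `l ∈ B`, so `k = k'`. `K` is infinite: contradiction. -/
def St_FRE : Prop := ∀ (P : Type) [Group P] (B K : Subgroup P) (m : ZG P),
  (K : Set P).Infinite → (∀ g l : P, l ∈ B → g * l * g⁻¹ ∈ K → g * l * g⁻¹ = 1) →
  (∀ k ∈ K, InI B 0 (gr k * m - m)) → InI B 0 m

/-- [GT] (uses `St_SB`, LB, LF, RSA, INN, EXT, INT, FRE) The theorem.

Proof. Suppose `P` is not f.g. Then `P ≠ 1`; let `p0 ≠ 1`, `HX` for `B := zpowers p0`: `B'`, `J`, `δ`, `t`.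
`C 0 := LL B'`, `C (n+1) := LL (C n ⊔ zpowers (p n))`, `p : ℕ → P` surjective. All `C n` are f.g. and not
`⊥` (LF, `B ≤ LL B`), `C n ≤ C (n+1)`, so `Spl (C n) (K n) (C (n+1))` with `K n` f.g. (LF for `C n` and
`A := C (n+1)`), and every element of `P` is in some `C n`. If all `K n = ⊥` then all `C n` are equal
(SB (5)), `P = C 0` is f.g. So `K n ≠ ⊥` for some `n`; `B' ≤ C 0 ≤ C n`. `NoZ (K n)` (EXT (3)). RSA:
`Spl K0 K1 (K n)`, `K0` f.g., `K0 ≠ ⊥`, `One K0`; `K0` is infinite. INN: `y` with `δ k = gr k • y - y` for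
`k ∈ K0`. `q := y.sum (fun j a => a * t j)`. For `k ∈ K0`, `HX` says `InI B' 0 ((gr k * q - q) - (gr k -
1))`, i.e. `InI B' 0 (gr k * (q - 1) - (q - 1))`. EXT (2) for `n` and INT with `C := C n ⊇ B'`, `K := K n ⊇ K0`:
the hypothesis of FRE holds for `B'`, `K0`. So `InI B' 0 (q - 1)`, which implies `au (q - 1) = 0` (the sum
of all coefficients of the image). But `au q = 0` as `au (t j) = 0`. Contradiction. -/
def St_GT : Prop := ∀ (P : Type) [Group P], TF P → Countable P → NoZ (⊤ : Subgroup P) → HX P →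
  Group.FG P

end Pool.Agent.SFG
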