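import Pool.Agent.SFG.Defs

/-!
# Statements, part H : the condition `HX`

`T` is a coefficient system with values in a group `π`, with labels on the complement of `Bl n`, good
beyond `n` (`Dc`). `u := M.u`, `ρ := 𝓛.ρ`, `|y| = M.L.l y.1`, `D`, `E`, .. are the lifted operators
`opT M T M.D`, .. A linear map `z : Ch M (ZG π) → W` is given by its values on cells; it is the same as
a locally finite chain with coefficients in `W`. For `ξ : Ch`, `m : W` let `ξ^m (a) := pair a (star ∘ ξ) •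
m`; by F9 `(ξ^m) (op A a) = ((op Aᴴ ξ)^m) (a)` if `ξ` is supported beyond `n` (`V := {v | n < |v|}`; check on
cells). Final theorem: `St_HX`.
-/

set_option autoImplicit false

namespace Pool.Agent.SFG

open Matrix Pool.Agent.CPD Pool.Agent.SPD

/-- [SHW] (uses `SPD.St_L2`) The chain along a short word.
Proof. Induction on the word, from the front, as in the proof of `SPD.L6`: `chw g (a :: s) =
sh g (es a) + gr (T g a) • chw (g a) s = sh g (es a) + gr (T g a) • (sh (g a) (es (value s)) + op D e'') =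
sh g (es (a value s)) + op D (sh g (f2 a (value s)) + gr (T g a) • e'')` (L2: `R ≥ length`); the empty
word: `0 = sh g (es 1) + op D (- sh g (f2 1 1))` (L2 for `h = h' = 1`, `T g 1 = 1`). Every summand is
supported within `ρ` of a vertex of the word. -/
def St_SHW : Prop := ∀ (G α π : Type) [Group G] [Group π] (f : α → G)
  (Rel : Set (List (α × Bool))) (M : Pk G) (R : ℕ) (𝓛 : Loc M R) (n : ℕ) (T : G → G → π),
  Dc f Rel M 𝓛 n T → ∀ (m : ℕ) (v : G) (s : List (α × Bool)), n ≤ m → s.length ≤ R →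
    Avoids f (Bl M.L m) v s → ∃ e : Ch M (ZG π),
      (∀ y, e y ≠ 0 → M.deg y.2 = 2 ∧ m < M.L.l y.1 + 𝓛.ρ) ∧
      chw f M 𝓛 T v s = sh M T v (𝓛.es (value f s)) + opT M T M.D e

/-- [PL] (uses `SPD.St_W0`, `SPD.St_W1`, `SPD.St_F0`, `SPD.St_L2`, `SPD.St_L5`, `SPD.St_L6`,
`CPD.St_D0`, `CPD.St_D1`, SHW) Cells of degree one are pushed to infinity.

Proof. `K := Bl (n1 + ρ)`, `D'` from semistability, `m ≥ n1 + ρ + u` with `D' ⊆ Bl m`, `m'` from `join m`,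
`n2 := m' + m + R + 2 ρ + 10 u`. Given `C`: `C'` from semistability for `Bl (C + ρ)`; `m3` from `join (max m
(C + ρ))`, `C1 := m3 + C + 2 ρ + 10 u`. Choose `a` outside `C'` with `|a| > m' + m3` (`G` infinite). For
`|v| > m'` let `q_v` be a word from `v` to `a` outside `Bl m`, and outside `Bl (max m (C + ρ))` if `|v| >
m3`. `K0 (single (v, i) 1) := sh v (ex i) + e_i • chw v q_v` if `deg i = 0`, `|v| > m'`, else `0`. It is
supported beyond `C` if `|v| > C1` (L5 (3), `ex_supp`); degree one.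
Let `y = (v, j)`, `deg j = 1`, `|y| > n2`. L2: `op E y = ∑ n_x (gr (T v x.1) • sh (v x.1) (ex x.2) - e_x • sh
v (es x.1)) + op D (sh v (f1 j))`, `op D y = ∑ n_x gr (T v x.1) • single (v x.1, x.2)` over `x` in
`row D (1, j)` (`|x.1| ≤ c ≤ R`). So `op E y - K0 (op D y) = op D (sh v (f1 j)) - ∑ n_x e_x (sh v (es x.1) +
gr (T v x.1) • chw (v x.1) q_(v x.1))`. For each `x` let `s_x` be a word of length `l x.1` with value `x.1`.
It avoids `Bl m` from `v`, `hol v s_x = T v x.1` (`T` good), and by SHW, L5 (1): the bracket is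
`chw v (s_x ++ q_(v x.1)) + op D e1`. `ℓ := winv q_v ++ s_x ++ q_(v x.1)` is closed at `a`, outside `Bl m`,
and `q_v ++ ℓ ~ s_x ++ q_(v x.1)` outside `Bl m` (D0, D1, `v` fixed): by L5, L6
`chw v (s_x ++ q) = chw v q_v + gr (hol v q_v) • chw a ℓ + op D e2`. Semistability at `a` with the empty
path: `ℓ ~ ℓ'` outside `K`, `ℓ'` outside `Bl (C + ρ)`; L6 (`m := n1 + ρ`): `chw a ℓ = chw a ℓ' + op D e3`,
`e3` beyond `n1`. The terms `chw v q_v` cancel: `∑ n_x e_x = 0` (`De`). So `G y := - ∑ n_x e_x gr (hol v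
q_v) • chw a ℓ'_x` (beyond `C`, L5 (3)) and `K1 y` := the sum of all the `e`'s and `sh v (f1 j)`. For all
other cells `K1 = G = 0`. -/
def St_PL : Prop := ∀ (G α π : Type) [Group G] [Group π] (f : α → G)
  (Rel : Set (List (α × Bool))) (M : Pk G) (R : ℕ) (𝓛 : Loc M R) (n : ℕ) (T : G → G → π),
  Dc f Rel M 𝓛 n T → StrongSemistable f Rel → ∀ n1, n ≤ n1 → ∃ n2, n1 ≤ n2 ∧ ∀ C : ℕ,
    ∃ (C1 : ℕ) (K0 K1 Gm : Ch M (ZG π) →ₗ[ZG π] Ch M (ZG π)), C ≤ C1 ∧
      (∀ x y, K1 (Finsupp.single x 1) y ≠ 0 → M.deg x.2 = 1 ∧ M.deg y.2 = 2 ∧ n1 < M.L.l y.1) ∧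
      (∀ x y, Gm (Finsupp.single x 1) y ≠ 0 → M.deg x.2 = 1 ∧ M.deg y.2 = 1 ∧ C < M.L.l y.1) ∧
      (∀ x y, K0 (Finsupp.single x 1) y ≠ 0 → M.deg x.2 = 0 ∧ M.deg y.2 = 1) ∧
      (∀ x y, C1 < M.L.l x.1 → K0 (Finsupp.single x 1) y ≠ 0 → C < M.L.l y.1) ∧
      (∀ y : G × M.I, M.deg y.2 = 1 → n2 < M.L.l y.1 → opT M T M.E (Finsupp.single y 1) =
        opT M T M.D (K1 (Finsupp.single y 1)) + K0 (opT M T M.D (Finsupp.single y 1)) +
          Gm (Finsupp.single y 1))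

/-- [PSH] (uses `SPD.St_F0`, `SPD.St_F6`, `SPD.St_F9`, PL) One step: a locally finite cycle of degree
one, supported beyond `n2`, is homologous to one supported beyond `C`.

Proof. `n2` from PL for `n1` (and `n2 ≥ n1 + 10 u`). Given `W, z, C` (we may assume `C ≥ n2 + 10 u`): PL for
`C`; `C2 := C1 + C + 10 u`. `m_y := z (single y 1)`. `z0 := z` on the cells with `|y| ≤ C2`, `0` on the others,
`z1 := z - z0`. `v := ∑_{|y| ≤ C2} (K1 y)^(m_y)` (finite sum), which lives on cells of degree two beyond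
`n1`. `z = z ∘ op Eᴴ = z0 ∘ op Eᴴ + z1 ∘ op Eᴴ`, the second part lives beyond `C2 - u ≥ C`. With `e_y :=
single y 1`: `z0 = ∑ (e_y)^(m_y)`, `z0 ∘ op Eᴴ = ∑ (op E e_y)^(m_y)` (F9 for `A = Eᴴ`) `= ∑ (op D (K1
y))^(m_y) + ∑ (K0 (op D y))^(m_y) + ∑ (Gm y)^(m_y)`. The first sum is `v ∘ op Dᴴ` (F9 for `A = Dᴴ`, `K1 y`
beyond `n1 ≥ n`). The third lives beyond `C`. The second one at `x'`: `∑_y star ((K0 (D y)) x') • m_y =
∑_x star ((K0 x) x') • [∑_y star ((D y) x) • m_y]` and the bracket is `z0 (op Dᴴ (single x 1))` (F9: `(op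
Dᴴ (single x 1)) (y) = star ((op D (single y 1)) x)`, for `|x| > n`; if `|x| ≤ n` both are zero, as the `y` near `x`
have `m_y = 0`). It is `0` if `|x| ≤ C2 - u` (then it is `z (op Dᴴ (single x 1)) = 0`), so only `x` with
`|x| > C2 - u ≥ C1` contribute, and `K0 x` is beyond `C`. So `z' := z - v ∘ op Dᴴ` lives beyond `C`; on
cells of degree one: `z` and `v ∘ op Dᴴ` do. `z' ∘ op Dᴴ = 0`: `op Dᴴ (op Dᴴ x) = op (Dᴴ * Dᴴ) x = 0` for
`|x| > n` (F6), and for `|x| ≤ n` all cells are near, where `v = 0` (`n1 ≥ n + 10 u`). `z' ∘ op Eᴴ = z'`: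
`op Dᴴ (op Eᴴ y) = op (Eᴴ * Dᴴ) y = op Dᴴ y`, `Eᴴ * Dᴴ = (D * E)ᴴ`, the same way. -/
def St_PSH : Prop := ∀ (G α π : Type) [Group G] [Group π] (f : α → G)
  (Rel : Set (List (α × Bool))) (M : Pk G) (R : ℕ) (𝓛 : Loc M R) (n : ℕ) (T : G → G → π),
  Dc f Rel M 𝓛 n T → StrongSemistable f Rel → ∀ n1, n + 100 * M.u ≤ n1 → ∃ n2, n1 ≤ n2 ∧
    ∀ (W : Type) [AddCommGroup W] [Module (ZG π) W] (z : Ch M (ZG π) →ₗ[ZG π] W),
    (∀ y : G × M.I, z (Finsupp.single y 1) ≠ 0 → M.deg y.2 = 1 ∧ n2 < M.L.l y.1) →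
    (∀ x : G × M.I, z (opT M T M.Dᴴ (Finsupp.single x 1)) = 0) →
    (∀ y : G × M.I, z (opT M T M.Eᴴ (Finsupp.single y 1)) = z (Finsupp.single y 1)) →
    ∀ C : ℕ, ∃ v : Ch M (ZG π) →ₗ[ZG π] W,
      (∀ x : G × M.I, v (Finsupp.single x 1) ≠ 0 → M.deg x.2 = 2 ∧ n1 < M.L.l x.1) ∧
      (∀ y : G × M.I, (z - v ∘ₗ opT M T M.Dᴴ) (Finsupp.single y 1) ≠ 0 →
        M.deg y.2 = 1 ∧ C < M.L.l y.1) ∧
      (∀ x : G × M.I, (z - v ∘ₗ opT M T M.Dᴴ) (opT M T M.Dᴴ (Finsupp.single x 1)) = 0) ∧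
      (∀ y : G × M.I, (z - v ∘ₗ opT M T M.Dᴴ) (opT M T M.Eᴴ (Finsupp.single y 1)) =
        (z - v ∘ₗ opT M T M.Dᴴ) (Finsupp.single y 1))

/-- [TEL] (uses `SPD.St_F0`, PSH) Locally finite cycles of degree one bound.

Proof. Let `N : ℕ → ℕ` with `N 0 = n1`, `N (i + 1) ≥ N i + 1` and `N (i + 1) ≥ ` the `n2` of PSH for `N i`.
Result: `n2 := N 1`. Construct successively `z_i` (`z_0 = z`), a cycle as in PSH supported beyond
`N (i + 1)`, and `v_i`, supported beyond `N i`, with `z_(i+1) = z_i - v_i ∘ op Dᴴ` (PSH with `n1 := N i`,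
`C := N (i + 2)`). For a cell `x` the sum `v x := ∑_i v_i x` is finite (`N i ≥ i`); `v := ` the linear map
with these values. For a cell `y` let `k` be larger than `|y| + u`: `v (op Dᴴ y) = ∑_{i<k} v_i (op Dᴴ y) =
z y - z_k y = z y`. -/
def St_TEL : Prop := ∀ (G α π : Type) [Group G] [Group π] (f : α → G)
  (Rel : Set (List (α × Bool))) (M : Pk G) (R : ℕ) (𝓛 : Loc M R) (n : ℕ) (T : G → G → π),
  Dc f Rel M 𝓛 n T → StrongSemistable f Rel → ∀ n1, n + 100 * M.u ≤ n1 → ∃ n2, n1 ≤ n2 ∧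
    ∀ (W : Type) [AddCommGroup W] [Module (ZG π) W] (z : Ch M (ZG π) →ₗ[ZG π] W),
    (∀ y : G × M.I, z (Finsupp.single y 1) ≠ 0 → M.deg y.2 = 1 ∧ n2 < M.L.l y.1) →
    (∀ x : G × M.I, z (opT M T M.Dᴴ (Finsupp.single x 1)) = 0) →
    (∀ y : G × M.I, z (opT M T M.Eᴴ (Finsupp.single y 1)) = z (Finsupp.single y 1)) →
    ∃ v : Ch M (ZG π) →ₗ[ZG π] W,
      (∀ x : G × M.I, v (Finsupp.single x 1) ≠ 0 → M.deg x.2 = 2 ∧ n1 < M.L.l x.1) ∧
      ∀ y : G × M.I, z (Finsupp.single y 1) = v (opT M T M.Dᴴ (Finsupp.single y 1))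

/-- [HW] (uses `SPD.St_F0`, `SPD.St_F6`, TEL) Far cocycles of degree two are coboundaries.

Proof. We may assume `s ≥ n + 100 u`. `n1 := s + 2 u`, `n2` from TEL, `r := n2 + 10 u`. `z := c ∘ op Ph`:
`z (single y 1) ≠ 0` implies `deg y = 1` (`Ph_deg`) and `|y| > r - u`. `z (op Dᴴ x) = c (op Ph (op Dᴴ x)) =
c (op (Dᴴ * Ph) x) = c (op (Ph * D) x) = c (op D (op Ph x)) = 0` for `|x| > n` (F6, `DPh`); for `|x| ≤ n` all
cells are near. `z (op Eᴴ y) = z y` (`EPh`). TEL: `v`. `b := v ∘ op Ps - c ∘ op h`; on a cell `y`: `v (op Ps y)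
≠ 0` implies `deg y = 1`, `|y| > n1 - u`; `c (op h y) ≠ 0` implies `deg y = 1`, `|y| > r - u`. For `|x| > n`:
`b (op D x) = v (op (D * Ps) x) - c (op (D * h) x)`, `v (op (Ps * Dᴴ) x) = v (op Dᴴ (op Ps x)) = z (op Ps
x) = c (op Ph (op Ps x)) = c (op (Ps * Ph) x) = c (op E x) + c (op (h * D) x) + c (op (D * h) x)`
(`homot`), `c (op (h * D) x) = c (op D (op h x)) = 0`. So `b (op D x) = c (op E x) = c x`. For `|x| ≤ n` both
sides are `0`. -/
def St_HW : Prop := ∀ (G α π : Type) [Group G] [Group π] (f : α → G)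
  (Rel : Set (List (α × Bool))) (M : Pk G) (R : ℕ) (𝓛 : Loc M R) (n : ℕ) (T : G → G → π),
  Dc f Rel M 𝓛 n T → StrongSemistable f Rel → ∀ s : ℕ, ∃ r, s ≤ r ∧
    ∀ (W : Type) [AddCommGroup W] [Module (ZG π) W] (c : Ch M (ZG π) →ₗ[ZG π] W),
    (∀ x : G × M.I, c (Finsupp.single x 1) ≠ 0 → M.deg x.2 = 2 ∧ r < M.L.l x.1) →
    (∀ x : G × M.I, c (opT M T M.D (Finsupp.single x 1)) = 0) →
    (∀ x : G × M.I, c (opT M T M.E (Finsupp.single x 1)) = c (Finsupp.single x 1)) →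
    ∃ b : Ch M (ZG π) →ₗ[ZG π] W,
      (∀ y : G × M.I, b (Finsupp.single y 1) ≠ 0 → M.deg y.2 = 1 ∧ s < M.L.l y.1) ∧
      ∀ x : G × M.I, b (opT M T M.D (Finsupp.single x 1)) = c (Finsupp.single x 1)

/-- [HH1] (uses `SPD.St_F0`, `SPD.St_F6`, HW) The operator `H`.

Proof. `s' := s + n1 + 10 u`, `r0` from HW for `s'`, `r := r0 + n1 + 10 u`. `Y := ` the sum of the submodule
of all `op D e`, `e` supported on cells of degree three beyond `n1`, and of the submodule of all chains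
supported on `{z | deg z ≠ 2 ∨ |z| ≤ r}`. `W := Ch ⧸ Y`, `c (single x 1) := mkQ (op E (single x 1))` if `deg x
= 2`, else `0`. `c x ≠ 0` implies `|x| > r - u ≥ r0`. `c (op D x)`: `0` if `deg x ≠ 3`; if `deg x = 3` it is
`mkQ (op E (op D x))`; for `|x| > n1`, `op E (op D x) = op (D * E) x = op D x ∈ Y`, for `|x| ≤ n1` it is
supported in `|z| ≤ n1 + 2 u ≤ r`. `c (op E x) = c x`: `op E (op E x) = op E x` for `|x| > n`, otherwise both
are `0`. HW: `b`. For each cell `y` choose `η_y` with `mkQ η_y = b y`, `η_y = 0` if `b y = 0`, supported on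
cells of degree two with `|z| > r` (restrict: the difference is in `Y`). `H0 := linearCombination η`,
`mkQ ∘ H0 = b`, `H := H0 ∘ op E`. If `(H y) z ≠ 0`: some `y'` in `op E y` with `b y' ≠ 0`, so `deg y = 1`,
`|y| > s' - u ≥ s`; `deg z = 2`, `|z| > r ≥ n1`. `H (op E y) = H y` (`op E (op E y) = op E y` for `|y| > n`;
otherwise both are `0`, as `b` vanishes near). Let `deg x = 2`. `|x| ≤ n`: `H (op D x) = 0`, `e := 0`,
`op E x` is near. `|x| > n`: `H (op D x) = H0 (op E (op D x)) = H0 (op D x)`, `mkQ` of it is `b (op D x) =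
c x = mkQ (op E x)`. So `op E x - H (op D x) = op D e + ζ`, `ζ` supported on `{deg ≠ 2 ∨ |z| ≤ r}`; the
other three terms have degree two, so `ζ` is supported in `|z| ≤ r`. -/
def St_HH1 : Prop := ∀ (G α π : Type) [Group G] [Group π] (f : α → G)
  (Rel : Set (List (α × Bool))) (M : Pk G) (R : ℕ) (𝓛 : Loc M R) (n : ℕ) (T : G → G → π),
  Dc f Rel M 𝓛 n T → StrongSemistable f Rel → ∀ n1 s : ℕ, n ≤ n1 → ∃ r, s ≤ r ∧
    ∃ H : Ch M (ZG π) →ₗ[ZG π] Ch M (ZG π),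
      (∀ y z, H (Finsupp.single y 1) z ≠ 0 →
        M.deg y.2 = 1 ∧ s < M.L.l y.1 ∧ M.deg z.2 = 2 ∧ n1 < M.L.l z.1) ∧
      (∀ y : G × M.I, H (opT M T M.E (Finsupp.single y 1)) = H (Finsupp.single y 1)) ∧
      ∀ x : G × M.I, M.deg x.2 = 2 → ∃ e : Ch M (ZG π),
        (∀ z, e z ≠ 0 → M.deg z.2 = 3 ∧ n1 < M.L.l z.1) ∧
        ∀ z, (opT M T M.E (Finsupp.single x 1) - H (opT M T M.D (Finsupp.single x 1)) -
          opT M T M.D e) z ≠ 0 → M.L.l z.1 ≤ r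

/-- [CBD] (uses `SPD.St_F0`, `SPD.St_F6`, HH1) The cochain `b'`.

Proof. `n1 := n + 10 u`, `nc := n1 + 10 u`. Given `s`: `r, H` from HH1. `b' := cut {z | r + 2 u < |z|} ∘ (op E -
op D ∘ H)`. `D0`: `deg x = 2`, `|x| > nc`: `op E x - H (op D x) = op D e + ζ`; apply `op D`: `op D (op E x) =
op D x`, `op D (op D e) = 0` (`e` beyond `n1 ≥ n`), and `op E (op D x) = op D x`: so `(op E - op D ∘ H) (op D
x) = op D x - op D (H (op D x)) = op D ζ`, supported in `|z| ≤ r + u`, and `b' (op D x) = 0`. `E0`: `op E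
(op E y) = op E y`, `H (op E y) = H y`. If `|y| ≤ s`: `H y = 0`, `op E y` is supported in `|z| ≤ s + u`:
`b' y = 0`. For `ω` as in the statement: `κ := (op E ω - op D (H ω)) - b' ω`, supported in `|z| ≤ r + 2 u`;
`op D (b' ω + κ) = op D (op E ω) - op D (op D (H ω)) = op D ω` (`H ω` is supported beyond `n1 ≥ n`). Return
`r + 2 u` for `r`. -/
def St_CBD : Prop := ∀ (G α π : Type) [Group G] [Group π] (f : α → G)
  (Rel : Set (List (α × Bool))) (M : Pk G) (R : ℕ) (𝓛 : Loc M R) (n : ℕ) (T : G → G → π),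
  Dc f Rel M 𝓛 n T → StrongSemistable f Rel → ∃ nc, n ≤ nc ∧ ∀ s : ℕ, ∃ r, s ≤ r ∧
    ∃ b' : Ch M (ZG π) →ₗ[ZG π] Ch M (ZG π), Coc M T nc b' ∧
      (∀ y : G × M.I, M.deg y.2 = 1 → M.L.l y.1 ≤ s → b' (Finsupp.single y 1) = 0) ∧
      ∀ ω : Ch M (ZG π), (∀ y, ω y ≠ 0 → M.deg y.2 = 1 ∧ nc < M.L.l y.1) →
        opT M T M.E ω = ω → ∃ κ : Ch M (ZG π), (∀ y, κ y ≠ 0 → M.L.l y.1 ≤ r) ∧
          opT M T M.D (b' ω + κ) = opT M T M.D ω

/-- [DER] (uses `SPD.St_W0`, `SPD.St_W1`, `SPD.St_L3`, `CPD.St_D0`) The derivation of a cocycle.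

Proof. `m := nc + ρ`; `l0` from `ind m`, `k'` from `surj m`; `l := l0 + k' + ρ + m`. Let `|a| > l`, `W`, `b'`
be given; `β v x := be v (letter f x)` satisfies `WCoc` on the complement of `Bl m` (L3 (6) for `n := nc`),
and vanishes if `|v| + ρ ≤ l` (`es h` has degree one and lives within `ρ`), in particular for
`m < |v| ≤ l0`. `Iw β g w = b' (chw g w)` (induction on the word). For every `p : π` choose a closed word
`w_p` at `a` outside `Bl m` with holonomy `p`; `δ p := Iw β a w_p`. If `w` is closed at `a` outside `Bl m`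
with `hol w = p`: `w ++ winv w_p` has trivial holonomy, `ind`: `Iw w + gr p • Iw (winv w_p) = 0`, and the
same for `w_p` in place of `w`: so `Iw w = δ p`. `δ (p q)`: use `w_p ++ w_q`. -/
def St_DER : Prop := ∀ (G α π : Type) [Group G] [Group π] (f : α → G)
  (Rel : Set (List (α × Bool))) (M : Pk G) (R : ℕ) (𝓛 : Loc M R) (n0 nc : ℕ) (T : G → G → π),
  Dc f Rel M 𝓛 nc T → Lt f Rel M.L n0 T → n0 ≤ nc → ∃ l : ℕ, ∀ a, l < M.L.l a →
    (∀ p : π, ∃ w, value f w = 1 ∧ Avoids f (Bl M.L (nc + 𝓛.ρ)) a w ∧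
      hol f (lab f T) a w = p) ∧
    ∀ (W : Type) [AddCommGroup W] [Module (ZG π) W] (b' : Ch M (ZG π) →ₗ[ZG π] W),
    (∀ (m : ℕ) (x : W), 1 ≤ m → m • x = 0 → x = 0) → Coc M T nc b' →
    (∀ y : G × M.I, M.deg y.2 = 1 → M.L.l y.1 ≤ l → b' (Finsupp.single y 1) = 0) →
    ∃ δ : π → W, (∀ p q, δ (p * q) = δ p + gr p • δ q) ∧
      ∀ w, value f w = 1 → Avoids f (Bl M.L (nc + 𝓛.ρ)) a w →
        δ (hol f (lab f T) a w) = b' (chw f M 𝓛 T a w)

/-- [TB] (uses `SPD.St_L2`, `SPD.St_T0`) The augmentation of chains modulo a subgroup.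
`μ c = ∑_x c x * e x.2`.

Proof. `B' := B ⊔ closure {T v g | (|v| ≤ r ∨ v = a) ∧ |g| ≤ ρ}` (finitely many elements). For `y = (v, j)`:
`μ (op D (single y 1)) = ∑ n_x e_x gr (T v x.1)` over the cells `x` of `row D (1, j)`, `|x.1| ≤ c ≤ ρ`
(`hR`, `hu`; L2 (1), (2)). Its augmentation is `∑ n_x e_x = 0` (`De`). If `|v| ≤ r` then `T v x.1 ∈ B'`, `gr
(T v x.1) ≡ 1` modulo `InI B' 0` (T0 (5)), so the sum is `≡ (∑ n_x e_x) = 0`. `μ (sh a o) = ∑ o_x e_x gr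
(T a x.1) ≡ ∑ o_x e_x = 1`. -/
def St_TB : Prop := ∀ (G π : Type) [Group G] [Group π] (M : Pk G) (R : ℕ) (𝓛 : Loc M R)
  (T : G → G → π) (a : G) (r : ℕ) (B : Subgroup π), B.FG → ∃ B' : Subgroup π, B ≤ B' ∧ B'.FG ∧
    ∀ μ : Ch M (ZG π) →ₗ[ZG π] ZG π,
      (∀ x : G × M.I, μ (Finsupp.single x 1) = ((M.e x.2 : ℤ) : ZG π)) →
      (∀ y : G × M.I, au (μ (opT M T M.D (Finsupp.single y 1))) = 0) ∧
      (∀ y : G × M.I, M.L.l y.1 ≤ r → InI B' 0 (μ (opT M T M.D (Finsupp.single y 1)))) ∧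
      InI B' 0 (μ (sh M T a 𝓛.o) - 1)

/-- [HXX] (uses `SPD.St_L1`, `SPD.St_L5`, `SPD.St_T0`, CBD, DER, TB) The condition `HX`.

Proof. `R`, `𝓛` from L1 (`R ≥ R0`, `u`, `1` and the lengths of the relators); `n ≥ n0` with `T` good beyond `n`
(`als`, balls are finite): `Dc`. `nc` from CBD (`Dc` is monotone in `n`), `l` from DER, `a` with `|a| > l`.
Let `B` be generated by the finite set `S`; for `β ∈ S` a closed word `w_β` at `a` outside `Bl (nc + ρ)`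
with holonomy `β`. `s ≥ l`, larger than `ρ` plus the lengths of all vertices of the words `w_β`. CBD: `r`,
`b'`. DER with `W := Ch M (ZG π)` (no torsion: coefficients in `ℤ`): `δ`. `δ β = b' (chw a w_β) = 0` (the
cells of `chw a w_β` have degree one and length `≤ s`: each is within `ρ` of a vertex), so `δ = 0` on `B`
(closure induction, `δ 1 = 0`, `δ p⁻¹ = - gr p⁻¹ • δ p`). `J := G × M.I`, `B'` from TB (for this `r`, `a`), `μ`
the map there, `t y := - μ (op D (single y 1))`. `(δ p).sum (a * t j) = - μ (op D (δ p))` (linearity). Let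
`w` be a closed word at `a` outside `Bl (nc + ρ)` with `hol w = p`, `ω := chw a w`: cells of degree one
beyond `nc`, `op E ω = ω` (L5), `δ p = b' ω`. CBD: `κ`, `op D (δ p) = op D ω - op D κ`, `InI B' 0 (μ (op D
κ))` (TB, left ideal). `op D ω = sh a o - gr p • sh a o` (L5 (2)), so `- μ (op D (δ p)) ≡ (gr p - 1) * μ
(sh a o) ≡ gr p - 1` modulo `InI B' 0`. -/
def St_HXX : Prop := ∀ (G α π : Type) [Group G] [Group π] (f : α → G)
  (Rel : Set (List (α × Bool))) (M : Pk G) (n0 : ℕ) (T : G → G → π),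
  Base f Rel M.L → StrongSemistable f Rel → Lt f Rel M.L n0 T → HX π

end Pool.Agent.SFG
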