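import Pool.Agent.SFG.Defs

/-!
# Statements, part P : the stable images have no homomorphism onto the integers

Integral chains `(G × M.I) →₀ ℤ`, operators `opZ A` (see `CPD.StE`: `St_E1`), `tl v c` = translate,
`row A x = opZ A (single x 1)`, augmentation `augZ M.e`. Final theorem: `St_PF`.
-/

set_option autoImplicit false

namespace Pool.Agent.SFG

open Matrix Pool.Agent.CPD Pool.Agent.SPD

/-- [PFa] (uses `CPD.St_E1`) A finitely supported cocycle of degree two is a coboundary.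
Proof. `M.resQ` is a resolution for `Dᴴ`, `Eᴴ`, with degrees `3 - deg`: apply `M.resQ.exact` to
`v := toV c`: `v ᵥ* Eᴴ = v`, `v ᵥ* Dᴴ = 0` (E1), and `∑ au (v i) * w i = 0` as `w i ≠ 0` only if `deg i = 3`
(`e_deg`: `3 - deg i = 0`), where `v i = 0`. It gives `u = toV b`. Keep the part of `b` of degree one:
`opZ Dᴴ` raises `deg` by one and `opZ Eᴴ` preserves it (`D_deg`, `E_deg` of `resP`), so both identities
still hold. -/
def St_PFa : Prop := ∀ (G : Type) [Group G] (M : PDM G) (c : (G × M.I) →₀ ℤ),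
  (∀ x, c x ≠ 0 → M.deg x.2 = 2) → opZ M.Eᴴ c = c → opZ M.Dᴴ c = 0 →
  ∃ b : (G × M.I) →₀ ℤ, (∀ y, b y ≠ 0 → M.deg y.2 = 1) ∧ opZ M.Eᴴ b = b ∧ opZ M.Dᴴ b = c

/-- [PFb] (uses `CPD.St_E1`) Every cocycle of degree one (not necessarily of finite support) is a
coboundary: `γ = p ∘ D` on cells of degree one.

Proof. Filling (as in `SPD.St_L1`; `M.resP.exact`, E1, keep the part of the right degree): if `z` is
homogeneous of degree `i`, `opZ E z = z`, `opZ D z = 0`, `augZ e z = 0` then `z = opZ D b`, `opZ E b = b`, `b`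
homogeneous of degree `i + 1`. `o`: a chain of degree `0` with `opZ E o = o`, `augZ e o = 1`
(`resP.surj`). For `x` of degree `0`: `z_x := opZ E (single x 1) - e x.2 • o = opZ D β_x` (`augZ (row E x) =
e x.2` by `Ee`). `p (single x 1) := γ β_x` (`0` if `deg x ≠ 0`). For `y` of degree one, `D y = ∑ d_x x`,
`B := ∑ d_x β_x`: `p (D y) = γ B`, `opZ D B = ∑ d_x (E x - e_x o) = E (D y) - 0 = D y` (`De`, `ED`), so
`B - E y` is a cycle, `E`-fixed, of degree one, so `= opZ D ζ`, `ζ` of degree two, and `γ (opZ D ζ) = 0`.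
So `p (D y) = γ (E y) = γ y`. -/
def St_PFb : Prop := ∀ (G : Type) [Group G] (M : PDM G) (γ : ((G × M.I) →₀ ℤ) →ₗ[ℤ] ℤ),
  (∀ x : G × M.I, M.deg x.2 = 2 → γ (opZ M.D (Finsupp.single x 1)) = 0) →
  (∀ y : G × M.I, M.deg y.2 = 1 → γ (opZ M.E (Finsupp.single y 1)) = γ (Finsupp.single y 1)) →
  ∃ p : ((G × M.I) →₀ ℤ) →ₗ[ℤ] ℤ, ∀ y : G × M.I, M.deg y.2 = 1 →
    γ (Finsupp.single y 1) = p (opZ M.D (Finsupp.single y 1))

/-- [PFc] (uses `CPD.St_E1`) The cochain of a group-valued cocycle `a` near infinity.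

Proof. `b (single (v, j) 1) := - ∑ n_x e_x a v x.1` over the cells `x` of `row D (1, j)`, if `deg j = 1`, and
`0` otherwise. `φ_v z := - ∑_x z x * e x.2 * a v (v⁻¹ x.1)`. For a chain `c` of degree one, supported
within `ρ + c` of `1`, and `|v| > n`: `b (tl v c) = φ_v (opZ D (tl v c))`: for a cell `y = (v g, j)` of it,
`b y = - ∑ n_x e_x a (v g) x.1 = - ∑ n_x e_x (a v (g x.1) - a v g) = φ_v (D y) + a v g * ∑ n_x e_x`, and the
last sum is `0` (`De`). `n' := n + 10 u`. (2) `b (D x) = φ_v (D (D x)) = 0`. (3) `b (E y) = φ_v (D (E y)) =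
φ_v (D y) = b y`. (4) `opZ D (es h) = o - tl h o` (`es_D`); `φ_v (tl v o) = - s v`, `φ_v (tl (v h) o) =
- ∑ o_x e_x a v (h x.1) = - ∑ o_x e_x (a v h + a (v h) x.1) = - a v h - s (v h)` (`augZ e o = 1`). -/
def St_PFc : Prop := ∀ (G : Type) [Group G] (M : Pk G) (R : ℕ) (𝓛 : Loc M R) (n : ℕ)
  (a : G → G → ℤ), (∀ v h h', n < M.L.l v → M.L.l h ≤ 𝓛.kap → M.L.l h' ≤ 𝓛.kap →
    a v h + a (v * h) h' = a v (h * h')) →
  ∃ (b : ((G × M.I) →₀ ℤ) →ₗ[ℤ] ℤ) (s : G → ℤ) (n' : ℕ), n ≤ n' ∧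
    (∀ y : G × M.I, M.deg y.2 ≠ 1 → b (Finsupp.single y 1) = 0) ∧
    (∀ x : G × M.I, M.deg x.2 = 2 → n' < M.L.l x.1 → b (opZ M.D (Finsupp.single x 1)) = 0) ∧
    (∀ y : G × M.I, M.deg y.2 = 1 → n' < M.L.l y.1 →
      b (opZ M.E (Finsupp.single y 1)) = b (Finsupp.single y 1)) ∧
    (∀ v h, n' < M.L.l v → M.L.l h ≤ R → b (tl v (𝓛.es h)) = a v h - (s v - s (v * h)))

/-- [PFd] (uses `CPD.St_E1`, PFa, PFb) A cocycle near infinity is a coboundary near infinity.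

Proof. `c x := b (opZ D (single x 1))` if `deg x = 2`, `|x| ≤ n'`, else `0`: a finite chain; by (2)
`c x = b (opZ D (single x 1))` for all `x` of degree two. Transposition: `(opZ Aᴴ c) x = ∑_y (row A x)(y) *
c y`. So `opZ Eᴴ c = c` (`b (D (E x)) = b (D x)`), `opZ Dᴴ c = 0` (`b (D (D x)) = 0`). PFa: `b0`, and `∑_y
(row D x)(y) b0 y = c x`, `∑_y (row E x)(y) b0 y = b0 x`. `γ (single y 1) := b (opZ E (single y 1)) - b0 y` for
`deg y = 1`, else `0`. `γ (D x) = b (E (D x)) - c x = 0` (`deg x = 2`), `γ (E y) = γ y`. PFb: `p`. For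
`|y| > n'` and outside the support of `b0`: `b y = b (E y) = γ y = p (D y)`. -/
def St_PFd : Prop := ∀ (G : Type) [Group G] (M : Pk G) (n' : ℕ)
  (b : ((G × M.I) →₀ ℤ) →ₗ[ℤ] ℤ),
  (∀ x : G × M.I, M.deg x.2 = 2 → n' < M.L.l x.1 → b (opZ M.D (Finsupp.single x 1)) = 0) →
  (∀ y : G × M.I, M.deg y.2 = 1 → n' < M.L.l y.1 →
    b (opZ M.E (Finsupp.single y 1)) = b (Finsupp.single y 1)) →
  ∃ (p : ((G × M.I) →₀ ℤ) →ₗ[ℤ] ℤ) (n'' : ℕ), ∀ y : G × M.I, M.deg y.2 = 1 →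
    n'' < M.L.l y.1 → b (Finsupp.single y 1) = p (opZ M.D (Finsupp.single y 1))

/-- [PF] (uses `SPD.St_L1`, PFc, PFd) The stable image has no homomorphism onto `ℤ`.

Proof. `R`, `𝓛` from L1 (`R` at least `R0`, `u`, `1`, the lengths of the relators); `n` such that
`GoodT M.L T 𝓛.kap v` for `|v| > n` (`als`, balls are finite). `χ : π → Multiplicative ℤ` multiplicative;
`a v h := toAdd (χ (T v h))`. PFc, PFd: `b, s, n', p, n''`. `m := n' + n'' + ρ`. For `|v| > m`, `l h ≤ 1`: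
`a v h - (s v - s (v h)) = b (tl v (es h)) = p (opZ D (tl v (es h)))` (the cells of `tl v (es h)` have degree
one and length `> n''`) `= p (tl v o) - p (tl (v h) o)` (`es_D`), so `a v h = P v - P (v h)` with
`P v := p (tl v o) + s v`. So along a closed word `w` at `v`, outside `Bl m`: `toAdd (χ (hol w)) = 0`
(induction on the word: `= P v - P (v * value w)`). `surj m`: all elements of `π` are such
holonomies. -/
def St_PF : Prop := ∀ (G α π : Type) [Group G] [Group π] (f : α → G)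
  (Rel : Set (List (α × Bool))) (M : Pk G) (N n0 : ℕ) (T : G → G → π),
  Base f Rel M.L → Lv f Rel M.L N n0 T → NoZ (⊤ : Subgroup π)

end Pool.Agent.SFG
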