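import Pool.Agent.SFG.GDefs

/-!
# Statements, part R : splitting a torsion-free group along an almost invariant set

Pure group theory (Stallings, Dunwoody). `A` is a group with a finite generating set `S`, edges
`(s, x)` from `x` to `s x`; right translations `rt E g = E g` act on everything. Final theorem:
`St_RSa`.
-/

set_option autoImplicit false

namespace Pool.Agent.SFG

open Pool.Agent.CPD Pool.Agent.SPD

/-- [TC] Finitely many connected cuts of bounded size contain a given edge.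
Proof. Induction on `k`, for all `X`, `e`. `k = 0`: `e` is in the finite set of cut edges in `X`, so
`ncard ≥ 1`, no such `E`. Step: `X' := X \ {e}`. For such `E` one end of `e` is in `E`, the other one is
not, so `ConE` of `E` and `Eᶜ` for `X'` is the same as for `X`, and the number of cut edges in `X'` is
smaller. Let `C` be the class of `a e` for `Relation.EqvGen (fun u v => ∃ i ∈ X', a i = u ∧ b i = v)`, `C'`
the class of `b e`. Case 1, `b e ∈ C`. Lemma (induction on `EqvGen`): if `u ~ v` there is a finite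
`Y ⊆ X'` such that every `F` which cuts no edge of `Y` satisfies `u ∈ F ↔ v ∈ F`. For `u = a e`, `v = b e`
every `E` as above cuts an edge `y ∈ Y`; induction hypothesis for `X'`, `y`, and a finite union. Case 2,
`b e ∉ C`, `C ∩ C' = ∅`: if `a e ∈ E` then `ConE` for `F := C ∩ E` gives `E ⊆ C` and for `Eᶜ`, `C' ∩ Eᶜ`:
`Eᶜ ⊆ C'`; so `E = C`. If `b e ∈ E`: `E = C'` in the same way. So `E ∈ {C, C'}`. -/
def St_TC : Prop := ∀ (V ι : Type) (a b : ι → V) (k : ℕ) (X : Set ι) (e : ι), e ∈ X →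
  {E : Set V | ConE a b X E ∧ ConE a b X Eᶜ ∧ Cut a b E e ∧ {i | i ∈ X ∧ Cut a b E i}.Finite ∧
    {i | i ∈ X ∧ Cut a b E i}.ncard ≤ k}.Finite

/-- [CUT] Counting cut edges.
Proof. (1) `→`: a finite union over `s ∈ S` of copies of the sets of `AI.fin`; `←`: the set of `a` with
`{x | ¬ (a x ∈ E ↔ x ∈ E)}` finite is a subgroup (for a product: `a1 (a2 x)` against `a2 x` is the preimage
of a finite set under `x ↦ a2 x`), it contains `S`. (2) clear. (3) `(s, x) ↦ (s, x g)` maps `bd S E`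
bijectively to `bd S (rt E g)`. (4) an edge cut by `E ∩ F` or by `E ∪ F` is cut by `E` or by `F`, and an
edge cut by both `E ∩ F` and `E ∪ F` is cut by both (`ncard` of unions and intersections:
`|A ∪ B| + |A ∩ B| = |A| + |B|`). (5) a set which cuts no edge is invariant under the subgroup generated
by `S`. (6) the set of `a` such that for all `x` there is a finite `Y` as required for `x`, `a x` is a
subgroup and contains `S` (for `a = y x⁻¹`). -/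
def St_CUT : Prop := ∀ (A : Type) [Group A] (S : Finset A),
  Subgroup.closure (S : Set A) = ⊤ →
  (∀ (L : Subgroup A) (E : Set A), AI ⊤ L E ↔
    ((bd S E).Finite ∧ ∀ l ∈ L, ∀ x, (l * x ∈ E ↔ x ∈ E))) ∧
  (∀ E : Set A, bd S Eᶜ = bd S E ∧ cn S Eᶜ = cn S E) ∧
  (∀ (E : Set A) (g : A), cn S (rt E g) = cn S E ∧ ((bd S (rt E g)).Finite ↔ (bd S E).Finite) ∧
    ∀ s x, (s, x) ∈ bd S E ↔ (s, x * g) ∈ bd S (rt E g)) ∧
  (∀ E F : Set A, (bd S E).Finite → (bd S F).Finite → (bd S (E ∩ F)).Finite ∧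
    (bd S (E ∪ F)).Finite ∧ cn S (E ∩ F) + cn S (E ∪ F) ≤ cn S E + cn S F) ∧
  (∀ E : Set A, bd S E = ∅ → E = ∅ ∨ E = Set.univ) ∧
  (∀ x y : A, ∃ Y : Set (A × A), Y.Finite ∧ (∀ p ∈ Y, p.1 ∈ S) ∧
    ∀ F : Set A, ¬ (x ∈ F ↔ y ∈ F) → ∃ p ∈ Y, p ∈ bd S F)

/-- [AIB] Algebra of almost invariant sets.
Proof. Set theory, elementwise. `rt`: `a * (x * g⁻¹) = (a * x) * g⁻¹`, preimage of a finite set under the
injective map `x ↦ x * g⁻¹`. -/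
def St_AIB : Prop := ∀ (A : Type) [Group A] (L : Subgroup A) (E F : Set A) (g : A),
  AI ⊤ L E → AI ⊤ L F → AI ⊤ L Eᶜ ∧ AI ⊤ L (E ∩ F) ∧ AI ⊤ L (E ∪ F) ∧ AI ⊤ L (E \ F) ∧
    AI ⊤ L (rt E g)

/-- [NA1] (uses CUT, AIB) Narrow sets are connected.
Proof. `F' := E \ F`. `bd S E` is the disjoint union of `bd S F` and `bd S F'`: an edge with both ends in
`E` is cut by neither (hypothesis), an edge with exactly one end in `E` is cut by exactly one of `F, F'`,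
the others by neither. So `cn F + cn F' = cn E = m`. If `F` is infinite: `Fᶜ ⊇ Eᶜ` is infinite, `AI ⊤ L F`
by CUT (1), `m ≤ cn F`, so `bd S F' = ∅`, `F' = ∅` by CUT (5) (`F' ≠ univ` as `Eᶜ ≠ ∅`). If `F` is finite
then `F'` is infinite and in the same way `bd S F = ∅`, so `F = ∅`, a contradiction. -/
def St_NA1 : Prop := ∀ (A : Type) [Group A] (S : Finset A) (L : Subgroup A) (m : ℕ) (E : Set A),
  Subgroup.closure (S : Set A) = ⊤ → MinN S L m → Nar S L m E → ∀ F : Set A, F ⊆ E →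
    F.Nonempty → (∀ l ∈ L, ∀ x, (l * x ∈ F ↔ x ∈ F)) →
    (∀ s ∈ S, ∀ x, x ∈ E → s * x ∈ E → (s * x ∈ F ↔ x ∈ F)) → F = E

/-- [NA2] (uses TC, CUT, AIB, NA1) Finitely many narrow sets cut a given edge.
Proof. `V` := the quotient of `A` by `x ~ y ↔ y x⁻¹ ∈ L` (`QuotientGroup.rightRel L`), `ι := A × A`,
`a p = [p.2]`, `b p = [p.1 * p.2]`, `X := {p | p.1 ∈ S}`. An `L`-invariant `E` is the preimage of its image
`E'` in `V`, `E ↦ E'` is injective on such sets, `(E')ᶜ = (Eᶜ)'`, the edges in `X` cut by `E'` are `bd S E`.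
`ConE` of `E'` and `(E')ᶜ` follows from NA1 for `E` and `Eᶜ` (which is narrow: CUT (2), AIB), applied to
the preimage of `F`. TC with `k = m`. -/
def St_NA2 : Prop := ∀ (A : Type) [Group A] (S : Finset A) (L : Subgroup A) (m : ℕ) (s x : A),
  Subgroup.closure (S : Set A) = ⊤ → MinN S L m → s ∈ S →
    {E : Set A | Nar S L m E ∧ (s, x) ∈ bd S E}.Finite

/-- [NA3] (uses CUT, AIB, NA1, NA2) Finitely many narrow sets are not nested with a given one.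
Proof. `bd S E` is finite (CUT (1)); if it is empty, `E = ∅` or `univ`, impossible. Let `x0` be the end
`p.2` of one of its edges. `Y` := the union of the finite sets of CUT (6) for `x0` and all the ends
`p.2`, `p.1 * p.2` of the edges `p ∈ bd S E`: finite. Claim: a narrow `F` which is not nested with `E`
cuts an edge of `Y`; then NA2 and a finite union. Otherwise all ends of edges of `bd S E` are on the
same side as `x0`: suppose all are in `F` (otherwise replace `F` by `Fᶜ`; narrow, and `Nst E Fᶜ ↔ Nst E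
F`). `F1 := E ∩ Fᶜ ⊆ Fᶜ` is `L`-invariant and no edge inside `Fᶜ` is cut by `F1`: such an edge would be cut
by `E` and have its ends in `Fᶜ`. By NA1 for `Fᶜ`: `F1 = ∅`, so `E ⊆ F`, or `F1 = Fᶜ`, so `Fᶜ ⊆ E`, `Eᶜ ⊆ F`.
Both are excluded. -/
def St_NA3 : Prop := ∀ (A : Type) [Group A] (S : Finset A) (L : Subgroup A) (m : ℕ) (E : Set A),
  Subgroup.closure (S : Set A) = ⊤ → MinN S L m → Nar S L m E →
    {F : Set A | Nar S L m F ∧ ¬ Nst E F}.Finite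

/-- [NA4] (uses CUT, AIB) Two opposite corners are narrow.
Proof. If `E ∩ F` and `Eᶜ ∩ Fᶜ` are infinite: their complements contain `Eᶜ` resp. `E`, infinite.
`(E ∪ F)ᶜ = Eᶜ ∩ Fᶜ`. By CUT (4), (2): `cn (E ∩ F) + cn (Eᶜ ∩ Fᶜ) ≤ 2 m`, both are `≥ m`, so both are `m`.
Otherwise one of `E ∩ F`, `Eᶜ ∩ Fᶜ` is finite; then `E ∩ Fᶜ` and `Eᶜ ∩ F` are infinite (`E`, `F`, or `Eᶜ`,
`Fᶜ`, minus a finite set), and the same argument works for `E` and `Fᶜ`. -/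
def St_NA4 : Prop := ∀ (A : Type) [Group A] (S : Finset A) (L : Subgroup A) (m : ℕ)
  (E F : Set A), Subgroup.closure (S : Set A) = ⊤ → MinN S L m → Nar S L m E → Nar S L m F →
    (Nar S L m (E ∩ F) ∧ Nar S L m (Eᶜ ∩ Fᶜ)) ∨ (Nar S L m (E ∩ Fᶜ) ∧ Nar S L m (Eᶜ ∩ F))

/-- [NA5] Corners and nestedness.
Proof. Elementary. (1) Suppose `H` is nested with `E` and `F`. If `H ⊆ Eᶜ`, `Hᶜ ⊆ Eᶜ`, `H ⊆ Fᶜ` or
`Hᶜ ⊆ Fᶜ` then `H ⊆ (E ∩ F)ᶜ` or `Hᶜ ⊆ (E ∩ F)ᶜ`. Otherwise `H ⊆ E` or `Hᶜ ⊆ E`, and `H ⊆ F` or `Hᶜ ⊆ F`;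
`H ⊆ E`, `Hᶜ ⊆ F` gives `Eᶜ ⊆ F`, excluded. For `Eᶜ ∩ Fᶜ` exchange sets and complements. (2) `H ⊆ E` gives
`H ⊆ (Eᶜ ∩ Fᶜ)ᶜ`, `H ⊆ Eᶜ` gives `H ⊆ (E ∩ F)ᶜ`, and so on. (3) `E ∩ F ⊆ E`, etc. (4) symmetry. -/
def St_NA5 : Prop := ∀ (V : Type) (E F : Set V),
  (¬ Nst E F → ∀ H, Nst E H → Nst F H → Nst (E ∩ F) H ∧ Nst (Eᶜ ∩ Fᶜ) H) ∧
  (∀ H, Nst E H ∨ Nst F H → Nst (E ∩ F) H ∨ Nst (Eᶜ ∩ Fᶜ) H) ∧
  (Nst (E ∩ F) E ∧ Nst (E ∩ F) F ∧ Nst (Eᶜ ∩ Fᶜ) E ∧ Nst (Eᶜ ∩ Fᶜ) F) ∧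
  (Nst E F ↔ Nst F E) ∧ (Nst E F ↔ Nst E Fᶜ) ∧ (Nst E F ↔ Nst Eᶜ F) ∧ Nst E E

/-- [NE] (uses CUT, AIB, NA3, NA4, NA5) A narrow set which is nested with all its translates.
Proof. `m` := the minimum of `cn S F` over the infinite coinfinite `F` with `AI ⊤ L F`; choose a narrow
`E` (`Nar S L m`) for which the number `N(E)` of elements of `𝓝(E) := {F | Nar F ∧ ¬ Nst E F}` (finite,
NA3) is minimal. Let `F := rt E g`: it is narrow (CUT (3), AIB), and `H ↦ rt H g` is a bijection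
`𝓝(E) → 𝓝(F)`, so `N(F) = N(E)`. Suppose `¬ Nst E F`. By NA4, after replacing `F` by `Fᶜ` if necessary
(`𝓝(Fᶜ) = 𝓝(F)`), `C1 := E ∩ F`, `C2 := Eᶜ ∩ Fᶜ` are narrow. By NA5: `𝓝(C1) ∪ 𝓝(C2) ⊆ 𝓝(E) ∪ 𝓝(F)`,
`𝓝(C1) ∩ 𝓝(C2) ⊆ 𝓝(E) ∩ 𝓝(F)`, and `F ∈ 𝓝(E)` is not in `𝓝(C1) ∪ 𝓝(C2)`. So
`N(C1) + N(C2) = |𝓝(C1) ∪ 𝓝(C2)| + |𝓝(C1) ∩ 𝓝(C2)| < |𝓝(E) ∪ 𝓝(F)| + |𝓝(E) ∩ 𝓝(F)| = 2 N(E)`, so one
of `N(C1)`, `N(C2)` is smaller than `N(E)`: contradiction. -/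
def St_NE : Prop := ∀ (A : Type) [Group A] (S : Finset A) (L : Subgroup A),
  Subgroup.closure (S : Set A) = ⊤ → (∃ E : Set A, AI ⊤ L E ∧ E.Infinite ∧ Eᶜ.Infinite) →
    ∃ E : Set A, AI ⊤ L E ∧ E.Infinite ∧ Eᶜ.Infinite ∧ ∀ g, Nst E (rt E g)

/-- [TX] (uses CUT, AIB, NA5, NE) Tree sets exist.
Proof. `S` from `Group.FG`, `E` from NE, `𝓔 := {F | ∃ g, F = rt E g ∨ F = (rt E g)ᶜ}`. `rt (rt E g) h =
rt E (g h)`, `rt Eᶜ g = (rt E g)ᶜ`. `nest`: translate, and NA5 (complements, symmetry). `free`, `noinv`: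
let `rt E g` be `E` or `Eᶜ`. `bd S E` is finite and not empty (CUT (1), (5)), and `(s, x) ↦ (s, x g)` maps
it injectively to `bd S (rt E g) = bd S E`; so some power `n ≥ 1` of this permutation of a finite set is
the identity, `x gⁿ = x`, `g = 1` by `TF`; `E = Eᶜ` is impossible (`rt E 1 = E`). For the other
members of `𝓔` conjugate `g`: `rt (rt E h) g = rt E h` gives `rt E (h g h⁻¹) = E`. `sep`: `x ∈ rt E g`,
`y ∉ rt E g` means for `z = x g⁻¹`: `z ∈ E`, `(y x⁻¹) z ∉ E`; finitely many `z` (`AI.fin`), `g = z⁻¹ x`. -/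
def St_TX : Prop := ∀ (A : Type) [Group A] (L : Subgroup A), TF A → Group.FG A →
  (∃ E : Set A, AI ⊤ L E ∧ E.Infinite ∧ Eᶜ.Infinite) →
    ∃ 𝓔 : Set (Set A), TS 𝓔 ∧ ∀ F ∈ 𝓔, AI ⊤ L F

/-- [VT] Vertices of the tree.
Proof. (1) `pt`: clear. (2) `vt`: `F ∈ vt v g ↔ rt F g⁻¹ ∈ v`; `rt (rt F g) g⁻¹ = F`, `rt` preserves
inclusions and complements, `x ∈ rt F g⁻¹ ↔ x * g ∈ F`. (3) Let `F` be minimal in `v` and `w`. Suppose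
`F' ∈ v`, `F' ∉ w` (then `F'ᶜ ∈ w`, `F' ≠ F`). By `nest`: `F ⊆ F'`: `F' ∈ w` by `up`; `F ⊆ F'ᶜ`: `F'ᶜ ∈ v`,
contradiction to `or`; `Fᶜ ⊆ F'`: `F'ᶜ ⊆ F`, so `F'ᶜ = F` by minimality in `w`, but `F'ᶜ ∉ v`;
`Fᶜ ⊆ F'ᶜ`: `F' ⊆ F`, `F' = F` by minimality in `v`. So `v ⊆ w`, and `w ⊆ v` by symmetry. (4) `nest` of `F`,
`F'`: `F ⊆ F'` or `F' ⊆ F` (`Fᶜ ⊆ F'ᶜ`) gives `F = F'`; `F ⊆ F'ᶜ` gives `F'ᶜ ∈ v`, contradiction. (5) `flip`: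
exactly one of `F', F'ᶜ` is in `flip v F`: for `F' ≠ F, Fᶜ` as for `v`, and `F ∉ flip v F` (`F ≠ Fᶜ`). `up`:
`F' ∈ v`, `F' ≠ F`, `F' ⊆ F''`: `F'' ∈ v`, and `F'' = F` would give `F' = F` by minimality. `Fᶜ ⊆ F''`,
`F'' ≠ Fᶜ`: if `F'' ∉ v` then `F''ᶜ ∈ v`, `F''ᶜ ⊆ F`, so `F''ᶜ = F`; so `F'' ∈ v`, and `F'' ≠ F` (`Fᶜ ⊆ F`
is impossible, `Fᶜ ≠ ∅`). `Fᶜ` is minimal: `F' ∈ v`, `F' ≠ F`, `F' ⊆ Fᶜ`: then `F ⊆ F'ᶜ`, so `F'ᶜ ∈ v`,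
contradiction. (6) Some `F'` is in `v \ w` (if `v ⊆ w` then `v = w` by `or`); a minimal element `F` of the
finite set `v \ w` is minimal in `v` (`F' ⊆ F`, `F' ∈ v` implies `F' ∉ w` by `up`). `Fᶜ ∈ w`. (7) is `sep`. -/
def St_VT : Prop := ∀ (A : Type) [Group A] (𝓔 : Set (Set A)), TS 𝓔 →
  (∀ x, Vx 𝓔 (pt 𝓔 x)) ∧
  (∀ v g, Vx 𝓔 v → Vx 𝓔 (vt v g)) ∧ (∀ (v : Set (Set A)) g F, MinV v F → MinV (vt v g) (rt F g)) ∧
  (∀ x g, vt (pt 𝓔 x) g = pt 𝓔 (x * g)) ∧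
  (∀ (v : Set (Set A)) g h, vt (vt v g) h = vt v (g * h)) ∧ (∀ v : Set (Set A), vt v 1 = v) ∧
  (∀ v w F, Vx 𝓔 v → Vx 𝓔 w → MinV v F → MinV w F → v = w) ∧
  (∀ v F F', Vx 𝓔 v → MinV v F → MinV v F' → F ≠ F' → Fᶜ ⊆ F') ∧
  (∀ v F, Vx 𝓔 v → MinV v F → Vx 𝓔 (flip v F) ∧ MinV (flip v F) Fᶜ ∧
    flip (flip v F) Fᶜ = v) ∧
  (∀ (v : Set (Set A)) F g, vt (flip v F) g = flip (vt v g) (rt F g)) ∧
  (∀ v w, Vx 𝓔 v → Vx 𝓔 w → v ≠ w → (v \ w).Finite → ∃ F, MinV v F ∧ F ∉ w ∧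
    flip v F \ w = (v \ w) \ {F}) ∧
  (∀ x y, (pt 𝓔 x \ pt 𝓔 y).Finite)

/-- [PPG] Ping-pong for right multiplications.
Proof. `sup` is a hypothesis. If `A1 = ⊥` then `K = ⊤`, take `χ := ψ` (`φ 1 = 1 = ψ 1`); if `K = ⊥` take
`χ := φ`. Otherwise both are infinite (`TF`). `Monoid.CoprodI.lift_injective_of_ping_pong` for
`ι := Bool`, the subgroups `A1`, `K`, the inclusions to `A`, acting on the set `A` by `g • x := x * g⁻¹`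
(use `MulAction` of `A` on a copy of `A`, or the homomorphism `A →* Equiv.Perm A`), and the sets `X`, `Y`:
the lift `CoprodI → A` is injective, and surjective by `sup`. Given `φ, ψ`: lift them to `CoprodI` and
compose with the inverse of the isomorphism. -/
def St_PPG : Prop := ∀ (A : Type) [Group A] (A1 K : Subgroup A) (X Y : Set A), TF A →
  X.Nonempty → Y.Nonempty → Disjoint X Y → A1 ⊔ K = ⊤ →
  (∀ a ∈ A1, a ≠ 1 → ∀ x ∈ Y, x * a ∈ X) → (∀ k ∈ K, k ≠ 1 → ∀ x ∈ X, x * k ∈ Y) → Spl A1 K ⊤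

/-- [C2a] (uses VT) Ping-pong, the two ends of the edge `E` in different orbits. `u := flip (pt 1) E`.
Proof. `a`: `rt E a` is minimal in `vt (pt 1) a = pt a = pt 1` (VT), different from `E` (`free`), so
`(rt E a)ᶜ ⊆ E` by VT (4). For `x ∉ E`, `x a ∉ rt E a`, so `x a ∈ E`. `k`: `Eᶜ` and `rt Eᶜ k` are minimal
in `u = vt u k`, different (`free` for `Eᶜ`), so `(rt Eᶜ k)ᶜ ⊆ Eᶜ`; `(rt Eᶜ k)ᶜ = rt E k ∋ x k`. -/
def St_C2a : Prop := ∀ (A : Type) [Group A] (𝓔 : Set (Set A)) (E : Set A), TS 𝓔 →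
  MinV (pt 𝓔 1) E →
  (∀ a, pt 𝓔 a = pt 𝓔 1 → a ≠ 1 → ∀ x, x ∉ E → x * a ∈ E) ∧
  (∀ k, vt (flip (pt 𝓔 1) E) k = flip (pt 𝓔 1) E → k ≠ 1 → ∀ x, x ∈ E → x * k ∉ E)

/-- [C2b] (uses VT) Generation, the two ends of the edge `E` in different orbits.

Proof. `u := flip (pt 1) E`, `d x y := (pt x \ pt y).ncard`, finite sets. `d (x h) (y h) = d x y` (`F ↦
rt F h`). Claim: all `g` are in `H := A1 ⊔ K`. Strong induction on `d 1 g`. If `pt 1 = pt g` then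
`g ∈ A1`. Otherwise VT (6): `F` minimal in `pt 1`, `g ∉ F`. By `one`: `F = rt E c` or `F = (rt E c)ᶜ = rt Eᶜ
c`. In the second case: `Eᶜ` is minimal in `u`, so `F` in `vt u c`, and in `pt 1`; VT (3): `vt u c = pt 1`,
so `u = pt c⁻¹`, excluded. So `F = rt E c`, minimal in `vt (pt 1) c = pt c` and in `pt 1`, so `pt c = pt 1`,
`c ∈ A1`. Put `g' := g c⁻¹`: `g' ∉ E` and `d 1 g' = d c g = d 1 g`. `u ≠ pt g'` (hypothesis), `u \ pt g'` is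
finite (it is contained in `(pt 1 \ pt g') ∪ {Eᶜ}`). VT (6): `F` minimal in `u`, `g' ∉ F` (as `F ∉ pt g'`);
`F ≠ Eᶜ` as `g' ∈ Eᶜ`; so `F ∈ pt 1`, `F ≠ E`. `F = rt E c'`: it is minimal in `pt c'` and in `u`, so
`u = pt c'`, excluded. So `F = rt Eᶜ κ`, minimal in `vt u κ` and in `u`: `vt u κ = u`, `κ ∈ K`. `pt κ =
vt (pt 1) κ`, and `pt 1 = flip u Eᶜ` (VT (5)), so `pt κ = flip u F` (VT (8)): `pt κ \ pt g' = (u \ pt g') \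
{F}`, and `u \ pt g' = (pt 1 \ pt g') \ {E}` (`Eᶜ ∈ pt g'`, `E ∈ pt 1`, `E ∉ pt g'`). So `d κ g' < d 1 g'`,
`d 1 (g' κ⁻¹) = d κ g' < d 1 g`, `g' κ⁻¹ ∈ H` by induction, `g = (g' κ⁻¹) κ c ∈ H`. -/
def St_C2b : Prop := ∀ (A : Type) [Group A] (𝓔 : Set (Set A)) (E : Set A) (A1 K : Subgroup A),
  TS 𝓔 → MinV (pt 𝓔 1) E → (∀ t, pt 𝓔 t ≠ flip (pt 𝓔 1) E) →
  (∀ a, a ∈ A1 ↔ pt 𝓔 a = pt 𝓔 1) →
  (∀ k, k ∈ K ↔ vt (flip (pt 𝓔 1) E) k = flip (pt 𝓔 1) E) → A1 ⊔ K = ⊤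

/-- [C1a] (uses VT) Ping-pong, the two ends of the edge `E` in the same orbit: `pt t = u :=
flip (pt 1) E`, so `t ∉ E`. `Y := Eᶜ ∪ rt E t⁻¹`.

Proof. (1) `rt E t` is minimal in `pt t = u`, `Eᶜ` is minimal in `u` (VT (5)), different (`noinv`), so
`(rt E t)ᶜ ⊆ Eᶜ`, `E ⊆ rt E t`, so `rt E t⁻¹ ⊆ E` and `rt Eᶜ t ⊆ Eᶜ`. (2) `n ≥ 1`: `x ∉ Y`, so `x ∉ rt E
t⁻¹`, `x t ∉ E`, and `x tⁿ ∉ E` by induction with (1). (3) `x ∉ Y`: `x ∈ E`, so `x t⁻¹ ∈ rt E t⁻¹`, and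
`x t⁻ⁿ ∈ rt E t⁻¹` by induction with (1) (`rt E t⁻¹ ⊆ E`). (4) `a ∈ A1`, `a ≠ 1`: the four sets `E`, `rt E
a`, `F := rt Eᶜ t⁻¹`, `rt F a` are minimal in `pt 1` (`Eᶜ` is minimal in `pt t`, so `F` in `pt 1`; and
`vt (pt 1) a = pt 1`) and different (`free`, `noinv`: `rt E a = F` or `E = rt F a` would make a
translate of `E` equal to its complement). So by VT (4) `(rt E a)ᶜ` and `(rt F a)ᶜ` are contained in
`E ∩ F`, `F = (rt E t⁻¹)ᶜ`. `x ∈ Y`: `x ∉ E` or `x ∉ F`, so `x a ∉ rt E a` or `x a ∉ rt F a`, so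
`x a ∈ E ∩ F = Yᶜ`. -/
def St_C1a : Prop := ∀ (A : Type) [Group A] (𝓔 : Set (Set A)) (E : Set A) (t : A), TS 𝓔 →
  MinV (pt 𝓔 1) E → pt 𝓔 t = flip (pt 𝓔 1) E →
  (∀ n : ℕ, 1 ≤ n → ∀ x, x ∉ Eᶜ ∪ rt E t⁻¹ →
    x * t ^ n ∈ Eᶜ ∪ rt E t⁻¹ ∧ x * (t⁻¹) ^ n ∈ Eᶜ ∪ rt E t⁻¹) ∧
  (∀ a, pt 𝓔 a = pt 𝓔 1 → a ≠ 1 → ∀ x, x ∈ Eᶜ ∪ rt E t⁻¹ → x * a ∉ Eᶜ ∪ rt E t⁻¹) ∧
  (1 : A) ∉ Eᶜ ∪ rt E t⁻¹

/-- [C1b] (uses VT) Generation, the two ends of the edge `E` in the same orbit.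

Proof. `u := flip (pt 1) E = pt t`, `d x y := (pt x \ pt y).ncard`. Strong induction on `d 1 g` for
`g ∈ H := A1 ⊔ zpowers t`. If `pt 1 = pt g`: `g ∈ A1`. Otherwise VT (6): `F` minimal in `pt 1`, `g ∉ F`,
`flip (pt 1) F \ pt g = (pt 1 \ pt g) \ {F}`. `F = rt E c`: minimal in `pt c` and `pt 1`, so `pt c = pt 1`,
`c ∈ A1`; `pt (t c) = vt u c = flip (pt c) (rt E c) = flip (pt 1) F`, so `d (t c) g < d 1 g`, i.e.
`d 1 (g (t c)⁻¹) < d 1 g`, `g (t c)⁻¹ ∈ H`, `g ∈ H`. `F = rt Eᶜ c`: minimal in `vt u c = pt (t c)` and in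
`pt 1`: `t c ∈ A1`, so `c ∈ H`. `pt 1 = flip u Eᶜ`, so `pt c = flip (vt u c) (rt Eᶜ c) = flip (pt (t c)) F =
flip (pt 1) F`, `d c g < d 1 g`, `g c⁻¹ ∈ H`. -/
def St_C1b : Prop := ∀ (A : Type) [Group A] (𝓔 : Set (Set A)) (E : Set A) (A1 : Subgroup A)
  (t : A), TS 𝓔 → MinV (pt 𝓔 1) E → pt 𝓔 t = flip (pt 𝓔 1) E →
  (∀ a, a ∈ A1 ↔ pt 𝓔 a = pt 𝓔 1) → A1 ⊔ Subgroup.zpowers t = ⊤

/-- [RS] (uses AIB, TX, VT, PPG, C2a, C2b, C1a, C1b) The splitting.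

Proof. `𝓔` from TX. `E` minimal in `pt 1`: some `F0 ∈ 𝓔` contains `1` (`compl`), some `y` is not in `F0`
(`F0ᶜ` is infinite), so `pt 1 ≠ pt y`, and VT (6), (7). `A1 := {a | pt a = pt 1}` is a subgroup (VT:
`vt (pt x) g = pt (x g)`). `L ≤ A1`: for `l ∈ L`, `F ∈ 𝓔`: `l ∈ F ↔ 1 ∈ F` (`AI.inv`). `u := flip (pt 1) E`.
`E ∉ pt g` for some `g` (`Eᶜ` infinite), so `A1 ≠ ⊤`.
Case 2: `pt t ≠ u` for all `t`. `K := {k | vt u k = u}`. C2a, C2b, PPG with `X := E`, `Y := Eᶜ`: `Spl A1 K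
⊤`. `K ≠ ⊥` as `A1 ≠ ⊤`. `A1 ≠ ⊥`: otherwise `K = ⊤` and for all `g ≠ 1`, `rt Eᶜ g ∈ vt u g = u` (`Eᶜ ∈ u`),
different from `Eᶜ` (`free`), so `rt Eᶜ g ∈ pt 1`, `g⁻¹ ∉ E`; so `E ⊆ {1}`, but `E` is infinite.
Case 1: `pt t = u`. `K := zpowers t`; C1a, C1b, PPG with `Y := Eᶜ ∪ rt E t⁻¹`, `X := Yᶜ ∋ 1`
(`k = tⁿ`, `n ∈ ℤ`, `n ≠ 0`): `Spl A1 K ⊤`. `K ≠ ⊥`: `E ∉ u`, so `u ≠ pt 1`, `t ≠ 1`. `χ`: `Spl.ext` with
`N := Multiplicative ℤ`, `φ := 1` and `ψ (tⁿ) = ofAdd n` (`t` has infinite order, `TF`). -/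
def St_RS : Prop := ∀ (A : Type) [Group A] (L : Subgroup A), TF A → Group.FG A →
  (∃ E : Set A, AI ⊤ L E ∧ E.Infinite ∧ Eᶜ.Infinite) →
    ∃ A1 K : Subgroup A, L ≤ A1 ∧ A1 ≠ ⊤ ∧ K ≠ ⊥ ∧ Spl A1 K ⊤ ∧
      (A1 ≠ ⊥ ∨ ∃ χ : A →* Multiplicative ℤ, χ ≠ 1)

/-- [RSa] (uses RS) The splitting, for a subgroup `A` of an ambient group.
Proof. RS for the group `↥A`, the subgroup `L.subgroupOf A`, the preimage of `E`; `A1 := (RS.A1).map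
A.subtype`, the same for `K`. `Spl.ext`: compose `φ`, `ψ` with `A.subtype`; the map `χ` on `↥A` is
extended to `P` by `1`. -/
def St_RSa : Prop := ∀ (P : Type) [Group P] (A L : Subgroup P) (E : Set P), TF P → A.FG →
  L ≤ A → AI A L E → {x | x ∈ A ∧ x ∈ E}.Infinite → {x | x ∈ A ∧ x ∉ E}.Infinite →
    ∃ A1 K : Subgroup P, L ≤ A1 ∧ A1 ≤ A ∧ A1 ≠ A ∧ K ≠ ⊥ ∧ Spl A1 K A ∧
      (A1 ≠ ⊥ ∨ ∃ χ : P → Multiplicative ℤ, MulOn A χ ∧ ∃ a ∈ A, χ a ≠ 1)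

end Pool.Agent.SFG
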