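import Pool.Agent.SFG.Defs
import Pool.Agent.SPD.StW

/-!
# Statements, part T : levels, torsion

`SPD` statements are cited as `SPD.St_..`. Words and chains as in `SPD.StL`, `SPD.StT`.
-/

set_option autoImplicit false

namespace Pool.Agent.SFG

open Matrix Pool.Agent.CPD Pool.Agent.SPD

/-- [W6v] (uses `SPD.St_W0`, `SPD.St_W1`, `SPD.St_W3`) From a pre-level to a level. Proof: as
`SPD.W6`. -/
def St_W6v : Prop := ∀ (G : Type) [Group G] (α Γ : Type) [Group Γ] (f : α → G)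
  (R : Set (List (α × Bool))) (L : Len G) (N n0 : ℕ) (τ : G → (α × Bool) → Γ)
  (T0 : G → G → Γ) (γ : G → Γ) (P : Subgroup Γ), Base f R L →
  Pre f R L N n0 τ T0 γ P → ∃ T : G → G → P, Lv f R L N n0 T

/-- [W7v] (uses `SPD.St_W4`, W6v) Levels exist. -/
def St_W7v : Prop := ∀ (G : Type) [Group G] (α : Type) (f : α → G)
  (R : Set (List (α × Bool))) (L : Len G), Base f R L → StrongSemistable f R →
  ∀ N : ℕ, ∃ (π : Type) (_ : Group π) (T : G → G → π) (n0 : ℕ), Lv f R L N n0 T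

/-- [W8v] (uses `SPD.St_W0`, `SPD.St_W1`) The homomorphism between two levels.
Proof. As `SPD.W8`. Surjectivity of `φ`: for `x : π` take a vertex `v` with `|v| > m1`, beyond the
radius of `surj m1` of `T`, and `g` for it; a closed word `w` at `v` outside `Bl L m1` with `hol w =
g⁻¹ x g`. -/
def St_W8v : Prop := ∀ (G : Type) [Group G] (α π π' : Type) [Group π] [Group π'] (f : α → G)
  (R : Set (List (α × Bool))) (L : Len G) (N n0 N' n0' : ℕ) (T : G → G → π) (T' : G → G → π'),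
  Base f R L → Lv f R L N n0 T → Lv f R L N' n0' T' → n0 ≤ N' →
  ∃ (φ : π' →* π) (m1 : ℕ), Function.Surjective φ ∧ n0' ≤ m1 ∧ ∀ v, m1 < L.l v → ∃ g : π,
    ∀ w, value f w = 1 → Avoids f (Bl L m1) v w →
      φ (hol f (lab f T') v w) = g * hol f (lab f T) v w * g⁻¹

/-- [S1v] (uses `SPD.St_W0`, `SPD.St_W1`, `SPD.St_L2`, `SPD.St_L3`) Cocycles with compact support;
semistability. Proof: as `SPD.S1`. -/
def St_S1v : Prop := ∀ (G α π : Type) [Group G] [Group π] (f : α → G)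
  (Rel : Set (List (α × Bool))) (M : Pk G) (R : ℕ) (𝓛 : Loc M R) (N n0 n : ℕ) (T : G → G → π),
  Dv f Rel M 𝓛 N n0 n T → StrongSemistable f Rel → ∃ n'', n + 𝓛.ρ ≤ n'' ∧
    ∀ (W : Type) [AddCommGroup W] [Module (ZG π) W] (b : Ch M (ZG π) →ₗ[ZG π] W),
      Coc M T n b →
      (∃ Q, ∀ x : G × M.I, M.deg x.2 = 1 → Q < M.L.l x.1 → b (Finsupp.single x 1) = 0) →
      ∃ p : G → W, Pot M T 𝓛 b n'' p ∧ ∃ Q', ∀ v, Q' < M.L.l v → p v = 0

/-- [SEC] (uses `SPD.St_T0`) An equivariant set-theoretic section of `ℤ[π ⧸ A] → (ℤ/q)[π ⧸ A]`.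
`s` depends only on the class modulo `InI A q`, its values are given up to `InI A 0`.
Proof. Choose representatives: for `m : ZG π` let `P := m.coeff.mapDomain mk : (π ⧸ A) →₀ ℤ` and
`s m := ∑_ξ (P ξ % q) • gr ξ.out` (finite sum over the support of `P`); the image of `s m` in `ℤ[π ⧸ A]`
is `ξ ↦ P ξ % q`. All clauses are statements about these functions: `(1)` `P ξ - P ξ % q` is divisible
by `q`. (2) `P ξ % q` depends only on `P ξ` modulo `q`. (3) both images are `ξ ↦ P (g⁻¹ ξ) % q`. -/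
def St_SEC : Prop := ∀ (π : Type) [Group π] (A : Subgroup π) (q : ℕ), 1 ≤ q →
  ∃ s : ZG π → ZG π, (∀ m, InI A q (s m - m)) ∧
    (∀ m m', InI A q (m - m') → InI A 0 (s m - s m')) ∧
    (∀ (g : π) (m : ZG π), InI A 0 (s (gr g * m) - gr g * s m)) ∧ s 0 = 0

/-- [T2bv] (uses `SPD.St_W0`, `SPD.St_L2`, `SPD.St_L3`, `SPD.St_L4`, `SPD.St_F0`, `SPD.St_F6`,
`SPD.St_T0`, S1v, SEC) A cocycle modulo `q` with finite support, which vanishes on a thick shell,
lifts to a cocycle modulo `A`. `n2` depends only on `n`. `u := M.u`, `ρ := 𝓛.ρ`.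

Proof. `n1 := n + 10 u` (`Dv` is monotone in `n`), S1v for `n1`: `n''`; `σ := n'' + 2 ρ + 20 u`,
`n2 := σ + 10 u + ρ`. Given `A, q, b`: let `S` be the submodule of T0 (1), `W := ZG π ⧸ S`, `B := mkQ ∘
linearCombination b : Ch → W`. `Coc M T n1 B` by the hypotheses (`D0`, `E0`), and `B` vanishes on the
cells of degree one which are not in the finite support of `b`, in particular for `|x| ≤ n2`. S1v:
`p`, `Pot B n'' p`, `p v = 0` for `|v| > Q'`. L4 (`n' := n''`): `B y = F (D y)` for `|y| > n'' + ρ`, `deg y =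
1`, `F := potF B p`, i.e. `F (single x 1) = e_x • p x.1 + B (sh x.1 (ex x.2))` for `deg x = 0`. Choose
lifts `m_v ∈ ZG π` of `p v` (`m_v := 0` if `p v = 0`) and `c_x` of `F (single x 1)`. With `s` from SEC define
`F' x := e_x.2 • s (m_(x.1))` if `deg x = 0` and `|x| ≤ σ`, `F' x := s (c_x)` if `deg x = 0` and `|x| > σ` (`c_x
:= 0` if `F (single x 1) = 0`), `F' x := 0` if `deg x ≠ 0`; extend linearly to `F' : Ch → ZG π`.
(a) For `deg x = 0`, `n'' < |x| ≤ n2 - ρ`: `B (sh x.1 (ex x.2)) = 0`, so `mkQ (F' x) = F (single x 1)`;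
this is also true for all `x` with `|x| > σ`; so for all `x` of degree `0` with `|x| > n''`.
(b) For `n'' < |v| ≤ n2 - ρ`, `l h ≤ R`: `be v h = 0`, so `p v = gr (T v h) • p (v h)`, and by SEC (2), (3)
`InI A 0 (s m_v - gr (T v h) * s m_(v h))`.
(c) Finite support: for `|x| > Q' + Q + ρ` (`Q` bounding the support of `b`) `F (single x 1) = 0`,
`F' x = 0`.
(d) For `y` of degree one with `n'' + u < |y| ≤ σ - u`: `F' (D y) = ∑ n_x e_x gr (T y x.1) * s m_(y x.1)`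
over the cells `x` of `row D (1, y.2)`, which is modulo `InI A 0` equal to `(∑ n_x e_x) • s m_y = 0`.
`b1 y := F' (D y)` if `deg y = 1` and `|y| > σ - 5 u`, else `0`: finitely supported by (c). (iii) clear.
(i) `|y| > σ - 5 u`: `mkQ (b1 y) = F (D y) = B y` by (a); otherwise `b y = 0 = b1 y`. (ii) `|x| > n`, `deg x =
2`: if `|x| ≤ σ - 2 u` all cells `y` of `D x` have `|y| ≤ σ - u`, so `b1 y ∈ InI A 0` by (d) or `b1 y = 0`;
`InI A 0` is a left ideal. If `|x| > σ - 2 u` all these cells have `|y| > σ - 5 u`, so `∑_y (D x)(y) * b1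
y = F' (D (D x)) = 0` (F6). -/
def St_T2bv : Prop := ∀ (G α π : Type) [Group G] [Group π] (f : α → G)
  (Rel : Set (List (α × Bool))) (M : Pk G) (R : ℕ) (𝓛 : Loc M R) (N n0 n : ℕ) (T : G → G → π),
  Dv f Rel M 𝓛 N n0 n T → StrongSemistable f Rel → ∃ n2, n ≤ n2 ∧
    ∀ (A : Subgroup π) (q : ℕ) (b : Ch M (ZG π)), 1 ≤ q →
    (∀ y, b y ≠ 0 → M.deg y.2 = 1 ∧ n2 < M.L.l y.1) →
    (∀ x : G × M.I, M.deg x.2 = 2 → n < M.L.l x.1 →
      InI A q (pair (opT M T M.D (Finsupp.single x 1)) (fun y => b y))) →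
    (∀ x : G × M.I, M.deg x.2 = 1 → n < M.L.l x.1 →
      pair (opT M T M.E (Finsupp.single x 1)) (fun y => b y) = b x) →
    ∃ b1 : Ch M (ZG π), (∀ y, b1 y ≠ 0 → M.deg y.2 = 1 ∧ n + 10 * M.u < M.L.l y.1) ∧
      (∀ y, InI A q (b y - b1 y)) ∧
      ∀ x : G × M.I, M.deg x.2 = 2 → n < M.L.l x.1 →
        InI A 0 (pair (opT M T M.D (Finsupp.single x 1)) (fun y => b1 y))

/-- [T2v] (uses `SPD.St_F0`, `SPD.St_F6`, `SPD.St_F9`, `SPD.St_T1`, T2bv) Torsion dies. Proof: as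
`SPD.T2`, with T2bv in place of T2b. -/
def St_T2v : Prop := ∀ (G α π : Type) [Group G] [Group π] (f : α → G)
  (Rel : Set (List (α × Bool))) (M : Pk G) (R : ℕ) (𝓛 : Loc M R) (N n0 n : ℕ) (T : G → G → π),
  Dv f Rel M 𝓛 N n0 n T → StrongSemistable f Rel → ∃ n2, n ≤ n2 ∧
    ∀ (A : Subgroup π) (q : ℕ) (z e : Ch M (ZG π)), 1 ≤ q →
    (∀ x, z x ≠ 0 → M.deg x.2 = 1) → (∀ x, e x ≠ 0 → M.deg x.2 = 2 ∧ n2 < M.L.l x.1) →
    JC A 0 ((q : ℤ) • z - opT M T M.D e) →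
    ∃ e' : Ch M (ZG π), (∀ x, e' x ≠ 0 → M.deg x.2 = 2 ∧ n < M.L.l x.1) ∧
      JC A 0 (z - opT M T M.D e')

/-- [T3v] (uses `SPD.St_L2`, `SPD.St_L5`, `SPD.St_F6`, `SPD.St_T0`) A loop whose chain is a boundary
modulo `A` is a commutator. Proof: as `SPD.T3`. -/
def St_T3v : Prop := ∀ (G α π : Type) [Group G] [Group π] (f : α → G)
  (Rel : Set (List (α × Bool))) (M : Pk G) (R : ℕ) (𝓛 : Loc M R) (N n0 n : ℕ) (T : G → G → π),
  Dv f Rel M 𝓛 N n0 n T → ∀ (A : Subgroup π) (v : G) (w : List (α × Bool)) (e' : Ch M (ZG π)),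
    value f w = 1 → Avoids f (Bl M.L n) v w → hol f (lab f T) v w ∈ A →
    (∀ x, e' x ≠ 0 → M.deg x.2 = 2 ∧ n < M.L.l x.1) →
    JC A 0 (chw f M 𝓛 T v w - opT M T M.D e') → hol f (lab f T) v w ∈ ⁅A, A⁆

/-- [CMM] (uses `SPD.St_W0`, `SPD.St_W1`, `SPD.St_L5`, `SPD.St_L6`, `CPD.St_D0`) The chain of a product
of commutators of loops with trivial holonomy is a boundary. `m ≥ n`.

Proof. `chw` of a closed word at `v`, outside `Bl m`, with trivial `T`-holonomy: additive under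
concatenation (L5 (1), `gr 1 = 1`). `chw v (winv c) + chw v c = chw v (c ++ winv c)` is `op D e`, `e`
beyond `m - ρ`, by L6 (`c ++ winv c ~ []` outside `Bl m`, D0) if `hol c = 1`. So `chw v (c ++ d ++ winv c ++
winv d) = op D e`. The set of `x : π'` for which there is a closed word `w` at `v` outside `Bl m` with
`hol' w = x`, `hol w = 1` and `chw v w = op D e` as stated is a subgroup (products: concatenation;
inverses: `winv w`, `chw v (winv w) = - chw v w + op D e`), and it contains the commutators of elements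
of `R`: these are realized by loops (hypothesis), whose `T`-holonomy is trivial. `⁅R, R⁆` is the
subgroup generated by the commutators. -/
def St_CMM : Prop := ∀ (G α π π' : Type) [Group G] [Group π] [Group π'] (f : α → G)
  (Rel : Set (List (α × Bool))) (M : Pk G) (R0 : ℕ) (𝓛 : Loc M R0) (N n0 n N' n0' m : ℕ)
  (T : G → G → π) (T' : G → G → π') (R : Subgroup π') (v : G),
  Dv f Rel M 𝓛 N n0 n T → Lv f Rel M.L N' n0' T' → n ≤ m → n0' ≤ m →
  (∀ x ∈ R, ∃ w, value f w = 1 ∧ Avoids f (Bl M.L m) v w ∧ hol f (lab f T') v w = x) →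
  (∀ w, value f w = 1 → Avoids f (Bl M.L m) v w → hol f (lab f T') v w ∈ R →
    hol f (lab f T) v w = 1) →
  ∀ x ∈ ⁅R, R⁆, ∃ w, value f w = 1 ∧ Avoids f (Bl M.L m) v w ∧ hol f (lab f T') v w = x ∧
    hol f (lab f T) v w = 1 ∧ ∃ e : Ch M (ZG π),
      (∀ y, e y ≠ 0 → M.deg y.2 = 2 ∧ m < M.L.l y.1 + 𝓛.ρ) ∧ chw f M 𝓛 T v w = opT M T M.D e

/-- [RAD] (uses `SPD.St_W0`, `SPD.St_W1`, `CPD.St_D0`, `CPD.St_D1`, `SPD.St_L1`, `SPD.St_L5`,
`SPD.St_L6`, `SPD.St_T0`, `SPD.St_T1`, T2v, T3v, CMM) Torsion in the quotients of the stable images dies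
one level deeper.

Proof. `R0`, `𝓛` from L1 (at least `u` and the lengths of the relators); `n ≥ n0` with `T` good beyond
`n`: `Dv`. `n2` from T2v, `N1 := n2 + ρ + n`. Let `N' ≥ N1`, and everything else as in the statement,
`x ^ r ∈ R`. `s ≥ 1` with `(x^r)^s ∈ ⁅R, R⁆`, `q := r s`. `m := max N' (max n0' m1)`. `surj m` of `T'` gives a
vertex `v`, `|v| > m` (`G` infinite, balls finite), at which all elements of `π'` are holonomies of
closed words outside `Bl m`. `a`: `hol' a = x`. If `hol' w ∈ R` then `hol w = g⁻¹ φ(hol' w) g = 1`. CMM: `c`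
with `hol' c = x^q`, `hol c = 1`, `chw c = op D e`, `e` beyond `m - ρ ≥ n2`. The closed word `aᑫ ++ winv c`
has `hol' = 1`, so it is homotopic to `[]` outside `Bl N'` (`faith`), so `aᑫ ~ c` outside `Bl N'` (append
`c`: D1, D0). L6 (`m := N'`): `chw (aᑫ) - chw c = op D e'`, `e'` beyond `N' - ρ ≥ n2`. `X := hol a`, `A :=
closure {X}`; `chw (aᑫ) = ∑_{i<q} gr (X^i) • chw a` (L5 (1)), which is `q • chw a` modulo `JC A 0`
(T1 (4)). So `JC A 0 (q • chw a - op D (e + e'))`, T2v: `JC A 0 (chw a - op D e'')`, T3v: `X ∈ ⁅A, A⁆ = ⊥`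
(`A` is commutative), `X = 1`, and `φ x = g X g⁻¹ = 1`. -/
def St_RAD : Prop := ∀ (G α π : Type) [Group G] [Group π] (f : α → G)
  (Rel : Set (List (α × Bool))) (M : Pk G) (N n0 : ℕ) (T : G → G → π),
  Base f Rel M.L → StrongSemistable f Rel → Lv f Rel M.L N n0 T → ∃ N1,
    ∀ (N' n0' : ℕ) (π' : Type) [Group π'] (T' : G → G → π') (φ : π' →* π) (m1 : ℕ), N1 ≤ N' →
    Lv f Rel M.L N' n0' T' →
    (∀ v, m1 < M.L.l v → ∃ g : π, ∀ w, value f w = 1 → Avoids f (Bl M.L m1) v w →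
      φ (hol f (lab f T') v w) = g * hol f (lab f T) v w * g⁻¹) →
    ∀ R : Subgroup π', NT R → R ≤ φ.ker → ∀ (x : π') (r : ℕ), 1 ≤ r → x ^ r ∈ R → φ x = 1

/-- [RMX] The largest normal subgroup with torsion abelianization in a kernel.
Proof. `R := sSup {R' | NT R' ∧ R' ≤ φ.ker}`: normal, `≤ ker φ`. For a subgroup `H` the set `{y ∈ H | ∃ s ≥ 1,
y ^ s ∈ ⁅H, H⁆}` is a subgroup (the preimage of the torsion of the abelian group `H ⧸ ⁅H, H⁆`; directly:
in `↥H` modulo the commutator `(y z)^(s t) = y^(s t) z^(s t)`). For `H = R` it contains all `R'` of the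
family, so it is `R`: `NT R`. Let `x ^ r ∈ R`; by the hypothesis for `R`: `φ x = 1`. `R' := R ⊔
normalClosure {x}`: normal, `≤ ker φ`; the above set for `H = R'` contains `R`, and all conjugates `y` of
`x` (`y ^ r ∈ R`, so `(y ^ r) ^ s ∈ ⁅R, R⁆ ≤ ⁅R', R'⁆`), so it is `R'`: `NT R'`, and `R' ≤ R`. -/
def St_RMX : Prop := ∀ (π π' : Type) [Group π] [Group π'] (φ : π' →* π),
  (∀ R : Subgroup π', NT R → R ≤ φ.ker → ∀ (x : π') (r : ℕ), 1 ≤ r → x ^ r ∈ R → φ x = 1) →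
  ∃ R : Subgroup π', NT R ∧ R ≤ φ.ker ∧ ∀ (x : π') (r : ℕ), 1 ≤ r → x ^ r ∈ R → x ∈ R

/-- [LTX] (uses `SPD.St_W0`, `SPD.St_W1`) The torsion-free level.

Proof. `Q := π ⧸ R`, `T v h := mk (T' v h)`. `tf`: `mk x ^ n = 1` means `x ^ n ∈ R`. `als`, `lab`, `surj`: images
(`hol` of `T` is `mk` of `hol` of `T'`). `ind`: let `n`, `l0` be from `ind n` of `T'`, `n'` from `join n`, `k'` from
`surj n` of `T'`; `l := l0 + n' + k'`. Let `W`, `β` be as in the statement; `W` is a `ℤ[π]`-module via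
`ℤ[π] → ℤ[Q]` (`MonoidAlgebra.mapDomainRingHom`, `Module.compHom`); for it `gr g • x = gr (mk g) • x`, so
`Iw` and `WCoc` are the same. So closed words at `v` outside `Bl n` with trivial `T'`-holonomy have
integral `0`. Let `|v| > l`. For `x ∈ R` let `w_x` be a closed word at `v` outside `Bl n` with
`T'`-holonomy `x` (`surj`), `c x := Iw v w_x`. For every closed `w` at `v` outside `Bl n` with `hol' w = x ∈
R`: `Iw w = c x` (`w ++ winv w_x` has holonomy `1`; `Iw (w ++ winv w_x) = Iw w + gr (mk x) • Iw (winv w_x)`,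
`mk x = 1`, and `Iw w_x + Iw (winv w_x) = 0`: W1 for `w_x ++ winv w_x ~ []`). So `c (x y) = c x + c y` on
`R`, and `c` vanishes on `⁅R, R⁆`. For `y ∈ R`, `y ^ s ∈ ⁅R, R⁆`: `s • c y = 0`, so `c y = 0`. If `hol w = 1`
then `hol' w ∈ R`, so `Iw w = 0`. -/
def St_LTX : Prop := ∀ (G α π : Type) [Group G] [Group π] (f : α → G)
  (Rel : Set (List (α × Bool))) (L : Len G) (N n0 : ℕ) (T : G → G → π) (R : Subgroup π),
  Base f Rel L → Lv f Rel L N n0 T → NT R → (∀ (x : π) (r : ℕ), 1 ≤ r → x ^ r ∈ R → x ∈ R) →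
  ∃ (Q : Type) (_ : Group Q) (θ : π →* Q), Function.Surjective θ ∧ θ.ker = R ∧
    Lt f Rel L n0 (fun v h => θ (T v h))

end Pool.Agent.SFG
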