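import Pool.Agent.SFG.StG
import Pool.Agent.SFG.StT
import Pool.Agent.SFG.StP
import Pool.Agent.SFG.StH
import Pool.Agent.SPD.StK

/-!
# Statements, part X : the theorem
-/

set_option autoImplicit false

namespace Pool.Agent.SFG

open Matrix Pool.Agent.CPD Pool.Agent.SPD

/-- [FGI] (uses `SPD.St_W0`, `SPD.St_W1`, `CPD.St_D0`, `CPD.St_D1`) Finite generation at infinity.

Proof. Let `K ⊆ Bl N` be finite; a level `T` for `N` with `π` f.g.; `D := Bl n0 ⊇ Bl N`. Given a finite `C`
let `k'` be from `surj n0`, `v ∉ C` with `|v| > k'` (`G` infinite). `S` := closed words at `v` outside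
`Bl n0` whose holonomies are the elements of a finite generating set of `π`. For a closed word `w` at
`v` outside `D` the element `hol w` is a product of these holonomies and inverses, so it is the
holonomy of `us.flatten` for a list `us` of elements of `S` and their `winv`s. `w ++ winv us.flatten` has
trivial holonomy, so it is homotopic to `[]` outside `Bl N` (`faith`), and `w ~ us.flatten` outside
`Bl N ⊇ K` (D0, D1, W0). -/
def St_FGI : Prop := ∀ (G : Type) [Group G] (α : Type) (f : α → G)
  (R : Set (List (α × Bool))) (L : Len G), Base f R L →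
  (∀ N : ℕ, ∃ (π : Type) (_ : Group π) (T : G → G → π) (n0 : ℕ), Lv f R L N n0 T ∧
    Group.FG π) → FGAtInfinity f R

/-- [FPN] (uses W7v, W8v, RAD, RMX, LTX, PF, HXX, GT) The stable images are finitely generated.

Proof. Given `N`: a level `T, π, n0` (W7v), `N1` from RAD, `N' := max N1 n0`, a level `T', π', n0'` for `N'`,
`φ : π' →* π` onto, `m1` from W8v. RAD gives the hypothesis of RMX: `R`. LTX (for `T'`, `R`): `Q`, `θ :
π' →* Q` onto, `θ.ker = R ≤ φ.ker`, `Lt`. `HX Q` by HXX. `NoZ ⊤` for `π'` by PF, so for `Q` (compose with `θ`).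
`π'` is countable: by `surj` of `T'` it is the set of the holonomies of the words at a far vertex, and
`α` is finite; so is `Q`. `TF Q` from `Lt`. GT: `Q` is f.g.; `π` is a quotient of `Q` (`φ` factors over
`θ`), so it is f.g. -/
def St_FPN : Prop := ∀ (G : Type) [Group G] (α : Type) (f : α → G)
  (R : Set (List (α × Bool))) (M : Pk G), Base f R M.L → StrongSemistable f R →
  ∀ N : ℕ, ∃ (π : Type) (_ : Group π) (T : G → G → π) (n0 : ℕ), Lv f R M.L N n0 T ∧ Group.FG π

/-- [THM] (uses `CPD.St_E4`, `SPD.St_W2`, `SPD.St_W9`, `SPD.St_K3`, `SPD.St_FIN`, FGI, FPN) The theorem.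

Proof. `G` finite: as in `SPD.FIN`. `G` infinite: `PDM G` (E4), `L` with `Base f R L` (W2), `M : Pk G` with
`M.L = L` (K3), `StrongSemistable` (W9); FPN, FGI give `FGAtInfinity f R`; `SPD.St_FIN`. -/
def St_THM : Prop := ∀ (G : Type) [Group G], IsOrientablePD3 G →
  ∀ (α : Type) [Finite α] (f : α → G) (R : Set (List (α × Bool))), R.Finite →
    IsPresentation f R → SemistableAtInfinity f R → OneConnectedAtInfinity f R

end Pool.Agent.SFG
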