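import Pool.Agent.SFG.StR

/-!
# [TC] Finitely many connected cuts of bounded size contain a given edge
-/

set_option autoImplicit false

namespace Pool.Agent.SFG

/-- The relation given by the edges in `X`. -/
private def TC_R {V ι : Type} (a b : ι → V) (X : Set ι) (u v : V) : Prop :=
  ∃ i ∈ X, a i = u ∧ b i = v

/-- Connected points are separated by an edge of a finite set. -/
private theorem TC_path {V ι : Type} (a b : ι → V) (X : Set ι) (u v : V)
    (h : Relation.EqvGen (TC_R a b X) u v) :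
    ∃ Y : Set ι, Y ⊆ X ∧ Y.Finite ∧
      ∀ F : Set V, (∀ i ∈ Y, ¬ Cut a b F i) → (u ∈ F ↔ v ∈ F) := by
  induction h with
  | rel x y hxy =>
    obtain ⟨i, hi, rfl, rfl⟩ := hxy
    refine ⟨{i}, by simpa using hi, Set.finite_singleton i, fun F hF => ?_⟩
    have := hF i rfl
    unfold Cut at this
    exact not_not.mp this
  | refl x => exact ⟨∅, Set.empty_subset _, Set.finite_empty, fun F _ => Iff.rfl⟩
  | symm x y _ ih =>
    obtain ⟨Y, h1, h2, h3⟩ := ih
    exact ⟨Y, h1, h2, fun F hF => (h3 F hF).symm⟩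
  | trans x y z _ _ ih1 ih2 =>
    obtain ⟨Y, h1, h2, h3⟩ := ih1
    obtain ⟨Z, g1, g2, g3⟩ := ih2
    refine ⟨Y ∪ Z, Set.union_subset h1 g1, h2.union g2, fun F hF => ?_⟩
    exact (h3 F fun i hi => hF i (Or.inl hi)).trans (g3 F fun i hi => hF i (Or.inr hi))

/-- Connectedness does not see an edge which is cut. -/
private theorem TC_con {V ι : Type} (a b : ι → V) (X : Set ι) (e : ι) (E : Set V)
    (he : ¬ (a e ∈ E ∧ b e ∈ E)) (h : ConE a b X E) : ConE a b (X \ {e}) E := by
  intro F hF hne hcl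
  refine h F hF hne fun i hi h1 h2 => hcl i ⟨hi, ?_⟩ h1 h2
  rintro rfl
  exact he ⟨h1, h2⟩

/-- A connected set is contained in the class of one of its points. -/
private theorem TC_cls {V ι : Type} (a b : ι → V) (X : Set ι) (E : Set V)
    (h : ConE a b X E) (x : V) (hx : x ∈ E) :
    E ⊆ {y | Relation.EqvGen (TC_R a b X) x y} := by
  have key : {y | Relation.EqvGen (TC_R a b X) x y} ∩ E = E := by
    refine h _ Set.inter_subset_right ⟨x, Relation.EqvGen.refl x, hx⟩ fun i hi h1 h2 => ?_
    have hR : Relation.EqvGen (TC_R a b X) (a i) (b i) := Relation.EqvGen.rel _ _ ⟨i, hi, rfl, rfl⟩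
    constructor
    · rintro ⟨g1, -⟩
      exact ⟨Relation.EqvGen.trans _ _ _ g1 hR, h2⟩
    · rintro ⟨g1, -⟩
      exact ⟨Relation.EqvGen.trans _ _ _ g1 (Relation.EqvGen.symm _ _ hR), h1⟩
  intro y hy
  rw [← key] at hy
  exact hy.1

/-- [TC] Finitely many connected cuts of bounded size contain a given edge. -/
theorem TC : St_TC := by
  intro V ι a b k
  induction k with
  | zero =>
    intro X e he
    refine Set.finite_empty.subset ?_
    rintro E ⟨-, -, hc, hf, hn⟩
    have h0 : {i | i ∈ X ∧ Cut a b E i} = ∅ := (Set.ncard_eq_zero hf).mp (Nat.le_zero.mp hn)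
    have : e ∈ {i | i ∈ X ∧ Cut a b E i} := ⟨he, hc⟩
    rw [h0] at this
    exact this
  | succ k ih =>
    intro X e he
    by_cases hC : Relation.EqvGen (TC_R a b (X \ {e})) (a e) (b e)
    · obtain ⟨Y, hY, hYf, hYs⟩ := TC_path a b (X \ {e}) (a e) (b e) hC
      refine (hYf.biUnion fun y hy => ih (X \ {e}) y (hY hy)).subset ?_
      rintro E ⟨h1, h2, hc, hf, hn⟩
      have hcut : ∃ y ∈ Y, Cut a b E y := by
        by_contra hno
        push Not at hno
        exact hc (hYs E hno)
      obtain ⟨y, hy, hcy⟩ := hcut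
      have hsub : {i | i ∈ X \ {e} ∧ Cut a b E i} ⊆ {i | i ∈ X ∧ Cut a b E i} :=
        fun i hi => ⟨hi.1.1, hi.2⟩
      have hlt : {i | i ∈ X \ {e} ∧ Cut a b E i}.ncard < {i | i ∈ X ∧ Cut a b E i}.ncard := by
        refine Set.ncard_lt_ncard ⟨hsub, fun hh => ?_⟩ hf
        exact (hh (show e ∈ {i | i ∈ X ∧ Cut a b E i} from ⟨he, hc⟩)).1.2 rfl
      simp only [Set.mem_iUnion]
      refine ⟨y, hy, TC_con a b X e E (fun h => hc ⟨fun _ => h.2, fun _ => h.1⟩) h1,
        TC_con a b X e Eᶜ (fun h => hc ⟨fun g => absurd g h.1, fun g => absurd g h.2⟩) h2,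
        hcy, hf.subset hsub, by omega⟩
    · refine (Set.toFinite {{y | Relation.EqvGen (TC_R a b (X \ {e})) (a e) y},
        {y | Relation.EqvGen (TC_R a b (X \ {e})) (b e) y}}).subset ?_
      rintro E ⟨h1, h2, hc, hf, hn⟩
      have g1 := TC_con a b X e E (fun h => hc ⟨fun _ => h.2, fun _ => h.1⟩) h1
      have g2 := TC_con a b X e Eᶜ (fun h => hc ⟨fun g => absurd g h.1, fun g => absurd g h.2⟩) h2
      have disj : ∀ y, Relation.EqvGen (TC_R a b (X \ {e})) (a e) y →
          Relation.EqvGen (TC_R a b (X \ {e})) (b e) y → False := fun y p q =>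
        hC (Relation.EqvGen.trans _ _ _ p (Relation.EqvGen.symm _ _ q))
      by_cases hae : a e ∈ E
      · have hbe : b e ∈ Eᶜ := fun hb => hc ⟨fun _ => hb, fun _ => hae⟩
        have k1 := TC_cls a b _ E g1 (a e) hae
        have k2 := TC_cls a b _ Eᶜ g2 (b e) hbe
        left
        refine Set.Subset.antisymm k1 fun y hy => ?_
        by_contra hyE
        exact disj y hy (k2 hyE)
      · have hbe : b e ∈ E := by
          by_contra hb
          exact hc ⟨fun h => absurd h hae, fun h => absurd h hb⟩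
        have k1 := TC_cls a b _ E g1 (b e) hbe
        have k2 := TC_cls a b _ Eᶜ g2 (a e) hae
        right
        refine Set.Subset.antisymm k1 fun y hy => ?_
        by_contra hyE
        exact disj y (k2 hyE) hy

end Pool.Agent.SFG
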